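import Mathlib

/-! A countably compact Hausdorff group is a dense subgroup of a compact Hausdorff group. -/

set_option autoImplicit false

namespace Pool.Agent.H567Z

open Filter Topology Uniformity

universe u

theorem add_of_left_right {β : Type u} [UniformSpace β] [AddGroup β] [IsLeftUniformAddGroup β]
    [IsRightUniformAddGroup β] : IsUniformAddGroup β where
  uniformContinuous_sub := by
    let φ : (β × β) × (β × β) → β := fun ⟨⟨x₁, x₂⟩, ⟨y₁, y₂⟩⟩ ↦ x₂ + -y₂ + y₁ + -x₁
    let ψ : (β × β) × (β × β) → β := fun ⟨⟨x₁, x₂⟩, ⟨y₁, y₂⟩⟩ ↦ (-x₁ + x₂) + (-y₂ + y₁)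
    let g : (β × β) × (β × β) → β := fun ⟨⟨x₁, x₂⟩, ⟨y₁, y₂⟩⟩ ↦ x₁
    suffices Tendsto φ (𝓤 β ×ˢ 𝓤 β) (𝓝 0) by
      rw [UniformContinuous, uniformity_eq_comap_add_neg_nhds_zero β, tendsto_comap_iff,
        uniformity_prod_eq_prod, tendsto_map'_iff]
      simpa [Function.comp_def, sub_eq_add_neg, ← add_assoc]
    have φ_ψ_conj : φ = g + ψ + -g := by
      ext
      simp [φ, ψ, g, add_assoc]
    have ψ_tendsto : Tendsto ψ (𝓤 β ×ˢ 𝓤 β) (𝓝 0) := by
      rw [← zero_add 0]
      refine .add ?_ ?_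
      · rw [uniformity_eq_comap_neg_add_nhds_zero]
        exact tendsto_comap.comp tendsto_fst
      · rw [uniformity_eq_comap_neg_add_nhds_zero_swapped]
        exact tendsto_comap.comp tendsto_snd
    exact φ_ψ_conj ▸ ψ_tendsto.addConj_nhds_zero g

section Add

variable {A : Type u} [AddGroup A] [TopologicalSpace A] [IsTopologicalAddGroup A]

theorem precompact_left [CountablyCompactSpace A] {U : Set A} (hU : U ∈ 𝓝 (0 : A)) :
    ∃ F : Finset A, ∀ x, ∃ f ∈ F, -f + x ∈ U := by
  by_contra hcon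
  push Not at hcon
  obtain ⟨x, -, hx⟩ := exists_seq_of_forall_finset_exists (fun _ : A => True)
    (fun a b => -a + b ∉ U) (fun s _ => by
      obtain ⟨y, hy⟩ := hcon s
      exact ⟨y, trivial, hy⟩)
  obtain ⟨a, -, ha⟩ := (CountablyCompactSpace.isCountablyCompact_univ (E := A)).seq_clusterPt x
    (Eventually.of_forall fun _ => trivial)
  have hc : Continuous (fun p : A × A => -p.1 + p.2) := by fun_prop
  have h1 : (fun p : A × A => -p.1 + p.2) ⁻¹' U ∈ 𝓝 (a, a) := by
    apply hc.continuousAt.preimage_mem_nhds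
    simpa using hU
  obtain ⟨V, hV, W, hW, hVW⟩ := mem_nhds_prod_iff.1 h1
  have h2 : ∃ᶠ n in atTop, x n ∈ V ∩ W := ha.frequently (inter_mem hV hW)
  obtain ⟨m, hm⟩ := h2.exists
  obtain ⟨n, hn, hn2⟩ := frequently_atTop.1 h2 (m + 1)
  exact hx m n (by omega) (hVW (Set.mk_mem_prod hm.1 hn2.2))

theorem sin_of_cc [CountablyCompactSpace A] {U : Set A} (hU : U ∈ 𝓝 (0 : A)) :
    ∃ V ∈ 𝓝 (0 : A), ∀ g : A, ∀ v ∈ V, -g + v + g ∈ U := by
  have hc : Continuous (fun p : A × A × A => -p.1 + p.2.1 + p.2.2) := by fun_prop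
  have h1 : (fun p : A × A × A => -p.1 + p.2.1 + p.2.2) ⁻¹' U ∈ 𝓝 ((0 : A), (0 : A), (0 : A)) := by
    apply hc.continuousAt.preimage_mem_nhds
    simpa using hU
  obtain ⟨W1, hW1, W', hW', h2⟩ := mem_nhds_prod_iff.1 h1
  obtain ⟨W2, hW2, W3, hW3, h3⟩ := mem_nhds_prod_iff.1 hW'
  obtain ⟨F, hF⟩ := precompact_left (inter_mem hW1 hW3)
  refine ⟨⋂ f ∈ F, (fun v => -f + v + f) ⁻¹' W2, ?_, ?_⟩
  · rw [Filter.biInter_finset_mem]
    intro f _
    have hcf : Continuous (fun v : A => -f + v + f) := by fun_prop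
    apply hcf.continuousAt.preimage_mem_nhds
    simpa using hW2
  · intro g v hv
    obtain ⟨f, hf, hw⟩ := hF g
    have hv' : -f + v + f ∈ W2 := by
      have := Set.mem_iInter₂.1 hv f hf
      exact this
    have h4 : ((-f + g), (-f + v + f), (-f + g)) ∈
        (fun p : A × A × A => -p.1 + p.2.1 + p.2.2) ⁻¹' U :=
      h2 (Set.mk_mem_prod hw.1 (h3 (Set.mk_mem_prod hv' hw.2)))
    have e : -(-f + g) + (-f + v + f) + (-f + g) = -g + v + g := by
      simp only [neg_add_rev, neg_neg, add_assoc, add_neg_cancel_left]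
    have h5 : -(-f + g) + (-f + v + f) + (-f + g) ∈ U := h4
    rwa [e] at h5

theorem exists_compactification_add [T2Space A] [CountablyCompactSpace A] :
    ∃ (K : Type u) (_ : AddGroup K) (_ : TopologicalSpace K) (_ : IsTopologicalAddGroup K)
      (_ : CompactSpace K) (_ : T2Space K) (ι : A →+ K), IsEmbedding ι ∧ DenseRange ι := by
  let uA : UniformSpace A := IsTopologicalAddGroup.rightUniformSpace A
  have hR : IsRightUniformAddGroup A := ⟨rfl⟩
  have hL : IsLeftUniformAddGroup A := by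
    refine ⟨?_⟩
    rw [IsRightUniformAddGroup.uniformity_eq]
    apply le_antisymm
    · intro s hs
      obtain ⟨U, hU, hUs⟩ := hs
      obtain ⟨V, hV, hV2⟩ := sin_of_cc hU
      refine ⟨V, hV, fun p hp => hUs ?_⟩
      have h1 := hV2 p.1 _ hp
      have e : -p.1 + (p.2 + -p.1) + p.1 = -p.1 + p.2 := by
        simp only [add_assoc, neg_add_cancel, add_zero]
      show -p.1 + p.2 ∈ U
      rw [← e]
      exact h1
    · intro s hs
      obtain ⟨U, hU, hUs⟩ := hs
      obtain ⟨V, hV, hV2⟩ := sin_of_cc hU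
      refine ⟨V, hV, fun p hp => hUs ?_⟩
      have h1 := hV2 (-p.1) _ hp
      have e : - -p.1 + (-p.1 + p.2) + -p.1 = p.2 + -p.1 := by
        simp only [neg_neg, add_neg_cancel_left]
      show p.2 + -p.1 ∈ U
      rw [← e]
      exact h1
  have hU : IsUniformAddGroup A := add_of_left_right
  have htb : TotallyBounded (Set.univ : Set A) := by
    intro s hs
    rw [uniformity_eq_comap_neg_add_nhds_zero_swapped] at hs
    obtain ⟨U, hU, hUs⟩ := hs
    obtain ⟨F, hF⟩ := precompact_left hU
    refine ⟨F, F.finite_toSet, fun x _ => ?_⟩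
    obtain ⟨f, hf, hx⟩ := hF x
    exact Set.mem_biUnion hf (hUs hx)
  have hcomp : CompactSpace (UniformSpace.Completion A) := by
    refine ⟨?_⟩
    rw [isCompact_iff_totallyBounded_isComplete]
    refine ⟨?_, isComplete_univ⟩
    have h1 := (htb.image (UniformSpace.Completion.uniformContinuous_coe A)).closure
    rw [Set.image_univ, UniformSpace.Completion.denseRange_coe.closure_range] at h1
    exact h1
  refine ⟨UniformSpace.Completion A, inferInstance, inferInstance, inferInstance, hcomp,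
    inferInstance, UniformSpace.Completion.toCompl, ?_, UniformSpace.Completion.denseRange_coe⟩
  exact (UniformSpace.Completion.isUniformEmbedding_coe A).isEmbedding

end Add

theorem exists_compactification (G : Type u) [Group G] [TopologicalSpace G] [IsTopologicalGroup G]
    [T2Space G] [CountablyCompactSpace G] :
    ∃ (K : Type u) (_ : Group K) (_ : TopologicalSpace K) (_ : IsTopologicalGroup K)
      (_ : CompactSpace K) (_ : T2Space K) (ι : G →* K), IsEmbedding ι ∧ DenseRange ι := by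
  have : T2Space (Additive G) := ‹T2Space G›
  have : CountablyCompactSpace (Additive G) := ‹CountablyCompactSpace G›
  obtain ⟨K, i1, i2, i3, i4, i5, ι, h1, h2⟩ := exists_compactification_add (A := Additive G)
  exact ⟨Multiplicative K, inferInstance, inferInstance, inferInstance, inferInstance,
    (i5 : T2Space K), AddMonoidHom.toMultiplicativeRight ι, h1, h2⟩

end Pool.Agent.H567Z
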