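import Mathlib
import Pool.Agent.H567Z.Compl

/-! A pseudocompact Hausdorff group is a dense subgroup of a compact Hausdorff group. -/

set_option autoImplicit false

namespace Pool.Agent.H567Z

open Filter Topology Uniformity

universe u

theorem pc_cluster {X : Type u} [TopologicalSpace X] [CompletelyRegularSpace X]
    (hX : ∀ f : X → ℝ, Continuous f → ∃ M : ℝ, ∀ x, |f x| ≤ M)
    (U : ℕ → Set X) (hU : ∀ n, IsOpen (U n)) (hne : ∀ n, (U n).Nonempty) :
    ∃ x, ∀ W ∈ 𝓝 x, {n | (U n ∩ W).Nonempty}.Infinite := by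
  classical
  by_contra hcon
  push Not at hcon
  choose p hp using hne
  have hg : ∀ n, ∃ g : X → ℝ, Continuous g ∧ (∀ x, 0 ≤ g x) ∧ g (p n) = 1 ∧
      ∀ x ∉ U n, g x = 0 := by
    intro n
    obtain ⟨f, hf, hf0, hf1⟩ := CompletelyRegularSpace.completely_regular (p n) (U n)ᶜ
      (hU n).isClosed_compl (by simpa using hp n)
    refine ⟨fun x => 1 - (f x : ℝ), continuous_const.sub (continuous_subtype_val.comp hf),
      ?_, ?_, ?_⟩
    · intro x
      have := (f x).2.2
      linarith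
    · show 1 - ((f (p n) : unitInterval) : ℝ) = 1
      rw [hf0]; simp
    · intro x hx
      show 1 - ((f x : unitInterval) : ℝ) = 0
      rw [hf1 hx]; simp
  choose g hgc hg0 hg1 hgz using hg
  have hlf : LocallyFinite fun n : ℕ => Function.support fun x => (n : ℝ) * g n x := by
    intro x
    obtain ⟨W, hW, hfin⟩ := hcon x
    refine ⟨W, hW, (Set.not_infinite.1 (by simpa using hfin)).subset ?_⟩
    rintro n ⟨z, hz, hzW⟩
    refine ⟨z, ?_, hzW⟩
    by_contra hzU
    apply hz
    show (n : ℝ) * g n z = 0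
    rw [hgz n z hzU, mul_zero]
  have hF : Continuous fun x => ∑ᶠ n : ℕ, (n : ℝ) * g n x :=
    continuous_finsum (fun n => continuous_const.mul (hgc n)) hlf
  obtain ⟨M, hM⟩ := hX _ hF
  obtain ⟨n, hn⟩ := exists_nat_gt M
  have h1 : (n : ℝ) * g n (p n) ≤ ∑ᶠ m : ℕ, (m : ℝ) * g m (p n) :=
    single_le_finsum (f := fun m : ℕ => (m : ℝ) * g m (p n)) n
      ((hlf.point_finite (p n)).subset fun m hm => hm)
      (fun m => mul_nonneg (Nat.cast_nonneg _) (hg0 m _))
  have h2 := (le_abs_self _).trans (hM (p n))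
  rw [hg1, mul_one] at h1
  linarith

/-- finitely many left translates of any neighbourhood of zero cover the group -/
def PreA (A : Type u) [AddGroup A] [TopologicalSpace A] : Prop :=
  ∀ U ∈ 𝓝 (0 : A), ∃ F : Finset A, ∀ x, ∃ f ∈ F, -f + x ∈ U

section Add

variable {A : Type u} [AddGroup A] [TopologicalSpace A] [IsTopologicalAddGroup A]

theorem preA_of_pc (hX : ∀ f : A → ℝ, Continuous f → ∃ M : ℝ, ∀ x, |f x| ≤ M) : PreA A := by
  intro U hU
  by_contra hcon
  push Not at hcon
  obtain ⟨x, -, hx⟩ := exists_seq_of_forall_finset_exists (fun _ : A => True)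
    (fun a b => -a + b ∉ U) (fun s _ => by
      obtain ⟨y, hy⟩ := hcon s
      exact ⟨y, trivial, hy⟩)
  have hc : Continuous (fun p : (A × A) × (A × A) => p.1.1 + -p.1.2 + p.2.1 + -p.2.2) := by
    fun_prop
  have h1 : (fun p : (A × A) × (A × A) => p.1.1 + -p.1.2 + p.2.1 + -p.2.2) ⁻¹' U ∈
      𝓝 (((0 : A), (0 : A)), ((0 : A), (0 : A))) := by
    apply hc.continuousAt.preimage_mem_nhds
    simpa using hU
  obtain ⟨W1, hW1, W2, hW2, h2⟩ := mem_nhds_prod_iff.1 h1
  obtain ⟨V1, hV1, V2, hV2, h3⟩ := mem_nhds_prod_iff.1 hW1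
  obtain ⟨V3, hV3, V4, hV4, h4⟩ := mem_nhds_prod_iff.1 hW2
  obtain ⟨V, hVs, hVo, hV0⟩ := mem_nhds_iff.1 (inter_mem (inter_mem hV1 hV2) (inter_mem hV3 hV4))
  have hCR : CompletelyRegularSpace A := by
    let uA : UniformSpace A := IsTopologicalAddGroup.rightUniformSpace A
    exact UniformSpace.toCompletelyRegularSpace
  obtain ⟨a, ha⟩ := pc_cluster hX (fun n => (fun y => -x n + y) ⁻¹' V)
    (fun n => hVo.preimage (by fun_prop)) (fun n => ⟨x n, by simpa using hV0⟩)
  have h5 := ha ((fun y => -a + y) ⁻¹' V) (by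
    apply IsOpen.mem_nhds (hVo.preimage (by fun_prop))
    simpa using hV0)
  obtain ⟨m, y, hy1, hy2⟩ := h5.nonempty
  obtain ⟨n, ⟨z, hz1, hz2⟩, hmn⟩ := h5.exists_gt m
  apply hx m n hmn
  have h6 : (((-x m + y), (-a + y)), ((-a + z), (-x n + z))) ∈
      (fun p : (A × A) × (A × A) => p.1.1 + -p.1.2 + p.2.1 + -p.2.2) ⁻¹' U :=
    h2 (Set.mk_mem_prod (h3 (Set.mk_mem_prod (hVs hy1).1.1 (hVs hy2).1.2))
      (h4 (Set.mk_mem_prod (hVs hz2).2.1 (hVs hz1).2.2)))
  have e : (-x m + y) + -(-a + y) + (-a + z) + -(-x n + z) = -x m + x n := by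
    simp only [neg_add_rev, neg_neg, add_assoc, add_neg_cancel_left]
  have h7 : (-x m + y) + -(-a + y) + (-a + z) + -(-x n + z) ∈ U := h6
  rwa [e] at h7

theorem sin_of_pre (hpre : PreA A) {U : Set A} (hU : U ∈ 𝓝 (0 : A)) :
    ∃ V ∈ 𝓝 (0 : A), ∀ g : A, ∀ v ∈ V, -g + v + g ∈ U := by
  have hc : Continuous (fun p : A × A × A => -p.1 + p.2.1 + p.2.2) := by fun_prop
  have h1 : (fun p : A × A × A => -p.1 + p.2.1 + p.2.2) ⁻¹' U ∈ 𝓝 ((0 : A), (0 : A), (0 : A)) := by
    apply hc.continuousAt.preimage_mem_nhds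
    simpa using hU
  obtain ⟨W1, hW1, W', hW', h2⟩ := mem_nhds_prod_iff.1 h1
  obtain ⟨W2, hW2, W3, hW3, h3⟩ := mem_nhds_prod_iff.1 hW'
  obtain ⟨F, hF⟩ := hpre _ (inter_mem hW1 hW3)
  refine ⟨⋂ f ∈ F, (fun v => -f + v + f) ⁻¹' W2, ?_, ?_⟩
  · rw [Filter.biInter_finset_mem]
    intro f _
    have hcf : Continuous (fun v : A => -f + v + f) := by fun_prop
    apply hcf.continuousAt.preimage_mem_nhds
    simpa using hW2
  · intro g v hv
    obtain ⟨f, hf, hw⟩ := hF g
    have hv' : -f + v + f ∈ W2 := by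
      have := Set.mem_iInter₂.1 hv f hf
      exact this
    have h4 : ((-f + g), (-f + v + f), (-f + g)) ∈
        (fun p : A × A × A => -p.1 + p.2.1 + p.2.2) ⁻¹' U :=
      h2 (Set.mk_mem_prod hw.1 (h3 (Set.mk_mem_prod hv' hw.2)))
    have e : -(-f + g) + (-f + v + f) + (-f + g) = -g + v + g := by
      simp only [neg_add_rev, neg_neg, add_assoc, add_neg_cancel_left]
    have h5 : -(-f + g) + (-f + v + f) + (-f + g) ∈ U := h4
    rwa [e] at h5

theorem exists_compactification_pre [T2Space A] (hpre : PreA A) :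
    ∃ (K : Type u) (_ : AddGroup K) (_ : TopologicalSpace K) (_ : IsTopologicalAddGroup K)
      (_ : CompactSpace K) (_ : T2Space K) (ι : A →+ K), IsEmbedding ι ∧ DenseRange ι := by
  let uA : UniformSpace A := IsTopologicalAddGroup.rightUniformSpace A
  have hR : IsRightUniformAddGroup A := ⟨rfl⟩
  have hL : IsLeftUniformAddGroup A := by
    refine ⟨?_⟩
    rw [IsRightUniformAddGroup.uniformity_eq]
    apply le_antisymm
    · intro s hs
      obtain ⟨U, hU, hUs⟩ := hs
      obtain ⟨V, hV, hV2⟩ := sin_of_pre hpre hU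
      refine ⟨V, hV, fun p hp => hUs ?_⟩
      have h1 := hV2 p.1 _ hp
      have e : -p.1 + (p.2 + -p.1) + p.1 = -p.1 + p.2 := by
        simp only [add_assoc, neg_add_cancel, add_zero]
      show -p.1 + p.2 ∈ U
      rw [← e]
      exact h1
    · intro s hs
      obtain ⟨U, hU, hUs⟩ := hs
      obtain ⟨V, hV, hV2⟩ := sin_of_pre hpre hU
      refine ⟨V, hV, fun p hp => hUs ?_⟩
      have h1 := hV2 (-p.1) _ hp
      have e : - -p.1 + (-p.1 + p.2) + -p.1 = p.2 + -p.1 := by
        simp only [neg_neg, add_neg_cancel_left]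
      show p.2 + -p.1 ∈ U
      rw [← e]
      exact h1
  have hU : IsUniformAddGroup A := add_of_left_right
  have htb : TotallyBounded (Set.univ : Set A) := by
    intro s hs
    rw [uniformity_eq_comap_neg_add_nhds_zero_swapped] at hs
    obtain ⟨U, hU, hUs⟩ := hs
    obtain ⟨F, hF⟩ := hpre _ hU
    refine ⟨F, F.finite_toSet, fun x _ => ?_⟩
    obtain ⟨f, hf, hx⟩ := hF x
    exact Set.mem_biUnion hf (hUs hx)
  have hcomp : CompactSpace (UniformSpace.Completion A) := by
    refine ⟨?_⟩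
    rw [isCompact_iff_totallyBounded_isComplete]
    refine ⟨?_, isComplete_univ⟩
    have h1 := (htb.image (UniformSpace.Completion.uniformContinuous_coe A)).closure
    rw [Set.image_univ, UniformSpace.Completion.denseRange_coe.closure_range] at h1
    exact h1
  refine ⟨UniformSpace.Completion A, inferInstance, inferInstance, inferInstance, hcomp,
    inferInstance, UniformSpace.Completion.toCompl, ?_, UniformSpace.Completion.denseRange_coe⟩
  exact (UniformSpace.Completion.isUniformEmbedding_coe A).isEmbedding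

end Add

theorem exists_compactification_pc (G : Type u) [Group G] [TopologicalSpace G]
    [IsTopologicalGroup G] [T2Space G]
    (hX : ∀ f : G → ℝ, Continuous f → ∃ M : ℝ, ∀ x, |f x| ≤ M) :
    ∃ (K : Type u) (_ : Group K) (_ : TopologicalSpace K) (_ : IsTopologicalGroup K)
      (_ : CompactSpace K) (_ : T2Space K) (ι : G →* K), IsEmbedding ι ∧ DenseRange ι := by
  have : T2Space (Additive G) := ‹T2Space G›
  obtain ⟨K, i1, i2, i3, i4, i5, ι, h1, h2⟩ :=
    exists_compactification_pre (A := Additive G) (preA_of_pc hX)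
  exact ⟨Multiplicative K, inferInstance, inferInstance, inferInstance, inferInstance,
    (i5 : T2Space K), AddMonoidHom.toMultiplicativeRight ι, h1, h2⟩

/-- a continuous map of a pseudocompact space to a metric space has closed range -/
theorem closed_range_of_pc {X : Type u} [TopologicalSpace X]
    (hX : ∀ f : X → ℝ, Continuous f → ∃ M : ℝ, ∀ x, |f x| ≤ M) {Y : Type} [MetricSpace Y]
    (f : X → Y) (hf : Continuous f) : IsClosed (Set.range f) := by
  apply isClosed_of_closure_subset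
  intro y hy
  by_contra hne
  have hpos : ∀ x, 0 < dist (f x) y := fun x => dist_pos.2 fun h => hne ⟨x, h⟩
  obtain ⟨M, hM⟩ := hX (fun x => (dist (f x) y)⁻¹)
    ((hf.dist continuous_const).inv₀ fun x => (hpos x).ne')
  have hM1 : 0 < |M| + 1 := by positivity
  obtain ⟨_, ⟨x, rfl⟩, hx⟩ := Metric.mem_closure_iff.1 hy (|M| + 1)⁻¹ (inv_pos.2 hM1)
  rw [dist_comm] at hx
  have h1 : |M| + 1 < (dist (f x) y)⁻¹ := (lt_inv_comm₀ hM1 (hpos x)).2 hx
  have h2 := (le_abs_self _).trans (hM x)
  have h3 := le_abs_self M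
  linarith

/-- a countably compact space is pseudocompact -/
theorem pc_of_cc {X : Type u} [TopologicalSpace X] [CountablyCompactSpace X]
    (f : X → ℝ) (hf : Continuous f) : ∃ M : ℝ, ∀ x, |f x| ≤ M := by
  have h1 : IsCountablyCompact (f '' Set.univ) :=
    (CountablyCompactSpace.isCountablyCompact_univ (E := X)).image hf
  have h2 := h1.isSeqCompact.isCompact.isBounded
  obtain ⟨M, hM⟩ := isBounded_iff_forall_norm_le.1 h2
  exact ⟨M, fun x => hM _ ⟨x, trivial, rfl⟩⟩

end Pool.Agent.H567Z
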