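import Mathlib

/-! A large abelian group maps onto a large direct sum of copies of one cocyclic group. -/

set_option autoImplicit false

namespace Pool.Agent.H567Z.Alg

open Cardinal

universe u

section Card

variable {lam : Cardinal.{u}}

theorem card_biUnion (h0 : ℵ₀ ≤ lam) {ι α : Type u} (A : ι → Set α) {s : Set ι} (hs : #s ≤ lam)
    (hA : ∀ i ∈ s, #(A i) ≤ lam) : #(⋃ i ∈ s, A i) ≤ lam := by
  refine (mk_biUnion_le A s).trans ?_
  refine (mul_le_mul' hs (ciSup_le' fun i : s => hA i.1 i.2)).trans ?_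
  rw [mul_eq_self h0]

theorem card_iUnion_nat (h0 : ℵ₀ ≤ lam) {α : Type u} (A : ℕ → Set α)
    (hA : ∀ n, #(A n) ≤ lam) : #(⋃ n, A n) ≤ lam := by
  have h1 := mk_iUnion_le_lift A
  simp only [lift_uzero, mk_nat, lift_aleph0] at h1
  refine h1.trans ((mul_le_mul' h0 (ciSup_le' hA)).trans ?_)
  rw [mul_eq_self h0]

theorem card_span (h0 : ℵ₀ ≤ lam) {X : Type u} [AddCommGroup X] {M : Set X} (hM : #M ≤ lam) :
    #(Submodule.span ℤ M) ≤ lam := by
  rcases M.eq_empty_or_nonempty with rfl | hne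
  · rw [Submodule.span_empty, mk_eq_one]
    exact one_le_aleph0.trans h0
  · have := hne.to_subtype
    have h1 : Set.range (Finsupp.linearCombination ℤ (Subtype.val : M → X)) =
        (Submodule.span ℤ M : Set X) := by
      rw [← LinearMap.coe_range, Finsupp.range_linearCombination, Subtype.range_coe]
    have h2 := mk_range_le (f := Finsupp.linearCombination ℤ (Subtype.val : M → X))
    rw [h1, mk_finsupp_lift_of_infinite'] at h2
    simp only [lift_uzero, mk_int, lift_aleph0] at h2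
    exact h2.trans (max_le hM h0)

theorem card_preimage (h0 : ℵ₀ ≤ lam) {X : Type u} [AddCommGroup X] (n : ℕ) {S : Set X}
    (hS : #S ≤ lam) (hn : #{x : X | n • x = 0} ≤ lam) : #{x : X | n • x ∈ S} ≤ lam := by
  have h1 : {x : X | n • x ∈ S} = ⋃ s ∈ S, {x : X | n • x = s} := by
    ext x
    simp
  rw [h1]
  refine card_biUnion h0 _ hS fun s _ => ?_
  rcases ({x : X | n • x = s}).eq_empty_or_nonempty with h | ⟨y, hy⟩
  · rw [h, mk_eq_zero]
    exact zero_le
  · refine le_trans (mk_le_mk_of_subset (t := (fun x => x + y) '' {x : X | n • x = 0}) ?_)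
      (mk_image_le.trans hn)
    intro x hx
    refine ⟨x - y, ?_, sub_add_cancel x y⟩
    show n • (x - y) = 0
    rw [smul_sub, hx, hy, sub_self]

end Card

section Good

variable {X : Type u} [AddCommGroup X]

/-- all relations among the elements of `M` have coefficients divisible by `p` -/
def Good (p : ℕ) (M : Set X) : Prop :=
  ∀ c : X →₀ ℤ, (c.support : Set X) ⊆ M → Finsupp.linearCombination ℤ id c = 0 →
    ∀ x, (p : ℤ) ∣ c x

theorem exists_max {p : ℕ} (hp : p.Prime) :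
    ∃ M : Set X, Good p M ∧ (∀ x, ∃ n : ℕ, n ≠ 0 ∧ n • x ∈ Submodule.span ℤ M) ∧
      ∀ x, p • x = 0 → x ∈ Submodule.span ℤ M := by
  classical
  obtain ⟨M, -, hM⟩ := zorn_subset_nonempty {M : Set X | Good p M} (fun c hc hch hne =>
    ⟨⋃₀ c, fun d hd h1 => by
      obtain ⟨t, ht, h2⟩ := hch.directedOn.exists_mem_subset_of_finite_of_subset_sUnion hne
        d.support.finite_toSet hd
      exact hc ht d h2 h1, fun s hs => Set.subset_sUnion_of_mem hs⟩) ∅ (fun c hc _ x => by
      have : x ∉ c.support := fun h => hc h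
      rw [Finsupp.notMem_support_iff.1 this]
      exact dvd_zero _)
  have key : ∀ x, x ∉ M → ∃ n : ℤ, n • x ∈ Submodule.span ℤ M ∧ (n • x = 0 → ¬ (p : ℤ) ∣ n) := by
    intro x hx
    have h1 : ¬ Good p (insert x M) := fun h =>
      hx (hM.2 h (Set.subset_insert x M) (Set.mem_insert x M))
    unfold Good at h1
    push Not at h1
    obtain ⟨c, h2, h3, y, h4⟩ := h1
    have h5 : ((c.erase x).support : Set X) ⊆ M := by
      intro z hz
      rw [Finsupp.support_erase, Finset.coe_erase] at hz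
      exact (h2 hz.1).resolve_left hz.2
    have h6 : Finsupp.linearCombination ℤ id (c.erase x) + c x • x = 0 := by
      rw [← h3]
      conv_rhs => rw [← Finsupp.erase_add_single x c]
      rw [map_add, Finsupp.linearCombination_single, id]
    refine ⟨c x, ?_, fun h7 h8 => ?_⟩
    · rw [eq_neg_of_add_eq_zero_right h6]
      apply neg_mem
      have h9 := (Finsupp.mem_span_image_iff_linearCombination ℤ (v := id) (s := M)).2
        ⟨c.erase x, h5, rfl⟩
      rwa [Set.image_id] at h9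
    · rw [h7, add_zero] at h6
      have h9 := hM.1 _ h5 h6 y
      by_cases hy : y = x
      · exact h4 (hy ▸ h8)
      · rw [Finsupp.erase_ne hy] at h9
        exact h4 h9
  refine ⟨M, hM.1, fun x => ?_, fun x hx => ?_⟩
  · by_cases hx : x ∈ M
    · exact ⟨1, one_ne_zero, by rw [one_smul]; exact Submodule.subset_span hx⟩
    · obtain ⟨n, h1, h2⟩ := key x hx
      refine ⟨n.natAbs, ?_, ?_⟩
      · rw [Int.natAbs_ne_zero]
        rintro rfl
        exact h2 (zero_smul _ _) (dvd_zero _)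
      · rw [← natCast_zsmul]
        rcases Int.natAbs_eq n with h | h
        · rwa [← h]
        · rwa [h, neg_smul, neg_mem_iff] at h1
  · by_cases hxM : x ∈ M
    · exact Submodule.subset_span hxM
    · obtain ⟨n, h1, h2⟩ := key x hxM
      have hx' : (p : ℤ) • x = 0 := by rw [natCast_zsmul, hx]
      have h3 : ¬ (p : ℤ) ∣ n := by
        rintro ⟨k, rfl⟩
        exact h2 (by rw [mul_comm, mul_smul, hx', smul_zero]) (dvd_mul_right _ _)
      obtain ⟨a, b, hab⟩ := (Prime.coprime_iff_not_dvd (Nat.prime_iff_prime_int.1 hp)).2 h3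
      have h4 : x = b • n • x := by
        conv_lhs => rw [← one_smul ℤ x, ← hab, add_smul, mul_smul, mul_smul, hx', smul_zero,
          zero_add]
      rw [h4]
      exact Submodule.smul_mem _ _ h1

theorem exists_good {lam : Cardinal.{u}} (h0 : ℵ₀ ≤ lam) (hX : lam < #X) :
    ∃ p : ℕ, p.Prime ∧ ∃ M : Set X, Good p M ∧ lam < #M := by
  by_contra hcon
  push Not at hcon
  have h1 : ∀ n : ℕ, n ≠ 0 → #{x : X | n • x = 0} ≤ lam := by
    intro n
    induction n using Nat.recOnMul with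
    | zero => intro h; exact absurd rfl h
    | one =>
      intro _
      simp only [one_smul, Set.ofPred_eq_eq_singleton, mk_singleton]
      exact one_le_aleph0.trans h0
    | prime p hp =>
      intro _
      obtain ⟨M, h1, -, h2⟩ := exists_max (X := X) hp
      exact (mk_le_mk_of_subset h2).trans (card_span h0 (hcon p hp M h1))
    | mul a b ha hb =>
      intro h
      have h2 := card_preimage h0 b (ha (left_ne_zero_of_mul h)) (hb (right_ne_zero_of_mul h))
      simpa only [Set.mem_ofPred_eq, ← mul_smul] using h2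
  obtain ⟨M, h2, h3, -⟩ := exists_max (X := X) Nat.prime_two
  have h4 := card_iUnion_nat h0 (fun n : ℕ => {x : X | (n + 1) • x ∈ Submodule.span ℤ M})
    (fun n => card_preimage h0 _ (card_span h0 (hcon 2 Nat.prime_two M h2)) (h1 _ n.succ_ne_zero))
  have h5 : (⋃ n : ℕ, {x : X | (n + 1) • x ∈ Submodule.span ℤ M}) = Set.univ := by
    rw [Set.eq_univ_iff_forall]
    intro x
    obtain ⟨n, hn, hx⟩ := h3 x
    obtain ⟨k, rfl⟩ := Nat.exists_eq_succ_of_ne_zero hn
    exact Set.mem_iUnion.2 ⟨k, hx⟩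
  rw [h5, mk_univ] at h4
  exact hX.not_ge h4

theorem exists_hom {p : ℕ} {M : Set X} (hM : Good p M) {D : Type u} [AddCommGroup D]
    [DivisibleBy D ℤ] (v : X → D) (hv : ∀ x, (p : ℤ) • v x = 0) :
    ∃ q : X →+ D, ∀ x ∈ M, q x = v x := by
  let F := Finsupp.supported ℤ ℤ M
  let φ : F →ₗ[ℤ] X := (Finsupp.linearCombination ℤ id).comp F.subtype
  let ψ : F →ₗ[ℤ] D := (Finsupp.linearCombination ℤ v).comp F.subtype
  have h1 : LinearMap.ker φ ≤ LinearMap.ker ψ := by
    intro c hc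
    have h2 := hM c.1 c.2 hc
    show Finsupp.linearCombination ℤ v c.1 = 0
    rw [Finsupp.linearCombination_apply]
    refine Finset.sum_eq_zero fun x _ => ?_
    obtain ⟨k, hk⟩ := h2 x
    show c.1 x • v x = 0
    rw [hk, mul_comm, mul_smul, hv, smul_zero]
  obtain ⟨q, hq⟩ := (Module.Baer.of_divisible D).extension_property
    ((LinearMap.ker φ).liftQ φ le_rfl)
    (LinearMap.ker_eq_bot.1 (Submodule.ker_liftQ_eq_bot _ _ _ le_rfl))
    ((LinearMap.ker φ).liftQ ψ h1)
  refine ⟨q.toAddMonoidHom, fun x hx => ?_⟩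
  have h2 := LinearMap.congr_fun hq
    (Submodule.Quotient.mk ⟨Finsupp.single x 1, Finsupp.single_mem_supported ℤ 1 hx⟩)
  simpa [φ, ψ] using h2

end Good

section Circ

theorem exists_root (z : Circle) {n : ℕ} (hn : n ≠ 0) : ∃ w : Circle, w ^ n = z := by
  obtain ⟨t, rfl⟩ := Circle.exp_surjective z
  refine ⟨Circle.exp (t / n), ?_⟩
  rw [← Circle.exp_nsmul, nsmul_eq_mul, mul_div_cancel₀ _ (Nat.cast_ne_zero.2 hn)]

theorem exists_pow {p j k : ℕ} (hp : p.Prime) {z w : Circle} (h1 : z ^ p ^ j = 1)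
    (h2 : z ^ p ^ k ≠ 1) (h3 : w ^ p ^ (k + 1) = 1) : ∃ i : ℕ, z ^ i = w := by
  obtain ⟨a, -, ha⟩ := (Nat.dvd_prime_pow hp).1 (orderOf_dvd_of_pow_eq_one h1)
  have h4 : k + 1 ≤ a := by
    by_contra h
    apply h2
    rw [← orderOf_dvd_iff_pow_eq_one, ha]
    exact pow_dvd_pow _ (by omega)
  have h5 : IsPrimitiveRoot (z : ℂ) (p ^ a) := by
    have h6 := IsPrimitiveRoot.orderOf z
    rw [ha] at h6
    exact h6.map_of_injective (f := Circle.coeHom) Circle.coe_injective
  have : NeZero (p ^ a) := ⟨pow_ne_zero _ hp.ne_zero⟩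
  obtain ⟨i, -, hi⟩ := h5.eq_pow_of_pow_eq_one (ξ := (w : ℂ)) (by
    obtain ⟨b, rfl⟩ := Nat.exists_eq_add_of_le h4
    rw [← Circle.coe_pow, pow_add, pow_mul, h3, one_pow, Circle.coe_one])
  exact ⟨i, Circle.ext (by rw [Circle.coe_pow, hi])⟩

theorem exists_order {p : ℕ} (hp : p.Prime) : ∃ z : Circle, z ≠ 1 ∧ z ^ p = 1 := by
  have h1 := Complex.isPrimitiveRoot_exp p hp.ne_zero
  refine ⟨⟨_, mem_sphere_zero_iff_norm.2 (h1.norm'_eq_one hp.ne_zero)⟩, fun h => ?_,
    Circle.ext ?_⟩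
  · exact h1.ne_one hp.one_lt (congrArg Subtype.val h)
  · exact (Circle.coe_pow _ _).trans h1.pow_eq_one

/-- the circle written additively -/
abbrev T := Additive Circle

/-- the elements of the circle killed by a power of `p` -/
def P (p : ℕ) : AddSubgroup T where
  carrier := {z | ∃ k : ℕ, p ^ k • z = 0}
  zero_mem' := ⟨0, smul_zero _⟩
  add_mem' := by
    rintro a b ⟨i, hi⟩ ⟨j, hj⟩
    refine ⟨i + j, ?_⟩
    rw [smul_add, pow_add, mul_smul (p ^ i) _ b, hj, mul_comm, mul_smul, hi]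
    simp
  neg_mem' := by
    rintro a ⟨i, hi⟩
    exact ⟨i, by rw [smul_neg, hi, neg_zero]⟩

theorem root' (z : T) {n : ℕ} (hn : n ≠ 0) : ∃ w : T, n • w = z :=
  exists_root z.toMul hn

theorem pow' {p j k : ℕ} (hp : p.Prime) {z w : T} (h1 : p ^ j • z = 0)
    (h2 : p ^ k • z ≠ 0) (h3 : p ^ (k + 1) • w = 0) : ∃ i : ℕ, i • z = w :=
  exists_pow (z := z.toMul) (w := w.toMul) hp h1 h2 h3

theorem P_div {p : ℕ} (hp : p.Prime) {n : ℕ} (hn : n ≠ 0) (z : P p) : ∃ w : P p, n • w = z := by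
  induction n using Nat.recOnMul generalizing z with
  | zero => exact absurd rfl hn
  | one => exact ⟨z, one_smul _ _⟩
  | prime q hq =>
    obtain ⟨z, k, hk⟩ := z
    by_cases h : q = p
    · obtain ⟨w, hw⟩ := root' z hn
      exact ⟨⟨w, k + 1, by rw [pow_succ, mul_smul, ← h, hw, h, hk]⟩, Subtype.ext hw⟩
    · have h1 : IsCoprime ((p ^ k : ℕ) : ℤ) (q : ℤ) :=
        Nat.isCoprime_iff_coprime.2 (Nat.Coprime.pow_left k ((Nat.coprime_primes hp hq).2
          (Ne.symm h)))
      obtain ⟨a, b, hab⟩ := h1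
      refine ⟨b • ⟨z, k, hk⟩, Subtype.ext ?_⟩
      show q • b • z = z
      conv_rhs => rw [← one_smul ℤ z, ← hab, add_smul, mul_smul, natCast_zsmul, hk, smul_zero,
        zero_add, mul_comm, mul_smul, natCast_zsmul]
  | mul a b ha hb =>
    obtain ⟨w, rfl⟩ := ha (left_ne_zero_of_mul hn) z
    obtain ⟨v, rfl⟩ := hb (right_ne_zero_of_mul hn) w
    exact ⟨v, mul_smul _ _ _⟩

theorem exists_hom' {X : Type u} [AddCommGroup X] {p : ℕ} (hp : p.Prime) {M : Set X}
    (hM : Good p M) {c : T} (hc : p • c = 0) :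
    ∃ q : X →+ (M →₀ T), (∀ x β, q x β ∈ P p) ∧ ∀ β : M, q β = Finsupp.single β c := by
  classical
  let c' : P p := ⟨c, 1, by rwa [pow_one]⟩
  have : DivisibleBy (M →₀ P p) ℕ := divisibleByOfSMulRightSurj _ _ (fun {n} hn y => by
    choose r hr using P_div hp hn
    refine ⟨y.mapRange (fun z => r z - r 0) (sub_self _), ?_⟩
    ext1 β
    simp [smul_sub, hr])
  have : DivisibleBy (M →₀ P p) ℤ := AddGroup.divisibleByIntOfDivisibleByNat _
  obtain ⟨q, hq⟩ := exists_hom (D := M →₀ P p) hM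
    (fun x => if h : x ∈ M then Finsupp.single ⟨x, h⟩ c' else 0) (fun x => by
      split_ifs
      · rw [Finsupp.smul_single, natCast_zsmul, Finsupp.single_eq_zero]
        exact Subtype.ext hc
      · exact smul_zero _)
  refine ⟨(Finsupp.mapRange.addMonoidHom (P p).subtype).comp q, fun x β => (q x β).2,
    fun β => ?_⟩
  simp [hq β β.2, c']

end Circ

/-- every proper subgroup of `C` is killed by an integer that does not kill `C` -/
def Tgt (C : AddSubgroup T) : Prop :=
  (∃ c ∈ C, c ≠ 0) ∧ ∀ H : AddSubgroup T, ¬ C ≤ H →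
    ∃ m : ℕ, (∀ h ∈ C, h ∈ H → m • h = 0) ∧ ∃ c ∈ C, m • c ≠ 0

theorem exists_quot {X : Type u} [AddCommGroup X] {lam : Cardinal.{u}} (h0 : ℵ₀ ≤ lam)
    (hX : lam < #X) : ∃ (C : AddSubgroup T) (I : Type u) (q : X →+ (I →₀ T)), lam < #I ∧ Tgt C ∧
      (∀ x β, q x β ∈ C) ∧ ∀ β, ∀ c ∈ C, ∃ x, q x = Finsupp.single β c := by
  classical
  obtain ⟨p, hp, M, hM, hM2⟩ := exists_good h0 hX
  obtain ⟨c₀, hc₀, hc₁⟩ : ∃ c : T, c ≠ 0 ∧ p • c = 0 := exists_order hp
  have hgen : ∀ z : T, z ≠ 0 → p • z = 0 → ∀ c : T, p • c = 0 → ∃ i : ℕ, i • z = c :=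
    fun z h1 h2 c h3 => pow' (j := 1) (k := 0) hp (by rwa [pow_one]) (by rwa [pow_zero, one_smul])
      (by rwa [zero_add, pow_one])
  let R : AddSubgroup X := (nsmulAddMonoidHom p).range
  by_cases hq : lam < #(X ⧸ R)
  · have hk : ∀ x : X, p • (x : X ⧸ R) = 0 := fun x => by
      rw [← QuotientAddGroup.mk_nsmul, QuotientAddGroup.eq_zero_iff]
      exact ⟨x, rfl⟩
    obtain ⟨N, hN, -, hN2⟩ := exists_max (X := X ⧸ R) hp
    have hN3 : lam < #N := by
      by_contra h
      apply hq.not_ge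
      refine le_trans ?_ (card_span h0 (not_lt.1 h))
      rw [← mk_univ]
      refine mk_le_mk_of_subset (t := (Submodule.span ℤ N : Set (X ⧸ R))) fun x _ => hN2 x ?_
      obtain ⟨y, rfl⟩ := QuotientAddGroup.mk_surjective x
      exact hk y
    obtain ⟨q, -, hq2⟩ := exists_hom' hp hN hc₁
    refine ⟨(nsmulAddMonoidHom p : T →+ T).ker, N, q.comp (QuotientAddGroup.mk' R), hN3,
      ⟨⟨c₀, hc₁, hc₀⟩, fun H hH => ⟨1, fun h h1 h2 => ?_, c₀, hc₁, by rwa [one_smul]⟩⟩,
      fun x β => ?_, fun β c hc => ?_⟩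
    · rw [one_smul]
      by_contra h3
      apply hH
      intro c hc
      obtain ⟨i, rfl⟩ := hgen h h3 h1 c hc
      exact H.nsmul_mem h2 i
    · show p • q (x : X ⧸ R) β = 0
      rw [← Finsupp.smul_apply, ← map_nsmul, hk, map_zero, Finsupp.zero_apply]
    · obtain ⟨i, rfl⟩ := hgen c₀ hc₀ hc₁ c hc
      obtain ⟨y, hy⟩ := QuotientAddGroup.mk_surjective β.1
      refine ⟨i • y, ?_⟩
      rw [map_nsmul, ← Finsupp.smul_single, ← hq2, ← hy]
      rfl
  · obtain ⟨q₀, hq1, hq2⟩ := exists_hom' hp hM hc₁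
    let S : Set M := ⋃ y ∈ (Set.univ : Set (X ⧸ R)), ((q₀ y.out).support : Set M)
    have hS : #S ≤ lam := card_biUnion h0 _ (by rw [mk_univ]; exact not_lt.1 hq)
      fun y _ => ((q₀ y.out).support.finite_toSet.lt_aleph0.le).trans h0
    let q : X →+ ((Sᶜ : Set M) →₀ T) := Finsupp.subtypeDomainAddMonoidHom.comp q₀
    have hqa : ∀ x β, q x β = q₀ x β.1 := fun _ _ => rfl
    have hdiv : ∀ k : ℕ, ∀ x, ∃ x', q x = p ^ k • q x' := by
      intro k
      induction k with
      | zero => exact fun x => ⟨x, by rw [pow_zero, one_smul]⟩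
      | succ k ih =>
        intro x
        obtain ⟨y, hy⟩ := ih x
        obtain ⟨⟨_, z, rfl⟩, hz⟩ := QuotientAddGroup.mk_out_eq_add R y
        have h1 : q (y : X ⧸ R).out = 0 := by
          ext1 β
          rw [hqa, Finsupp.zero_apply, ← Finsupp.notMem_support_iff]
          intro h
          exact β.2 (Set.mem_biUnion (Set.mem_univ _) h)
        rw [hz, map_add] at h1
        refine ⟨-z, ?_⟩
        rw [hy, eq_neg_of_add_eq_zero_left h1, pow_succ, mul_smul, ← map_nsmul q, ← map_neg,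
          smul_neg]
        rfl
    have hsoc : ∀ y : (Sᶜ : Set M) →₀ T, p • y = 0 → y ∈ q.range := by
      intro y hy
      rw [← Finsupp.sum_single y]
      refine sum_mem fun β _ => ?_
      obtain ⟨i, hi⟩ := hgen c₀ hc₀ hc₁ (y β) (by
        rw [← Finsupp.smul_apply, hy, Finsupp.zero_apply])
      refine ⟨i • β.1.1, ?_⟩
      rw [map_nsmul, ← hi, ← Finsupp.smul_single]
      congr 1
      ext1 γ
      rw [hqa, hq2, Finsupp.single_apply, Finsupp.single_apply]
      simp only [Subtype.val_inj]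
    have hall : ∀ k : ℕ, ∀ y : (Sᶜ : Set M) →₀ T, p ^ k • y = 0 → y ∈ q.range := by
      intro k
      induction k with
      | zero =>
        intro y hy
        rw [pow_zero, one_smul] at hy
        rw [hy]
        exact zero_mem _
      | succ k ih =>
        intro y hy
        obtain ⟨x, hx⟩ := hsoc (p ^ k • y) (by rwa [← mul_smul, ← pow_succ'])
        obtain ⟨x', hx'⟩ := hdiv k x
        have h1 := ih (y - q x') (by rw [smul_sub, ← hx, hx', sub_self])
        have h2 := add_mem h1 (AddMonoidHom.mem_range.2 ⟨x', rfl⟩)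
        rwa [sub_add_cancel] at h2
    refine ⟨P p, (Sᶜ : Set M), q, ?_, ⟨⟨c₀, ⟨1, by rwa [pow_one]⟩, hc₀⟩, fun H hH => ?_⟩,
      fun x β => hq1 x β.1, ?_⟩
    · by_contra h
      apply hM2.not_ge
      rw [← mk_sum_compl S]
      exact add_le_of_le h0 hS (not_lt.1 h)
    · obtain ⟨w, ⟨k, hk⟩, hw⟩ := SetLike.not_le_iff_exists.1 hH
      obtain ⟨c, hc⟩ := root' c₀ (pow_ne_zero k hp.ne_zero)
      refine ⟨p ^ k, ?_, c, ⟨k + 1, by rw [pow_succ', mul_smul, hc, hc₁]⟩, by rwa [hc]⟩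
      rintro h ⟨j, hj⟩ h2
      by_contra h3
      obtain ⟨i, rfl⟩ := pow' (w := w) hp hj h3 (by rw [pow_succ', mul_smul, hk, smul_zero])
      exact hw (H.nsmul_mem h2 i)
    · rintro β c ⟨k, hk⟩
      exact hall k _ (by rw [Finsupp.smul_single, hk, Finsupp.single_zero])

end Pool.Agent.H567Z.Alg
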