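import Mathlib
import Pool.Agent.Helper472.Lat_CST1
import Pool.Agent.Helper472.Lat_CST2
import Pool.Agent.Helper472.Lat_NSS

/-! Facts on closed subgroups of unitary groups. -/

set_option autoImplicit false

namespace Pool.Agent.H567Z

open Filter Topology Pool.LatH472 Matrix

variable {ι : Type} [Fintype ι] [DecidableEq ι]

theorem compactU : CompactSpace (Matrix.unitaryGroup ι ℂ) := by
  have hcl : IsClosed ((Matrix.unitaryGroup ι ℂ : Set (Matrix ι ι ℂ))) := isClosed_unitary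
  have hsub : (Matrix.unitaryGroup ι ℂ : Set (Matrix ι ι ℂ)) ⊆
      Set.pi Set.univ (fun _ : ι => Set.pi Set.univ (fun _ : ι => Metric.closedBall (0 : ℂ) 1)) := by
    intro A hA i _ j _
    rw [mem_closedBall_zero_iff]
    exact entry_norm_bound_of_unitary hA i j
  have hc : IsCompact (Set.pi Set.univ
      (fun _ : ι => Set.pi Set.univ (fun _ : ι => Metric.closedBall (0 : ℂ) 1))) :=
    isCompact_univ_pi fun _ => isCompact_univ_pi fun _ => isCompact_closedBall _ _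
  exact isCompact_iff_compactSpace.mp (hc.of_isClosed_subset hcl hsub)

set_option backward.isDefEq.respectTransparency false in
theorem exp_cont : Continuous (NormedSpace.exp : Matrix ι ι ℂ → Matrix ι ι ℂ) :=
  open scoped Matrix.Norms.Operator in NormedSpace.exp_continuous

theorem cst2 (L : Subgroup (Matrix.unitaryGroup ι ℂ))
    (hL : IsClosed (L : Set (Matrix.unitaryGroup ι ℂ))) (V : Set (Matrix ι ι ℂ))
    (hV : V ∈ 𝓝 (0 : Matrix ι ι ℂ)) :
    ∃ O ∈ 𝓝 (1 : Matrix.unitaryGroup ι ℂ), ∀ u ∈ L, u ∈ O →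
      ∃ X ∈ LieAlg L, X ∈ V ∧ NormedSpace.exp X = (u : Matrix ι ι ℂ) :=
  CST2 CST1 ι L hL V hV

theorem lie_smul {L : Subgroup (Matrix.unitaryGroup ι ℂ)} {X : Matrix ι ι ℂ} (hX : X ∈ LieAlg L)
    (c : ℝ) : c • X ∈ LieAlg L := by
  obtain ⟨hX1, hX2⟩ := hX
  refine ⟨CST1_skew c X hX1, fun t => ?_⟩
  obtain ⟨u, hu, hu2⟩ := hX2 (t * c)
  exact ⟨u, hu, by rw [hu2, smul_smul]⟩

theorem lie_zero (L : Subgroup (Matrix.unitaryGroup ι ℂ)) : (0 : Matrix ι ι ℂ) ∈ LieAlg L := by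
  refine ⟨by simp, fun t => ⟨1, L.one_mem, ?_⟩⟩
  rw [smul_zero, NormedSpace.exp_zero]
  rfl

theorem lie_mono {L L' : Subgroup (Matrix.unitaryGroup ι ℂ)} (h : L ≤ L') {X : Matrix ι ι ℂ}
    (hX : X ∈ LieAlg L) : X ∈ LieAlg L' :=
  ⟨hX.1, fun t => let ⟨u, hu, hu2⟩ := hX.2 t; ⟨u, h hu, hu2⟩⟩

/-- The Lie algebra of a closed subgroup as a real subspace. -/
def lieSub (L : Subgroup (Matrix.unitaryGroup ι ℂ))
    (hL : IsClosed (L : Set (Matrix.unitaryGroup ι ℂ))) : Submodule ℝ (Matrix ι ι ℂ) where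
  carrier := LieAlg L
  add_mem' := fun {X Y} hX hY => CST1_add L hL X Y hX hY
  zero_mem' := lie_zero L
  smul_mem' := fun c _ hX => lie_smul hX c

/-- the one-parameter group of a skew-Hermitian matrix -/
noncomputable def oneP (X : Matrix ι ι ℂ) (hX : Xᴴ = -X) (t : ℝ) : Matrix.unitaryGroup ι ℂ :=
  ⟨NormedSpace.exp (t • X), CST1_uni _ (CST1_skew t X hX)⟩

theorem oneP_coe (X : Matrix ι ι ℂ) (hX : Xᴴ = -X) (t : ℝ) :
    (oneP X hX t : Matrix ι ι ℂ) = NormedSpace.exp (t • X) := rfl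

theorem oneP_add (X : Matrix ι ι ℂ) (hX : Xᴴ = -X) (s t : ℝ) :
    oneP X hX (s + t) = oneP X hX s * oneP X hX t := by
  apply Subtype.ext
  show NormedSpace.exp ((s + t) • X) = NormedSpace.exp (s • X) * NormedSpace.exp (t • X)
  rw [add_smul, Matrix.exp_add_of_commute _ _ (((Commute.refl X).smul_left s).smul_right t)]

theorem oneP_zero (X : Matrix ι ι ℂ) (hX : Xᴴ = -X) : oneP X hX 0 = 1 := by
  apply Subtype.ext
  show NormedSpace.exp ((0 : ℝ) • X) = 1
  rw [zero_smul, NormedSpace.exp_zero]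

theorem oneP_pow (X : Matrix ι ι ℂ) (hX : Xᴴ = -X) (t : ℝ) (n : ℕ) :
    oneP X hX t ^ n = oneP X hX (n * t) := by
  induction n with
  | zero => simp [oneP_zero]
  | succ n ih =>
    rw [pow_succ, ih, ← oneP_add]
    congr 1
    push_cast
    ring

theorem oneP_neg (X : Matrix ι ι ℂ) (hX : Xᴴ = -X) (t : ℝ) :
    oneP X hX (-t) = (oneP X hX t)⁻¹ := by
  rw [eq_inv_iff_mul_eq_one, ← oneP_add, neg_add_cancel, oneP_zero]

theorem oneP_mem {L : Subgroup (Matrix.unitaryGroup ι ℂ)} {X : Matrix ι ι ℂ} (hX : X ∈ LieAlg L)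
    (t : ℝ) : oneP X hX.1 t ∈ L := by
  obtain ⟨u, hu, hu2⟩ := hX.2 t
  have : oneP X hX.1 t = u := Subtype.ext hu2.symm
  rw [this]
  exact hu

theorem mem_lie_of_oneP {L : Subgroup (Matrix.unitaryGroup ι ℂ)} {X : Matrix ι ι ℂ}
    (hX : Xᴴ = -X) (h : ∀ t, oneP X hX t ∈ L) : X ∈ LieAlg L :=
  ⟨hX, fun t => ⟨oneP X hX t, h t, rfl⟩⟩

/-- some positive power of an element of a closed subgroup is an exponential -/
theorem exists_pow_eq_exp (L : Subgroup (Matrix.unitaryGroup ι ℂ))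
    (hL : IsClosed (L : Set (Matrix.unitaryGroup ι ℂ))) {w : Matrix.unitaryGroup ι ℂ}
    (hw : w ∈ L) : ∃ m : ℕ, 0 < m ∧ ∃ X, ∃ hX : X ∈ LieAlg L, w ^ m = oneP X hX.1 1 := by
  have := compactU (ι := ι)
  obtain ⟨O, hO, hO2⟩ := cst2 L hL Set.univ Filter.univ_mem
  have h1 := (mapClusterPt_one_atTop_pow w).frequently hO
  obtain ⟨m, hm, hm2⟩ := frequently_atTop.1 h1 1
  obtain ⟨X, hX, -, hX2⟩ := hO2 (w ^ m) (L.pow_mem hw m) hm2
  refine ⟨m, hm, X, hX, Subtype.ext ?_⟩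
  rw [oneP_coe, one_smul, hX2]

set_option backward.isDefEq.respectTransparency false in
theorem skew_zero_of_exp (X : Matrix ι ι ℂ) (h : ∀ t : ℝ, NormedSpace.exp (t • X) = 1) :
    X = 0 := by
  let iR : NormedRing (Matrix ι ι ℂ) := Matrix.linftyOpNormedRing
  let iA : NormedAlgebra ℝ (Matrix ι ι ℂ) := Matrix.linftyOpNormedAlgebra
  have iC : CompleteSpace (Matrix ι ι ℂ) := FiniteDimensional.complete ℝ _
  have h1 := CST2_skew (𝔸 := Matrix ι ι ℂ) X 0 (fun t => by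
    rw [smul_zero, NormedSpace.exp_zero, mul_one]
    exact h t)
  rwa [add_zero] at h1

/-- a closed subgroup with zero Lie algebra is finite -/
theorem finite_of_lie_zero (L : Subgroup (Matrix.unitaryGroup ι ℂ))
    (hL : IsClosed (L : Set (Matrix.unitaryGroup ι ℂ))) (h : ∀ X ∈ LieAlg L, X = 0) :
    (L : Set (Matrix.unitaryGroup ι ℂ)).Finite := by
  have := compactU (ι := ι)
  obtain ⟨O, hO, hO2⟩ := cst2 L hL Set.univ Filter.univ_mem
  have h1 : ∀ u ∈ L, u ∈ O → u = 1 := by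
    intro u hu huO
    obtain ⟨X, hX, -, hX2⟩ := hO2 u hu huO
    rw [h X hX, NormedSpace.exp_zero] at hX2
    exact Subtype.ext hX2.symm
  have hc : IsCompact (L : Set (Matrix.unitaryGroup ι ℂ)) := hL.isCompact
  obtain ⟨t, ht, hcov⟩ := hc.elim_nhds_subcover (fun u => (fun v => u⁻¹ * v) ⁻¹' O) (by
    intro u _
    apply (continuous_const_mul u⁻¹).continuousAt.preimage_mem_nhds
    rwa [inv_mul_cancel])
  refine t.finite_toSet.subset fun v hv => ?_
  obtain ⟨u, hu, hv2⟩ := Set.mem_iUnion₂.1 (hcov hv)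
  have h2 := h1 (u⁻¹ * v) (L.mul_mem (L.inv_mem (ht u hu)) hv) hv2
  rw [inv_mul_eq_one] at h2
  rw [← h2]
  exact hu

theorem tendsto_oneP_of_bdd {V : Set (Matrix ι ι ℂ)} (hV : IsCompact V) (Y : ℕ → Matrix ι ι ℂ)
    (hY : ∀ n, Y n ∈ V) (hs : ∀ n, (Y n)ᴴ = -(Y n)) (c : ℕ → ℝ) (hc : Tendsto c atTop (𝓝 0)) :
    Tendsto (fun n => oneP (Y n) (hs n) (c n)) atTop (𝓝 1) := by
  rw [tendsto_subtype_rng]
  have h0 : Tendsto (fun n => c n • Y n) atTop (𝓝 0) := by
    have h1 : Tendsto (fun n => (c n, Y n)) atTop (𝓝 0 ×ˢ 𝓟 V) :=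
      hc.prodMk (tendsto_principal.2 (Eventually.of_forall hY))
    have h2 : Tendsto (fun p : ℝ × Matrix ι ι ℂ => p.1 • p.2) (𝓝 0 ×ˢ 𝓟 V) (𝓝 0) := by
      intro U hU
      have h3 : ∀ y ∈ V, (fun p : ℝ × Matrix ι ι ℂ => p.1 • p.2) ⁻¹' U ∈ 𝓝 ((0 : ℝ), y) := by
        intro y _
        apply continuous_smul.continuousAt.preimage_mem_nhds
        simpa using hU
      have h4 := hV.mem_prod_nhdsSet_of_forall (l := 𝓝 (0 : ℝ))
        (s := (fun p : ℝ × Matrix ι ι ℂ => p.1 • p.2) ⁻¹' U)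
        (fun y hy => by rw [← nhds_prod_eq]; exact h3 y hy)
      exact Filter.prod_mono le_rfl principal_le_nhdsSet h4
    exact h2.comp h1
  have h5 := (exp_cont.tendsto 0).comp h0
  rw [NormedSpace.exp_zero] at h5
  exact h5

/-- a closed subgroup of the unitary group without elements of order two is finite -/
theorem finite_of_no_invol (L : Subgroup (Matrix.unitaryGroup ι ℂ))
    (hL : IsClosed (L : Set (Matrix.unitaryGroup ι ℂ))) (h : ∀ u ∈ L, u ^ 2 = 1 → u = 1) :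
    (L : Set (Matrix.unitaryGroup ι ℂ)).Finite := by
  have := compactU (ι := ι)
  apply finite_of_lie_zero L hL
  intro X hX
  -- the one-parameter group and its closure
  let T : Subgroup (Matrix.unitaryGroup ι ℂ) :=
    { carrier := Set.range (oneP X hX.1)
      one_mem' := ⟨0, oneP_zero X hX.1⟩
      mul_mem' := by
        rintro _ _ ⟨s, rfl⟩ ⟨t, rfl⟩
        exact ⟨s + t, oneP_add X hX.1 s t⟩
      inv_mem' := by
        rintro _ ⟨s, rfl⟩
        exact ⟨-s, oneP_neg X hX.1 s⟩ }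
  let S := T.topologicalClosure
  have hS : IsClosed (S : Set (Matrix.unitaryGroup ι ℂ)) := T.isClosed_topologicalClosure
  have hSL : S ≤ L := by
    apply T.topologicalClosure_minimal _ hL
    rintro _ ⟨s, rfl⟩
    exact oneP_mem hX s
  have hTc : ∀ a ∈ T, ∀ b ∈ T, a * b = b * a := by
    rintro _ ⟨s, rfl⟩ _ ⟨t, rfl⟩
    rw [← oneP_add, ← oneP_add, add_comm]
  have hSc : ∀ a ∈ S, ∀ b ∈ S, a * b = b * a := by
    have h1 : ∀ a ∈ T, ∀ b ∈ S, a * b = b * a := by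
      intro a ha b hb
      have hcl : IsClosed {b : Matrix.unitaryGroup ι ℂ | a * b = b * a} :=
        isClosed_eq (continuous_const_mul a) (continuous_mul_const a)
      exact closure_minimal (fun b hb => hTc a ha b hb) hcl hb
    intro a ha b hb
    have hcl : IsClosed {a : Matrix.unitaryGroup ι ℂ | a * b = b * a} :=
      isClosed_eq (continuous_mul_const b) (continuous_const_mul b)
    exact closure_minimal (fun a ha => h1 a ha b hb) hcl ha
  have hinj : ∀ n : ℕ, ∀ a ∈ S, ∀ b ∈ S, a ^ (2 ^ n) = b ^ (2 ^ n) → a = b := by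
    have h1 : ∀ n : ℕ, ∀ a ∈ S, a ^ (2 ^ n) = 1 → a = 1 := by
      intro n
      induction n with
      | zero => intro a _ ha; simpa using ha
      | succ n ih =>
        intro a ha h2
        rw [pow_succ, pow_mul] at h2
        exact ih a ha (h _ (hSL (S.pow_mem ha _)) h2)
    intro n a ha b hb hab
    have hcm : Commute a b⁻¹ := hSc a ha b⁻¹ (S.inv_mem hb)
    have h2 : (a * b⁻¹) ^ (2 ^ n) = 1 := by
      rw [hcm.mul_pow, inv_pow, hab, mul_inv_cancel]
    exact mul_inv_eq_one.1 (h1 n _ (S.mul_mem ha (S.inv_mem hb)) h2)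
  have hlc : WeaklyLocallyCompactSpace (Matrix ι ι ℂ) :=
    inferInstanceAs (WeaklyLocallyCompactSpace (ι → ι → ℂ))
  obtain ⟨V, hVc, hV⟩ := exists_compact_mem_nhds (0 : Matrix ι ι ℂ)
  obtain ⟨O, hO, hO2⟩ := cst2 S hS V hV
  -- finitely many translates of `O` cover `S`
  obtain ⟨R, hR⟩ : ∃ R : ℝ, ∀ w ∈ S, ∃ t : ℝ, |t| ≤ R ∧ (oneP X hX.1 t)⁻¹ * w ∈ O := by
    have hcov : (S : Set (Matrix.unitaryGroup ι ℂ)) ⊆
        ⋃ t : ℝ, (fun v => (oneP X hX.1 t)⁻¹ * v) ⁻¹' interior O := by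
      intro w hw
      have h1 : (fun v => v⁻¹ * w) ⁻¹' interior O ∈ 𝓝 w := by
        have hc : Continuous (fun v : Matrix.unitaryGroup ι ℂ => v⁻¹ * w) := by fun_prop
        apply hc.continuousAt.preimage_mem_nhds
        rw [inv_mul_cancel]
        exact interior_mem_nhds.2 hO
      obtain ⟨v, hv1, ⟨t, rfl⟩⟩ := mem_closure_iff_nhds.1 hw _ h1
      exact Set.mem_iUnion.2 ⟨t, hv1⟩
    obtain ⟨F, hF⟩ := hS.isCompact.elim_finite_subcover _
      (fun t => isOpen_interior.preimage (continuous_const_mul _)) hcov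
    refine ⟨∑ t ∈ F, |t|, fun w hw => ?_⟩
    obtain ⟨t, ht, hw2⟩ := Set.mem_iUnion₂.1 (hF hw)
    exact ⟨t, Finset.single_le_sum (f := fun t => |t|) (fun _ _ => abs_nonneg _) ht,
      interior_subset hw2⟩
  have hone : ∀ w ∈ S, w = 1 := by
    intro w hw
    have h1 : ∀ n : ℕ, ∃ t : ℝ, |t| ≤ R ∧ ∃ Y, ∃ hY : Y ∈ LieAlg S, Y ∈ V ∧
        w = oneP X hX.1 ((2 ^ n)⁻¹ * t) * oneP Y hY.1 ((2 ^ n)⁻¹) := by
      intro n
      obtain ⟨t, ht, ht2⟩ := hR (w ^ (2 ^ n)) (S.pow_mem hw _)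
      have hts : ∀ s, oneP X hX.1 s ∈ S := fun s => T.le_topologicalClosure ⟨s, rfl⟩
      obtain ⟨Y, hY, hYV, hY2⟩ := hO2 _ (S.mul_mem (S.inv_mem (hts t)) (S.pow_mem hw _)) ht2
      refine ⟨t, ht, Y, hY, hYV, hinj n _ hw _ (S.mul_mem (hts _) (oneP_mem hY _)) ?_⟩
      have hcm : Commute (oneP X hX.1 ((2 ^ n)⁻¹ * t)) (oneP Y hY.1 ((2 ^ n)⁻¹)) :=
        hSc _ (hts _) _ (oneP_mem hY _)
      rw [hcm.mul_pow, oneP_pow, oneP_pow]
      have e1 : ((2 ^ n : ℕ) : ℝ) * ((2 ^ n)⁻¹ * t) = t := by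
        push_cast
        field_simp
      have e2 : ((2 ^ n : ℕ) : ℝ) * ((2 ^ n)⁻¹) = 1 := by
        push_cast
        field_simp
      rw [e1, e2]
      have e3 : oneP Y hY.1 1 = (oneP X hX.1 t)⁻¹ * w ^ (2 ^ n) := by
        apply Subtype.ext
        rw [oneP_coe, one_smul, hY2]
      rw [e3, mul_inv_cancel_left]
    choose t ht Y hY hYV hw2 using h1
    have hc0 : Tendsto (fun n : ℕ => ((2 : ℝ) ^ n)⁻¹) atTop (𝓝 0) :=
      tendsto_inv_atTop_zero.comp (tendsto_pow_atTop_atTop_of_one_lt (by norm_num))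
    have hc1 : Tendsto (fun n : ℕ => ((2 : ℝ) ^ n)⁻¹ * t n) atTop (𝓝 0) := by
      refine squeeze_zero_norm (a := fun n : ℕ => ((2 : ℝ) ^ n)⁻¹ * R) (fun n => ?_) ?_
      · rw [norm_mul, Real.norm_eq_abs, Real.norm_eq_abs, abs_of_pos (by positivity)]
        exact mul_le_mul_of_nonneg_left (ht n) (by positivity)
      · simpa using hc0.mul_const R
    have ha := tendsto_oneP_of_bdd (isCompact_singleton (x := X)) (fun _ => X) (fun _ => rfl)
      (fun _ => hX.1) _ hc1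
    have hb := tendsto_oneP_of_bdd hVc Y hYV (fun n => (hY n).1) _ hc0
    have hab := ha.mul hb
    rw [mul_one] at hab
    have hw3 : Tendsto (fun _ : ℕ => w) atTop (𝓝 1) := hab.congr fun n => (hw2 n).symm
    exact tendsto_nhds_unique tendsto_const_nhds hw3
  apply skew_zero_of_exp
  intro t
  have h2 := hone _ (T.le_topologicalClosure ⟨t, rfl⟩)
  exact congrArg Subtype.val h2

/-- `1` is isolated among the solutions of `u ^ m = 1` -/
theorem isolated_pow (m : ℕ) (hm : 0 < m) :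
    ∃ O ∈ 𝓝 (1 : Matrix.unitaryGroup ι ℂ), ∀ u ∈ O, u ^ m = 1 → u = 1 := by
  obtain ⟨O, hO, hO2⟩ := NSS ι
  refine ⟨⋂ k ∈ Finset.range m, (fun u => u ^ k) ⁻¹' O, ?_, ?_⟩
  · rw [Filter.biInter_finset_mem]
    intro k _
    apply (continuous_pow k).continuousAt.preimage_mem_nhds
    rwa [one_pow]
  · intro u hu hum
    have h1 : Subgroup.zpowers u = ⊥ := by
      apply hO2
      intro v hv
      have hfin : IsOfFinOrder u := isOfFinOrder_iff_pow_eq_one.2 ⟨m, hm, hum⟩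
      obtain ⟨k, rfl⟩ := (hfin.mem_powers_iff_mem_zpowers.2 hv)
      have h2 : u ^ k = u ^ (k % m) := by
        conv_lhs => rw [← Nat.mod_add_div k m, pow_add, pow_mul, hum, one_pow, mul_one]
      show u ^ k ∈ O
      rw [h2]
      exact Set.mem_iInter₂.1 hu (k % m) (Finset.mem_range.2 (Nat.mod_lt k hm))
    exact Subgroup.zpowers_eq_bot.1 h1

end Pool.Agent.H567Z
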