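import Mathlib
import Pool.Agent.H567Z.GT
import Pool.Agent.H567Z.Mat

/-! A topological group with a closed embedding into a unitary group is an analytic Lie group. -/

set_option autoImplicit false

namespace Pool.Agent.H567Z

open Filter Topology NormedSpace
open scoped Manifold ContDiff

universe u

theorem exists_log {𝔸 : Type} [NormedRing 𝔸] [NormedAlgebra ℝ 𝔸] [CompleteSpace 𝔸] :
    ∃ e : OpenPartialHomeomorph 𝔸 𝔸, (∀ x, e x = exp x) ∧ (0 : 𝔸) ∈ e.source ∧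
      ∃ W : Set 𝔸, IsOpen W ∧ (1 : 𝔸) ∈ W ∧ W ⊆ e.target ∧ ContDiffOn ℝ ω e.symm W := by
  have h1 : ContDiffAt ℝ ω (exp : 𝔸 → 𝔸) 0 := (exp_analytic (𝕂 := ℝ) (0 : 𝔸)).contDiffAt
  have h2 : HasFDerivAt (exp : 𝔸 → 𝔸)
      ((ContinuousLinearEquiv.refl ℝ 𝔸 : 𝔸 ≃L[ℝ] 𝔸) : 𝔸 →L[ℝ] 𝔸) 0 :=
    (hasStrictFDerivAt_exp_zero (𝕂 := ℝ)).hasFDerivAt
  have hn : (ω : WithTop ℕ∞) ≠ 0 := by simp
  refine ⟨h1.toOpenPartialHomeomorph exp h2 hn, fun x => rfl,
    h1.mem_toOpenPartialHomeomorph_source h2 hn, ?_⟩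
  have h3 := h1.to_localInverse h2 hn
  have h4 := h3.eventually (by simp)
  have h5 := h1.image_mem_toOpenPartialHomeomorph_target h2 hn
  rw [exp_zero] at h4 h5
  have h6 := (h1.toOpenPartialHomeomorph exp h2 hn).open_target.mem_nhds h5
  obtain ⟨W, hW1, hW2, hW3⟩ := mem_nhds_iff.1 (inter_mem h4 h6)
  refine ⟨W, hW2, hW3, fun x hx => (hW1 hx).2, fun x hx => ?_⟩
  exact ContDiffAt.contDiffWithinAt (hW1 hx).1

theorem lie_gen {𝔸 : Type} [NormedRing 𝔸] [NormedAlgebra ℝ 𝔸] [FiniteDimensional ℝ 𝔸]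
    {G : Type u} [Group G] [TopologicalSpace G] [IsTopologicalGroup G] (ρ : G →* 𝔸)
    (hρ : IsEmbedding ρ) (l : Submodule ℝ 𝔸) (h1 : ∀ X ∈ l, ∃ g, ρ g = exp X)
    (h2 : ∀ V ∈ 𝓝 (0 : 𝔸), ∃ O ∈ 𝓝 (1 : 𝔸), ∀ g, ρ g ∈ O → ∃ X ∈ l, X ∈ V ∧ exp X = ρ g) :
    ∃ (n : ℕ) (_ : ChartedSpace (EuclideanSpace ℝ (Fin n)) G), LieGroup (𝓡 n) ω G := by
  have : CompleteSpace 𝔸 := FiniteDimensional.complete ℝ 𝔸
  let _ : NormedAlgebra ℚ 𝔸 := NormedAlgebra.restrictScalars ℚ ℝ 𝔸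
  let n := Module.finrank ℝ l
  let E := EuclideanSpace ℝ (Fin n)
  obtain ⟨φ⟩ : Nonempty (E ≃ₗ[ℝ] l) :=
    FiniteDimensional.nonempty_linearEquiv_of_finrank_eq (by simp [E, n])
  obtain ⟨q, hq⟩ := LinearMap.exists_leftInverse_of_injective l.subtype l.ker_subtype
  let J : E →L[ℝ] 𝔸 := LinearMap.toContinuousLinearMap (l.subtype.comp φ.toLinearMap)
  let P : 𝔸 →L[ℝ] E := LinearMap.toContinuousLinearMap (φ.symm.toLinearMap.comp q)
  have hJ : ∀ x, J x = (φ x : 𝔸) := fun x => rfl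
  have hP : ∀ X, P X = φ.symm (q X) := fun x => rfl
  have hq' : ∀ X : l, q (X : 𝔸) = X := fun X => LinearMap.congr_fun hq X
  have hPJ : ∀ x, P (J x) = x := by
    intro x
    rw [hJ, hP, hq', LinearEquiv.symm_apply_apply]
  have hJP : ∀ X ∈ l, J (P X) = X := by
    intro X hX
    rw [hJ, hP, LinearEquiv.apply_symm_apply]
    exact congrArg Subtype.val (hq' ⟨X, hX⟩)
  have hJl : ∀ x, J x ∈ l := fun x => by rw [hJ]; exact (φ x).2
  obtain ⟨e, he, he0, W, hWo, hW1, hWt, hWc⟩ := exists_log (𝔸 := 𝔸)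
  obtain ⟨O, hO, hO2⟩ := h2 e.source (e.open_source.mem_nhds he0)
  obtain ⟨O', hO'1, hO'o, hO'2⟩ := mem_nhds_iff.1 (inter_mem hO (hWo.mem_nhds hW1))
  choose σ hσ using fun x : E => h1 (J x) (hJl x)
  have hkey : ∀ g, ρ g ∈ O' → ∃ X ∈ l, X ∈ e.source ∧ exp X = ρ g ∧ e.symm (ρ g) = X := by
    intro g hg
    obtain ⟨X, hX, hXs, hX2⟩ := hO2 g (hO'1 hg).1
    refine ⟨X, hX, hXs, hX2, ?_⟩
    rw [← hX2, ← he, e.left_inv hXs]
  have hexpJ : Continuous (fun x : E => exp (J x)) := exp_continuous.comp J.continuous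
  have hσc : Continuous σ := by
    rw [hρ.isInducing.continuous_iff]
    have : (ρ : G → 𝔸) ∘ σ = fun x : E => exp (J x) := funext hσ
    rw [this]
    exact hexpJ
  let ch : OpenPartialHomeomorph G E :=
    { toFun := fun g => P (e.symm (ρ g))
      invFun := σ
      source := ρ ⁻¹' O'
      target := {x | J x ∈ e.source ∧ exp (J x) ∈ O'}
      map_source' := by
        intro g hg
        obtain ⟨X, hX, hXs, hX2, hX3⟩ := hkey g hg
        show J (P (e.symm (ρ g))) ∈ e.source ∧ exp (J (P (e.symm (ρ g)))) ∈ O'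
        rw [hX3, hJP X hX, hX2]
        exact ⟨hXs, hg⟩
      map_target' := by
        intro x hx
        show ρ (σ x) ∈ O'
        rw [hσ]
        exact hx.2
      left_inv' := by
        intro g hg
        obtain ⟨X, hX, hXs, hX2, hX3⟩ := hkey g hg
        apply hρ.injective
        rw [hσ, hX3, hJP X hX, hX2]
      right_inv' := by
        intro x hx
        show P (e.symm (ρ (σ x))) = x
        rw [hσ, ← he, e.left_inv hx.1, hPJ]
      open_source := hO'o.preimage hρ.continuous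
      open_target := (e.open_source.preimage J.continuous).inter (hO'o.preimage hexpJ)
      continuousOn_toFun := by
        refine P.continuous.comp_continuousOn ?_
        exact e.continuousOn_symm.comp hρ.continuous.continuousOn
          (fun g hg => hWt (hO'1 hg).2)
      continuousOn_invFun := hσc.continuousOn }
  have hch1 : ∀ g, ch g = P (e.symm (ρ g)) := fun g => rfl
  have hch2 : ∀ x, ch.symm x = σ x := fun g => rfl
  have hch3 : ∀ g, g ∈ ch.source ↔ ρ g ∈ O' := fun g => Iff.rfl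
  have hexp : ContDiff ℝ ω (exp : 𝔸 → 𝔸) :=
    contDiff_iff_contDiffAt.2 fun x => (exp_analytic (𝕂 := ℝ) x).contDiffAt
  have hexpJ' : ContDiff ℝ ω (fun x : E => exp (J x)) := hexp.comp J.contDiff
  have hinv : ∀ x, ρ (σ x)⁻¹ = exp (-(J x)) := by
    intro x
    have e1 : exp (-(J x)) * exp (J x) = 1 := by
      rw [← exp_add_of_commute (Commute.refl _).neg_left, neg_add_cancel, exp_zero]
    calc ρ (σ x)⁻¹ = exp (-(J x)) * exp (J x) * ρ (σ x)⁻¹ := by rw [e1, one_mul]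
      _ = exp (-(J x)) * (ρ (σ x) * ρ (σ x)⁻¹) := by rw [mul_assoc, hσ]
      _ = exp (-(J x)) := by rw [← map_mul, mul_inv_cancel, map_one, mul_one]
  have h1s : (1 : G) ∈ ch.source := by
    rw [hch3, map_one]
    exact hO'2
  refine ⟨n, GT.lie_of_chart ω ch h1s ?_ ?_⟩
  · intro g h
    have hF : ContDiff ℝ ω (fun p : E × E => ρ g * exp (J p.1) * ρ h * exp (J p.2)) :=
      (((contDiff_const.mul (hexpJ'.comp contDiff_fst)).mul contDiff_const).mul
        (hexpJ'.comp contDiff_snd))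
    have hE : ∀ p : E × E, ρ (g * ch.symm p.1 * h * ch.symm p.2) =
        ρ g * exp (J p.1) * ρ h * exp (J p.2) := by
      intro p
      rw [hch2, hch2, map_mul, map_mul, map_mul, hσ, hσ]
    have h3 := P.contDiff.comp_contDiffOn (hWc.comp hF.contDiffOn
      (s := {p : E × E | p.1 ∈ ch.target ∧ p.2 ∈ ch.target ∧
        g * ch.symm p.1 * h * ch.symm p.2 ∈ ch.source}) (fun p hp => by
          have h4 := (hch3 _).1 hp.2.2
          rw [hE] at h4
          exact (hO'1 h4).2))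
    refine h3.congr fun p _ => ?_
    rw [hch1, hE]
    rfl
  · intro g h
    have hF : ContDiff ℝ ω (fun x : E => ρ g * exp (-(J x)) * ρ h) :=
      ((contDiff_const.mul (hexp.comp J.contDiff.neg)).mul contDiff_const)
    have hE : ∀ x : E, ρ (g * (ch.symm x)⁻¹ * h) = ρ g * exp (-(J x)) * ρ h := by
      intro x
      rw [hch2, map_mul, map_mul, hinv]
    have h3 := P.contDiff.comp_contDiffOn (hWc.comp hF.contDiffOn
      (s := {x : E | x ∈ ch.target ∧ g * (ch.symm x)⁻¹ * h ∈ ch.source}) (fun p hp => by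
          have h4 := (hch3 _).1 hp.2
          rw [hE] at h4
          exact (hO'1 h4).2))
    refine h3.congr fun p _ => ?_
    rw [hch1, hE]
    rfl

set_option backward.isDefEq.respectTransparency false in
theorem lie_of_unitary {ι : Type} [Fintype ι] [DecidableEq ι]
    {G : Type u} [Group G] [TopologicalSpace G] [IsTopologicalGroup G]
    (ρ : G →* Matrix.unitaryGroup ι ℂ) (hρ : IsClosedEmbedding ρ) :
    ∃ (n : ℕ) (_ : ChartedSpace (EuclideanSpace ℝ (Fin n)) G), LieGroup (𝓡 n) ω G := by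
  have hL : IsClosed ((ρ.range : Subgroup _) : Set (Matrix.unitaryGroup ι ℂ)) := by
    rw [MonoidHom.coe_range]
    exact hρ.isClosed_range
  let ρ' : G →* Matrix ι ι ℂ := (Matrix.unitaryGroup ι ℂ).subtype.comp ρ
  have hρ' : IsEmbedding ρ' := IsEmbedding.subtypeVal.comp hρ.isEmbedding
  have h1 : ∀ X ∈ lieSub ρ.range hL, ∃ g, ρ' g = exp X := by
    intro X hX
    obtain ⟨g, hg⟩ := oneP_mem (L := ρ.range) hX 1
    refine ⟨g, ?_⟩
    have := congrArg Subtype.val hg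
    rw [oneP_coe, one_smul] at this
    exact this
  have h2 : ∀ V ∈ 𝓝 (0 : Matrix ι ι ℂ), ∃ O ∈ 𝓝 (1 : Matrix ι ι ℂ), ∀ g, ρ' g ∈ O →
      ∃ X ∈ lieSub ρ.range hL, X ∈ V ∧ exp X = ρ' g := by
    intro V hV
    obtain ⟨O, hO, hO2⟩ := cst2 ρ.range hL V hV
    rw [nhds_subtype_eq_comap] at hO
    obtain ⟨O', hO', hO'2⟩ := hO
    refine ⟨O', hO', fun g hg => ?_⟩
    exact hO2 (ρ g) ⟨g, rfl⟩ (hO'2 hg)
  let iR : NormedRing (Matrix ι ι ℂ) := Matrix.linftyOpNormedRing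
  let iA : NormedAlgebra ℝ (Matrix ι ι ℂ) := Matrix.linftyOpNormedAlgebra
  exact lie_gen (𝔸 := Matrix ι ι ℂ) ρ' hρ' (lieSub ρ.range hL) h1 h2

end Pool.Agent.H567Z
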