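import Mathlib
import Pool.Agent.H567Z.Mat

/-! A connected compact matrix group is the product of any closed normal subgroup and its
centraliser. -/

set_option autoImplicit false

namespace Pool.Agent.H567Z

open Filter Topology Pool.LatH472 Matrix

variable {ι : Type} [Fintype ι] [DecidableEq ι]

theorem lie_add_of_mul (C : Subgroup (Matrix.unitaryGroup ι ℂ))
    (hC : IsClosed (C : Set (Matrix.unitaryGroup ι ℂ))) (X Y : Matrix ι ι ℂ) (hX : Xᴴ = -X)
    (hY : Yᴴ = -Y) (h : ∀ t, oneP X hX t * oneP Y hY t ∈ C) : X + Y ∈ LieAlg C := by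
  have hXY : (X + Y)ᴴ = -(X + Y) := by
    rw [Matrix.conjTranspose_add, hX, hY]
    abel
  refine mem_lie_of_oneP hXY fun t => ?_
  have ht := CST1_mat (t • X) (t • Y) (fun m => by
      rw [CST1_sm, CST1_sm]
      exact (oneP X hX _ * oneP Y hY _).2)
    (fun m => by
      rw [← smul_add, CST1_sm]
      exact CST1_uni _ (CST1_skew _ _ hXY))
  have hconv : Tendsto (fun m : ℕ => (oneP X hX (((m : ℝ) + 1)⁻¹ * t) *
      oneP Y hY (((m : ℝ) + 1)⁻¹ * t)) ^ (m + 1)) atTop (𝓝 (oneP (X + Y) hXY t)) := by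
    rw [tendsto_subtype_rng]
    rw [← smul_add] at ht
    refine ht.congr fun m => ?_
    rw [CST1_sm, CST1_sm]
    rfl
  exact hC.mem_of_tendsto hconv (Eventually.of_forall fun m => pow_mem (h _) _)

theorem ad_skew (u : Matrix.unitaryGroup ι ℂ) (X : Matrix ι ι ℂ) (hX : Xᴴ = -X) :
    ((u : Matrix ι ι ℂ) * X * (u : Matrix ι ι ℂ)ᴴ)ᴴ =
      -((u : Matrix ι ι ℂ) * X * (u : Matrix ι ι ℂ)ᴴ) := by
  rw [Matrix.conjTranspose_mul, Matrix.conjTranspose_mul, Matrix.conjTranspose_conjTranspose, hX]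
  simp [Matrix.mul_assoc]

theorem u_mul_star (u : Matrix.unitaryGroup ι ℂ) :
    (u : Matrix ι ι ℂ) * (u : Matrix ι ι ℂ)ᴴ = 1 :=
  Matrix.mem_unitaryGroup_iff.1 u.2

theorem star_mul_u (u : Matrix.unitaryGroup ι ℂ) :
    (u : Matrix ι ι ℂ)ᴴ * (u : Matrix ι ι ℂ) = 1 :=
  Matrix.mem_unitaryGroup_iff'.1 u.2

theorem inv_coe (u : Matrix.unitaryGroup ι ℂ) :
    ((u⁻¹ : Matrix.unitaryGroup ι ℂ) : Matrix ι ι ℂ) = (u : Matrix ι ι ℂ)ᴴ := rfl

theorem oneP_ad (u : Matrix.unitaryGroup ι ℂ) (X : Matrix ι ι ℂ) (hX : Xᴴ = -X) (t : ℝ) :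
    oneP _ (ad_skew u X hX) t = u * oneP X hX t * u⁻¹ := by
  apply Subtype.ext
  show NormedSpace.exp (t • ((u : Matrix ι ι ℂ) * X * (u : Matrix ι ι ℂ)ᴴ)) =
    (u : Matrix ι ι ℂ) * NormedSpace.exp (t • X) * (u : Matrix ι ι ℂ)ᴴ
  have hinv : (u : Matrix ι ι ℂ)⁻¹ = (u : Matrix ι ι ℂ)ᴴ := Matrix.inv_eq_right_inv (u_mul_star u)
  have hu : IsUnit (u : Matrix ι ι ℂ) := IsUnit.of_mul_eq_one _ (u_mul_star u)
  rw [← hinv, ← Matrix.exp_conj _ _ hu]
  congr 1
  simp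

theorem oneP_neg' (X : Matrix ι ι ℂ) (hX : Xᴴ = -X) (hX' : (-X)ᴴ = - -X) (t : ℝ) :
    oneP (-X) hX' t = (oneP X hX t)⁻¹ := by
  rw [← oneP_neg]
  apply Subtype.ext
  rw [oneP_coe, oneP_coe, smul_neg, neg_smul]

/-- the real inner product `Re tr (Xᴴ Y)` -/
noncomputable def trForm : LinearMap.BilinForm ℝ (Matrix ι ι ℂ) :=
  LinearMap.mk₂ ℝ (fun X Y => (Matrix.trace (Xᴴ * Y)).re)
    (fun X X' Y => by simp [Matrix.conjTranspose_add, Matrix.add_mul])
    (fun c X Y => by simp [Matrix.conjTranspose_smul])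
    (fun X Y Y' => by simp [Matrix.mul_add])
    (fun c X Y => by simp)

theorem trForm_apply (X Y : Matrix ι ι ℂ) : trForm X Y = (Matrix.trace (Xᴴ * Y)).re := rfl

theorem trForm_symm (X Y : Matrix ι ι ℂ) : trForm X Y = trForm Y X := by
  rw [trForm_apply, trForm_apply]
  have : Yᴴ * X = (Xᴴ * Y)ᴴ := by
    rw [Matrix.conjTranspose_mul, Matrix.conjTranspose_conjTranspose]
  rw [this, Matrix.trace_conjTranspose]
  simp

theorem trForm_self (X : Matrix ι ι ℂ) (h : trForm X X = 0) : X = 0 := by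
  rw [trForm_apply] at h
  have h1 : (Matrix.trace (Xᴴ * X)).re = ∑ i, ∑ j, Complex.normSq (X j i) := by
    rw [Matrix.trace]
    simp only [Matrix.diag_apply, Matrix.mul_apply, Matrix.conjTranspose_apply, Complex.re_sum]
    refine Finset.sum_congr rfl (fun i _ => Finset.sum_congr rfl (fun j _ => ?_))
    rw [Complex.normSq_apply]
    simp [Complex.mul_re]
  rw [h1] at h
  have h2 := (Finset.sum_eq_zero_iff_of_nonneg (fun i _ => Finset.sum_nonneg fun j _ =>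
    Complex.normSq_nonneg (X j i))).1 h
  ext j i
  have h3 := (Finset.sum_eq_zero_iff_of_nonneg (fun j _ =>
    Complex.normSq_nonneg (X j i))).1 (h2 i (Finset.mem_univ _)) j (Finset.mem_univ _)
  simpa using h3

theorem trForm_ad (u : Matrix.unitaryGroup ι ℂ) (X Y : Matrix ι ι ℂ) :
    trForm Y ((u : Matrix ι ι ℂ) * X * (u : Matrix ι ι ℂ)ᴴ) =
      trForm ((u : Matrix ι ι ℂ)ᴴ * Y * (u : Matrix ι ι ℂ)) X := by
  rw [trForm_apply, trForm_apply]
  congr 1
  rw [Matrix.conjTranspose_mul, Matrix.conjTranspose_mul, Matrix.conjTranspose_conjTranspose,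
    ← Matrix.mul_assoc, Matrix.trace_mul_comm]
  simp only [Matrix.mul_assoc]

theorem lie_ad {C : Subgroup (Matrix.unitaryGroup ι ℂ)} (u : Matrix.unitaryGroup ι ℂ)
    (hu : ∀ c ∈ C, u * c * u⁻¹ ∈ C) {X : Matrix ι ι ℂ} (hX : X ∈ LieAlg C) :
    (u : Matrix ι ι ℂ) * X * (u : Matrix ι ι ℂ)ᴴ ∈ LieAlg C := by
  refine mem_lie_of_oneP (ad_skew u X hX.1) fun t => ?_
  rw [oneP_ad u X hX.1]
  exact hu _ (oneP_mem hX t)

theorem prod_centralizer (L C : Subgroup (Matrix.unitaryGroup ι ℂ))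
    (hL : IsClosed (L : Set (Matrix.unitaryGroup ι ℂ)))
    (hC : IsClosed (C : Set (Matrix.unitaryGroup ι ℂ))) (hCL : C ≤ L)
    (hn : ∀ l ∈ L, ∀ c ∈ C, l * c * l⁻¹ ∈ C)
    (hconn : IsPreconnected (L : Set (Matrix.unitaryGroup ι ℂ))) :
    ∀ l ∈ L, ∃ c ∈ C, ∃ z ∈ L, (∀ c' ∈ C, z * c' = c' * z) ∧ l = c * z := by
  have := compactU (ι := ι)
  let Z : Subgroup (Matrix.unitaryGroup ι ℂ) := L ⊓ Subgroup.centralizer (C : Set _)
  have hZ : ∀ z, z ∈ Z ↔ z ∈ L ∧ ∀ c' ∈ C, c' * z = z * c' := fun z => Iff.rfl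
  have hZc : IsClosed (Z : Set (Matrix.unitaryGroup ι ℂ)) := by
    have : (Z : Set (Matrix.unitaryGroup ι ℂ)) = (L : Set _) ∩ ⋂ c' ∈ C, {z | c' * z = z * c'} := by
      ext z
      simp only [SetLike.mem_coe, hZ, Set.mem_inter_iff, Set.mem_iInter, Set.mem_setOf_eq]
    rw [this]
    exact hL.inter (isClosed_biInter fun c' _ =>
      isClosed_eq (continuous_const_mul c') (continuous_mul_const c'))
  let P : Subgroup (Matrix.unitaryGroup ι ℂ) :=
    { carrier := {l | ∃ c ∈ C, ∃ z ∈ Z, l = c * z}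
      one_mem' := ⟨1, C.one_mem, 1, Z.one_mem, (mul_one 1).symm⟩
      mul_mem' := by
        rintro _ _ ⟨c, hc, z, hz, rfl⟩ ⟨c', hc', z', hz', rfl⟩
        refine ⟨c * c', C.mul_mem hc hc', z * z', Z.mul_mem hz hz', ?_⟩
        have := ((hZ z).1 hz).2 c' hc'
        calc c * z * (c' * z') = c * (z * c') * z' := by group
          _ = c * (c' * z) * z' := by rw [this]
          _ = c * c' * (z * z') := by group
      inv_mem' := by
        rintro _ ⟨c, hc, z, hz, rfl⟩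
        refine ⟨c⁻¹, C.inv_mem hc, z⁻¹, Z.inv_mem hz, ?_⟩
        have := ((hZ z⁻¹).1 (Z.inv_mem hz)).2 c⁻¹ (C.inv_mem hc)
        rw [_root_.mul_inv_rev, this] }
  have hPc : IsClosed (P : Set (Matrix.unitaryGroup ι ℂ)) := by
    have h1 : (P : Set (Matrix.unitaryGroup ι ℂ)) =
        (fun p : Matrix.unitaryGroup ι ℂ × Matrix.unitaryGroup ι ℂ => p.1 * p.2) ''
          ((C : Set _) ×ˢ (Z : Set _)) := by
      ext l
      constructor
      · rintro ⟨c, hc, z, hz, rfl⟩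
        exact ⟨(c, z), ⟨hc, hz⟩, rfl⟩
      · rintro ⟨⟨c, z⟩, ⟨hc, hz⟩, rfl⟩
        exact ⟨c, hc, z, hz, rfl⟩
    rw [h1]
    exact ((hC.isCompact.prod hZc.isCompact).image continuous_mul).isClosed
  have hCP : C ≤ P := fun c hc => ⟨c, hc, 1, Z.one_mem, (mul_one c).symm⟩
  have hZP : Z ≤ P := fun z hz => ⟨1, C.one_mem, z, hz, (one_mul z).symm⟩
  have hrefl : (trForm : LinearMap.BilinForm ℝ (Matrix ι ι ℂ)).IsRefl := by
    intro X Y h
    rw [trForm_symm]
    exact h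
  have hnd : ((trForm : LinearMap.BilinForm ℝ (Matrix ι ι ℂ)).restrict (lieSub C hC)).Nondegenerate := by
    refine ⟨fun X hX => ?_, fun X hX => ?_⟩
    · exact Subtype.ext (trForm_self _ (hX X))
    · exact Subtype.ext (trForm_self _ (hX X))
  have hcompl := LinearMap.BilinForm.isCompl_orthogonal_of_restrict_nondegenerate hrefl hnd
  have hlie : ∀ X ∈ LieAlg L, X ∈ LieAlg P := by
    intro X hX
    have h1 : X ∈ lieSub C hC ⊔ trForm.orthogonal (lieSub C hC) := by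
      rw [hcompl.sup_eq_top]
      trivial
    obtain ⟨Y, hY, W, hW, hYW⟩ := Submodule.mem_sup.1 h1
    have hYC : Y ∈ LieAlg C := hY
    have hWL : W ∈ LieAlg L := by
      have : W = X - Y := by rw [← hYW]; abel
      rw [this]
      exact (CST1 ι L hL X hX Y (lie_mono hCL hYC)).2
    have hWo : ∀ Y' ∈ LieAlg C, trForm Y' W = 0 := fun Y' hY' => hW Y' hY'
    have hcomm : ∀ c ∈ C, (c : Matrix ι ι ℂ) * W * (c : Matrix ι ι ℂ)ᴴ = W := by
      intro c hc
      have hW' : (-W)ᴴ = - -W := by rw [Matrix.conjTranspose_neg, hWL.1]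
      have h2 : (c : Matrix ι ι ℂ) * W * (c : Matrix ι ι ℂ)ᴴ + -W ∈ LieAlg C := by
        apply lie_add_of_mul C hC _ _ (ad_skew c W hWL.1) hW'
        intro t
        rw [oneP_ad c W hWL.1, oneP_neg' W hWL.1]
        have h3 := hn _ (oneP_mem hWL t) c⁻¹ (C.inv_mem hc)
        have e : c * oneP W hWL.1 t * c⁻¹ * (oneP W hWL.1 t)⁻¹ =
            c * (oneP W hWL.1 t * c⁻¹ * (oneP W hWL.1 t)⁻¹) := by group
        rw [e]
        exact C.mul_mem hc h3
      have h4 : trForm ((c : Matrix ι ι ℂ) * W * (c : Matrix ι ι ℂ)ᴴ + -W)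
          ((c : Matrix ι ι ℂ) * W * (c : Matrix ι ι ℂ)ᴴ + -W) = 0 := by
        obtain ⟨D, hD⟩ : ∃ D, D = (c : Matrix ι ι ℂ) * W * (c : Matrix ι ι ℂ)ᴴ + -W := ⟨_, rfl⟩
        rw [← hD] at h2
        have h5 : trForm D ((c : Matrix ι ι ℂ) * W * (c : Matrix ι ι ℂ)ᴴ) = 0 := by
          rw [trForm_ad]
          apply hWo
          have h6 := lie_ad (C := C) c⁻¹ (fun c' hc' =>
            C.mul_mem (C.mul_mem (C.inv_mem hc) hc') (C.inv_mem (C.inv_mem hc))) h2
          rwa [inv_coe, Matrix.conjTranspose_conjTranspose] at h6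
        conv_lhs => rw [← hD]
        conv_lhs => enter [2]; rw [hD]
        rw [map_add, map_neg, h5, hWo D h2]
        simp
      have h7 := trForm_self _ h4
      rw [← sub_eq_add_neg, sub_eq_zero] at h7
      exact h7
    have hWZ : W ∈ LieAlg Z := by
      refine mem_lie_of_oneP hWL.1 fun t => (hZ _).2 ⟨oneP_mem hWL t, fun c hc => ?_⟩
      have h8 := oneP_ad c W hWL.1 t
      have h9 : oneP _ (ad_skew c W hWL.1) t = oneP W hWL.1 t := by
        apply Subtype.ext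
        rw [oneP_coe, oneP_coe, hcomm c hc]
      rw [h9] at h8
      calc c * oneP W hWL.1 t = (c * oneP W hWL.1 t * c⁻¹) * c := by group
        _ = oneP W hWL.1 t * c := by rw [← h8]
    rw [← hYW]
    exact CST1_add P hPc Y W (lie_mono hCP hYC) (lie_mono hZP hWZ)
  obtain ⟨O, hO, hO2⟩ := cst2 L hL Set.univ Filter.univ_mem
  have hOP : ∀ u ∈ L, u ∈ O → u ∈ P := by
    intro u hu huO
    obtain ⟨X, hX, -, hX2⟩ := hO2 u hu huO
    have h1 := oneP_mem (hlie X hX) 1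
    have h2 : oneP X (hlie X hX).1 1 = u := by
      apply Subtype.ext
      rw [oneP_coe, one_smul, hX2]
    rwa [h2] at h1
  have hpc : PreconnectedSpace L := Subtype.preconnectedSpace hconn
  have hopen : IsOpen ((P.subgroupOf L : Subgroup L) : Set L) := by
    apply Subgroup.isOpen_of_mem_nhds (g := 1)
    have h1 : (Subtype.val : L → Matrix.unitaryGroup ι ℂ) ⁻¹' O ∈ 𝓝 (1 : L) :=
      continuous_subtype_val.continuousAt.preimage_mem_nhds hO
    exact Filter.mem_of_superset h1 fun u hu => hOP u u.2 hu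
  have hcl := (P.subgroupOf L).isClosed_of_isOpen hopen
  have huniv := IsClopen.eq_univ ⟨hcl, hopen⟩ ⟨1, (P.subgroupOf L).one_mem⟩
  intro l hl
  have h1 : (⟨l, hl⟩ : L) ∈ ((P.subgroupOf L : Subgroup L) : Set L) := by
    rw [huniv]
    trivial
  obtain ⟨c, hc, z, hz, h2⟩ : l ∈ P := h1
  exact ⟨c, hc, z, ((hZ z).1 hz).1, fun c' hc' => (((hZ z).1 hz).2 c' hc').symm, h2⟩

end Pool.Agent.H567Z
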