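import Mathlib
import Pool.Agent.H567Z.PW

set_option autoImplicit false
set_option linter.unusedSectionVars false
set_option linter.style.haveILetI false
set_option linter.deprecated false

/-!
Characters of compact abelian groups: they separate points, and every homomorphism from the
character group to the circle is an evaluation. (The diagonalisation lemma is adapted from the
files of helper288.)
-/

namespace Pool.Agent.H567Z.Dual

open Filter Topology Module Module.End MeasureTheory
open scoped InnerProductSpace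

universe u

section Diag

variable {E : Type} [NormedAddCommGroup E] [InnerProductSpace ℂ E] [FiniteDimensional ℂ E]
  [CompleteSpace E]

/-- A continuous unitary representation. -/
def IsRep {L : Type u} [Group L] [TopologicalSpace L] (ρ : L →* (E →L[ℂ] E)) : Prop :=
  Continuous ρ ∧ ∀ g, ρ g ∈ unitary (E →L[ℂ] E)

theorem inner_unitary {U : E →L[ℂ] E} (hU : U ∈ unitary (E →L[ℂ] E)) (x y : E) :
    ⟪U x, U y⟫_ℂ = ⟪x, y⟫_ℂ := by
  have h := (Unitary.mem_iff.mp hU).1
  rw [← ContinuousLinearMap.adjoint_inner_right, ← ContinuousLinearMap.star_eq_adjoint,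
    ← ContinuousLinearMap.mul_apply, h, ContinuousLinearMap.one_apply]

theorem eig_two {U : End ℂ E} (hU : ∀ x y, ⟪U x, U y⟫_ℂ = ⟪x, y⟫_ℂ) (μ : ℂ) (v : E)
    (h : (U - μ • (1 : End ℂ E)) ((U - μ • (1 : End ℂ E)) v) = 0) :
    (U - μ • (1 : End ℂ E)) v = 0 := by
  set w := (U - μ • (1 : End ℂ E)) v with hw
  have h1 : U w = μ • w := by
    have : U w - μ • w = 0 := by simpa using h
    exact sub_eq_zero.mp this
  have h2 : w = U v - μ • v := by simp [hw]
  have h3 := hU w v
  have h4 := hU w w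
  rw [h1, inner_smul_left] at h3
  rw [h1, inner_smul_left, inner_smul_right] at h4
  have h5 : ⟪w, w⟫_ℂ = ⟪w, U v⟫_ℂ - μ * ⟪w, v⟫_ℂ := by
    conv_lhs => rw [h2, inner_sub_right, inner_smul_right, ← h2]
  by_contra hne
  have h6 : ⟪w, w⟫_ℂ ≠ 0 := fun h0 => hne (inner_self_eq_zero.mp h0)
  have h7 : (starRingEnd ℂ) μ * μ = 1 := by
    have : ((starRingEnd ℂ) μ * μ) * ⟪w, w⟫_ℂ = 1 * ⟪w, w⟫_ℂ := by
      rw [one_mul, mul_assoc]; exact h4
    exact mul_right_cancel₀ h6 this
  apply h6
  rw [h5, ← h3]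
  linear_combination (-⟪w, U v⟫_ℂ) * h7

theorem eig_pow {U : End ℂ E} (hU : ∀ x y, ⟪U x, U y⟫_ℂ = ⟪x, y⟫_ℂ) (μ : ℂ) (k : ℕ) :
    ∀ v : E, ((U - μ • (1 : End ℂ E)) ^ k) v = 0 → (U - μ • (1 : End ℂ E)) v = 0 := by
  induction k with
  | zero =>
    intro v hv
    have : v = 0 := by simpa using hv
    rw [this, map_zero]
  | succ k ih =>
    intro v hv
    rw [pow_succ, Module.End.mul_apply] at hv
    exact eig_two hU μ v (ih _ hv)

theorem exists_chars {L : Type u} [Group L] [TopologicalSpace L] (hc : ∀ a b : L, a * b = b * a)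
    (ρ : L →* (E →L[ℂ] E)) (hρ : IsRep ρ) :
    ∃ (J : Type u) (_ : Finite J) (χ : J → (L →* Circle)), (∀ j, Continuous (χ j)) ∧
      ∀ a, ρ a = 1 ↔ ∀ j, χ j a = 1 := by
  let f : L → End ℂ E := fun a => ((ρ a : E →L[ℂ] E) : E →ₗ[ℂ] E)
  have hf : ∀ a v, f a v = ρ a v := fun _ _ => rfl
  have hcomm : ∀ a b, Commute (f a) (f b) := by
    intro a b
    ext v
    show ρ a (ρ b v) = ρ b (ρ a v)
    rw [← ContinuousLinearMap.mul_apply, ← ContinuousLinearMap.mul_apply, ← map_mul, ← map_mul,
      hc]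
  have hU : ∀ a x y, ⟪f a x, f a y⟫_ℂ = ⟪x, y⟫_ℂ := fun a => inner_unitary (hρ.2 a)
  let W : (L → ℂ) → Submodule ℂ E := fun χ => ⨅ a, (f a).maxGenEigenspace (χ a)
  have hW : ∀ χ, ∀ v ∈ W χ, ∀ a, ρ a v = χ a • v := by
    intro χ v hv a
    obtain ⟨k, hk⟩ := (mem_iInf_maxGenEigenspace_iff f χ v).mp hv a
    have := eig_pow (hU a) (χ a) k v hk
    have h2 : f a v - χ a • v = 0 := by simpa using this
    exact sub_eq_zero.mp h2
  have htop : ⨆ χ, W χ = ⊤ :=
    iSup_iInf_maxGenEigenspace_eq_top_of_iSup_maxGenEigenspace_eq_top_of_commute f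
      (fun a b _ => hcomm a b) (fun a => iSup_maxGenEigenspace_eq_top (f a))
  have hind : iSupIndep W :=
    independent_iInf_maxGenEigenspace_of_forall_mapsTo f
      (fun a b φ => mapsTo_maxGenEigenspace_of_comm (hcomm b a) φ)
  have hfin : {χ | W χ ≠ ⊥}.Finite := WellFoundedGT.finite_ne_bot_of_iSupIndep hind
  let J := {χ : L → ℂ // W χ ≠ ⊥}
  haveI : Finite J := hfin.to_subtype
  choose v hv hv0 using fun j : J => (Submodule.ne_bot_iff _).mp j.2
  have hsm : ∀ (j : J) (c d : ℂ), c • v j = d • v j → c = d := fun j c d h =>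
    smul_left_injective ℂ (hv0 j) h
  have hnorm : ∀ (j : J) a, ‖j.1 a‖ = 1 := by
    intro j a
    have h1 := hU a (v j) (v j)
    rw [hf, hW _ _ (hv j), inner_smul_left, inner_smul_right, ← mul_assoc] at h1
    have h6 : ⟪v j, v j⟫_ℂ ≠ 0 := fun h0 => hv0 j (inner_self_eq_zero.mp h0)
    have h7 : (starRingEnd ℂ) (j.1 a) * j.1 a = 1 := by
      have : ((starRingEnd ℂ) (j.1 a) * j.1 a) * ⟪v j, v j⟫_ℂ = 1 * ⟪v j, v j⟫_ℂ := by
        rw [one_mul]; exact h1
      exact mul_right_cancel₀ h6 this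
    have h8 := congrArg norm h7
    rw [norm_mul, Complex.norm_conj, norm_one] at h8
    have h9 := norm_nonneg (j.1 a)
    nlinarith
  let χ : J → (L →* Circle) := fun j =>
    { toFun := fun a => ⟨j.1 a, mem_sphere_zero_iff_norm.mpr (hnorm j a)⟩
      map_one' := by
        apply Circle.ext
        show j.1 1 = 1
        apply hsm j
        rw [← hW _ _ (hv j), map_one, one_smul, ContinuousLinearMap.one_apply]
      map_mul' := fun a b => by
        apply Circle.ext
        show j.1 (a * b) = j.1 a * j.1 b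
        apply hsm j
        rw [← hW _ _ (hv j), map_mul, ContinuousLinearMap.mul_apply, hW _ _ (hv j) b, map_smul,
          hW _ _ (hv j) a, smul_smul, mul_comm] }
  have hχ : ∀ j a, ((χ j a : Circle) : ℂ) = j.1 a := fun _ _ => rfl
  refine ⟨J, inferInstance, χ, fun j => ?_, fun a => ⟨fun h j => ?_, fun h => ?_⟩⟩
  · apply Continuous.subtype_mk
    have h6 : ⟪v j, v j⟫_ℂ ≠ 0 := fun h0 => hv0 j (inner_self_eq_zero.mp h0)
    have h1 : j.1 = fun a => ⟪v j, ρ a (v j)⟫_ℂ / ⟪v j, v j⟫_ℂ := by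
      funext a
      rw [hW _ _ (hv j), inner_smul_right, mul_div_assoc, div_self h6, mul_one]
    rw [h1]
    have h2 : Continuous fun a => ρ a (v j) := hρ.1.clm_apply continuous_const
    exact (continuous_const.inner h2).div_const _
  · apply Circle.ext
    rw [hχ, Circle.coe_one]
    apply hsm j
    rw [← hW _ _ (hv j), h, one_smul, ContinuousLinearMap.one_apply]
  · have h1 : ∀ ψ, W ψ ≤ LinearMap.ker (f a - 1) := by
      intro ψ x hx
      by_cases h0 : W ψ = ⊥
      · rw [h0, Submodule.mem_bot] at hx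
        rw [hx]; exact zero_mem _
      · have h2 : ψ a = 1 := by
          have := congrArg (fun z : Circle => (z : ℂ)) (h ⟨ψ, h0⟩)
          exact this
        rw [LinearMap.mem_ker, LinearMap.sub_apply, hf, hW _ _ hx, h2, one_smul]
        simp
    have h2 : LinearMap.ker (f a - 1) = ⊤ := by
      rw [eq_top_iff, ← htop]
      exact iSup_le h1
    ext x
    have h3 : x ∈ LinearMap.ker (f a - 1) := h2 ▸ Submodule.mem_top
    rw [LinearMap.mem_ker, LinearMap.sub_apply, hf, sub_eq_zero] at h3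
    rw [h3]
    rfl

end Diag

/-- the group of continuous characters -/
def chars (K : Type u) [CommGroup K] [TopologicalSpace K] : Subgroup (K →* Circle) where
  carrier := {χ | Continuous χ}
  one_mem' := continuous_const
  mul_mem' := fun {a b} ha hb => Continuous.mul (f := a) (g := b) ha hb
  inv_mem' := fun {a} ha => Continuous.inv (f := a) ha

variable {K : Type u} [CommGroup K] [TopologicalSpace K] [IsTopologicalGroup K] [CompactSpace K]
  [T2Space K]

theorem exists_char_ne {x : K} (hx : x ≠ 1) : ∃ χ ∈ chars K, χ x ≠ 1 := by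
  obtain ⟨ι, _, _, ρ, hρ, hρx⟩ := PW.PW K x hx
  let T := Matrix.toEuclideanCLM (n := ι) (𝕜 := ℂ)
  have hT : Continuous T := by
    let T' : Matrix ι ι ℂ →ₗ[ℂ] (EuclideanSpace ℂ ι →L[ℂ] EuclideanSpace ℂ ι) :=
      { toFun := T
        map_add' := map_add T
        map_smul' := fun c M => map_smul T c M }
    exact T'.continuous_of_finiteDimensional
  let σ : K →* (EuclideanSpace ℂ ι →L[ℂ] EuclideanSpace ℂ ι) :=
    { toFun := fun g => T (ρ g).1
      map_one' := by rw [map_one]; exact map_one T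
      map_mul' := fun g h => by rw [map_mul]; exact map_mul T _ _ }
  have hσ : IsRep σ := by
    refine ⟨hT.comp (continuous_subtype_val.comp hρ), fun g => ?_⟩
    show T (ρ g).1 ∈ _
    rw [Unitary.mem_iff, ← map_star, ← map_mul, ← map_mul, (Unitary.mem_iff.mp (ρ g).2).1,
      (Unitary.mem_iff.mp (ρ g).2).2, map_one]
    exact ⟨rfl, rfl⟩
  obtain ⟨J, _, χ, h1, h2⟩ := exists_chars (fun a b => mul_comm a b) σ hσ
  by_contra hcon
  push Not at hcon
  apply hρx
  apply Subtype.ext
  apply T.injective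
  have h3 : T (ρ x).1 = 1 := (h2 x).2 fun j => hcon (χ j) (h1 j)
  exact h3.trans (map_one T).symm

theorem eq_one_of_chars {x : K} (h : ∀ χ : chars K, χ.1 x = 1) : x = 1 := by
  by_contra hx
  obtain ⟨χ, h1, h2⟩ := exists_char_ne hx
  exact h2 (h ⟨χ, h1⟩)

theorem exists_char_closed (H : Subgroup K) (hH : IsClosed (H : Set K)) {z : K} (hz : z ∉ H) :
    ∃ χ : chars K, (∀ h ∈ H, χ.1 h = 1) ∧ χ.1 z ≠ 1 := by
  have h1 : (QuotientGroup.mk z : K ⧸ H) ≠ 1 := fun h => hz ((QuotientGroup.eq_one_iff z).1 h)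
  obtain ⟨χ, h2, h3⟩ := exists_char_ne h1
  refine ⟨⟨χ.comp (QuotientGroup.mk' H), Continuous.comp (g := χ) h2 QuotientGroup.continuous_mk⟩,
    fun h hh => ?_, h3⟩
  show χ (QuotientGroup.mk h) = 1
  rw [(QuotientGroup.eq_one_iff h).2 hh, map_one]

/-- evaluation at a point -/
noncomputable def evH (x : K) : chars K →* Circle where
  toFun χ := χ.1 x
  map_one' := rfl
  map_mul' _ _ := rfl

theorem dual_surj (h : chars K →* Circle) : ∃ x : K, ∀ χ : chars K, χ.1 x = h χ := by
  by_contra hcon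
  push Not at hcon
  letI : MeasurableSpace K := borel K
  haveI : BorelSpace K := ⟨rfl⟩
  let μ : Measure K := Measure.haar
  let c : (chars K →* Circle) → K → (chars K → Circle) := fun a x => (evH x * a : chars K →* Circle)
  have hc : ∀ a, Continuous (c a) := fun a =>
    continuous_pi fun χ => Continuous.mul (f := χ.1) χ.2 continuous_const
  have hint : ∀ (a) (g : C(chars K → Circle, ℂ)), Integrable (fun x => g (c a x)) μ := fun a g =>
    (g.continuous.comp (hc a)).integrable_of_hasCompactSupport (HasCompactSupport.of_compactSpace _)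
  let Φ : (chars K →* Circle) → C(chars K → Circle, ℂ) →L[ℂ] ℂ := fun a =>
    LinearMap.mkContinuous
      { toFun := fun g => ∫ x, g (c a x) ∂μ
        map_add' := fun g g' => integral_add (hint a g) (hint a g')
        map_smul' := fun r g => integral_smul r (fun x => g (c a x)) } (μ.real Set.univ)
      (fun g => by
        rw [mul_comm]
        exact norm_integral_le_of_norm_le_const
          (Eventually.of_forall fun x => g.norm_coe_le_norm _))
  have hΦ : ∀ a g, Φ a g = ∫ x, g (c a x) ∂μ := fun _ _ => rfl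
  let S : Set C(chars K → Circle, ℂ) :=
    {g | ∃ γ : chars K, ∀ a : chars K →* Circle, g a = (a γ : ℂ)}
  have hS : ∀ g ∈ S, Φ h g = Φ 1 g := by
    rintro g ⟨γ, hγ⟩
    have h1 : ∀ a, Φ a g = (∫ x, (γ.1 x : ℂ) ∂μ) * (a γ : ℂ) := by
      intro a
      rw [hΦ, ← integral_mul_const]
      congr 1
      funext x
      exact hγ (evH x * a)
    rw [h1, h1]
    by_cases h2 : γ = 1
    · rw [h2, map_one, map_one]
    · have h3 : ∃ y, γ.1 y ≠ 1 := by
        by_contra h4
        push Not at h4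
        exact h2 (Subtype.ext (MonoidHom.ext h4))
      obtain ⟨y, hy⟩ := h3
      have h4 := integral_mul_left_eq_self (μ := μ) (fun x => (γ.1 x : ℂ)) y
      simp only [map_mul, Circle.coe_mul] at h4
      rw [integral_const_mul] at h4
      have h5 : ∫ x, (γ.1 x : ℂ) ∂μ = 0 := by
        by_contra h6
        apply hy
        apply Circle.ext
        exact mul_right_cancel₀ h6 (h4.trans (one_mul _).symm)
      rw [h5, zero_mul, zero_mul]
  let 𝒜 : StarSubalgebra ℂ C(chars K → Circle, ℂ) :=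
    { toSubalgebra := Algebra.adjoin ℂ S
      star_mem' := by
        change Algebra.adjoin ℂ S ≤ star (Algebra.adjoin ℂ S)
        refine Algebra.adjoin_le ?_
        rintro g ⟨γ, hγ⟩
        refine Algebra.subset_adjoin ⟨γ⁻¹, fun a => ?_⟩
        show star (g a) = _
        rw [hγ, map_inv, Circle.coe_inv_eq_conj]
        rfl }
  have hspan : Subalgebra.toSubmodule 𝒜.toSubalgebra = Submodule.span ℂ S := by
    apply Algebra.adjoin_eq_span_of_subset
    refine Set.Subset.trans ?_ Submodule.subset_span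
    intro x hx
    refine Submonoid.closure_induction (fun _ => id) ⟨1, fun a => ?_⟩ ?_ hx
    · rw [map_one]
      rfl
    · rintro g g' - - ⟨γ, hγ⟩ ⟨γ', hγ'⟩
      refine ⟨γ * γ', fun a => ?_⟩
      rw [ContinuousMap.mul_apply, hγ, hγ', map_mul, Circle.coe_mul]
  have hsep : 𝒜.SeparatesPoints := by
    intro x y hxy
    obtain ⟨χ, hχ⟩ := Function.ne_iff.1 hxy
    refine ⟨_, ⟨⟨fun ω => (ω χ : ℂ), continuous_subtype_val.comp (continuous_apply χ)⟩,
      Algebra.subset_adjoin ⟨χ, fun a => rfl⟩, rfl⟩, fun h => hχ (Circle.ext h)⟩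
  have htop := ContinuousMap.starSubalgebra_topologicalClosure_eq_top_of_separatesPoints 𝒜 hsep
  have hall : ∀ g, Φ h g = Φ 1 g := by
    intro g
    have h1 : g ∈ closure (𝒜 : Set C(chars K → Circle, ℂ)) := by
      have h2 : g ∈ 𝒜.topologicalClosure := by
        rw [htop]
        trivial
      exact h2
    refine closure_minimal (t := {g | Φ h g = Φ 1 g}) ?_
      (isClosed_eq (Φ h).continuous (Φ 1).continuous) h1
    intro g' hg'
    have h3 : g' ∈ Submodule.span ℂ S := by
      rw [← hspan]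
      exact hg'
    have h4 : Submodule.span ℂ S ≤ LinearMap.ker ((Φ h - Φ 1 : _ →L[ℂ] ℂ) : _ →ₗ[ℂ] ℂ) := by
      rw [Submodule.span_le]
      intro s hs
      show Φ h s - Φ 1 s = 0
      rw [hS s hs, sub_self]
    exact sub_eq_zero.1 (h4 h3)
  have hdisj : Disjoint (Set.range (c 1)) (Set.range (c h)) := by
    rw [Set.disjoint_left]
    rintro _ ⟨x, rfl⟩ ⟨y, hy⟩
    obtain ⟨χ, hχ⟩ := hcon (y⁻¹ * x)
    apply hχ
    have h1 : χ.1 y * h χ = χ.1 x * 1 := congrFun hy χ
    rw [map_mul, map_inv, inv_mul_eq_iff_eq_mul, h1, mul_one]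
  obtain ⟨f, hf0, hf1, -⟩ := exists_continuous_zero_one_of_isClosed
    (isCompact_range (hc 1)).isClosed (isCompact_range (hc h)).isClosed hdisj
  have h1 := hall ⟨fun ω => (f ω : ℂ), Complex.continuous_ofReal.comp f.continuous⟩
  rw [hΦ, hΦ] at h1
  have h2 : ∀ x, f (c 1 x) = 0 := fun x => hf0 ⟨x, rfl⟩
  have h3 : ∀ x, f (c h x) = 1 := fun x => hf1 ⟨x, rfl⟩
  simp only [ContinuousMap.coe_mk, h2, h3, Complex.ofReal_zero, Complex.ofReal_one,
    integral_zero, integral_const, smul_eq_zero, one_ne_zero, or_false] at h1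
  rw [measureReal_eq_zero_iff] at h1
  exact (isOpen_univ.measure_pos μ Set.univ_nonempty).ne' h1

end Pool.Agent.H567Z.Dual
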