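import Mathlib
import Pool.Agent.Helper183.Gar.Mean

/-! A Folner-type lemma: a syndetic subset `T` of an abelian group gives a totally bounded
seminorm whose small ball lies in `T - T - (T - T)`. -/

set_option autoImplicit false

namespace Pool.Agent.H567Z.PS

open Filter Topology Gardner
open scoped InnerProductSpace

universe u

theorem hs_ultra {V V' : Type u} [SeminormedAddCommGroup V] [InnerProductSpace ℝ V]
    [SeminormedAddCommGroup V'] [NormedSpace ℝ V'] (Φ : V →ₗ[ℝ] V')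
    (hb : ∀ (r : ℕ) (e : Fin r → V), Orthonormal ℝ e → ∑ i, ‖Φ (e i)‖ ^ 2 ≤ 1)
    (hn : ∀ v, ‖Φ v‖ ≤ ‖v‖) (v : ℕ → V) (hv : ∀ n, ‖v n‖ ≤ 1) (𝒲 : Ultrafilter ℕ) {δ : ℝ}
    (hδ : 0 < δ) : ∃ S ∈ 𝒲, ∀ n ∈ S, ∀ m ∈ S, ‖Φ (v n - v m)‖ ≤ 4 * δ := by
  classical
  -- a maximal orthonormal family with large image
  have hbd : ∀ (r : ℕ), (∃ e : Fin r → V, Orthonormal ℝ e ∧ ∀ i, δ < ‖Φ (e i)‖) →
      r ≤ ⌈1 / δ ^ 2⌉₊ := by
    rintro r ⟨e, he, he2⟩
    have h1 : ∑ _i : Fin r, δ ^ 2 ≤ ∑ i, ‖Φ (e i)‖ ^ 2 :=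
      Finset.sum_le_sum fun i _ => pow_le_pow_left₀ hδ.le (he2 i).le 2
    have h2 := h1.trans (hb r e he)
    rw [Finset.sum_const, Finset.card_univ, Fintype.card_fin, nsmul_eq_mul] at h2
    have h3 : (r : ℝ) ≤ 1 / δ ^ 2 := by
      rw [le_div_iff₀ (by positivity)]
      exact h2
    exact_mod_cast h3.trans (Nat.le_ceil _)
  let P : ℕ → Prop := fun r => ∃ e : Fin r → V, Orthonormal ℝ e ∧ ∀ i, δ < ‖Φ (e i)‖
  have hP0 : P 0 := ⟨Fin.elim0, ⟨fun i => i.elim0, fun i => i.elim0⟩, fun i => i.elim0⟩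
  obtain ⟨r, ⟨e, he, he2⟩, hmax⟩ : ∃ r, P r ∧ ¬ P (r + 1) := by
    refine ⟨Nat.findGreatest P ⌈1 / δ ^ 2⌉₊, Nat.findGreatest_spec (Nat.zero_le _) hP0, ?_⟩
    intro h
    exact Nat.findGreatest_is_greatest (Nat.lt_succ_self _) (hbd _ h) h
  have hperp : ∀ w : V, (∀ i, ⟪e i, w⟫_ℝ = 0) → ‖Φ w‖ ≤ δ * ‖w‖ := by
    intro w hw
    rcases (norm_nonneg w).eq_or_lt with h0 | h0
    · rw [← h0, mul_zero, h0]
      exact hn w
    · by_contra hcon
      push Not at hcon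
      apply hmax
      refine ⟨Matrix.vecCons (‖w‖⁻¹ • w) e, ?_, ?_⟩
      · rw [orthonormal_vecCons_iff]
        refine ⟨?_, fun i => ?_, he⟩
        · rw [norm_smul, norm_inv, norm_norm, inv_mul_cancel₀ h0.ne']
        · rw [inner_smul_left, real_inner_comm, hw i, mul_zero]
      · intro i
        refine Fin.cases ?_ (fun j => ?_) i
        · rw [Matrix.cons_val_zero, map_smul, norm_smul, norm_inv, norm_norm,
            lt_inv_mul_iff₀ h0, mul_comm]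
          exact hcon
        · rw [Matrix.cons_val_succ]
          exact he2 j
  -- coordinates converge along the ultrafilter
  have hco : ∀ i : Fin r, ∃ S ∈ 𝒲, ∀ n ∈ S, ∀ m ∈ S,
      |⟪e i, v n - v m⟫_ℝ| ≤ 2 * (δ / (r + 1)) := by
    intro i
    have hmem : Set.Icc (-1 : ℝ) 1 ∈ (𝒲.map (fun n => ⟪e i, v n⟫_ℝ) : Filter ℝ) := by
      rw [Ultrafilter.coe_map, Filter.mem_map]
      refine Eventually.of_forall fun n => abs_le.1 ?_
      refine (abs_real_inner_le_norm _ _).trans ?_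
      rw [he.1 i, one_mul]
      exact hv n
    obtain ⟨l, -, hl⟩ := isCompact_Icc.ultrafilter_le_nhds' (𝒲.map (fun n => ⟪e i, v n⟫_ℝ)) hmem
    have hl' : Tendsto (fun n => ⟪e i, v n⟫_ℝ) 𝒲 (𝓝 l) := hl
    have h1 := hl'.eventually (Metric.closedBall_mem_nhds l (show 0 < δ / (r + 1) by positivity))
    refine ⟨_, h1, fun n hn' m hm => ?_⟩
    have h2 : |⟪e i, v n⟫_ℝ - l| ≤ δ / (r + 1) := hn'
    have h3 : |⟪e i, v m⟫_ℝ - l| ≤ δ / (r + 1) := hm
    rw [inner_sub_right]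
    rw [abs_le] at h2 h3 ⊢
    constructor <;> linarith [h2.1, h2.2, h3.1, h3.2]
  choose S hS hS2 using hco
  refine ⟨⋂ i, S i, Filter.iInter_mem.2 hS, fun n hn' m hm => ?_⟩
  rw [Set.mem_iInter] at hn' hm
  set w := v n - v m with hw
  set p : V := ∑ i, ⟪e i, w⟫_ℝ • e i with hp
  have h1 : ∀ i, ⟪e i, w - p⟫_ℝ = 0 := by
    intro i
    rw [inner_sub_right, hp, he.inner_right_fintype, sub_self]
  have h2 : ⟪p, w - p⟫_ℝ = 0 := by
    rw [hp, sum_inner]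
    refine Finset.sum_eq_zero fun i _ => ?_
    rw [inner_smul_left, ← hp, h1 i, mul_zero]
  have h3 : ‖w - p‖ ≤ 2 := by
    have h4 := norm_add_sq_eq_norm_sq_add_norm_sq_real h2
    rw [add_sub_cancel] at h4
    have h5 : ‖w‖ ≤ 2 := (norm_sub_le _ _).trans (by linarith [hv n, hv m])
    nlinarith [norm_nonneg w, norm_nonneg p, norm_nonneg (w - p)]
  have h6 : ‖Φ p‖ ≤ 2 * δ := by
    rw [hp, map_sum]
    refine (norm_sum_le _ _).trans ?_
    have h7 : ∀ i ∈ (Finset.univ : Finset (Fin r)), ‖Φ (⟪e i, w⟫_ℝ • e i)‖ ≤ 2 * (δ / (r + 1)) := by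
      intro i _
      rw [map_smul, norm_smul, Real.norm_eq_abs]
      have h8 := hn (e i)
      rw [he.1 i] at h8
      calc |⟪e i, w⟫_ℝ| * ‖Φ (e i)‖ ≤ 2 * (δ / (r + 1)) * 1 :=
            mul_le_mul (hS2 i n (hn' i) m (hm i)) h8 (norm_nonneg _) (by positivity)
        _ = 2 * (δ / (r + 1)) := mul_one _
    refine (Finset.sum_le_sum h7).trans ?_
    rw [Finset.sum_const, Finset.card_univ, Fintype.card_fin, nsmul_eq_mul]
    have h9 : (r : ℝ) * (δ / (r + 1)) ≤ δ := by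
      rw [← mul_div_assoc, div_le_iff₀ (by positivity)]
      nlinarith
    linarith
  have h10 : Φ w = Φ p + Φ (w - p) := by rw [← map_add, add_sub_cancel]
  rw [h10]
  refine (norm_add_le _ _).trans ?_
  have h11 := (hperp _ h1).trans (mul_le_mul_of_nonneg_left h3 hδ.le)
  linarith

/-- bounded real functions -/
def BF (A : Type u) : Type u := {f : A → ℝ // Bdd f}

/-- bounded real functions as a submodule -/
def bddSub (A : Type u) : Submodule ℝ (A → ℝ) where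
  carrier := {f | Bdd f}
  add_mem' := fun hf hg => Bdd.add' hf hg
  zero_mem' := ⟨0, fun _ => by simp⟩
  smul_mem' := by
    rintro c f ⟨C, hC⟩
    refine ⟨|c| * C, fun x => ?_⟩
    rw [Pi.smul_apply, smul_eq_mul, abs_mul]
    exact mul_le_mul_of_nonneg_left (hC x) (abs_nonneg c)

instance (A : Type u) : AddCommGroup (BF A) := inferInstanceAs (AddCommGroup (bddSub A))

instance (A : Type u) : Module ℝ (BF A) := inferInstanceAs (Module ℝ (bddSub A))

theorem bdd_mul {A : Type u} {f g : A → ℝ} (hf : Bdd f) (hg : Bdd g) :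
    Bdd (fun x => f x * g x) := by
  obtain ⟨C, hC⟩ := hf
  obtain ⟨D, hD⟩ := hg
  refine ⟨C * D, fun x => ?_⟩
  rw [abs_mul]
  exact mul_le_mul (hC x) (hD x) (abs_nonneg _) ((abs_nonneg _).trans (hC x))

theorem exists_linMean (A : Type u) [AddCommGroup A] :
    ∃ M : BF A →ₗ[ℝ] ℝ, (∀ f : BF A, (∀ x, 0 ≤ f.1 x) → 0 ≤ M f) ∧
      (∀ f : BF A, (∀ x, f.1 x = 1) → M f = 1) ∧
      ∀ (f g : BF A) (a : A), (∀ x, g.1 x = f.1 (a + x)) → M g = M f := by
  obtain ⟨M, h1, h2, h3, h4, h5⟩ := exists_mean A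
  have hs : ∀ (c : ℝ) (f : BF A), M (c • f).1 = c * M f.1 := by
    intro c f
    obtain ⟨C, hC⟩ := f.2
    let g : ℝ →+ ℝ := AddMonoidHom.mk' (fun t => M (t • f).1) (fun s t => by
      rw [add_smul]
      exact h1 _ _ (s • f).2 (t • f).2)
    have hg : Continuous g := by
      apply AddMonoidHomClass.continuous_of_bound g C
      intro t
      apply h4
      intro x
      show |t * f.1 x| ≤ C * |t|
      rw [abs_mul, mul_comm]
      exact mul_le_mul_of_nonneg_right (hC x) (abs_nonneg t)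
    have h6 := map_real_smul g hg c 1
    rw [smul_eq_mul, mul_one, smul_eq_mul] at h6
    have h7 : g 1 = M f.1 := by
      show M ((1 : ℝ) • f).1 = _
      rw [one_smul]
    rw [← h7]
    exact h6
  refine ⟨⟨⟨fun f => M f.1, fun f g => h1 _ _ f.2 g.2⟩, hs⟩, fun f hf => h2 _ f.2 hf,
    fun f hf => ?_, fun f g a h => ?_⟩
  · show M f.1 = 1
    rw [← h3]
    congr 1
    exact funext hf
  · show M g.1 = M f.1
    rw [← h5 f.1 a f.2]
    congr 1
    exact funext h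

/-- product of bounded functions -/
def BF.mul {A : Type u} (f g : BF A) : BF A := ⟨fun x => f.1 x * g.1 x, bdd_mul f.2 g.2⟩

/-- translation of bounded functions -/
def BF.tr {A : Type u} [AddCommGroup A] (a : A) : BF A →ₗ[ℝ] BF A where
  toFun f := ⟨fun x => f.1 (a + x), f.2.tr a⟩
  map_add' _ _ := rfl
  map_smul' _ _ := rfl

theorem folner {A : Type u} [AddCommGroup A] (T : Set A) (F : Finset A)
    (hT : ∀ x, ∃ f ∈ F, -f + x ∈ T) :
    ∃ (ρ : A → ℝ) (κ : ℝ), 0 < κ ∧ (∀ a b, ρ (a + b) ≤ ρ a + ρ b) ∧ (∀ a, ρ (-a) = ρ a) ∧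
      ρ 0 = 0 ∧ (∀ a, 0 ≤ ρ a) ∧
      (∀ b, ρ b < κ → ∃ t₁ ∈ T, ∃ t₂ ∈ T, ∃ t₃ ∈ T, ∃ t₄ ∈ T, b = t₁ - t₂ - (t₃ - t₄)) ∧
      ∀ (x : ℕ → A) (𝒲 : Ultrafilter ℕ) (ε : ℝ), 0 < ε →
        ∃ S ∈ 𝒲, ∀ n ∈ S, ∀ m ∈ S, ρ (x n - x m) ≤ ε := by
  classical
  obtain ⟨M, hM0, hM1, hMt⟩ := exists_linMean A
  have hmono : ∀ f g : BF A, (∀ x, f.1 x ≤ g.1 x) → M f ≤ M g := by
    intro f g h
    have h1 := hM0 (g - f) (fun x => sub_nonneg.2 (h x))
    rw [map_sub] at h1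
    linarith
  let one : BF A := ⟨fun _ => 1, 1, fun _ => by simp⟩
  have hone : M one = 1 := hM1 one fun _ => rfl
  have hle : ∀ (f : BF A) (C : ℝ), (∀ x, f.1 x ≤ C) → M f ≤ C := by
    intro f C h
    have h1 := hmono f (C • one) (fun x => by
      show f.1 x ≤ C * 1
      rw [mul_one]
      exact h x)
    rwa [map_smul, hone, smul_eq_mul, mul_one] at h1
  let cd : PreInnerProductSpace.Core ℝ (BF A) :=
    { inner := fun f g => M (f.mul g)
      conj_inner_symm := fun f g => by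
        show M (g.mul f) = M (f.mul g)
        congr 1
        exact Subtype.ext (funext fun x => mul_comm _ _)
      re_inner_nonneg := fun f => hM0 _ fun x => mul_self_nonneg _
      add_left := fun f g h => by
        show M ((f + g).mul h) = M (f.mul h) + M (g.mul h)
        rw [← map_add]
        congr 1
        exact Subtype.ext (funext fun x => add_mul _ _ _)
      smul_left := fun f g r => by
        show M ((r • f).mul g) = r * M (f.mul g)
        rw [← smul_eq_mul, ← map_smul]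
        congr 1
        exact Subtype.ext (funext fun x => mul_assoc _ _ _) }
  let _ : SeminormedAddCommGroup (BF A) :=
    InnerProductSpace.Core.toSeminormedAddCommGroup (𝕜 := ℝ) (c := cd)
  let _ : InnerProductSpace ℝ (BF A) := InnerProductSpace.ofCore cd
  have hin : ∀ f g : BF A, ⟪f, g⟫_ℝ = M (f.mul g) := fun _ _ => rfl
  have hnorm : ∀ (f : BF A) (C : ℝ), 0 ≤ C → (∀ x, |f.1 x| ≤ C) → ‖f‖ ≤ C := by
    intro f C hC h
    have h1 : ‖f‖ ^ 2 ≤ C ^ 2 := by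
      rw [← real_inner_self_eq_norm_sq, hin]
      apply hle
      intro x
      show f.1 x * f.1 x ≤ C ^ 2
      have := abs_le.1 (h x)
      nlinarith
    exact (pow_le_pow_iff_left₀ (norm_nonneg _) hC two_ne_zero).1 h1
  have htr : ∀ (a b : A) (f g : BF A), ⟪BF.tr a f, BF.tr b g⟫_ℝ = ⟪f, BF.tr (b - a) g⟫_ℝ := by
    intro a b f g
    rw [hin, hin]
    apply hMt _ _ a
    intro x
    show f.1 (a + x) * g.1 (b + x) = f.1 (a + x) * g.1 (b - a + (a + x))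
    congr 2
    abel
  have htr0 : ∀ f : BF A, BF.tr 0 f = f := fun f => Subtype.ext (funext fun x => by
    show f.1 (0 + x) = f.1 x
    rw [zero_add])
  have htrtr : ∀ (a b : A) (f : BF A), BF.tr a (BF.tr b f) = BF.tr (a + b) f := fun a b f =>
    Subtype.ext (funext fun x => by
      show f.1 (b + (a + x)) = f.1 (a + b + x)
      congr 1
      abel)
  have hiso : ∀ (a : A) (f : BF A), ‖BF.tr a f‖ = ‖f‖ := by
    intro a f
    have h1 : ‖BF.tr a f‖ ^ 2 = ‖f‖ ^ 2 := by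
      rw [← real_inner_self_eq_norm_sq, ← real_inner_self_eq_norm_sq, htr, sub_self, htr0]
    exact (pow_left_inj₀ (norm_nonneg _) (norm_nonneg _) two_ne_zero).1 h1
  let ξ : BF A := ⟨fun x => if x ∈ T then 1 else 0, 1, fun x => by
    dsimp only
    split_ifs <;> simp⟩
  have hξ : ∀ x, ξ.1 x = if x ∈ T then 1 else 0 := fun _ => rfl
  have hξ1 : ‖ξ‖ ≤ 1 := hnorm ξ 1 zero_le_one fun x => by
    rw [hξ]
    split_ifs <;> simp
  have hΦb : ∀ (v : BF A) (y : A), |⟪v, BF.tr y ξ⟫_ℝ| ≤ ‖v‖ := by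
    intro v y
    refine (abs_real_inner_le_norm _ _).trans ?_
    rw [hiso]
    exact mul_le_of_le_one_right (norm_nonneg _) hξ1
  let Φ : BF A →ₗ[ℝ] BF A :=
    { toFun := fun v => ⟨fun y => ⟪v, BF.tr y ξ⟫_ℝ, ‖v‖, hΦb v⟩
      map_add' := fun v w => Subtype.ext (funext fun y => inner_add_left _ _ _)
      map_smul' := fun c v => Subtype.ext (funext fun y => real_inner_smul_left _ _ _) }
  have hΦ : ∀ v y, (Φ v).1 y = ⟪v, BF.tr y ξ⟫_ℝ := fun _ _ => rfl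
  have hΦtr : ∀ b : A, Φ (BF.tr b ξ) = BF.tr (-b) (Φ ξ) := by
    intro b
    refine Subtype.ext (funext fun y => ?_)
    show ⟪BF.tr b ξ, BF.tr y ξ⟫_ℝ = ⟪ξ, BF.tr (-b + y) ξ⟫_ℝ
    rw [htr, neg_add_eq_sub]
  have hsumv : ∀ {ι : Type u} (s : Finset ι) (f : ι → BF A) (x : A),
      (∑ i ∈ s, f i).1 x = ∑ i ∈ s, (f i).1 x := by
    intro ι s f x
    induction s using Finset.induction_on with
    | empty => rfl
    | insert a s ha ih =>
      rw [Finset.sum_insert ha, Finset.sum_insert ha, ← ih]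
      rfl
  have hbes : ∀ (r : ℕ) (e : Fin r → BF A), Orthonormal ℝ e → ∑ i, ‖Φ (e i)‖ ^ 2 ≤ 1 := by
    intro r e he
    have h1 : ∑ i, ‖Φ (e i)‖ ^ 2 =
        M (∑ i : ULift.{u} (Fin r), (Φ (e i.down)).mul (Φ (e i.down))) := by
      rw [map_sum]
      refine Fintype.sum_equiv Equiv.ulift.symm _ _ fun i => ?_
      rw [← real_inner_self_eq_norm_sq, hin]
      rfl
    rw [h1]
    apply hle
    intro y
    rw [hsumv]
    have h2 := he.sum_inner_products_le (BF.tr y ξ) (s := Finset.univ)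
    rw [hiso] at h2
    have h3 : ∑ i : ULift.{u} (Fin r), ((Φ (e i.down)).mul (Φ (e i.down))).1 y =
        ∑ i, ‖⟪e i, BF.tr y ξ⟫_ℝ‖ ^ 2 := by
      refine Fintype.sum_equiv Equiv.ulift _ _ fun i => ?_
      rw [Real.norm_eq_abs, sq_abs, sq]
      rfl
    rw [h3]
    nlinarith [norm_nonneg ξ]
  have hΦn : ∀ v, ‖Φ v‖ ≤ ‖v‖ := fun v => hnorm _ _ (norm_nonneg _) (hΦb v)
  have hcover : ∀ x : A, 1 ≤ (∑ f ∈ F, BF.tr (-f) ξ).1 x := by
    intro x
    rw [hsumv]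
    obtain ⟨f, hf, hx⟩ := hT x
    have h1 : (BF.tr (-f) ξ).1 x = 1 := if_pos hx
    rw [← h1]
    refine Finset.single_le_sum (f := fun f => (BF.tr (-f) ξ).1 x) (fun g _ => ?_) hf
    show 0 ≤ ξ.1 _
    rw [hξ]
    split_ifs <;> simp
  have hMtr : ∀ (a : A) (f : BF A), M (BF.tr a f) = M f := fun a f => hMt _ _ a fun _ => rfl
  have ha : 0 < M ξ := by
    have h1 := hmono one _ hcover
    rw [hone, map_sum] at h1
    simp only [hMtr, Finset.sum_const, nsmul_eq_mul] at h1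
    by_contra hcon
    push Not at hcon
    nlinarith [Nat.cast_nonneg (α := ℝ) F.card]
  have hφ : 0 < ‖Φ ξ‖ := by
    have h1 : ∀ y, ((M ξ) • one).1 y ≤ (∑ f ∈ F, BF.tr (-f) (Φ ξ)).1 y := by
      intro y
      rw [hsumv]
      have h2 : ∑ f ∈ F, (BF.tr (-f) (Φ ξ)).1 y = ⟪ξ, BF.tr y (∑ f ∈ F, BF.tr (-f) ξ)⟫_ℝ := by
        rw [map_sum, inner_sum]
        refine Finset.sum_congr rfl fun f _ => ?_
        rw [htrtr, add_comm y]
        rfl
      rw [h2, hin]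
      show M ξ * 1 ≤ _
      rw [mul_one]
      apply hmono
      intro x
      show ξ.1 x ≤ ξ.1 x * (∑ f ∈ F, BF.tr (-f) ξ).1 (y + x)
      refine le_mul_of_one_le_right ?_ (hcover _)
      rw [hξ]
      split_ifs <;> simp
    have h3 := hmono _ _ h1
    rw [map_smul, hone, map_sum] at h3
    simp only [hMtr, Finset.sum_const, nsmul_eq_mul, smul_eq_mul, mul_one] at h3
    have h4 : M (Φ ξ) = ⟪Φ ξ, one⟫_ℝ := by
      rw [hin]
      congr 1
      exact Subtype.ext (funext fun x => (mul_one _).symm)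
    have h5 := real_inner_le_norm (Φ ξ) one
    rcases (norm_nonneg (Φ ξ)).eq_or_lt with h0 | h0
    · rw [← h0, zero_mul, ← h4] at h5
      nlinarith [Nat.cast_nonneg (α := ℝ) F.card]
    · exact h0
  have hsupp : ∀ y, (Φ ξ).1 y ≠ 0 → ∃ t ∈ T, ∃ t' ∈ T, y = t - t' := by
    intro y hy
    by_contra hcon
    apply hy
    rw [hΦ, hin]
    have h1 : ξ.mul (BF.tr y ξ) = 0 := by
      refine Subtype.ext (funext fun x => ?_)
      show ξ.1 x * ξ.1 (y + x) = 0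
      rw [hξ, hξ]
      split_ifs with h1 h2
      · exact absurd ⟨y + x, h2, x, h1, by abel⟩ hcon
      · simp
      · simp
      · simp
    rw [h1, map_zero]
  refine ⟨fun b => ‖BF.tr (-b) (Φ ξ) - Φ ξ‖, ‖Φ ξ‖, hφ, fun a b => ?_, fun a => ?_, ?_,
    fun a => norm_nonneg _, fun b hb => ?_, fun x 𝒲 ε hε => ?_⟩
  · have e : BF.tr (-(a + b)) (Φ ξ) - Φ ξ =
        (BF.tr (-a) (Φ ξ) - Φ ξ) + BF.tr (-a) (BF.tr (-b) (Φ ξ) - Φ ξ) := by
      rw [map_sub, htrtr, neg_add]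
      abel
    show ‖BF.tr (-(a + b)) (Φ ξ) - Φ ξ‖ ≤ _
    rw [e]
    refine (norm_add_le _ _).trans ?_
    rw [hiso]
  · show ‖BF.tr (- -a) (Φ ξ) - Φ ξ‖ = ‖BF.tr (-a) (Φ ξ) - Φ ξ‖
    rw [← hiso (-a), map_sub, htrtr, add_neg_cancel, htr0, norm_sub_rev]
  · show ‖BF.tr (-0) (Φ ξ) - Φ ξ‖ = 0
    rw [neg_zero, htr0, sub_self, norm_zero]
  · have hb' : ‖BF.tr (-b) (Φ ξ) - Φ ξ‖ < ‖Φ ξ‖ := hb
    have h1 : 0 < ⟪Φ ξ, BF.tr (-b) (Φ ξ)⟫_ℝ := by
      have h2 := abs_le.1 (abs_real_inner_le_norm (Φ ξ) (BF.tr (-b) (Φ ξ) - Φ ξ))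
      rw [inner_sub_right, real_inner_self_eq_norm_sq] at h2
      nlinarith [h2.1]
    have h3 : ∃ y, (Φ ξ).1 y * (Φ ξ).1 (-b + y) ≠ 0 := by
      by_contra hcon
      push Not at hcon
      have h4 : (Φ ξ).mul (BF.tr (-b) (Φ ξ)) = 0 := Subtype.ext (funext hcon)
      rw [hin, h4, map_zero] at h1
      exact lt_irrefl _ h1
    obtain ⟨y, hy⟩ := h3
    obtain ⟨t₁, h₁, t₂, h₂, e1⟩ := hsupp _ (left_ne_zero_of_mul hy)
    obtain ⟨t₃, h₃, t₄, h₄, e2⟩ := hsupp _ (right_ne_zero_of_mul hy)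
    refine ⟨t₁, h₁, t₂, h₂, t₃, h₃, t₄, h₄, ?_⟩
    rw [← e1, ← e2]
    abel
  · obtain ⟨S, hS, hS2⟩ := hs_ultra Φ hbes hΦn (fun n => BF.tr (x n) ξ)
      (fun n => by rw [hiso]; exact hξ1) 𝒲 (show 0 < ε / 4 by positivity)
    refine ⟨S, hS, fun n hn m hm => ?_⟩
    have h1 := hS2 n hn m hm
    rw [map_sub, hΦtr, hΦtr, ← hiso (x m), map_sub, htrtr, htrtr, add_neg_cancel, htr0] at h1
    show ‖BF.tr (-(x n - x m)) (Φ ξ) - Φ ξ‖ ≤ ε
    rw [neg_sub, sub_eq_add_neg (x m)]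
    linarith

end Pool.Agent.H567Z.PS
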