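import Mathlib
import Pool.Agent.H567Z.PS1
import Pool.Agent.H567Z.Compl2

/-! Tools for the Prodanov-Stoyanov theorem. -/

set_option autoImplicit false

namespace Pool.Agent.H567Z.PS

open Filter Topology

universe u

section Alg

variable {A : Type u} [AddCommGroup A]

/-- piecewise syndetic sets -/
def PwS (T : Set A) : Prop :=
  ∃ F : Finset A, ∀ D : Finset A, ∃ x, ∀ d ∈ D, ∃ f ∈ F, x + d - f ∈ T

theorem pwS_univ : PwS (Set.univ : Set A) := ⟨{0}, fun _ => ⟨0, fun _ _ => ⟨0, by simp, trivial⟩⟩⟩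

theorem not_pwS_empty : ¬ PwS (∅ : Set A) := by
  rintro ⟨F, hF⟩
  obtain ⟨x, hx⟩ := hF {0}
  obtain ⟨f, -, hf⟩ := hx 0 (by simp)
  exact hf

theorem PwS.union {S T : Set A} (h : PwS (S ∪ T)) : PwS S ∨ PwS T := by
  classical
  obtain ⟨F, hF⟩ := h
  by_cases hS : PwS S
  · exact Or.inl hS
  · right
    have h1 : ∃ E : Finset A, ∀ x, ∃ e ∈ E, ∀ f ∈ F, x + e - f ∉ S := by
      by_contra hcon
      push Not at hcon
      exact hS ⟨F, hcon⟩
    obtain ⟨E, hE⟩ := h1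
    refine ⟨Finset.image₂ (fun f e => f - e) F E, fun D => ?_⟩
    obtain ⟨x, hx⟩ := hF (Finset.image₂ (fun d e => d + e) D E)
    refine ⟨x, fun d hd => ?_⟩
    obtain ⟨e, he, he2⟩ := hE (x + d)
    obtain ⟨f, hf, hf2⟩ := hx (d + e) (Finset.mem_image₂_of_mem hd he)
    refine ⟨f - e, Finset.mem_image₂_of_mem hf he, ?_⟩
    have e1 : x + d - (f - e) = x + (d + e) - f := by abel
    rw [e1]
    rcases hf2 with h | h
    · rw [← add_assoc] at h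
      exact absurd h (he2 f hf)
    · exact h

theorem PwS.diff {T : Set A} (h : PwS T) :
    ∃ F : Finset A, ∀ z, ∃ f ∈ F, ∃ t ∈ T, ∃ t' ∈ T, z = f + (t - t') := by
  classical
  obtain ⟨F, hF⟩ := h
  refine ⟨Finset.image₂ (fun f e => f - e) F F, fun z => ?_⟩
  obtain ⟨x, hx⟩ := hF {0, z}
  obtain ⟨f₁, h₁, h₂⟩ := hx 0 (by simp)
  obtain ⟨f₂, h₃, h₄⟩ := hx z (by simp)
  exact ⟨f₂ - f₁, Finset.mem_image₂_of_mem h₃ h₁, _, h₄, _, h₂, by abel⟩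

theorem exists_avoid {ι : Type u} {s : Set ι} (hs : s.Finite) (T : ι → Set A)
    (h : ∀ i ∈ s, ¬ PwS (T i)) : ∃ x, ∀ i ∈ s, x ∉ T i := by
  have h1 : ¬ PwS (⋃ i ∈ s, T i) := by
    induction s, hs using Set.Finite.induction_on with
    | empty => simpa using not_pwS_empty
    | @insert a s _ _ ih =>
      rw [Set.biUnion_insert]
      intro h2
      rcases h2.union with h3 | h3
      · exact h a (Set.mem_insert _ _) h3
      · exact ih (fun i hi => h i (Set.mem_insert_of_mem _ hi)) h3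
  by_contra hcon
  push Not at hcon
  apply h1
  have h2 : (⋃ i ∈ s, T i) = Set.univ := by
    rw [Set.eq_univ_iff_forall]
    intro x
    obtain ⟨i, hi, hx⟩ := hcon x
    exact Set.mem_biUnion hi hx
  rw [h2]
  exact pwS_univ

/-- `c A` is covered by finitely many translates of `d A + W` -/
def Pc (d c : ℤ) (W : Set A) : Prop :=
  ∃ F : Finset A, ∀ a : A, ∃ f ∈ F, ∃ b : A, c • a - f - d • b ∈ W

theorem Pc.mono {d c : ℤ} {W W' : Set A} (h : Pc d c W) (hW : W ⊆ W') : Pc d c W' := by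
  obtain ⟨F, hF⟩ := h
  refine ⟨F, fun a => ?_⟩
  obtain ⟨f, hf, b, hb⟩ := hF a
  exact ⟨f, hf, b, hW hb⟩

theorem Pc.trans {e d c : ℤ} {W W' : Set A} (h : Pc d c W) (h' : Pc e d W)
    (hW : ∀ a ∈ W, ∀ b ∈ W, a - b ∈ W') : Pc e c W' := by
  classical
  obtain ⟨F, hF⟩ := h
  obtain ⟨F', hF'⟩ := h'
  refine ⟨Finset.image₂ (fun f e => f - e) F F', fun a => ?_⟩
  obtain ⟨f, hf, b, hb⟩ := hF a
  obtain ⟨f', hf', b', hb'⟩ := hF' (-b)
  refine ⟨f - f', Finset.mem_image₂_of_mem hf hf', -b', ?_⟩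
  have h1 := hW _ hb _ hb'
  have e1 : c • a - (f - f') - e • -b' = c • a - f - d • b - (d • -b - f' - e • b') := by
    simp only [smul_neg]
    abel
  rw [e1]
  exact h1

theorem Pc.emod {d c : ℤ} {W : Set A} (h : Pc d c W) : Pc d (c % d) W := by
  obtain ⟨F, hF⟩ := h
  refine ⟨F, fun a => ?_⟩
  obtain ⟨f, hf, b, hb⟩ := hF a
  refine ⟨f, hf, b - (c / d) • a, ?_⟩
  have e1 : (c % d) • a - f - d • (b - (c / d) • a) = c • a - f - d • b := by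
    conv_rhs => rw [← Int.emod_add_mul_ediv c d]
    rw [add_smul, smul_sub, mul_smul]
    abel
  rw [e1]
  exact hb

theorem Pc.natAbs {d c : ℤ} {W : Set A} (h : Pc d c W) : Pc d (c.natAbs : ℤ) W := by
  rcases Int.natAbs_eq c with h1 | h1
  · rw [← h1]
    exact h
  · obtain ⟨F, hF⟩ := h
    refine ⟨F, fun a => ?_⟩
    obtain ⟨f, hf, b, hb⟩ := hF (-a)
    refine ⟨f, hf, b, ?_⟩
    rw [h1, neg_smul, smul_neg, neg_neg] at hb
    exact hb

theorem pc_self (d : ℤ) {W : Set A} (h0 : (0 : A) ∈ W) : Pc d d W :=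
  ⟨{0}, fun a => ⟨0, by simp, a, by simpa using h0⟩⟩

theorem not_pwS_of_not_pc {d c : ℤ} {W W' : Set A} (h : ¬ Pc d c W')
    (hW : ∀ a ∈ W, ∀ b ∈ W, a - b ∈ W') (g : A) :
    ¬ PwS {x : A | ∃ b : A, g + c • x - d • b ∈ W} := by
  classical
  intro h1
  obtain ⟨F, hF⟩ := h1.diff
  apply h
  refine ⟨F.image (fun f => c • f), fun a => ?_⟩
  obtain ⟨f, hf, t, ⟨b, hb⟩, t', ⟨b', hb'⟩, rfl⟩ := hF a
  refine ⟨c • f, Finset.mem_image_of_mem _ hf, b - b', ?_⟩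
  have h2 := hW _ hb _ hb'
  have e1 : c • (f + (t - t')) - c • f - d • (b - b') =
      g + c • t - d • b - (g + c • t' - d • b') := by
    rw [smul_add, smul_sub, smul_sub]
    abel
  rw [e1]
  exact h2

theorem finite_comb (y : ℕ → A) (B : ℤ) (m : ℕ) :
    {g : A | ∃ c : ℕ → ℤ, (∀ n < m, |c n| ≤ B) ∧ g = ∑ n ∈ Finset.range m, c n • y n}.Finite := by
  induction m with
  | zero =>
    refine (Set.finite_singleton 0).subset ?_
    rintro _ ⟨c, -, rfl⟩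
    simp
  | succ m ih =>
    refine (ih.image2 (fun g k => g + k • y m) (Set.finite_Icc (-B) B)).subset ?_
    rintro _ ⟨c, hc, rfl⟩
    refine ⟨_, ⟨c, fun n hn => hc n (by omega), rfl⟩, c m, abs_le.1 (hc m (by omega)), ?_⟩
    rw [Finset.sum_range_succ]

theorem exists_seq_rec {α : Type u} [Inhabited α] (P : ℕ → (ℕ → α) → α → Prop)
    (h : ∀ m y, ∃ z, P m y z)
    (hc : ∀ m y y' z, (∀ n < m, y n = y' n) → P m y z → P m y' z) :
    ∃ x : ℕ → α, ∀ m, P m x (x m) := by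
  classical
  choose z hz using h
  let s : ℕ → (ℕ → α) := fun m =>
    Nat.rec (fun _ => default) (fun m y => Function.update y m (z m y)) m
  have hs : ∀ m, s (m + 1) = Function.update (s m) m (z m (s m)) := fun _ => rfl
  have h1 : ∀ m n, n < m → s m n = s (n + 1) n := by
    intro m
    induction m with
    | zero => intro n hn; omega
    | succ m ih =>
      intro n hn
      rcases Nat.lt_succ_iff_lt_or_eq.1 hn with h2 | rfl
      · rw [hs m, Function.update_of_ne h2.ne, ih n h2]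
      · rfl
  refine ⟨fun n => s (n + 1) n, fun m => ?_⟩
  apply hc m (s m) _ _ (h1 m)
  show P m (s m) (s (m + 1) m)
  rw [hs, Function.update_self]
  exact hz m _

theorem rho_sum {ρ : A → ℝ} (h1 : ∀ a b, ρ (a + b) ≤ ρ a + ρ b) (h2 : ∀ a, ρ (-a) = ρ a)
    (h3 : ρ 0 = 0) (s : Finset ℕ) (c : ℕ → ℤ) (y : ℕ → A) :
    ρ (∑ n ∈ s, c n • y n) ≤ ∑ n ∈ s, |(c n : ℝ)| * ρ (y n) := by
  have hn : ∀ (k : ℕ) (a : A), ρ (k • a) ≤ k * ρ a := by
    intro k a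
    induction k with
    | zero => simp [h3]
    | succ k ih =>
      rw [succ_nsmul]
      push_cast
      linarith [h1 (k • a) a]
  have hz : ∀ (k : ℤ) (a : A), ρ (k • a) ≤ |(k : ℝ)| * ρ a := by
    intro k a
    obtain ⟨n, rfl | rfl⟩ := Int.eq_nat_or_neg k
    · simpa using hn n a
    · rw [neg_smul, h2]
      simpa using hn n a
  induction s using Finset.induction_on with
  | empty => simp [h3]
  | insert a s ha ih =>
    rw [Finset.sum_insert ha, Finset.sum_insert ha]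
    linarith [h1 (c a • y a) (∑ n ∈ s, c n • y n), hz (c a) (y a)]

end Alg

section Top

variable {A : Type u} [AddCommGroup A] [τ : TopologicalSpace A] [IsTopologicalAddGroup A]

theorem coarser (𝓑 : Set (Set A)) (hne : 𝓑.Nonempty)
    (hint : ∀ B ∈ 𝓑, ∀ B' ∈ 𝓑, ∃ C ∈ 𝓑, C ⊆ B ∩ B') (h0 : ∀ B ∈ 𝓑, (0 : A) ∈ B)
    (hsub : ∀ B ∈ 𝓑, ∃ C ∈ 𝓑, ∀ a ∈ C, ∀ b ∈ C, a - b ∈ B)
    (hsep : ∀ g : A, g ≠ 0 → ∃ U ∈ 𝓝 (0 : A), ∃ B ∈ 𝓑, ∀ b ∈ B, g - b ∉ U) :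
    ∃ σ : TopologicalSpace A, @IsTopologicalAddGroup A σ _ ∧ @T2Space A σ ∧ τ ≤ σ ∧
      ∀ S : Set A, S ∈ @nhds A σ 0 ↔
        ∃ U ∈ @nhds A τ 0, ∃ B ∈ 𝓑, ∀ u ∈ U, ∀ b ∈ B, u + b ∈ S := by
  let sets : Set (Set A) := {S | ∃ U ∈ 𝓝 (0 : A), ∃ B ∈ 𝓑, ∀ u ∈ U, ∀ b ∈ B, u + b ∈ S}
  have hsub' : ∀ S ∈ sets, ∃ S' ∈ sets, ∀ a ∈ S', ∀ b ∈ S', a - b ∈ S := by
    rintro S ⟨U, hU, B, hB, hS⟩
    obtain ⟨V, hV, hV2⟩ := exists_nhds_half_neg hU
    obtain ⟨C, hC, hC2⟩ := hsub B hB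
    refine ⟨{s | ∃ u ∈ V, ∃ b ∈ C, s = u + b}, ⟨V, hV, C, hC, fun u hu b hb =>
      ⟨u, hu, b, hb, rfl⟩⟩, ?_⟩
    rintro _ ⟨u, hu, b, hb, rfl⟩ _ ⟨u', hu', b', hb', rfl⟩
    rw [add_sub_add_comm]
    exact hS _ (hV2 u hu u' hu') _ (hC2 b hb b' hb')
  have hz : ∀ S ∈ sets, (0 : A) ∈ S := by
    rintro S ⟨U, hU, B, hB, hS⟩
    have := hS 0 (mem_of_mem_nhds hU) 0 (h0 B hB)
    rwa [add_zero] at this
  let GB : AddGroupFilterBasis A := addGroupFilterBasisOfComm sets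
    (by
      obtain ⟨B, hB⟩ := hne
      exact ⟨Set.univ, Set.univ, univ_mem, B, hB, fun _ _ _ _ => trivial⟩)
    (by
      rintro S S' ⟨U, hU, B, hB, hS⟩ ⟨U', hU', B', hB', hS'⟩
      obtain ⟨C, hC, hC2⟩ := hint B hB B' hB'
      exact ⟨S ∩ S', ⟨U ∩ U', inter_mem hU hU', C, hC, fun u hu b hb =>
        ⟨hS u hu.1 b (hC2 hb).1, hS' u hu.2 b (hC2 hb).2⟩⟩, subset_rfl⟩)
    hz
    (by
      intro S hS
      obtain ⟨S₁, h1, h2⟩ := hsub' S hS
      obtain ⟨S₂, h3, h4⟩ := hsub' S₁ h1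
      refine ⟨S₂, h3, ?_⟩
      rintro _ ⟨a, ha, b, hb, rfl⟩
      have h5 := h2 _ (h4 a ha 0 (hz _ h3)) _ (h4 0 (hz _ h3) b hb)
      simpa using h5)
    (by
      intro S hS
      obtain ⟨S₁, h1, h2⟩ := hsub' S hS
      refine ⟨S₁, h1, fun a ha => ?_⟩
      have h5 := h2 0 (hz _ h1) a ha
      simpa using h5)
  have hmem : ∀ S : Set A, S ∈ @nhds A GB.topology 0 ↔ S ∈ sets := by
    intro S
    rw [GB.nhds_zero_hasBasis.mem_iff]
    constructor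
    · rintro ⟨S', ⟨U, hU, B, hB, hS⟩, h2⟩
      exact ⟨U, hU, B, hB, fun u hu b hb => h2 (hS u hu b hb)⟩
    · intro hS
      exact ⟨S, hS, subset_rfl⟩
  have hG : @IsTopologicalAddGroup A GB.topology _ := GB.isTopologicalAddGroup
  refine ⟨GB.topology, hG, ?_, ?_, hmem⟩
  · apply @IsTopologicalAddGroup.t2Space_of_zero_sep A GB.topology _ hG
    intro g hg
    obtain ⟨U, hU, B, hB, h⟩ := hsep g hg
    refine ⟨{s | ∃ u ∈ U, ∃ b ∈ B, s = u + b}, (hmem _).2 ⟨U, hU, B, hB, fun u hu b hb =>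
      ⟨u, hu, b, hb, rfl⟩⟩, ?_⟩
    rintro ⟨u, hu, b, hb, rfl⟩
    apply h b hb
    rwa [add_sub_cancel_right]
  · rw [← continuous_id_iff_le]
    refine @continuous_of_continuousAt_zero A τ _ _ A (A →+ A) _ GB.topology hG.toContinuousAdd
      _ _ (AddMonoidHom.id A) ?_
    intro S hS
    obtain ⟨U, hU, B, hB, h⟩ := (hmem S).1 hS
    refine mem_of_superset hU fun u hu => ?_
    have := h u hu 0 (h0 B hB)
    rwa [add_zero] at this

/-- `d` is saturated at the scale `W` -/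
def Good (d : ℕ) (W : Set A) : Prop := ∀ c : ℤ, ¬ (d : ℤ) ∣ c → ¬ Pc d c W

theorem exists_good {U : Set A} (hU : U ∈ 𝓝 (0 : A)) :
    ∃ d : ℕ, (∃ W ∈ 𝓝 (0 : A), Good d W) ∧ Pc 0 d U := by
  classical
  by_cases h0 : ∃ W ∈ 𝓝 (0 : A), Good 0 W
  · exact ⟨0, h0, pc_self 0 (mem_of_mem_nhds hU)⟩
  push Not at h0
  obtain ⟨U₁, hU₁, hU₁'⟩ := exists_nhds_half_neg hU
  have h1 := h0 U₁ hU₁
  unfold Good at h1
  push Not at h1
  obtain ⟨c, hc, hc2⟩ := h1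
  have hj : 0 < c.natAbs := by
    apply Int.natAbs_pos.2
    rintro rfl
    exact hc (dvd_refl _)
  have hex : ∃ e : ℕ, 0 < e ∧ ∀ W ∈ 𝓝 (0 : A), Pc (c.natAbs : ℤ) e W :=
    ⟨c.natAbs, hj, fun W hW => pc_self _ (mem_of_mem_nhds hW)⟩
  obtain ⟨hd0, hd⟩ := Nat.find_spec hex
  set d := Nat.find hex with hdd
  refine ⟨d, ?_, (hd U₁ hU₁).trans hc2.natAbs hU₁'⟩
  have h2 : ∀ r : ℕ, ∃ W ∈ 𝓝 (0 : A), 0 < r → r < d → ¬ Pc d r W := by
    intro r
    by_cases hr : 0 < r ∧ r < d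
    · have h3 := Nat.find_min hex hr.2
      push Not at h3
      obtain ⟨W, hW, hW2⟩ := h3 hr.1
      obtain ⟨W₁, hW₁, hW₁'⟩ := exists_nhds_half_neg hW
      exact ⟨W₁, hW₁, fun _ _ h4 => hW2 (h4.trans (hd W₁ hW₁) hW₁')⟩
    · exact ⟨Set.univ, univ_mem, fun h1 h2 => absurd ⟨h1, h2⟩ hr⟩
  choose W hW hW2 using h2
  refine ⟨⋂ r ∈ Finset.range d, W r, (Filter.biInter_finset_mem _).2 fun r _ => hW r, ?_⟩
  intro c' hc' h4
  have h5 : (0 : ℤ) < d := by exact_mod_cast hd0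
  have h6 := Int.emod_nonneg c' h5.ne'
  have h7 := Int.emod_lt_of_pos c' h5
  have h8 : c' % d ≠ 0 := fun h => hc' (Int.dvd_of_emod_eq_zero h)
  obtain ⟨r, hr⟩ := Int.eq_ofNat_of_zero_le h6
  have h9 := h4.emod
  rw [hr] at h7 h8 h9
  refine hW2 r (by omega) (by omega) (h9.mono fun x hx => ?_)
  exact Set.mem_iInter₂.1 hx r (Finset.mem_range.2 (by omega))

end Top

end Pool.Agent.H567Z.PS
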