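import Mathlib
import Pool.Agent.H567Z.PS2

/-! The Prodanov-Stoyanov theorem: minimal abelian groups are precompact. -/

set_option autoImplicit false

namespace Pool.Agent.H567Z.PS

open Filter Topology

universe u

/-- weighted size of a coefficient vector -/
noncomputable def Nw (l : ℕ → ℝ) (c : ℕ →₀ ℤ) : ℝ := ∑ n ∈ c.support, |(c n : ℝ)| * l n

theorem Nw_eq (l : ℕ → ℝ) (c : ℕ →₀ ℤ) {s : Finset ℕ} (hs : c.support ⊆ s) :
    Nw l c = ∑ n ∈ s, |(c n : ℝ)| * l n := by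
  apply Finset.sum_subset hs
  intro n _ hn
  rw [Finsupp.notMem_support_iff.1 hn]
  simp

theorem Nw_sub {l : ℕ → ℝ} (hl : ∀ n, 0 ≤ l n) (c c' : ℕ →₀ ℤ) :
    Nw l (c - c') ≤ Nw l c + Nw l c' := by
  rw [Nw_eq l (c - c') Finsupp.support_sub, Nw_eq l c Finset.subset_union_left,
    Nw_eq l c' Finset.subset_union_right, ← Finset.sum_add_distrib]
  refine Finset.sum_le_sum fun n _ => ?_
  rw [← add_mul]
  apply mul_le_mul_of_nonneg_right _ (hl n)
  rw [Finsupp.sub_apply]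
  push_cast
  exact abs_sub _ _

theorem Nw_mono {l l' : ℕ → ℝ} (h : ∀ n, l n ≤ l' n) (c : ℕ →₀ ℤ) : Nw l c ≤ Nw l' c :=
  Finset.sum_le_sum fun n _ => mul_le_mul_of_nonneg_left (h n) (abs_nonneg _)

theorem Nw_mul (a : ℝ) (l : ℕ → ℝ) (c : ℕ →₀ ℤ) : Nw (fun n => a * l n) c = a * Nw l c := by
  unfold Nw
  rw [Finset.mul_sum]
  exact Finset.sum_congr rfl fun n _ => by ring

theorem Nw_single {l : ℕ → ℝ} (hl : ∀ n, 0 ≤ l n) (c : ℕ →₀ ℤ) (n : ℕ) :
    |(c n : ℝ)| * l n ≤ Nw l c := by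
  rw [Nw_eq l c (Finset.subset_insert n _)]
  exact Finset.single_le_sum (f := fun n => |(c n : ℝ)| * l n)
    (fun i _ => mul_nonneg (abs_nonneg _) (hl i)) (Finset.mem_insert_self _ _)

variable {A : Type u} [AddCommGroup A]

theorem lc_eq (x : ℕ → A) (c : ℕ →₀ ℤ) {s : Finset ℕ} (hs : c.support ⊆ s) :
    Finsupp.linearCombination ℤ x c = ∑ n ∈ s, c n • x n := by
  rw [Finsupp.linearCombination_apply, Finsupp.sum]
  apply Finset.sum_subset hs
  intro n _ hn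
  rw [Finsupp.notMem_support_iff.1 hn, zero_smul]

/-- the small sets of the coarser topology -/
def Bs (x : ℕ → A) (l : ℕ → ℝ) : Set A :=
  {s | ∃ c : ℕ →₀ ℤ, Finsupp.linearCombination ℤ (fun _ => (1 : ℤ)) c = 0 ∧ Nw l c < 1 ∧
    s = Finsupp.linearCombination ℤ x c}

theorem rho_lc {ρ : A → ℝ} (h1 : ∀ a b, ρ (a + b) ≤ ρ a + ρ b) (h2 : ∀ a, ρ (-a) = ρ a)
    (h3 : ρ 0 = 0) (x : ℕ → A) (𝒲 : Ultrafilter ℕ) (l : ℕ → ℝ)
    (hl : ∀ n, Tendsto (fun m => ρ (x n - x m)) 𝒲 (𝓝 (l n))) (c : ℕ →₀ ℤ)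
    (hc : Finsupp.linearCombination ℤ (fun _ => (1 : ℤ)) c = 0) :
    ρ (Finsupp.linearCombination ℤ x c) ≤ Nw l c := by
  have h4 : Tendsto (fun m => ∑ n ∈ c.support, |(c n : ℝ)| * ρ (x n - x m)) 𝒲 (𝓝 (Nw l c)) :=
    tendsto_finsetSum _ fun n _ => (hl n).const_mul _
  refine ge_of_tendsto' h4 fun m => ?_
  refine le_trans (le_of_eq ?_) (rho_sum h1 h2 h3 c.support c (fun n => x n - x m))
  congr 1
  rw [lc_eq x c subset_rfl]
  rw [lc_eq _ c subset_rfl] at hc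
  simp only [smul_eq_mul, mul_one] at hc
  simp only [smul_sub]
  rw [Finset.sum_sub_distrib, ← Finset.sum_smul, hc, zero_smul, sub_zero]

theorem exists_ell {ρ : A → ℝ} (h1 : ∀ a b, ρ (a + b) ≤ ρ a + ρ b) (h0 : ∀ a, 0 ≤ ρ a)
    (x : ℕ → A) (𝒲 : Ultrafilter ℕ)
    (h : ∀ ε : ℝ, 0 < ε → ∃ S ∈ 𝒲, ∀ n ∈ S, ∀ m ∈ S, ρ (x n - x m) ≤ ε) :
    ∃ l : ℕ → ℝ, (∀ n, 0 ≤ l n) ∧ Tendsto l 𝒲 (𝓝 0) ∧
      ∀ n, Tendsto (fun m => ρ (x n - x m)) 𝒲 (𝓝 (l n)) := by
  have h2 : ∀ n, ∃ l : ℝ, Tendsto (fun m => ρ (x n - x m)) 𝒲 (𝓝 l) := by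
    intro n
    obtain ⟨S, hS, hS2⟩ := h 1 one_pos
    obtain ⟨m₀, hm₀⟩ := Ultrafilter.nonempty_of_mem hS
    have hmem : Set.Icc (0 : ℝ) (ρ (x n - x m₀) + 1) ∈
        (𝒲.map (fun m => ρ (x n - x m)) : Filter ℝ) := by
      rw [Ultrafilter.coe_map, Filter.mem_map]
      refine mem_of_superset hS fun m hm => ⟨h0 _, ?_⟩
      have h3 := h1 (x n - x m₀) (x m₀ - x m)
      rw [sub_add_sub_cancel] at h3
      linarith [hS2 m₀ hm₀ m hm]
    obtain ⟨l, -, hl⟩ := isCompact_Icc.ultrafilter_le_nhds' _ hmem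
    exact ⟨l, hl⟩
  choose l hl using h2
  have h3 : ∀ n, 0 ≤ l n := fun n => ge_of_tendsto' (hl n) fun m => h0 _
  refine ⟨l, h3, ?_, hl⟩
  rw [Metric.tendsto_nhds]
  intro ε hε
  obtain ⟨S, hS, hS2⟩ := h (ε / 2) (by positivity)
  refine mem_of_superset hS fun n hn => ?_
  have h4 : l n ≤ ε / 2 := le_of_tendsto (hl n) (mem_of_superset hS fun m hm => hS2 n hn m hm)
  show dist (l n) 0 < ε
  rw [Real.dist_eq, sub_zero, abs_of_nonneg (h3 n)]
  linarith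

variable [τ : TopologicalSpace A] [IsTopologicalAddGroup A]

/-- no strictly coarser Hausdorff group topology -/
def MinA (A : Type u) [AddCommGroup A] [τ : TopologicalSpace A] : Prop :=
  ∀ σ : TopologicalSpace A, @IsTopologicalAddGroup A σ _ → @T2Space A σ → τ ≤ σ → σ = τ

theorem exists_sep_seq {Us : Set A} (hUs : Us ∈ 𝓝 (0 : A)) (hnp : ¬ Pc 0 1 Us) :
    ∃ (x : ℕ → A) (Ws : Set A) (Wd : ℕ → Set A), Ws ∈ 𝓝 (0 : A) ∧ (∀ d, Wd d ∈ 𝓝 (0 : A)) ∧
      (∀ n m, n < m → x m - x n ∉ Ws) ∧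
      ∀ d : ℕ, (∃ W ∈ 𝓝 (0 : A), Good d W) → ∀ e : ℕ →₀ ℤ, (∀ n, |e n| ≤ 2 * (n + 1)) →
        (∀ n < d, e n = 0) → Finsupp.linearCombination ℤ x e ∈ Wd d → ∀ n, (d : ℤ) ∣ e n := by
  classical
  obtain ⟨Ws, hWs, hWs'⟩ := exists_nhds_half_neg hUs
  have h1 : ∀ d : ℕ, ∃ W ∈ 𝓝 (0 : A), ∃ W' : Set A, (∀ a ∈ W, ∀ b ∈ W, a - b ∈ W') ∧
      ((∃ W'' ∈ 𝓝 (0 : A), Good d W'') → Good d W') := by
    intro d
    by_cases hd : ∃ W'' ∈ 𝓝 (0 : A), Good d W''
    · obtain ⟨W'', h2, h3⟩ := hd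
      obtain ⟨W, hW, hW'⟩ := exists_nhds_half_neg h2
      exact ⟨W, hW, W'', hW', fun _ => h3⟩
    · exact ⟨Set.univ, univ_mem, Set.univ, fun _ _ _ _ => trivial, fun h => absurd h hd⟩
  choose Wd hWd Wd' hWd' hgood using h1
  let P : ℕ → (ℕ → A) → A → Prop := fun m y z =>
    (∀ d ≤ m, (∃ W ∈ 𝓝 (0 : A), Good d W) → ∀ c : ℕ → ℤ, (∀ n ≤ m, |c n| ≤ 2 * (m + 1)) →
      ¬ (d : ℤ) ∣ c m → ∀ b : A,
        ∑ n ∈ Finset.range m, c n • y n + c m • z - (d : ℤ) • b ∉ Wd d) ∧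
    ∀ n < m, z - y n ∉ Ws
  have : Inhabited A := ⟨0⟩
  obtain ⟨x, hx⟩ := exists_seq_rec P (by
    intro m y
    let G' := {g : A | ∃ c : ℕ → ℤ, (∀ n < m, |c n| ≤ 2 * (m + 1)) ∧
      g = ∑ n ∈ Finset.range m, c n • y n}
    have hG' : G'.Finite := finite_comb y _ m
    let s₁ : Set (ℕ × ℤ × A) := {p | p ∈ Set.Iic m ×ˢ Set.Icc (-(2 * (m + 1) : ℤ)) (2 * (m + 1)) ×ˢ G'
      ∧ (∃ W ∈ 𝓝 (0 : A), Good p.1 W) ∧ ¬ (p.1 : ℤ) ∣ p.2.1}
    have hs₁ : s₁.Finite :=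
      ((Set.finite_Iic m).prod ((Set.finite_Icc _ _).prod hG')).subset fun p hp => hp.1
    let s : Set (ℤ × ℤ × A × Set A) :=
      (fun p : ℕ × ℤ × A => ((p.1 : ℤ), p.2.1, p.2.2, Wd p.1)) '' s₁ ∪
        (fun n : ℕ => ((0 : ℤ), (1 : ℤ), -y n, Ws)) '' Set.Iio m
    have hs : s.Finite := (hs₁.image _).union ((Set.finite_Iio m).image _)
    obtain ⟨z, hz⟩ := exists_avoid hs
      (fun p => {x : A | ∃ b : A, p.2.2.1 + p.2.1 • x - p.1 • b ∈ p.2.2.2}) (by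
        rintro _ (⟨p, hp, rfl⟩ | ⟨n, -, rfl⟩)
        · exact not_pwS_of_not_pc (hgood p.1 hp.2.1 p.2.1 hp.2.2) (hWd' p.1) _
        · exact not_pwS_of_not_pc hnp hWs' _)
    refine ⟨z, fun d hd hg c hc hdc b hb => ?_, fun n hn hb => ?_⟩
    · refine hz _ (Or.inl ⟨(d, c m, ∑ n ∈ Finset.range m, c n • y n),
        ⟨⟨hd, abs_le.1 (hc m le_rfl), c, fun n hn => hc n hn.le, rfl⟩, hg, hdc⟩, rfl⟩) ⟨b, hb⟩
    · refine hz _ (Or.inr ⟨n, hn, rfl⟩) ⟨0, ?_⟩
      simpa [neg_add_eq_sub] using hb) (by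
    rintro m y y' z hy ⟨h1, h2⟩
    refine ⟨fun d hd hg c hc hdc b => ?_, fun n hn => ?_⟩
    · have e : ∑ n ∈ Finset.range m, c n • y' n = ∑ n ∈ Finset.range m, c n • y n :=
        Finset.sum_congr rfl fun n hn => by rw [hy n (Finset.mem_range.1 hn)]
      rw [e]
      exact h1 d hd hg c hc hdc b
    · rw [← hy n hn]
      exact h2 n hn)
  refine ⟨x, Ws, Wd, hWs, hWd, fun n m hnm => (hx m).2 n hnm, ?_⟩
  intro d hg e he hed hW
  by_contra hcon
  push Not at hcon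
  have hne : (e.support.filter fun n => ¬ (d : ℤ) ∣ e n).Nonempty := by
    obtain ⟨n, hn⟩ := hcon
    refine ⟨n, Finset.mem_filter.2 ⟨Finsupp.mem_support_iff.2 fun h => hn ?_, hn⟩⟩
    rw [h]
    exact dvd_zero _
  obtain ⟨m, hm, hmax⟩ := Finset.exists_max_image _ id hne
  obtain ⟨hm1, hm2⟩ := Finset.mem_filter.1 hm
  have hdm : d ≤ m := by
    by_contra h
    exact Finsupp.mem_support_iff.1 hm1 (hed m (by omega))
  obtain ⟨R, hR⟩ : ∃ R, e.support ⊆ Finset.range (m + 1 + R) := by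
    refine ⟨e.support.sup id, fun n hn => Finset.mem_range.2 ?_⟩
    have := Finset.le_sup (f := id) hn
    simp only [id] at this
    omega
  have hdiv : ∀ i, (d : ℤ) ∣ e (m + 1 + i) := by
    intro i
    by_contra h
    have h3 : m + 1 + i ∈ e.support.filter fun n => ¬ (d : ℤ) ∣ e n := by
      refine Finset.mem_filter.2 ⟨Finsupp.mem_support_iff.2 fun h' => h ?_, h⟩
      rw [h']
      exact dvd_zero _
    have := hmax _ h3
    simp only [id] at this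
    omega
  choose k hk using hdiv
  refine (hx m).1 d hdm hg e (fun n hn => (he n).trans ?_) hm2
    (-∑ i ∈ Finset.range R, k i • x (m + 1 + i)) ?_
  · have : (n : ℤ) ≤ m := by exact_mod_cast hn
    linarith
  · rw [lc_eq x e hR, Finset.sum_range_add, Finset.sum_range_succ] at hW
    rw [smul_neg, sub_neg_eq_add, Finset.smul_sum]
    have e1 : ∑ i ∈ Finset.range R, (d : ℤ) • k i • x (m + 1 + i) =
        ∑ i ∈ Finset.range R, e (m + 1 + i) • x (m + 1 + i) :=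
      Finset.sum_congr rfl fun i _ => by rw [hk i, mul_smul]
    rw [e1]
    exact hW

theorem prodanov_stoyanov [T2Space A] (hmin : MinA A) : PreA A := by
  classical
  intro Us hUs
  by_contra hcon
  have hnp : ¬ Pc 0 1 Us := by
    rintro ⟨F, hF⟩
    refine hcon ⟨F, fun a => ?_⟩
    obtain ⟨f, hf, b, hb⟩ := hF a
    refine ⟨f, hf, ?_⟩
    simpa [neg_add_eq_sub] using hb
  obtain ⟨x, Ws, Wd, hWs, hWd, hx1, hx2⟩ := exists_sep_seq hUs hnp
  let 𝒲 : Ultrafilter ℕ := hyperfilter ℕ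
  have h𝒲 : (𝒲 : Filter ℕ) ≤ atTop := Nat.hyperfilter_le_atTop
  let 𝓑 : Set (Set A) := {B | ∃ l : ℕ → ℝ, (∀ n, 0 ≤ l n) ∧ Tendsto l 𝒲 (𝓝 0) ∧ B = Bs x l}
  obtain ⟨σ, h1, h2, h3, h4⟩ := coarser 𝓑
    ⟨_, fun _ => 0, fun _ => le_rfl, tendsto_const_nhds, rfl⟩
    (by
      rintro _ ⟨l, hl, hl', rfl⟩ _ ⟨l₂, hl₂, hl₂', rfl⟩
      refine ⟨_, ⟨fun n => l n + l₂ n, fun n => add_nonneg (hl n) (hl₂ n), ?_, rfl⟩, ?_⟩
      · simpa using hl'.add hl₂'
      · rintro _ ⟨c, hc1, hc2, rfl⟩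
        exact ⟨⟨c, hc1, lt_of_le_of_lt (Nw_mono (fun n => by linarith [hl₂ n]) c) hc2, rfl⟩,
          ⟨c, hc1, lt_of_le_of_lt (Nw_mono (fun n => by linarith [hl n]) c) hc2, rfl⟩⟩)
    (by
      rintro _ ⟨l, -, -, rfl⟩
      exact ⟨0, map_zero _, by simp [Nw], (map_zero _).symm⟩)
    (by
      rintro _ ⟨l, hl, hl', rfl⟩
      refine ⟨_, ⟨fun n => 2 * l n, fun n => by linarith [hl n], ?_, rfl⟩, ?_⟩
      · simpa using hl'.const_mul 2
      · rintro _ ⟨c, hc1, hc2, rfl⟩ _ ⟨c', hc1', hc2', rfl⟩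
        refine ⟨c - c', by rw [map_sub, hc1, hc1', sub_zero], ?_, (map_sub _ _ _).symm⟩
        rw [Nw_mul] at hc2 hc2'
        linarith [Nw_sub hl c c'])
    (by
      intro g hg
      obtain ⟨V₁, hV₁, hV₁'⟩ := exists_nhds_half_neg (isOpen_compl_singleton.mem_nhds hg.symm)
      obtain ⟨V₂, hV₂, hV₂'⟩ := exists_nhds_half_neg hV₁
      obtain ⟨V₃, hV₃, hV₃'⟩ := exists_nhds_half_neg hV₂
      obtain ⟨V₄, hV₄, hV₄'⟩ := exists_nhds_half_neg hV₃
      obtain ⟨d, hd, F, hF⟩ := exists_good hV₄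
      -- the syndetic set
      have hsyn : ∃ F' : Finset A, ∀ a, ∃ f ∈ F', -f + a ∈ {a : A | (d : ℤ) • a ∈ V₃} := by
        have h5 : ∀ f : A, ∃ a₀ : A, (∃ a, (d : ℤ) • a - f ∈ V₄) → (d : ℤ) • a₀ - f ∈ V₄ := by
          intro f
          by_cases h : ∃ a, (d : ℤ) • a - f ∈ V₄
          · exact ⟨h.choose, fun _ => h.choose_spec⟩
          · exact ⟨0, fun h' => absurd h' h⟩
        choose a₀ ha₀ using h5
        refine ⟨F.image a₀, fun a => ?_⟩
        obtain ⟨f, hf, b, hb⟩ := hF a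
        rw [zero_smul, sub_zero] at hb
        refine ⟨a₀ f, Finset.mem_image_of_mem _ hf, ?_⟩
        have h6 := hV₄' _ hb _ (ha₀ f ⟨a, hb⟩)
        show (d : ℤ) • (-a₀ f + a) ∈ V₃
        rw [neg_add_eq_sub, smul_sub]
        rwa [sub_sub_sub_cancel_right] at h6
      obtain ⟨F', hF'⟩ := hsyn
      obtain ⟨ρ, κ, hκ, r1, r2, r3, r4, r5, r6⟩ := folner _ F' hF'
      obtain ⟨l, hl0, hl1, hl2⟩ := exists_ell r1 r4 x 𝒲 (r6 x 𝒲)
      obtain ⟨U', hU', hU''⟩ := exists_nhds_half_neg (hWd d)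
      have hm : ∃ m₁ : ℕ, ∀ c : ℕ →₀ ℤ, (∀ n, |c n| ≤ n + 1) → (∀ n < m₁, c n = 0) →
          g - Finsupp.linearCombination ℤ x c ∈ U' → ∀ n, (d : ℤ) ∣ c n := by
        by_cases h : ∃ c₀ : ℕ →₀ ℤ, (∀ n, |c₀ n| ≤ n + 1) ∧ (∀ n < d, c₀ n = 0) ∧
            g - Finsupp.linearCombination ℤ x c₀ ∈ U'
        · obtain ⟨c₀, a1, a2, a3⟩ := h
          refine ⟨d + c₀.support.sup id + 1, fun c b1 b2 b3 n => ?_⟩
          by_cases hn : n < d + c₀.support.sup id + 1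
          · rw [b2 n hn]
            exact dvd_zero _
          · have h7 := hx2 d hd (c - c₀) (fun n => by
              rw [Finsupp.sub_apply]
              linarith [abs_sub (c n) (c₀ n), a1 n, b1 n]) (fun n hn => by
              rw [Finsupp.sub_apply, a2 n hn, b2 n (by omega), sub_zero]) (by
              have h8 := hU'' _ a3 _ b3
              rwa [sub_sub_sub_cancel_left, ← map_sub] at h8) n
            have h9 : c₀ n = 0 := by
              by_contra h10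
              have := Finset.le_sup (f := id) (Finsupp.mem_support_iff.2 h10)
              simp only [id] at this
              omega
            rwa [Finsupp.sub_apply, h9, sub_zero] at h7
        · exact ⟨d, fun c b1 b2 b3 => absurd ⟨c, b1, b2, b3⟩ h⟩
      obtain ⟨m₁, hm₁⟩ := hm
      let lam : ℕ → ℝ := fun n => κ⁻¹ * l n + (1 / ((n : ℝ) + 1) + if n < m₁ then 1 else 0)
      have hl3 : ∀ n, 0 ≤ κ⁻¹ * l n := fun n => mul_nonneg (inv_nonneg.2 hκ.le) (hl0 n)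
      have hl4 : ∀ n : ℕ, 0 < 1 / ((n : ℝ) + 1) := fun n => by positivity
      have hl5 : ∀ n : ℕ, (0 : ℝ) ≤ if n < m₁ then 1 else 0 := fun n => by split_ifs <;> simp
      have hlam : ∀ n, 0 ≤ lam n := fun n => add_nonneg (hl3 n) (add_nonneg (hl4 n).le (hl5 n))
      refine ⟨U' ∩ V₂, inter_mem hU' hV₂, _, ⟨lam, hlam, ?_, rfl⟩, ?_⟩
      · have t1 := hl1.const_mul κ⁻¹
        have t2 := (tendsto_one_div_add_atTop_nhds_zero_nat (𝕜 := ℝ)).mono_left h𝒲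
        have t3 : Tendsto (fun n : ℕ => if n < m₁ then (1 : ℝ) else 0) 𝒲 (𝓝 0) := by
          refine (tendsto_const_nhds.congr' ?_).mono_left h𝒲
          filter_upwards [eventually_ge_atTop m₁] with n hn
          rw [if_neg (by omega)]
        have t4 := t1.add (t2.add t3)
        rw [mul_zero, add_zero, add_zero] at t4
        exact t4
      · rintro _ ⟨c, hc1, hc2, rfl⟩ ⟨hu1, hu2⟩
        have hc3 : ∀ n, |(c n : ℝ)| * lam n < 1 := fun n =>
          lt_of_le_of_lt (Nw_single hlam c n) hc2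
        have hc4 : ∀ n, |c n| ≤ n + 1 := by
          intro n
          have h5 : |(c n : ℝ)| * (1 / ((n : ℝ) + 1)) < 1 := by
            refine lt_of_le_of_lt (mul_le_mul_of_nonneg_left ?_ (abs_nonneg _)) (hc3 n)
            linarith [hl3 n, hl5 n]
          rw [mul_one_div, div_lt_one (by positivity)] at h5
          exact_mod_cast h5.le
        have hc5 : ∀ n < m₁, c n = 0 := by
          intro n hn
          have h5 : |(c n : ℝ)| * 1 < 1 := by
            refine lt_of_le_of_lt (mul_le_mul_of_nonneg_left ?_ (abs_nonneg _)) (hc3 n)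
            have h6 : lam n = κ⁻¹ * l n + (1 / ((n : ℝ) + 1) + 1) := by
              simp only [lam, if_pos hn]
            linarith [hl3 n, hl4 n]
          rw [mul_one] at h5
          have h7 : |c n| < 1 := by exact_mod_cast h5
          exact Int.abs_lt_one_iff.1 h7
        have hdv := hm₁ c hc4 hc5 hu1
        let c' : ℕ →₀ ℤ := c.mapRange (fun k => k / d) (by simp)
        have hc' : ∀ n, c' n = c n / d := fun n => rfl
        have hcc : (d : ℤ) • c' = c := by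
          ext n
          rw [Finsupp.smul_apply, hc', smul_eq_mul, Int.mul_ediv_cancel' (hdv n)]
        have hdeg : Finsupp.linearCombination ℤ (fun _ => (1 : ℤ)) c' = 0 := by
          by_cases hd0 : (d : ℤ) = 0
          · have : c' = 0 := by
              ext n
              rw [hc', hd0]
              simp
            rw [this, map_zero]
          · rw [← hcc, map_smul, smul_eq_mul] at hc1
            exact (mul_eq_zero.1 hc1).resolve_left hd0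
        have h5 := rho_lc r1 r2 r3 x 𝒲 l hl2 c' hdeg
        have h6 : Nw l c' ≤ Nw l c := by
          rw [Nw_eq l c' (s := c.support) Finsupp.support_mapRange]
          refine Finset.sum_le_sum fun n _ => mul_le_mul_of_nonneg_right ?_ (hl0 n)
          rw [hc']
          exact_mod_cast Int.abs_ediv_le_abs (c n) d
        have h7 : κ⁻¹ * Nw l c < 1 := by
          rw [← Nw_mul]
          refine lt_of_le_of_lt (Nw_mono (fun n => ?_) c) hc2
          linarith [hl4 n, hl5 n]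
        rw [inv_mul_lt_iff₀ hκ, mul_one] at h7
        obtain ⟨t₁, a₁, t₂, a₂, t₃, a₃, t₄, a₄, ht⟩ := r5 _ (lt_of_le_of_lt (h5.trans h6) h7)
        have h8 : Finsupp.linearCombination ℤ x c ∈ V₁ := by
          rw [← hcc, map_smul, ht, smul_sub, smul_sub, smul_sub]
          exact hV₂' _ (hV₃' _ a₁ _ a₂) _ (hV₃' _ a₃ _ a₄)
        have h9 := hV₁' _ h8 _ (hV₂' 0 (mem_of_mem_nhds hV₂) _ hu2)
        apply h9
        simp)
  have h5 := hmin σ h1 h2 h3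
  subst h5
  obtain ⟨U, hU, _, ⟨l, hl, hl', rfl⟩, hS⟩ := (h4 Ws).1 hWs
  have h6 : ∀ᶠ n in (𝒲 : Filter ℕ), l n < 1 / 2 := hl'.eventually (gt_mem_nhds (by norm_num))
  obtain ⟨n, hn⟩ := h6.exists
  obtain ⟨m, hm, hnm⟩ := (h6.and (h𝒲 (eventually_gt_atTop n))).exists
  apply hx1 n m hnm
  have h7 := hS 0 (mem_of_mem_nhds hU) (x m - x n)
    ⟨Finsupp.single m 1 - Finsupp.single n 1, by simp, ?_, by simp⟩
  · rwa [zero_add] at h7
  · refine lt_of_le_of_lt (Nw_sub hl _ _) ?_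
    rw [Nw_eq l _ Finsupp.support_single_subset, Nw_eq l _ Finsupp.support_single_subset]
    simp only [Finset.sum_singleton, Finsupp.single_eq_same, Int.cast_one, abs_one, one_mul]
    linarith

end Pool.Agent.H567Z.PS
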