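import Mathlib
import Pool.Agent.H567Z.PS3

/-! A local form of the Folner lemma, for finite covers of a box in the free abelian group. -/

set_option autoImplicit false

namespace Pool.Agent.H567Z.PS

open Filter Topology Gardner
open scoped InnerProductSpace

section Abs

variable {A : Type} [AddCommGroup A]

/-- invariant means -/
structure IsM (M : BF A →ₗ[ℝ] ℝ) : Prop where
  pos : ∀ f : BF A, (∀ x, 0 ≤ f.1 x) → 0 ≤ M f
  one : ∀ f : BF A, (∀ x, f.1 x = 1) → M f = 1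
  inv : ∀ (f g : BF A) (a : A), (∀ x, g.1 x = f.1 (a + x)) → M g = M f

open Classical in
/-- indicator functions -/
noncomputable def ind (S : Set A) : BF A := ⟨fun x => if x ∈ S then 1 else 0, 1, fun x => by
  dsimp only
  split_ifs <;> simp⟩

omit [AddCommGroup A] in
theorem ind_one {S : Set A} {x : A} (h : x ∈ S) : (ind S).1 x = 1 := if_pos h

omit [AddCommGroup A] in
theorem ind_zero {S : Set A} {x : A} (h : x ∉ S) : (ind S).1 x = 0 := if_neg h

omit [AddCommGroup A] in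
theorem ind_mem (S : Set A) (x : A) : 0 ≤ (ind S).1 x ∧ (ind S).1 x ≤ 1 := by
  by_cases h : x ∈ S
  · simp [ind_one h]
  · simp [ind_zero h]

omit [AddCommGroup A] in
theorem sum_val {ι : Type} (s : Finset ι) (f : ι → BF A) (x : A) :
    (∑ i ∈ s, f i).1 x = ∑ i ∈ s, (f i).1 x := by
  classical
  induction s using Finset.induction_on with
  | empty => rfl
  | insert a s ha ih =>
    rw [Finset.sum_insert ha, Finset.sum_insert ha, ← ih]
    rfl

variable {M : BF A →ₗ[ℝ] ℝ}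

theorem IsM.mono (h : IsM M) (f g : BF A) (hfg : ∀ x, f.1 x ≤ g.1 x) : M f ≤ M g := by
  have h1 := h.pos (g - f) (fun x => sub_nonneg.2 (hfg x))
  rw [map_sub] at h1
  linarith

theorem IsM.le_add (h : IsM M) (f g : BF A) (C : ℝ) (hfg : ∀ x, f.1 x ≤ C + g.1 x) :
    M f ≤ C + M g := by
  have h1 := h.mono f (C • ind Set.univ + g) (fun x => by
    show f.1 x ≤ C * (ind Set.univ).1 x + g.1 x
    rw [ind_one (Set.mem_univ x), mul_one]
    exact hfg x)
  rwa [map_add, map_smul, h.one _ fun x => ind_one (Set.mem_univ x), smul_eq_mul, mul_one] at h1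

theorem IsM.le (h : IsM M) (f : BF A) (C : ℝ) (hf : ∀ x, f.1 x ≤ C) : M f ≤ C := by
  have h1 := h.le_add f 0 C fun x => (hf x).trans_eq (add_zero C).symm
  rwa [map_zero, add_zero] at h1

/-- the measure of the set where `s` does not commute with the translation by `y` -/
noncomputable def wr (M : BF A →ₗ[ℝ] ℝ) (s : A → A) (y : A) : ℝ :=
  M (ind {x | s (y + x) ≠ y + s x})

theorem wr_nonneg (h : IsM M) (s : A → A) (y : A) : 0 ≤ wr M s y :=
  h.pos _ fun x => (ind_mem _ x).1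

theorem wr_zero (h : IsM M) (s : A → A) : wr M s 0 = 0 :=
  le_antisymm (h.le _ _ fun x => (ind_zero (by simp)).le) (wr_nonneg h s 0)

theorem wr_add (h : IsM M) (s : A → A) (a b : A) : wr M s (a + b) ≤ wr M s a + wr M s b := by
  unfold wr
  rw [← h.inv (ind {x | s (a + x) ≠ a + s x}) (BF.tr b (ind {x | s (a + x) ≠ a + s x})) b
    fun _ => rfl, ← map_add]
  refine h.mono _ _ fun x => ?_
  show _ ≤ (ind {x | s (a + x) ≠ a + s x}).1 (b + x) + (ind {x | s (b + x) ≠ b + s x}).1 x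
  by_cases h1 : s (a + (b + x)) = a + s (b + x)
  · by_cases h2 : s (b + x) = b + s x
    · rw [ind_zero (by simp [add_assoc, h1, h2])]
      exact add_nonneg (ind_mem _ _).1 (ind_mem _ _).1
    · rw [ind_one (S := {x | s (b + x) ≠ b + s x}) h2]
      linarith [(ind_mem {x | s (a + b + x) ≠ a + b + s x} x).2,
        (ind_mem {x | s (a + x) ≠ a + s x} (b + x)).1]
  · rw [ind_one (S := {x | s (a + x) ≠ a + s x}) h1]
    linarith [(ind_mem {x | s (a + b + x) ≠ a + b + s x} x).2,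
      (ind_mem {x | s (b + x) ≠ b + s x} x).1]

theorem wr_neg (h : IsM M) (s : A → A) (a : A) : wr M s (-a) = wr M s a := by
  symm
  refine h.inv _ _ a fun x => ?_
  by_cases h1 : s (a + x) = a + s x
  · rw [ind_zero (by simp [h1]), ind_zero (by simp [h1])]
  · rw [ind_one (S := {x | s (a + x) ≠ a + s x}) h1, ind_one]
    intro h2
    apply h1
    rw [neg_add_cancel_left] at h2
    rw [h2, add_neg_cancel_left]

theorem folner_abs (hM : IsM M) (s₁ s₂ : A → A) {ι : Type} (F : Finset ι) (T : ι → Set A)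
    (hT : ∀ x, ∃ f ∈ F, s₁ x ∈ T f) (hw : ∀ y, wr M s₁ (s₂ y) ≤ ((F.card : ℝ) ^ 4)⁻¹ / 2) :
    ∃ (ρ : A → ℝ) (κ : ℝ), 0 < κ ∧ (∀ a b, ρ (a + b) ≤ ρ a + ρ b) ∧ (∀ a, ρ (-a) = ρ a) ∧
      ρ 0 = 0 ∧ (∀ a, 0 ≤ ρ a) ∧
      (∀ b, ρ b < κ → ∃ f ∈ F, ∃ f' ∈ F, ∃ t₁ ∈ T f, ∃ t₂ ∈ T f, ∃ t₃ ∈ T f', ∃ t₄ ∈ T f',
        b = t₁ - t₂ - (t₃ - t₄)) ∧
      ∀ (e : ℕ → A) (𝒲 : Ultrafilter ℕ), Tendsto (fun n => wr M s₂ (e n)) 𝒲 (𝓝 0) →
        ∀ ε : ℝ, 0 < ε → ∃ S ∈ 𝒲, ∀ n ∈ S, ∀ m ∈ S, ρ (e n - e m) ≤ ε := by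
  classical
  let cd : PreInnerProductSpace.Core ℝ (BF A) :=
    { inner := fun f g => M (f.mul g)
      conj_inner_symm := fun f g => by
        show M (g.mul f) = M (f.mul g)
        congr 1
        exact Subtype.ext (funext fun x => mul_comm _ _)
      re_inner_nonneg := fun f => hM.pos _ fun x => mul_self_nonneg _
      add_left := fun f g h => by
        show M ((f + g).mul h) = M (f.mul h) + M (g.mul h)
        rw [← map_add]
        congr 1
        exact Subtype.ext (funext fun x => add_mul _ _ _)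
      smul_left := fun f g r => by
        show M ((r • f).mul g) = r * M (f.mul g)
        rw [← smul_eq_mul, ← map_smul]
        congr 1
        exact Subtype.ext (funext fun x => mul_assoc _ _ _) }
  let _ : SeminormedAddCommGroup (BF A) :=
    InnerProductSpace.Core.toSeminormedAddCommGroup (𝕜 := ℝ) (c := cd)
  let _ : InnerProductSpace ℝ (BF A) := InnerProductSpace.ofCore cd
  have hin : ∀ f g : BF A, ⟪f, g⟫_ℝ = M (f.mul g) := fun _ _ => rfl
  have hnorm : ∀ (f : BF A) (C : ℝ), 0 ≤ C → (∀ x, |f.1 x| ≤ C) → ‖f‖ ≤ C := by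
    intro f C hC h
    have h1 : ‖f‖ ^ 2 ≤ C ^ 2 := by
      rw [← real_inner_self_eq_norm_sq, hin]
      apply hM.le
      intro x
      show f.1 x * f.1 x ≤ C ^ 2
      have := abs_le.1 (h x)
      nlinarith
    exact (pow_le_pow_iff_left₀ (norm_nonneg _) hC two_ne_zero).1 h1
  have htr : ∀ (a b : A) (f g : BF A), ⟪BF.tr a f, BF.tr b g⟫_ℝ = ⟪f, BF.tr (b - a) g⟫_ℝ := by
    intro a b f g
    rw [hin, hin]
    apply hM.inv _ _ a
    intro x
    show f.1 (a + x) * g.1 (b + x) = f.1 (a + x) * g.1 (b - a + (a + x))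
    rw [← add_assoc, sub_add_cancel]
  have htr0 : ∀ f : BF A, BF.tr 0 f = f := fun f => Subtype.ext (funext fun x => by
    show f.1 (0 + x) = f.1 x
    rw [zero_add])
  have htrtr : ∀ (a b : A) (f : BF A), BF.tr a (BF.tr b f) = BF.tr (a + b) f := fun a b f =>
    Subtype.ext (funext fun x => by
      show f.1 (b + (a + x)) = f.1 (a + b + x)
      rw [← add_assoc, add_comm b])
  have hiso : ∀ (a : A) (f : BF A), ‖BF.tr a f‖ = ‖f‖ := by
    intro a f
    have h1 : ‖BF.tr a f‖ ^ 2 = ‖f‖ ^ 2 := by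
      rw [← real_inner_self_eq_norm_sq, ← real_inner_self_eq_norm_sq, htr, sub_self, htr0]
    exact (pow_left_inj₀ (norm_nonneg _) (norm_nonneg _) two_ne_zero).1 h1
  have hind : ∀ S : Set A, ‖ind S‖ ≤ 1 := fun S => hnorm _ 1 zero_le_one fun x =>
    abs_le.2 ⟨by linarith [(ind_mem S x).1], (ind_mem S x).2⟩
  let ξ : ι → BF A := fun f => ind (s₁ ⁻¹' T f)
  have hΦb : ∀ (f : ι) (v : BF A) (y : A), |⟪v, BF.tr y (ξ f)⟫_ℝ| ≤ ‖v‖ := by
    intro f v y
    refine (abs_real_inner_le_norm _ _).trans ?_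
    rw [hiso]
    exact mul_le_of_le_one_right (norm_nonneg _) (hind _)
  let Φ : ι → BF A →ₗ[ℝ] BF A := fun f =>
    { toFun := fun v => ⟨fun y => ⟪v, BF.tr (s₂ y) (ξ f)⟫_ℝ, ‖v‖, fun y => hΦb f v _⟩
      map_add' := fun v w => Subtype.ext (funext fun y => inner_add_left _ _ _)
      map_smul' := fun c v => Subtype.ext (funext fun y => real_inner_smul_left _ _ _) }
  have hΦ : ∀ f v y, (Φ f v).1 y = ⟪v, BF.tr (s₂ y) (ξ f)⟫_ℝ := fun _ _ _ => rfl
  have hcover : ∀ x : A, 1 ≤ (∑ f ∈ F, ξ f).1 x := by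
    intro x
    rw [sum_val]
    obtain ⟨f, hf, hx⟩ := hT x
    rw [← ind_one (S := s₁ ⁻¹' T f) hx]
    exact Finset.single_le_sum (f := fun f => (ξ f).1 x) (fun g _ => (ind_mem _ _).1) hf
  have hF : (0 : ℝ) < F.card := by
    obtain ⟨f, hf, -⟩ := hT 0
    exact_mod_cast Finset.card_pos.2 ⟨f, hf⟩
  obtain ⟨⟨f, f'⟩, hff, hψ⟩ : ∃ p ∈ F ×ˢ F, ((F.card : ℝ) ^ 2)⁻¹ ≤ M (Φ p.2 (ξ p.1)) := by
    apply Finset.exists_le_of_sum_le (Finset.card_pos.1 (by
      rw [Finset.card_product]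
      exact_mod_cast mul_pos hF hF))
    rw [Finset.sum_const, Finset.card_product, nsmul_eq_mul, Nat.cast_mul, ← sq,
      mul_inv_cancel₀ (by positivity), ← map_sum,
      ← hM.one (ind Set.univ) fun x => ind_one (Set.mem_univ x)]
    refine hM.mono _ _ fun y => ?_
    rw [sum_val, Finset.sum_product]
    simp only [hΦ]
    simp only [← inner_sum, ← map_sum]
    rw [← sum_inner, hin, ind_one (Set.mem_univ y),
      ← hM.one (ind Set.univ) fun x => ind_one (Set.mem_univ x)]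
    refine hM.mono _ _ fun x => ?_
    rw [ind_one (Set.mem_univ x)]
    exact one_le_mul_of_one_le_of_one_le (hcover x) (hcover _)
  obtain ⟨hf, hf'⟩ := Finset.mem_product.1 hff
  simp only at hψ hf hf'
  set ψ := Φ f' (ξ f) with hψdef
  have hφ0 : ∀ z, 0 ≤ ⟪ξ f, BF.tr z (ξ f')⟫_ℝ := fun z =>
    hM.pos _ fun x => mul_nonneg (ind_mem _ _).1 (ind_mem _ _).1
  have hφ1 : ∀ z, ⟪ξ f, BF.tr z (ξ f')⟫_ℝ ≤ 1 := fun z =>
    (le_abs_self _).trans ((hΦb f' _ z).trans (hind _))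
  have hψ1 : ‖ψ‖ ≤ 1 := hnorm _ 1 zero_le_one fun y =>
    abs_le.2 ⟨by linarith [hφ0 (s₂ y), hΦ f' (ξ f) y], hφ1 _⟩
  have hψ2 : ((F.card : ℝ) ^ 2)⁻¹ ≤ ‖ψ‖ := by
    have h4 : M ψ = ⟪ψ, ind Set.univ⟫_ℝ := by
      rw [hin]
      congr 1
      refine Subtype.ext (funext fun x => ?_)
      show _ = ψ.1 x * (ind Set.univ).1 x
      rw [ind_one (Set.mem_univ x), mul_one]
    have h5 := real_inner_le_norm ψ (ind Set.univ)
    nlinarith [hind Set.univ, norm_nonneg ψ]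
  have hψ3 : ((F.card : ℝ) ^ 4)⁻¹ ≤ ‖ψ‖ ^ 2 := by
    rw [show (4 : ℕ) = 2 * 2 from rfl, pow_mul, ← inv_pow]
    exact pow_le_pow_left₀ (by positivity) hψ2 2
  have hsupp : ∀ y, ((F.card : ℝ) ^ 4)⁻¹ / 2 < ψ.1 y → ∃ t ∈ T f', ∃ t' ∈ T f, s₂ y = t - t' := by
    intro y hy
    by_contra hcon
    refine (hy.trans_le ?_).not_ge (hw y)
    refine hM.mono _ _ fun x => ?_
    show (ξ f).1 x * (ξ f').1 (s₂ y + x) ≤ _
    by_cases h1 : s₁ x ∈ T f
    · by_cases h2 : s₁ (s₂ y + x) ∈ T f'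
      · rw [ind_one (S := {x | s₁ (s₂ y + x) ≠ s₂ y + s₁ x}) fun h3 =>
          hcon ⟨_, h2, _, h1, by rw [h3, add_sub_cancel_right]⟩]
        exact mul_le_one₀ (ind_mem _ _).2 (ind_mem _ _).1 (ind_mem _ _).2
      · rw [ind_zero (S := s₁ ⁻¹' T f') h2, mul_zero]
        exact (ind_mem _ _).1
    · rw [ind_zero (S := s₁ ⁻¹' T f) h1, zero_mul]
      exact (ind_mem _ _).1
  have hρ : ∀ a b, ‖BF.tr (-(a - b)) ψ - ψ‖ = ‖BF.tr (-a) ψ - BF.tr (-b) ψ‖ := by
    intro a b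
    rw [← hiso (-b), map_sub, htrtr, neg_sub, ← add_sub_assoc, neg_add_cancel, zero_sub]
  refine ⟨fun b => ‖BF.tr (-b) ψ - ψ‖ + wr M s₂ b, ((F.card : ℝ) ^ 4)⁻¹ / 2, by positivity,
    fun a b => ?_, fun a => ?_, ?_, fun a => add_nonneg (norm_nonneg _) (wr_nonneg hM _ _),
    fun b hb => ?_, fun e 𝒲 he ε hε => ?_⟩
  · have e : BF.tr (-(a + b)) ψ - ψ = (BF.tr (-a) ψ - ψ) + BF.tr (-a) (BF.tr (-b) ψ - ψ) := by
      rw [map_sub, htrtr, neg_add, sub_add_sub_cancel']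
    have h1 := norm_add_le (BF.tr (-a) ψ - ψ) (BF.tr (-a) (BF.tr (-b) ψ - ψ))
    rw [hiso, ← e] at h1
    have h2 := wr_add hM s₂ a b
    show ‖BF.tr (-(a + b)) ψ - ψ‖ + _ ≤ ‖BF.tr (-a) ψ - ψ‖ + _ + (‖BF.tr (-b) ψ - ψ‖ + _)
    linarith
  · show ‖BF.tr (- -a) ψ - ψ‖ + _ = ‖BF.tr (-a) ψ - ψ‖ + _
    rw [wr_neg hM, ← hiso (-a), map_sub, htrtr, add_neg_cancel, htr0, norm_sub_rev]
  · show ‖BF.tr (-0) ψ - ψ‖ + _ = 0
    rw [wr_zero hM, neg_zero, htr0, sub_self, norm_zero, add_zero]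
  · have hb' : ‖BF.tr (-b) ψ - ψ‖ + wr M s₂ b < _ := hb
    by_contra hcon
    have h1 : ⟪ψ, BF.tr (-b) ψ⟫_ℝ ≤ ((F.card : ℝ) ^ 4)⁻¹ / 2 + wr M s₂ (-b) := by
      refine hM.le_add _ _ _ fun y => ?_
      show ψ.1 y * ψ.1 (-b + y) ≤ _
      have a1 : 0 ≤ ψ.1 y := hφ0 _
      have a2 : ψ.1 y ≤ 1 := hφ1 _
      have a3 : 0 ≤ ψ.1 (-b + y) := hφ0 _
      have a4 : ψ.1 (-b + y) ≤ 1 := hφ1 _
      have a5 : 0 < ((F.card : ℝ) ^ 4)⁻¹ / 2 := by positivity
      have a6 := (ind_mem {x | s₂ (-b + x) ≠ -b + s₂ x} y).1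
      by_cases h2 : ((F.card : ℝ) ^ 4)⁻¹ / 2 < ψ.1 y
      · by_cases h3 : ((F.card : ℝ) ^ 4)⁻¹ / 2 < ψ.1 (-b + y)
        · obtain ⟨t₁, b1, t₃, b3, e1⟩ := hsupp _ h2
          obtain ⟨t₂, b2, t₄, b4, e2⟩ := hsupp _ h3
          rw [ind_one (S := {x | s₂ (-b + x) ≠ -b + s₂ x}) fun h4 =>
            hcon ⟨f', hf', f, hf, t₁, b1, t₂, b2, t₃, b3, t₄, b4, by
              rw [sub_sub_sub_comm, ← e1, ← e2, h4]
              simp⟩]
          nlinarith
        · nlinarith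
      · nlinarith
    have h2 := abs_le.1 (abs_real_inner_le_norm ψ (BF.tr (-b) ψ - ψ))
    rw [inner_sub_right, real_inner_self_eq_norm_sq] at h2
    rw [wr_neg hM] at h1
    nlinarith [h2.1, norm_nonneg (BF.tr (-b) ψ - ψ)]
  · have hbes : ∀ (r : ℕ) (e : Fin r → BF A), Orthonormal ℝ e → ∑ i, ‖Φ f' (e i)‖ ^ 2 ≤ 1 := by
      intro r e he
      have h1 : ∑ i, ‖Φ f' (e i)‖ ^ 2 = M (∑ i, (Φ f' (e i)).mul (Φ f' (e i))) := by
        rw [map_sum]
        refine Finset.sum_congr rfl fun i _ => ?_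
        rw [← real_inner_self_eq_norm_sq, hin]
      rw [h1]
      apply hM.le
      intro y
      rw [sum_val]
      have h2 := he.sum_inner_products_le (BF.tr (s₂ y) (ξ f')) (s := Finset.univ)
      rw [hiso] at h2
      have h3 : ∑ i, ((Φ f' (e i)).mul (Φ f' (e i))).1 y =
          ∑ i, ‖⟪e i, BF.tr (s₂ y) (ξ f')⟫_ℝ‖ ^ 2 := by
        refine Finset.sum_congr rfl fun i _ => ?_
        rw [Real.norm_eq_abs, sq_abs, sq]
        rfl
      rw [h3]
      nlinarith [norm_nonneg (ξ f'), hind (s₁ ⁻¹' T f')]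
    obtain ⟨S, hS, hS2⟩ := hs_ultra (Φ f') hbes (fun v => hnorm _ _ (norm_nonneg _) fun y =>
      hΦb f' v _) (fun n => BF.tr (e n) (ξ f)) (fun n => by rw [hiso]; exact hind _) 𝒲
      (show 0 < ε / 8 by positivity)
    have hd : ∀ a, ‖BF.tr (-a) ψ - Φ f' (BF.tr a (ξ f))‖ ^ 2 ≤ wr M s₂ a := by
      intro a
      rw [← real_inner_self_eq_norm_sq, ← wr_neg hM]
      refine hM.mono _ _ fun y => ?_
      show (ψ.1 (-a + y) - (Φ f' (BF.tr a (ξ f))).1 y) *
        (ψ.1 (-a + y) - (Φ f' (BF.tr a (ξ f))).1 y) ≤ _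
      rw [hΦ, hΦ, htr]
      by_cases h : s₂ (-a + y) = -a + s₂ y
      · rw [h, neg_add_eq_sub, sub_self, mul_zero]
        exact (ind_mem _ _).1
      · rw [ind_one (S := {x | s₂ (-a + x) ≠ -a + s₂ x}) h]
        nlinarith [hφ0 (s₂ (-a + y)), hφ1 (s₂ (-a + y)), hφ0 (s₂ y - a), hφ1 (s₂ y - a)]
    have h3 := he.eventually (gt_mem_nhds (show 0 < min (ε / 8) ((ε / 8) ^ 2) by positivity))
    refine ⟨_, inter_mem hS h3, fun n hn m hm => ?_⟩
    have h4 := hS2 n hn.1 m hm.1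
    have h5 : ∀ k, wr M s₂ (e k) < min (ε / 8) ((ε / 8) ^ 2) →
        ‖BF.tr (-e k) ψ - Φ f' (BF.tr (e k) (ξ f))‖ ≤ ε / 8 := fun k hk =>
      (pow_le_pow_iff_left₀ (norm_nonneg _) (by positivity) two_ne_zero).1
        ((hd _).trans (hk.le.trans (min_le_right _ _)))
    have h6 := wr_add hM s₂ (e n) (-e m)
    rw [wr_neg hM, ← sub_eq_add_neg] at h6
    have h7 : BF.tr (-e n) ψ - BF.tr (-e m) ψ = (BF.tr (-e n) ψ - Φ f' (BF.tr (e n) (ξ f))) +
        Φ f' (BF.tr (e n) (ξ f) - BF.tr (e m) (ξ f)) -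
        (BF.tr (-e m) ψ - Φ f' (BF.tr (e m) (ξ f))) := by
      rw [map_sub, sub_add_sub_cancel, sub_sub_sub_cancel_right]
    have h8 := (norm_sub_le _ _).trans (add_le_add ((norm_add_le _ _).trans
      (add_le_add (h5 n hn.2) h4)) (h5 m hm.2))
    rw [← h7, ← hρ] at h8
    have h9 : wr M s₂ (e n) < ε / 8 := lt_of_lt_of_le hn.2 (min_le_left _ _)
    have h10 : wr M s₂ (e m) < ε / 8 := lt_of_lt_of_le hm.2 (min_le_left _ _)
    show ‖BF.tr (-(e n - e m)) ψ - ψ‖ + _ ≤ ε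
    linarith

end Abs

/-- reduction of the coordinates -/
noncomputable def red (q : ℕ → ℕ) (x : ℕ →₀ ℤ) : ℕ →₀ ℤ :=
  Finsupp.onFinset x.support (fun n => x n % q n) fun n hn =>
    Finsupp.mem_support_iff.2 fun h => hn (by simp [h])

theorem red_apply (q : ℕ → ℕ) (x : ℕ →₀ ℤ) (n : ℕ) : red q x n = x n % q n := rfl

theorem wr_single {M : BF (ℕ →₀ ℤ) →ₗ[ℝ] ℝ} (hM : IsM M) {q : ℕ → ℕ} {n : ℕ} (hq : 0 < q n) :
    wr M (red q) (Finsupp.single n 1) ≤ (q n : ℝ)⁻¹ := by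
  classical
  have hq' : (0 : ℤ) < q n := by exact_mod_cast hq
  let E : Set (ℕ →₀ ℤ) := {x | x n % q n = q n - 1}
  have h1 : wr M (red q) (Finsupp.single n 1) ≤ M (ind E) := by
    refine hM.mono _ _ fun x => ?_
    by_cases h : x ∈ E
    · rw [ind_one h]
      exact (ind_mem _ _).2
    · rw [ind_zero h, ind_zero]
      refine not_not.2 (Finsupp.ext fun k => ?_)
      rw [red_apply, Finsupp.add_apply, Finsupp.add_apply, red_apply]
      by_cases hk : k = n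
      · subst hk
        have h2 := Int.emod_nonneg (x k) hq'.ne'
        have h3 := Int.emod_lt_of_pos (x k) hq'
        have h4 : x k % q k ≠ q k - 1 := h
        rw [Finsupp.single_eq_same, ← Int.add_emod_emod]
        exact Int.emod_eq_of_lt (by omega) (by omega)
      · rw [Finsupp.single_eq_of_ne hk, zero_add, zero_add]
  have h2 : M (∑ r ∈ Finset.range (q n), BF.tr (Finsupp.single n (r : ℤ)) (ind E)) ≤ 1 := by
    refine hM.le _ _ fun x => ?_
    rw [sum_val]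
    have h3 : ∀ r ∈ Finset.range (q n), (BF.tr (Finsupp.single n (r : ℤ)) (ind E)).1 x ≤
        if r = (q n - 1 - x n % q n).toNat then 1 else 0 := by
      intro r hr
      show (ind E).1 (Finsupp.single n (r : ℤ) + x) ≤ _
      split_ifs with h4
      · exact (ind_mem _ _).2
      · refine (ind_zero fun h5 => h4 ?_).le
        have h6 : (Finsupp.single n (r : ℤ) + x) n % q n = q n - 1 := h5
        rw [Finsupp.add_apply, Finsupp.single_eq_same, ← Int.add_emod_emod] at h6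
        have h7 := Int.emod_nonneg (x n) hq'.ne'
        have h8 := Int.emod_lt_of_pos (x n) hq'
        have h9 := Finset.mem_range.1 hr
        by_cases h10 : (r : ℤ) + x n % q n < q n
        · rw [Int.emod_eq_of_lt (by omega) h10] at h6
          omega
        · rw [← Int.sub_emod_right, Int.emod_eq_of_lt (by omega) (by omega)] at h6
          omega
    refine (Finset.sum_le_sum h3).trans ?_
    rw [Finset.sum_ite_eq']
    split_ifs <;> simp
  rw [map_sum, Finset.sum_congr rfl fun r _ => hM.inv (ind E) _ _ fun _ => rfl, Finset.sum_const,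
    Finset.card_range, nsmul_eq_mul] at h2
  refine h1.trans ?_
  rw [← one_div, le_div_iff₀ (by exact_mod_cast hq), mul_comm]
  exact h2

theorem lc_single (c : ℕ →₀ ℤ) :
    Finsupp.linearCombination ℤ (fun n => Finsupp.single n (1 : ℤ)) c = c := by
  rw [Finsupp.linearCombination_apply]
  simp only [Finsupp.smul_single, smul_eq_mul, mul_one, Finsupp.sum_single]

theorem folner_loc {ι : Type} (F : Finset ι) (T : ι → Set (ℕ →₀ ℤ)) (m : ℕ)
    (hT : ∀ c : ℕ →₀ ℤ, (∀ n, |c n| ≤ 2 ^ n * (n + 1)) → (∀ n < m, c n = 0) → ∃ f ∈ F, c ∈ T f) :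
    ∃ (ρ : (ℕ →₀ ℤ) → ℝ) (κ : ℝ), 0 < κ ∧ (∀ a b, ρ (a + b) ≤ ρ a + ρ b) ∧ (∀ a, ρ (-a) = ρ a) ∧
      ρ 0 = 0 ∧ (∀ a, 0 ≤ ρ a) ∧
      (∀ b, ρ b < κ → ∃ f ∈ F, ∃ f' ∈ F, ∃ t₁ ∈ T f, ∃ t₂ ∈ T f, ∃ t₃ ∈ T f', ∃ t₄ ∈ T f',
        b = t₁ - t₂ - (t₃ - t₄)) ∧
      ∀ 𝒲 : Ultrafilter ℕ, (𝒲 : Filter ℕ) ≤ atTop → ∀ ε : ℝ, 0 < ε → ∃ S ∈ 𝒲, ∀ n ∈ S, ∀ m ∈ S,
        ρ (Finsupp.single n 1 - Finsupp.single m 1) ≤ ε := by
  obtain ⟨M, m1, m2, m3⟩ := exists_linMean (ℕ →₀ ℤ)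
  have hM : IsM M := ⟨m1, m2, m3⟩
  have hF : (0 : ℝ) < F.card := by
    obtain ⟨f, hf, -⟩ := hT 0 (fun n => by simp; positivity) fun _ _ => rfl
    exact_mod_cast Finset.card_pos.2 ⟨f, hf⟩
  obtain ⟨k, hk⟩ := exists_pow_lt_of_lt_one (show 0 < ((F.card : ℝ) ^ 4)⁻¹ / 4 by positivity)
    (show (1 / 2 : ℝ) < 1 by norm_num)
  let q₁ : ℕ → ℕ := fun n => if n < m + k then 1 else 2 ^ n * (n + 1)
  let q₂ : ℕ → ℕ := fun n => if n < m + k then 1 else n + 1
  have hq₁ : ∀ n, 0 < q₁ n := fun n => by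
    simp only [q₁]
    split_ifs <;> positivity
  have hq₂ : ∀ n, 0 < q₂ n := fun n => by
    simp only [q₂]
    split_ifs <;> positivity
  have hred : ∀ {q : ℕ → ℕ}, (∀ n, 0 < q n) → ∀ x n, |red q x n| < q n := fun hq x n => by
    rw [red_apply, abs_of_nonneg (Int.emod_nonneg _ (by exact_mod_cast (hq n).ne'))]
    exact Int.emod_lt_of_pos _ (by exact_mod_cast hq n)
  obtain ⟨ρ, κ, r0, r1, r2, r3, r4, r5, r6⟩ := folner_abs hM (red q₁) (red q₂) F T
    (fun x => hT _ (fun n => by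
      refine (hred hq₁ x n).le.trans ?_
      simp only [q₁]
      split_ifs
      · have : (0 : ℤ) < 2 ^ n * (n + 1) := by positivity
        omega
      · exact_mod_cast le_rfl) fun n hn => by
      have h1 := hred hq₁ x n
      simp only [q₁, if_pos (show n < m + k by omega)] at h1
      exact Int.abs_lt_one_iff.1 h1) (fun y => by
      obtain ⟨R, hR⟩ : ∃ R, (red q₂ y).support ⊆ Finset.Ico (m + k) R := by
        refine ⟨(red q₂ y).support.sup id + 1, fun n hn => Finset.mem_Ico.2 ⟨?_,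
          Nat.lt_succ_of_le (Finset.le_sup (f := id) hn)⟩⟩
        by_contra h
        have h1 := hred hq₂ y n
        simp only [q₂, if_pos (not_le.1 h)] at h1
        exact Finsupp.mem_support_iff.1 hn (Int.abs_lt_one_iff.1 h1)
      have h1 := rho_sum (wr_add hM (red q₁)) (wr_neg hM _) (wr_zero hM _) (Finset.Ico (m + k) R)
        (red q₂ y) fun n => Finsupp.single n 1
      rw [← lc_eq _ _ hR, lc_single] at h1
      have h2 : ∑ n ∈ Finset.Ico (m + k) R, |(red q₂ y n : ℝ)| * wr M (red q₁)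
          (Finsupp.single n 1) ≤ ∑ n ∈ Finset.Ico (m + k) R, (1 / 2 : ℝ) ^ n := by
        refine Finset.sum_le_sum fun n hn => ?_
        have h3 := hred hq₂ y n
        have h4 := wr_single hM (hq₁ n)
        simp only [q₁, q₂, if_neg (not_lt.2 (Finset.mem_Ico.1 hn).1)] at h3 h4
        have h5 : |(red q₂ y n : ℝ)| ≤ (n : ℝ) + 1 := by exact_mod_cast h3.le
        refine (mul_le_mul h5 h4 (wr_nonneg hM _ _) (by positivity)).trans (le_of_eq ?_)
        push_cast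
        field_simp
        rw [← mul_pow]
        norm_num
      have h3 := geom_sum_Ico_le_of_lt_one (m := m + k) (n := R) (show (0 : ℝ) ≤ 1 / 2 by norm_num)
        (by norm_num)
      have h4 : (1 / 2 : ℝ) ^ (m + k) ≤ (1 / 2) ^ k :=
        pow_le_pow_of_le_one (by norm_num) (by norm_num) (by omega)
      rw [show (1 - 1 / 2 : ℝ) = 1 / 2 by norm_num, le_div_iff₀ (by norm_num)] at h3
      linarith [h1.trans h2])
  refine ⟨ρ, κ, r0, r1, r2, r3, r4, r5, fun 𝒲 h𝒲 => r6 _ 𝒲 ?_⟩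
  refine (squeeze_zero' (Eventually.of_forall fun n => wr_nonneg hM _ _) ?_
    (tendsto_one_div_add_atTop_nhds_zero_nat (𝕜 := ℝ))).mono_left h𝒲
  filter_upwards [eventually_ge_atTop (m + k)] with n hn
  have h4 := wr_single hM (hq₂ n)
  simp only [q₂, if_neg (not_lt.2 hn)] at h4
  simpa using h4

end Pool.Agent.H567Z.PS
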