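import Mathlib
import Pool.Agent.H567Z.Alg
import Pool.Agent.H567Z.Dual

/-! The tightness of an essential subgroup of a compact abelian group bounds the number of
characters of the compact group. -/

set_option autoImplicit false

namespace Pool.Agent.H567Z.Dual

open Cardinal Alg

universe u

variable {K : Type u} [CommGroup K] [TopologicalSpace K] [IsTopologicalGroup K] [CompactSpace K]
  [T2Space K]

/-- evaluation, written additively -/
noncomputable def evA (x : K) : Additive (chars K) →+ T := MonoidHom.toAdditive (evH x)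

theorem evA_surj (f : Additive (chars K) →+ T) : ∃ x : K, ∀ χ, evA x χ = f χ := by
  obtain ⟨x, hx⟩ := dual_surj (MonoidHom.toAdditive.symm f)
  exact ⟨x, fun χ => hx χ.toMul⟩

omit [IsTopologicalGroup K] [CompactSpace K] [T2Space K] in
theorem evA_closed (χ : Additive (chars K)) : IsClosed {x : K | evA x χ = 0} :=
  isClosed_eq (f := χ.toMul.1) (g := fun _ => 1) χ.toMul.2 continuous_const

theorem chars_le {lam : Cardinal.{u}} (h0 : ℵ₀ ≤ lam) (Γ : Subgroup K)
    (hess : ∀ L : Subgroup K, IsClosed (L : Set K) → L ⊓ Γ = ⊥ → L = ⊥)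
    (ht : ∀ A : Set K, A ⊆ Γ → ∀ y ∈ Γ, y ∈ closure A → ∃ B ⊆ A, #B ≤ lam ∧ y ∈ closure B) :
    #(chars K) ≤ lam := by
  classical
  by_contra hcon
  obtain ⟨C, I, q, hI, ⟨⟨c₀, hc₀, hc₁⟩, hC⟩, hq1, hq2⟩ :=
    exists_quot (X := Additive (chars K)) h0 (not_le.1 hcon)
  choose! ψ hψ using hq2
  have hgen : ∀ x : K, x ≠ 1 → ∃ y ∈ Γ, y ≠ 1 ∧
      ∀ H : Subgroup K, IsClosed (H : Set K) → x ∈ H → y ∈ H := by
    intro x hx
    by_contra h
    push Not at h
    have h1 := hess (Subgroup.zpowers x).topologicalClosure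
      (Subgroup.isClosed_topologicalClosure _) (by
        rw [eq_bot_iff]
        rintro y ⟨h2, h3⟩
        by_contra h4
        obtain ⟨H, h5, h6, h7⟩ := h y h3 h4
        exact h7 (Subgroup.topologicalClosure_minimal _ (Subgroup.zpowers_le.2 h6) h5 h2))
    apply hx
    rw [← Subgroup.mem_bot, ← h1]
    exact Subgroup.le_topologicalClosure _ (Subgroup.mem_zpowers x)
  have hker : ∀ {x y : K}, (∀ H : Subgroup K, IsClosed (H : Set K) → x ∈ H → y ∈ H) →
      ∀ χ, evA x χ = 0 → evA y χ = 0 := fun h χ hχ => h χ.toMul.1.ker (evA_closed χ) hχ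
  have hne : ∀ {x : K} (χ), evA x χ ≠ 0 → x ≠ 1 := by
    rintro x χ h rfl
    exact h (map_one χ.toMul.1)
  have hone : ∀ {x : K}, (∀ χ, evA x χ = 0) → x = 1 := fun h =>
    eq_one_of_chars fun χ => h (Additive.ofMul χ)
  have h1 : ∀ β : I, ∃ γ ∈ Γ, γ ≠ 1 ∧ ∀ χ, q χ β = 0 → evA γ χ = 0 := by
    intro β
    obtain ⟨e, he⟩ := evA_surj ((Finsupp.applyAddHom β).comp q)
    have he' : ∀ χ, evA e χ = q χ β := he
    obtain ⟨γ, h2, h3, h4⟩ := hgen e (hne (ψ β c₀) (by
      rw [he', hψ β c₀ hc₀, Finsupp.single_eq_same]; exact hc₁))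
    exact ⟨γ, h2, h3, fun χ h => hker h4 χ ((he' χ).trans h)⟩
  choose γ hγ1 hγ2 hγ3 using h1
  have h2 : ∀ β : I, ∃ m : ℕ, (∀ χ, evA (γ β) χ = 0 → m • q χ β = 0) ∧ ∃ c ∈ C, m • c ≠ 0 := by
    intro β
    obtain ⟨m, h3, h4⟩ := hC ((evA (γ β)).ker.map ((Finsupp.applyAddHom β).comp q)) (by
      intro h
      apply hγ2 β
      refine hone fun χ => ?_
      obtain ⟨χ', h5, h6⟩ := h (hq1 χ β)
      have h7 : q χ' β = q χ β := h6
      have h8 := hγ3 β (χ - χ') (by rw [map_sub, Finsupp.sub_apply, h7, sub_self])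
      rwa [map_sub, AddMonoidHom.mem_ker.1 h5, sub_zero] at h8)
    exact ⟨m, fun χ h => h3 _ (hq1 χ β) ⟨χ, h, rfl⟩, h4⟩
  choose μ hμ1 hμ2 using h2
  obtain ⟨m, hm⟩ : ∃ m : ℕ, lam < #{β | μ β = m} := by
    by_contra h
    push Not at h
    have h3 := card_iUnion_nat h0 _ h
    have h4 : (⋃ m : ℕ, {β | μ β = m}) = Set.univ := by
      rw [Set.eq_univ_iff_forall]
      intro β
      exact Set.mem_iUnion.2 ⟨μ β, rfl⟩
    rw [h4, mk_univ] at h3
    exact hI.not_ge h3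
  let σ : (I →₀ T) →+ T := Finsupp.liftAddHom fun β => if μ β = m then AddMonoidHom.id T else 0
  have hσ : ∀ β c, μ β = m → σ (Finsupp.single β c) = c := by
    intro β c h
    simp [σ, h]
  have hσ2 : ∀ y : I →₀ T, σ y = ∑ β ∈ y.support, if μ β = m then y β else 0 := by
    intro y
    rw [Finsupp.liftAddHom_apply]
    refine Finset.sum_congr rfl fun β _ => ?_
    beta_reduce
    split_ifs <;> rfl
  obtain ⟨x, hx⟩ := evA_surj ((nsmulAddMonoidHom m).comp (σ.comp q))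
  have hx' : ∀ χ, evA x χ = m • σ (q χ) := hx
  let A : Subgroup K :=
    { carrier := {z | z ∈ Γ ∧ {β | ∃ c ∈ C, evA z (ψ β c) ≠ 0}.Finite}
      one_mem' := ⟨one_mem _, Set.finite_empty.subset fun β ⟨c, _, h⟩ => hne _ h rfl⟩
      mul_mem' := by
        rintro a b ⟨ha, ha'⟩ ⟨hb, hb'⟩
        refine ⟨mul_mem ha hb, (ha'.union hb').subset ?_⟩
        rintro β ⟨c, hc, h⟩
        by_contra h3
        simp only [Set.mem_union, Set.mem_ofPred_eq, not_or, not_exists, not_and, not_not] at h3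
        exact h (mul_mem (S := Subgroup K) (s := (ψ β c).toMul.1.ker) (h3.1 c hc) (h3.2 c hc))
      inv_mem' := by
        rintro a ⟨ha, ha'⟩
        refine ⟨inv_mem ha, ha'.subset ?_⟩
        rintro β ⟨c, hc, h⟩
        exact ⟨c, hc, fun h3 => h (inv_mem (S := Subgroup K) (s := (ψ β c).toMul.1.ker) h3)⟩ }
  have hγA : ∀ β, γ β ∈ A := by
    intro β
    refine ⟨hγ1 β, (Set.finite_singleton β).subset ?_⟩
    rintro β' ⟨c, hc, h⟩
    by_contra h3
    exact h (hγ3 β _ (by rw [hψ β' c hc, Finsupp.single_eq_of_ne (Ne.symm h3)]))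
  have hxA : x ∈ A.topologicalClosure := by
    by_contra h
    obtain ⟨χ, h3, h4⟩ := exists_char_closed _ A.isClosed_topologicalClosure h
    apply h4
    show evA x (Additive.ofMul χ) = 0
    rw [hx', hσ2, Finset.smul_sum]
    refine Finset.sum_eq_zero fun β _ => ?_
    split_ifs with h5
    · rw [← h5]
      exact hμ1 β _ (h3 _ (A.le_topologicalClosure (hγA β)))
    · exact smul_zero _
  have hx1 : x ≠ 1 := by
    obtain ⟨β, hβ⟩ : {β | μ β = m}.Nonempty := by
      rw [← Set.nonempty_coe_sort, ← mk_ne_zero_iff]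
      exact (zero_le.trans_lt hm).ne'
    obtain ⟨c, hc, h⟩ := hμ2 β
    refine hne (ψ β c) ?_
    rwa [hx', hψ β c hc, hσ β c hβ, ← hβ]
  obtain ⟨y, hy1, hy2, hy3⟩ := hgen x hx1
  obtain ⟨B, hB1, hB2, hB3⟩ := ht A (fun z hz => hz.1) y hy1
    (hy3 _ A.isClosed_topologicalClosure hxA)
  have hB4 : #(⋃ z : B, {β | ∃ c ∈ C, evA z.1 (ψ β c) ≠ 0}) ≤ lam := by
    have h3 := card_biUnion h0 (fun z : K => {β | ∃ c ∈ C, evA z (ψ β c) ≠ 0}) hB2
      fun z hz => (hB1 hz).2.lt_aleph0.le.trans h0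
    rwa [Set.biUnion_eq_iUnion] at h3
  obtain ⟨β, hβ1, hβ2⟩ := Set.not_subset.1 fun h => (hB4.trans_lt hm).not_ge (mk_le_mk_of_subset h)
  apply hy2
  refine hone fun χ => ?_
  have hc : σ (q χ) ∈ C := by
    rw [hσ2]
    refine sum_mem fun β' _ => ?_
    split_ifs
    · exact hq1 χ β'
    · exact zero_mem _
  have h3 : evA y (ψ β (σ (q χ))) = 0 := by
    refine closure_minimal (fun z hz => ?_) (evA_closed _) hB3
    by_contra h
    exact hβ2 (Set.mem_iUnion.2 ⟨⟨z, hz⟩, _, hc, h⟩)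
  have h4 := hker hy3 (χ - ψ β (σ (q χ))) (by
    rw [map_sub, hx', hx', hψ β _ hc, hσ β _ hβ1, sub_self])
  rwa [map_sub, h3, sub_zero] at h4

end Pool.Agent.H567Z.Dual
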