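import Mathlib
import Pool.Agent.H567Z.Tight
import Pool.Agent.H567Z.PS3

/-! In a locally minimal abelian group the character is bounded by the tightness. -/

set_option autoImplicit false

namespace Pool.Agent.H567Z.TM

open Filter Topology Cardinal Alg

universe u

variable {A : Type u} [AddCommGroup A] [τ : TopologicalSpace A] [IsTopologicalAddGroup A]

omit [IsTopologicalAddGroup A] in
theorem essential_add {K : Type u} [AddCommGroup K] [TopologicalSpace K] [IsTopologicalAddGroup K]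
    [T2Space K] (hmin : PS.MinA A) (ι : A →+ K) (hι : IsEmbedding ι) (hd : DenseRange ι)
    (L : AddSubgroup K) (hc : IsClosed (L : Set K)) (hL : ∀ a, ι a ∈ L → a = 0) :
    ∀ x ∈ L, x = 0 := by
  let q : A →+ K ⧸ L := (QuotientAddGroup.mk' L).comp ι
  have hq : Continuous q := continuous_quotient_mk'.comp hι.continuous
  have hqi : Function.Injective q := by
    rw [injective_iff_map_eq_zero]
    exact fun g hg => hL g ((QuotientAddGroup.eq_zero_iff _).1 hg)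
  have h0 := hmin (TopologicalSpace.induced q inferInstance) (topologicalAddGroup_induced q)
    (@IsEmbedding.t2Space _ _ (TopologicalSpace.induced q inferInstance) _ _ _
      (hqi.isEmbedding_induced)) hq.le_induced
  have hh : IsInducing q := ⟨h0.symm⟩
  intro x hx
  have hne : NeBot (comap ι (𝓝 x)) := by
    have h1 := hd x
    rw [mem_closure_iff_nhdsWithin_neBot] at h1
    exact comap_neBot_iff_frequently.2 (by
      rw [frequently_iff_neBot]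
      exact h1)
  have h1 : Tendsto ι (comap ι (𝓝 x)) (𝓝 x) := tendsto_comap
  have h2 : Tendsto q (comap ι (𝓝 x)) (𝓝 (q 0)) := by
    have h3 := ((QuotientAddGroup.continuous_mk (N := L)).tendsto x).comp h1
    have h4 : (QuotientAddGroup.mk x : K ⧸ L) = 0 := (QuotientAddGroup.eq_zero_iff x).2 hx
    rw [h4] at h3
    rw [map_zero]
    exact h3
  have h6 : Tendsto id (comap ι (𝓝 x)) (𝓝 (0 : A)) := by
    rw [hh.tendsto_nhds_iff]
    exact h2
  have h7 := (hι.continuous.tendsto 0).comp h6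
  rw [map_zero] at h7
  exact tendsto_nhds_unique h1 h7

/-- tightness at most `lam` -/
def Tight (X : Type u) [TopologicalSpace X] (lam : Cardinal.{u}) : Prop :=
  ∀ S : Set X, ∀ x ∈ closure S, ∃ B ⊆ S, #B ≤ lam ∧ x ∈ closure B

theorem Tight.of_embedding {X Y : Type u} [TopologicalSpace X] [TopologicalSpace Y]
    {lam : Cardinal.{u}} (h : Tight Y lam) {f : X → Y} (hf : IsEmbedding f) : Tight X lam := by
  intro S x hx
  rw [hf.closure_eq_preimage_closure_image] at hx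
  obtain ⟨B, h1, h2, h3⟩ := h _ _ hx
  obtain ⟨B', h4, rfl⟩ := Set.subset_image_iff.1 h1
  refine ⟨B', h4, ?_, ?_⟩
  · rwa [mk_image_eq hf.injective] at h2
  · rw [hf.closure_eq_preimage_closure_image]
    exact h3

theorem psi_of_min [T2Space A] (hmin : PS.MinA A) {lam : Cardinal.{u}} (h0 : ℵ₀ ≤ lam)
    (ht : Tight A lam) : ∃ 𝓦 : Set (Set A), (∀ W ∈ 𝓦, W ∈ 𝓝 (0 : A)) ∧ #𝓦 ≤ lam ∧
      ∀ g : A, g ≠ 0 → ∃ W ∈ 𝓦, g ∉ W := by
  obtain ⟨K, i1, i2, i3, i4, i5, ι, hι, hd⟩ :=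
    exists_compactification_pre (PS.prodanov_stoyanov hmin)
  let _ : AddCommGroup K :=
    { i1 with
      add_comm := fun a b => hd.induction_on₂ (p := fun a b => a + b = b + a)
        (isClosed_eq (by fun_prop) (by fun_prop))
        (fun a b => by rw [← map_add, ← map_add, add_comm]) a b }
  have : T2Space (Multiplicative K) := i5
  have hc : #(Dual.chars (Multiplicative K)) ≤ lam := by
    refine Dual.chars_le h0 (AddSubgroup.toSubgroup ι.range) (fun L hL h => ?_) ?_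
    · rw [eq_bot_iff]
      refine essential_add hmin ι hι hd (Subgroup.toAddSubgroup' L) hL fun a ha => ?_
      have h1 : Multiplicative.ofAdd (ι a) ∈ L ⊓ AddSubgroup.toSubgroup ι.range := ⟨ha, a, rfl⟩
      rw [h] at h1
      apply hι.injective
      rw [map_zero]
      exact h1
    · rintro S hS _ ⟨y, rfl⟩ hy
      obtain ⟨S', -, rfl⟩ : ∃ S' ⊆ Set.univ, ι '' S' = S :=
        Set.subset_image_iff.1 (by rwa [Set.image_univ])
      obtain ⟨B, h1, h2, h3⟩ := ht S' y (by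
        rw [hι.closure_eq_preimage_closure_image]
        exact hy)
      rw [hι.closure_eq_preimage_closure_image] at h3
      exact ⟨ι '' B, Set.image_mono h1, mk_image_le.trans h2, h3⟩
  let W : ℕ → Dual.chars (Multiplicative K) → Set A := fun n χ =>
    {a | dist (χ.1 (Multiplicative.ofAdd (ι a))) 1 < 1 / ((n : ℝ) + 1)}
  refine ⟨⋃ n, Set.range (W n), ?_, card_iUnion_nat h0 _ fun n => mk_range_le.trans hc, ?_⟩
  · rintro _ ⟨_, ⟨n, rfl⟩, χ, rfl⟩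
    have h1 : Continuous fun a => χ.1 (Multiplicative.ofAdd (ι a)) :=
      Continuous.comp (g := χ.1) χ.2 hι.continuous
    refine (isOpen_lt (h1.dist continuous_const) continuous_const).mem_nhds ?_
    show dist (χ.1 (Multiplicative.ofAdd (ι 0))) 1 < _
    rw [map_zero, ofAdd_zero, map_one, dist_self]
    positivity
  · intro g hg
    obtain ⟨χ, h1, h2⟩ := Dual.exists_char_ne (x := Multiplicative.ofAdd (ι g)) (fun h =>
      hg (hι.injective (h.trans (map_zero ι).symm)))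
    obtain ⟨n, hn⟩ := exists_nat_one_div_lt (dist_pos.2 h2)
    exact ⟨W n ⟨χ, h1⟩, Set.mem_iUnion.2 ⟨n, _, rfl⟩, fun h => lt_asymm hn h⟩

theorem exists_chain : ∃ V : Set A → ℕ → Set A, ∀ U ∈ 𝓝 (0 : A), V U 0 = U ∧
    (∀ n, V U n ∈ 𝓝 (0 : A)) ∧ ∀ n, ∀ a ∈ V U (n + 1), ∀ b ∈ V U (n + 1), a - b ∈ V U n := by
  choose! h h1 h2 using fun (U : Set A) (hU : U ∈ 𝓝 (0 : A)) => exists_nhds_half_neg hU
  refine ⟨fun U n => h^[n] U, fun U hU => ?_⟩
  have h3 : ∀ n, h^[n] U ∈ 𝓝 (0 : A) := by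
    intro n
    induction n with
    | zero => exact hU
    | succ n ih =>
      rw [Function.iterate_succ_apply']
      exact h1 _ ih
  refine ⟨rfl, h3, fun n => ?_⟩
  simp only [Function.iterate_succ_apply']
  exact h2 _ (h3 n)

/-- `U` witnesses local minimality -/
def LocMin (U : Set A) : Prop :=
  U ∈ 𝓝 (0 : A) ∧ ∀ σ : TopologicalSpace A, @IsTopologicalAddGroup A σ _ → @T2Space A σ → τ ≤ σ →
    U ∈ @nhds A σ 0 → σ = τ

theorem min_subgroup [T2Space A] {U V : Set A} (hU : LocMin U) (hV : V ∈ 𝓝 (0 : A))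
    (N : AddSubgroup A) (hN : IsClosed (N : Set A)) (h : ∀ v ∈ V, ∀ b ∈ N, v + b ∈ U) :
    PS.MinA N := by
  intro σ h1 h2 h3
  have hle : ∀ {B : Set N}, B ∈ @nhds N σ 0 → B ∈ @nhds N instTopologicalSpaceSubtype 0 :=
    fun hB => _root_.nhds_mono h3 hB
  obtain ⟨ρ, r1, r2, r3, r4⟩ := PS.coarser (A := A)
    {S | ∃ B ∈ @nhds N σ 0, Subtype.val '' B = S} ⟨_, _, univ_mem, rfl⟩
    (by
      rintro _ ⟨B, hB, rfl⟩ _ ⟨B', hB', rfl⟩
      exact ⟨_, ⟨_, inter_mem hB hB', rfl⟩, Set.image_inter_subset _ _ _⟩)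
    (by
      rintro _ ⟨B, hB, rfl⟩
      exact ⟨0, @mem_of_mem_nhds N σ _ _ hB, rfl⟩)
    (by
      rintro _ ⟨B, hB, rfl⟩
      obtain ⟨C, hC, hC2⟩ := @exists_nhds_half_neg N σ _ h1 B hB
      refine ⟨_, ⟨C, hC, rfl⟩, ?_⟩
      rintro _ ⟨a, ha, rfl⟩ _ ⟨b, hb, rfl⟩
      exact ⟨_, hC2 a ha b hb, rfl⟩)
    (by
      intro g hg
      by_cases hgN : g ∈ N
      · have h4 : ({(⟨g, hgN⟩ : N)}ᶜ : Set N) ∈ @nhds N σ 0 :=
          @compl_singleton_mem_nhds N σ _ _ _ fun h => hg (congrArg Subtype.val h).symm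
        obtain ⟨C, hC, hC2⟩ := @exists_nhds_zero_half N σ _ h1.toContinuousAdd _ h4
        obtain ⟨W, hW, hW2⟩ := (mem_nhds_subtype _ _ _).1 (hle hC)
        refine ⟨W, hW, _, ⟨C, hC, rfl⟩, ?_⟩
        rintro _ ⟨b, hb, rfl⟩ h5
        exact hC2 (⟨g, hgN⟩ - b) (hW2 h5) b hb (sub_add_cancel _ _)
      · refine ⟨(fun u => g - u) ⁻¹' (N : Set A)ᶜ, ?_, _, ⟨_, univ_mem, rfl⟩, ?_⟩
        · apply (hN.isOpen_compl.preimage (by fun_prop)).mem_nhds
          simpa using hgN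
        · rintro _ ⟨b, -, rfl⟩ h5
          apply h5
          simp)
  have h4 := hU.2 ρ r1 r2 r3 ((r4 U).2 ⟨V, hV, _, ⟨_, univ_mem, rfl⟩, by
    rintro v hv _ ⟨b, -, rfl⟩
    exact h v hv b b.2⟩)
  subst h4
  refine IsTopologicalAddGroup.ext h1 inferInstance (le_antisymm ?_ (_root_.nhds_mono h3))
  intro S hS
  obtain ⟨W, hW, hW2⟩ := (mem_nhds_subtype _ _ _).1 hS
  obtain ⟨U', hU', _, ⟨B, hB, rfl⟩, h5⟩ := (r4 W).1 hW
  refine mem_of_superset hB fun b hb => hW2 ?_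
  have h6 := h5 0 (mem_of_mem_nhds hU') b ⟨b, hb, rfl⟩
  rwa [zero_add] at h6

theorem basis_of_psi {U : Set A} (hU : LocMin U) {lam : Cardinal.{u}} (h0 : ℵ₀ ≤ lam)
    (𝓦 : Set (Set A)) (h1 : ∀ W ∈ 𝓦, W ∈ 𝓝 (0 : A)) (h2 : #𝓦 ≤ lam)
    (h3 : ∀ g : A, g ≠ 0 → ∃ W ∈ 𝓦, g ∉ W) :
    ∃ 𝓑 : Set (Set A), (𝓝 (0 : A)).HasBasis (fun s => s ∈ 𝓑) id ∧ #𝓑 ≤ lam := by
  classical
  obtain ⟨V, hV⟩ := exists_chain (A := A)
  let F : ℕ → List 𝓦 → Set A := fun n l => V U n ∩ ⋂ W ∈ l, V W.1 n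
  have hF : ∀ n l, F n l ∈ 𝓝 (0 : A) := fun n l => inter_mem ((hV U hU.1).2.1 n)
    ((biInter_mem l.finite_toSet).2 fun W _ => (hV W.1 (h1 _ W.2)).2.1 n)
  have hsub : ∀ n l, ∀ a ∈ F (n + 1) l, ∀ b ∈ F (n + 1) l, a - b ∈ F n l := fun n l a ha b hb =>
    ⟨(hV U hU.1).2.2 n a ha.1 b hb.1, Set.mem_iInter₂.2 fun W hW => (hV W.1 (h1 _ W.2)).2.2 n a
      (Set.mem_iInter₂.1 ha.2 W hW) b (Set.mem_iInter₂.1 hb.2 W hW)⟩
  have hanti : ∀ l, Antitone fun n => F n l := fun l => antitone_nat_of_succ_le fun n a ha => by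
    simpa using hsub n l a ha 0 (mem_of_mem_nhds (hF _ _))
  have hadd : ∀ l, ∀ a ∈ F 1 l, ∀ b ∈ F 2 l, a + b ∈ F 0 l := fun l a ha b hb => by
    simpa using hsub 0 l a ha _ (hsub 1 l 0 (mem_of_mem_nhds (hF _ _)) b hb)
  have hm : ∀ n l, F n l ∈ ⋃ n, Set.range (F n) := fun n l => Set.mem_iUnion.2 ⟨n, l, rfl⟩
  obtain ⟨ρ, r1, r2, r3, r4⟩ := PS.coarser (A := A) (⋃ n, Set.range (F n)) ⟨_, hm 0 []⟩
    (by
      rintro _ ⟨_, ⟨n, rfl⟩, l, rfl⟩ _ ⟨_, ⟨n', rfl⟩, l', rfl⟩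
      refine ⟨_, hm (max n n') (l ++ l'), fun a ha => ⟨hanti l (le_max_left n n') ⟨ha.1, ?_⟩,
        hanti l' (le_max_right n n') ⟨ha.1, ?_⟩⟩⟩
      · exact Set.mem_iInter₂.2 fun W hW => Set.mem_iInter₂.1 ha.2 W (List.mem_append_left _ hW)
      · exact Set.mem_iInter₂.2 fun W hW => Set.mem_iInter₂.1 ha.2 W (List.mem_append_right _ hW))
    (by
      rintro _ ⟨_, ⟨n, rfl⟩, l, rfl⟩
      exact mem_of_mem_nhds (hF n l))
    (by
      rintro _ ⟨_, ⟨n, rfl⟩, l, rfl⟩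
      exact ⟨_, hm (n + 1) l, hsub n l⟩)
    (by
      intro g hg
      obtain ⟨W, hW, hgW⟩ := h3 g hg
      refine ⟨_, hF 1 [⟨W, hW⟩], _, hm 2 [⟨W, hW⟩], fun b hb h => hgW ?_⟩
      have h4 := Set.mem_iInter₂.1 (hadd _ _ h b hb).2 ⟨W, hW⟩ (List.mem_singleton_self _)
      rwa [sub_add_cancel, (hV W (h1 W hW)).1] at h4)
  have h4 := hU.2 ρ r1 r2 r3 ((r4 U).2 ⟨_, hF 1 [], _, hm 2 [], fun a ha b hb => by
    have h5 := (hadd _ a ha b hb).1
    rwa [(hV U hU.1).1] at h5⟩)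
  subst h4
  refine ⟨⋃ n, Set.range (F n), ⟨fun S => ⟨fun hS => ?_, ?_⟩⟩, card_iUnion_nat h0 _ fun n =>
    mk_range_le.trans ((mk_list_le_max _).trans (max_le h0 h2))⟩
  · obtain ⟨U', hU', B, hB, h5⟩ := (r4 S).1 hS
    refine ⟨B, hB, fun b hb => ?_⟩
    have h6 := h5 0 (mem_of_mem_nhds hU') b hb
    rwa [zero_add] at h6
  · rintro ⟨_, ⟨_, ⟨n, rfl⟩, l, rfl⟩, h5⟩
    exact mem_of_superset (hF n l) h5

theorem basis_of_tight [T2Space A] {U : Set A} (hU : LocMin U) {lam : Cardinal.{u}}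
    (h0 : ℵ₀ ≤ lam) (ht : Tight A lam) :
    ∃ 𝓑 : Set (Set A), (𝓝 (0 : A)).HasBasis (fun s => s ∈ 𝓑) id ∧ #𝓑 ≤ lam := by
  obtain ⟨V, hV⟩ := exists_chain (A := A)
  obtain ⟨v0, v1, v2⟩ := hV U hU.1
  let N : AddSubgroup A := AddSubgroup.ofSub (⋂ n, V U n)
    ⟨0, Set.mem_iInter.2 fun n => mem_of_mem_nhds (v1 n)⟩ fun a ha b hb => by
      rw [← sub_eq_add_neg]
      exact Set.mem_iInter.2 fun n => v2 n a (Set.mem_iInter.1 ha _) b (Set.mem_iInter.1 hb _)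
  have hN : ∀ a, a ∈ N ↔ ∀ n, a ∈ V U n := fun a => Set.mem_iInter
  have hNc : IsClosed (N : Set A) := by
    refine isClosed_of_closure_subset fun x hx => (hN x).2 fun n => ?_
    obtain ⟨y, h1, h2⟩ := mem_closure_iff_nhds.1 hx ((fun y => y - x) ⁻¹' V U (n + 1))
      ((continuous_sub_right x).continuousAt.preimage_mem_nhds (by simpa using v1 _))
    simpa using v2 n y ((hN y).1 h2 _) _ h1
  have hmin := min_subgroup hU (v1 1) N hNc fun v hv b hb => by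
    have h1 := v2 0 v hv _ ((hN _).1 (neg_mem hb) 1)
    rwa [v0, sub_neg_eq_add] at h1
  obtain ⟨𝓦, w1, w2, w3⟩ := psi_of_min hmin h0 (ht.of_embedding IsEmbedding.subtypeVal)
  choose E hE1 hE2 using fun W : 𝓦 => (mem_nhds_subtype _ _ _).1 (w1 W.1 W.2)
  refine basis_of_psi hU h0 (Set.range E ∪ ⋃ n, {V U n}) ?_ ?_ ?_
  · rintro _ (⟨W, rfl⟩ | ⟨_, ⟨n, rfl⟩, rfl⟩)
    · exact hE1 W
    · exact v1 n
  · refine (mk_union_le _ _).trans (add_le_of_le h0 (mk_range_le.trans w2)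
      (card_iUnion_nat h0 _ fun n => ?_))
    rw [mk_singleton]
    exact one_le_aleph0.trans h0
  · intro g hg
    by_cases h : g ∈ N
    · obtain ⟨W, hW, h1⟩ := w3 ⟨g, h⟩ fun h => hg (congrArg Subtype.val h)
      exact ⟨E ⟨W, hW⟩, Or.inl ⟨_, rfl⟩, fun h2 => h1 (hE2 ⟨W, hW⟩ h2)⟩
    · obtain ⟨n, hn⟩ := not_forall.1 ((hN g).not.1 h)
      exact ⟨_, Or.inr (Set.mem_iUnion.2 ⟨n, rfl⟩), hn⟩

section Mul

variable {G : Type u} [CommGroup G] [t : TopologicalSpace G] [IsTopologicalGroup G]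

theorem basis_of_tight_mul [T2Space G] {U : Set G} (hU : U ∈ 𝓝 (1 : G))
    (hmin : ∀ σ : TopologicalSpace G, @IsTopologicalGroup G σ _ → @T2Space G σ → t ≤ σ →
      U ∈ @nhds G σ 1 → σ = t) {lam : Cardinal.{u}} (h0 : ℵ₀ ≤ lam) (ht : Tight G lam) :
    ∃ 𝓑 : Set (Set G), (𝓝 (1 : G)).HasBasis (fun s => s ∈ 𝓑) id ∧ #𝓑 ≤ lam := by
  have : T2Space (Additive G) := ‹T2Space G›
  refine basis_of_tight (A := Additive G) (U := U) ⟨hU, fun σ h1 h2 h3 h4 =>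
    hmin σ ?_ h2 h3 h4⟩ h0 ht
  exact @IsTopologicalGroup.mk G σ _ (@ContinuousMul.mk G σ _ h1.continuous_add)
    (@ContinuousInv.mk G σ _ h1.continuous_neg)

theorem tight_of_basis {𝓑 : Set (Set G)} (h : (𝓝 (1 : G)).HasBasis (fun s => s ∈ 𝓑) id) :
    Tight G #𝓑 := by
  intro S x hx
  have h1 : ∀ B : 𝓑, ∃ y ∈ S, x⁻¹ * y ∈ B.1 := fun B => by
    obtain ⟨y, h2, h3⟩ := mem_closure_iff_nhds.1 hx ((fun y => x⁻¹ * y) ⁻¹' B.1)
      ((continuous_const_mul x⁻¹).continuousAt.preimage_mem_nhds (by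
        simpa using h.mem_of_mem B.2))
    exact ⟨y, h3, h2⟩
  choose y hy1 hy2 using h1
  refine ⟨Set.range y, Set.range_subset_iff.2 hy1, mk_range_le, mem_closure_iff_nhds.2 ?_⟩
  intro W hW
  obtain ⟨B, h2, h3⟩ := h.mem_iff.1 ((continuous_const_mul x).continuousAt.preimage_mem_nhds
    (x := 1) (by simpa using hW))
  refine ⟨y ⟨B, h2⟩, ?_, _, rfl⟩
  simpa using h3 (hy2 ⟨B, h2⟩)

/-- a locally minimal abelian group of countable tightness is metrizable -/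
theorem metrizable_of_tight [T2Space G] {U : Set G} (hU : U ∈ 𝓝 (1 : G))
    (hmin : ∀ σ : TopologicalSpace G, @IsTopologicalGroup G σ _ → @T2Space G σ → t ≤ σ →
      U ∈ @nhds G σ 1 → σ = t)
    (ht : ∀ S : Set G, ∀ x ∈ closure S, ∃ B ⊆ S, B.Countable ∧ x ∈ closure B) :
    TopologicalSpace.MetrizableSpace G := by
  obtain ⟨𝓑, h1, h2⟩ := basis_of_tight_mul hU hmin le_rfl (fun S x hx => by
    obtain ⟨B, h1, h2, h3⟩ := ht S x hx
    exact ⟨B, h1, le_aleph0_iff_set_countable.2 h2, h3⟩)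
  have : (𝓝 (1 : G)).IsCountablyGenerated :=
    HasCountableBasis.isCountablyGenerated ⟨h1, le_aleph0_iff_set_countable.1 h2⟩
  let uG : UniformSpace G := IsTopologicalGroup.rightUniformSpace G
  have : IsCountablyGenerated (uniformity G) := comap.isCountablyGenerated _ _
  exact UniformSpace.metrizableSpace

end Mul

end Pool.Agent.H567Z.TM
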