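import Mathlib
import Pool.Agent.H567Z.LF
import Pool.Agent.H567Z.TightMain

/-! A local form of the Prodanov-Stoyanov theorem. -/

set_option autoImplicit false

namespace Pool.Agent.H567Z.PS

open Filter Topology

variable {A : Type} [AddCommGroup A]

/-- chains of symmetric sets -/
structure Ch (V : ℕ → Set A) : Prop where
  zero : ∀ n, (0 : A) ∈ V n
  add : ∀ n, ∀ a ∈ V (n + 1), ∀ b ∈ V (n + 1), a + b ∈ V n
  neg : ∀ n, ∀ a ∈ V n, -a ∈ V n

variable {V : ℕ → Set A}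

theorem Ch.anti (h : Ch V) : Antitone V := antitone_nat_of_succ_le fun n a ha => by
  simpa using h.add n a ha 0 (h.zero _)

theorem Ch.sub (h : Ch V) (n : ℕ) {a b : A} (ha : a ∈ V (n + 1)) (hb : b ∈ V (n + 1)) :
    a - b ∈ V n := by
  rw [sub_eq_add_neg]
  exact h.add n a ha _ (h.neg _ b hb)

theorem Ch.nsmul (h : Ch V) (k : ℕ) : ∀ j, ∀ a ∈ V (j + k), k • a ∈ V j := by
  induction k with
  | zero => exact fun j a _ => by rw [zero_smul]; exact h.zero j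
  | succ k ih =>
    intro j a ha
    rw [succ_nsmul]
    exact h.add j _ (ih (j + 1) a (h.anti (by omega) ha)) a (h.anti (by omega) ha)

theorem Ch.zsmul (h : Ch V) (j : ℕ) {B : ℕ} {z : ℤ} (hz : |z| ≤ B) {a : A} (ha : a ∈ V (j + B)) :
    z • a ∈ V j := by
  have h0 : z.natAbs ≤ B := by
    rw [← Int.natCast_natAbs] at hz
    exact_mod_cast hz
  have h1 := h.nsmul z.natAbs j a (h.anti (by omega) ha)
  rw [← natCast_zsmul] at h1
  rcases Int.natAbs_eq z with h2 | h2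
  · rwa [h2]
  · rw [h2, neg_smul]
    exact h.neg _ _ h1

theorem Ch.sum (h : Ch V) (R : ℕ) : ∀ (r : ℕ) (y : ℕ → A), (∀ i < R, y i ∈ V (r + i + 1)) →
    ∑ i ∈ Finset.range R, y i ∈ V r := by
  induction R with
  | zero => exact fun r y _ => h.zero r
  | succ R ih =>
    intro r y hy
    rw [Finset.sum_range_succ']
    exact h.add r _ (ih (r + 1) _ fun i hi => h.anti (by omega) (hy (i + 1) (by omega))) _
      (hy 0 (by omega))

/-- locally piecewise syndetic sets -/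
def LPw (V : ℕ → Set A) (T : Set A) : Prop :=
  ∃ k, ∃ F : Finset A, ∀ D : Finset A, (∀ d ∈ D, d ∈ V k) → ∃ x, ∀ d ∈ D, ∃ f ∈ F, x + d - f ∈ T

theorem LPw.union (hV : Ch V) {S T : Set A} (h : LPw V (S ∪ T)) : LPw V S ∨ LPw V T := by
  classical
  obtain ⟨k, F, hF⟩ := h
  by_cases hS : LPw V S
  · exact Or.inl hS
  · right
    have h1 : ∃ E : Finset A, (∀ e ∈ E, e ∈ V (k + 1)) ∧
        ∀ x, ∃ e ∈ E, ∀ f ∈ F, x + e - f ∉ S := by
      by_contra hcon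
      push Not at hcon
      exact hS ⟨k + 1, F, hcon⟩
    obtain ⟨E, hE0, hE⟩ := h1
    refine ⟨k + 1, Finset.image₂ (fun f e => f - e) F E, fun D hD => ?_⟩
    obtain ⟨x, hx⟩ := hF (Finset.image₂ (fun d e => d + e) D E) (by
      intro z hz
      obtain ⟨d, hd, e, he, rfl⟩ := Finset.mem_image₂.1 hz
      exact hV.add k d (hD d hd) e (hE0 e he))
    refine ⟨x, fun d hd => ?_⟩
    obtain ⟨e, he, he2⟩ := hE (x + d)
    obtain ⟨f, hf, hf2⟩ := hx (d + e) (Finset.mem_image₂_of_mem hd he)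
    refine ⟨f - e, Finset.mem_image₂_of_mem hf he, ?_⟩
    have e1 : x + d - (f - e) = x + (d + e) - f := by abel
    rw [e1]
    rcases hf2 with h | h
    · rw [← add_assoc] at h
      exact absurd h (he2 f hf)
    · exact h

theorem LPw.diff (hV : Ch V) {T : Set A} (h : LPw V T) :
    ∃ k, ∃ F : Finset A, ∀ z ∈ V k, ∃ f ∈ F, ∃ t ∈ T, ∃ t' ∈ T, z = f + (t - t') := by
  classical
  obtain ⟨k, F, hF⟩ := h
  refine ⟨k, Finset.image₂ (fun f e => f - e) F F, fun z hz => ?_⟩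
  obtain ⟨x, hx⟩ := hF {0, z} (by simp [hz, hV.zero])
  obtain ⟨f₁, h₁, h₂⟩ := hx 0 (by simp)
  obtain ⟨f₂, h₃, h₄⟩ := hx z (by simp)
  exact ⟨f₂ - f₁, Finset.mem_image₂_of_mem h₃ h₁, _, h₄, _, h₂, by abel⟩

theorem exists_avoid_loc (hV : Ch V) {ι : Type} {s : Set ι} (hs : s.Finite) (T : ι → Set A)
    (h : ∀ i ∈ s, ¬ LPw V (T i)) (k : ℕ) : ∃ x ∈ V k, ∀ i ∈ s, x ∉ T i := by
  have h1 : ¬ LPw V (⋃ i ∈ s, T i) := by
    induction s, hs using Set.Finite.induction_on with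
    | empty =>
      rintro ⟨k, F, hF⟩
      obtain ⟨x, hx⟩ := hF {0} (by simp [hV.zero])
      obtain ⟨f, -, hf⟩ := hx 0 (by simp)
      simp at hf
    | @insert a s _ _ ih =>
      rw [Set.biUnion_insert]
      intro h2
      rcases h2.union hV with h3 | h3
      · exact h a (Set.mem_insert _ _) h3
      · exact ih (fun i hi => h i (Set.mem_insert_of_mem _ hi)) h3
  by_contra hcon
  push Not at hcon
  refine h1 ⟨k, {0}, fun D hD => ⟨0, fun d hd => ⟨0, by simp, ?_⟩⟩⟩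
  obtain ⟨i, hi, hx⟩ := hcon d (hD d hd)
  rw [zero_add, sub_zero]
  exact Set.mem_biUnion hi hx

/-- local covering at the level `j` -/
def LPj (V : ℕ → Set A) (j : ℕ) (d c : ℤ) (W : Set A) : Prop :=
  ∃ k, ∃ F : Finset A, ∀ a ∈ V k, ∃ f ∈ F, ∃ b ∈ V j, c • a - f - d • b ∈ W

/-- local covering at all levels -/
def LPc (V : ℕ → Set A) (d c : ℤ) (W : Set A) : Prop := ∀ j, LPj V j d c W

theorem LPc.mono {d c : ℤ} {W W' : Set A} (h : LPc V d c W) (hW : W ⊆ W') : LPc V d c W' := by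
  intro j
  obtain ⟨k, F, hF⟩ := h j
  refine ⟨k, F, fun a ha => ?_⟩
  obtain ⟨f, hf, b, hb, hb'⟩ := hF a ha
  exact ⟨f, hf, b, hb, hW hb'⟩

theorem LPc.trans (hV : Ch V) {e d c : ℤ} {W W' : Set A} (h : LPc V d c W) (h' : LPc V e d W)
    (hW : ∀ a ∈ W, ∀ b ∈ W, a - b ∈ W') : LPc V e c W' := by
  classical
  intro j
  obtain ⟨k', F', hF'⟩ := h' j
  obtain ⟨k, F, hF⟩ := h k'
  refine ⟨k, Finset.image₂ (fun f e => f - e) F F', fun a ha => ?_⟩
  obtain ⟨f, hf, b, hb0, hb⟩ := hF a ha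
  obtain ⟨f', hf', b', hb0', hb'⟩ := hF' (-b) (hV.neg _ _ hb0)
  refine ⟨f - f', Finset.mem_image₂_of_mem hf hf', -b', hV.neg _ _ hb0', ?_⟩
  have h1 := hW _ hb _ hb'
  have e1 : c • a - (f - f') - e • -b' = c • a - f - d • b - (d • -b - f' - e • b') := by
    simp only [smul_neg]
    abel
  rw [e1]
  exact h1

theorem LPc.emod (hV : Ch V) {d c : ℤ} {W : Set A} (h : LPc V d c W) : LPc V d (c % d) W := by
  intro j
  obtain ⟨k, F, hF⟩ := h (j + 1)
  refine ⟨k + (j + 1 + (c / d).natAbs), F, fun a ha => ?_⟩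
  obtain ⟨f, hf, b, hb0, hb⟩ := hF a (hV.anti (by omega) ha)
  refine ⟨f, hf, b - (c / d) • a, hV.sub j hb0 (hV.zsmul _ (B := (c / d).natAbs) (by simp)
    (hV.anti (by omega) ha)), ?_⟩
  have e1 : (c % d) • a - f - d • (b - (c / d) • a) = c • a - f - d • b := by
    conv_rhs => rw [← Int.emod_add_mul_ediv c d]
    rw [add_smul, smul_sub, mul_smul]
    abel
  rw [e1]
  exact hb

theorem LPc.natAbs (hV : Ch V) {d c : ℤ} {W : Set A} (h : LPc V d c W) :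
    LPc V d (c.natAbs : ℤ) W := by
  rcases Int.natAbs_eq c with h1 | h1
  · rw [← h1]
    exact h
  · intro j
    obtain ⟨k, F, hF⟩ := h j
    refine ⟨k, F, fun a ha => ?_⟩
    obtain ⟨f, hf, b, hb0, hb⟩ := hF (-a) (hV.neg _ _ ha)
    refine ⟨f, hf, b, hb0, ?_⟩
    rw [h1, neg_smul, smul_neg, neg_neg] at hb
    exact hb

theorem lpc_self (d : ℤ) {W : Set A} (h0 : (0 : A) ∈ W) : LPc V d d W := fun j =>
  ⟨j, {0}, fun a ha => ⟨0, by simp, a, ha, by simpa using h0⟩⟩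

theorem not_lpw (hV : Ch V) {j : ℕ} {d c : ℤ} {W W' : Set A} (h : ¬ LPj V j d c W')
    (hW : ∀ a ∈ W, ∀ b ∈ W, a - b ∈ W') (g : A) :
    ¬ LPw V {x : A | ∃ b ∈ V (j + 1), g + c • x - d • b ∈ W} := by
  classical
  intro h1
  obtain ⟨k, F, hF⟩ := h1.diff hV
  apply h
  refine ⟨k, F.image (fun f => c • f), fun a ha => ?_⟩
  obtain ⟨f, hf, t, ⟨b, hb0, hb⟩, t', ⟨b', hb0', hb'⟩, rfl⟩ := hF a ha
  refine ⟨c • f, Finset.mem_image_of_mem _ hf, b - b', hV.sub j hb0 hb0', ?_⟩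
  have h2 := hW _ hb _ hb'
  have e1 : c • (f + (t - t')) - c • f - d • (b - b') =
      g + c • t - d • b - (g + c • t' - d • b') := by
    rw [smul_add, smul_sub, smul_sub]
    abel
  rw [e1]
  exact h2

/-- `d` is locally saturated at the scale `W` -/
def LGood (V : ℕ → Set A) (d : ℕ) (W : Set A) : Prop := ∀ c : ℤ, ¬ (d : ℤ) ∣ c → ¬ LPc V d c W

variable [τ : TopologicalSpace A] [IsTopologicalAddGroup A]

theorem exists_lgood (hV : Ch V) {U : Set A} (hU : U ∈ 𝓝 (0 : A)) :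
    ∃ d : ℕ, (∃ W ∈ 𝓝 (0 : A), LGood V d W) ∧ LPc V 0 d U := by
  classical
  by_cases h0 : ∃ W ∈ 𝓝 (0 : A), LGood V 0 W
  · exact ⟨0, h0, lpc_self 0 (mem_of_mem_nhds hU)⟩
  push Not at h0
  obtain ⟨U₁, hU₁, hU₁'⟩ := exists_nhds_half_neg hU
  have h1 := h0 U₁ hU₁
  unfold LGood at h1
  push Not at h1
  obtain ⟨c, hc, hc2⟩ := h1
  have hj : 0 < c.natAbs := by
    apply Int.natAbs_pos.2
    rintro rfl
    exact hc (dvd_refl _)
  have hex : ∃ e : ℕ, 0 < e ∧ ∀ W ∈ 𝓝 (0 : A), LPc V (c.natAbs : ℤ) e W :=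
    ⟨c.natAbs, hj, fun W hW => lpc_self _ (mem_of_mem_nhds hW)⟩
  obtain ⟨hd0, hd⟩ := Nat.find_spec hex
  set d := Nat.find hex with hdd
  refine ⟨d, ?_, (hd U₁ hU₁).trans hV (hc2.natAbs hV) hU₁'⟩
  have h2 : ∀ r : ℕ, ∃ W ∈ 𝓝 (0 : A), 0 < r → r < d → ¬ LPc V d r W := by
    intro r
    by_cases hr : 0 < r ∧ r < d
    · have h3 := Nat.find_min hex hr.2
      push Not at h3
      obtain ⟨W, hW, hW2⟩ := h3 hr.1
      obtain ⟨W₁, hW₁, hW₁'⟩ := exists_nhds_half_neg hW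
      exact ⟨W₁, hW₁, fun _ _ h4 => hW2 (h4.trans hV (hd W₁ hW₁) hW₁')⟩
    · exact ⟨Set.univ, univ_mem, fun h1 h2 => absurd ⟨h1, h2⟩ hr⟩
  choose W hW hW2 using h2
  refine ⟨⋂ r ∈ Finset.range d, W r, (Filter.biInter_finset_mem _).2 fun r _ => hW r, ?_⟩
  intro c' hc' h4
  have h5 : (0 : ℤ) < d := by exact_mod_cast hd0
  have h6 := Int.emod_nonneg c' h5.ne'
  have h7 := Int.emod_lt_of_pos c' h5
  have h8 : c' % d ≠ 0 := fun h => hc' (Int.dvd_of_emod_eq_zero h)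
  obtain ⟨r, hr⟩ := Int.eq_ofNat_of_zero_le h6
  have h9 := h4.emod hV
  rw [hr] at h7 h8 h9
  refine hW2 r (by omega) (by omega) (h9.mono fun x hx => ?_)
  exact Set.mem_iInter₂.1 hx r (Finset.mem_range.2 (by omega))

theorem exists_sep_loc (hV : Ch V) {Us : Set A} (hUs : Us ∈ 𝓝 (0 : A))
    (hnp : ¬ LPj V 0 0 1 Us) :
    ∃ (x : ℕ → A) (Ws : Set A) (Wd : ℕ → Set A), Ws ∈ 𝓝 (0 : A) ∧ (∀ d, Wd d ∈ 𝓝 (0 : A)) ∧
      (∀ n m, n < m → x m - x n ∉ Ws) ∧
      (∀ d : ℕ, (∃ W ∈ 𝓝 (0 : A), LGood V d W) → ∀ e : ℕ →₀ ℤ, (∀ n, |e n| ≤ 2 * (n + 1)) →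
        (∀ n < d, e n = 0) → Finsupp.linearCombination ℤ x e ∈ Wd d → ∀ n, (d : ℤ) ∣ e n) ∧
      ∀ (j : ℕ) (c : ℕ →₀ ℤ), (∀ n, |c n| ≤ 2 ^ n * (n + 1)) → (∀ n < j + 1, c n = 0) →
        Finsupp.linearCombination ℤ x c ∈ V j := by
  classical
  obtain ⟨Ws, hWs, hWs'⟩ := exists_nhds_half_neg hUs
  have h1 : ∀ d : ℕ, ∃ W ∈ 𝓝 (0 : A), ∃ W' : Set A, (∀ a ∈ W, ∀ b ∈ W, a - b ∈ W') ∧
      ∀ c : ℤ, ∃ j, (∃ W'' ∈ 𝓝 (0 : A), LGood V d W'') → ¬ (d : ℤ) ∣ c → ¬ LPj V j d c W' := by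
    intro d
    by_cases hd : ∃ W'' ∈ 𝓝 (0 : A), LGood V d W''
    · obtain ⟨W'', h2, h3⟩ := hd
      obtain ⟨W, hW, hW'⟩ := exists_nhds_half_neg h2
      refine ⟨W, hW, W'', hW', fun c => ?_⟩
      by_cases hc : (d : ℤ) ∣ c
      · exact ⟨0, fun _ h => absurd hc h⟩
      · obtain ⟨j, hj⟩ := not_forall.1 (h3 c hc)
        exact ⟨j, fun _ _ => hj⟩
    · exact ⟨Set.univ, univ_mem, Set.univ, fun _ _ _ _ => trivial,
        fun c => ⟨0, fun h => absurd h hd⟩⟩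
  choose Wd hWd Wd' hWd' jj hgood using h1
  let J : ℕ → ℕ := fun m => (Finset.Iic m ×ˢ Finset.Icc (-(2 * (m + 1) : ℤ)) (2 * (m + 1))).sup
    (fun p => jj p.1 p.2) + 1
  have hJ : ∀ (m d : ℕ) (c : ℤ), d ≤ m → |c| ≤ 2 * ((m : ℤ) + 1) → jj d c + 1 ≤ J m := fun m d c hd hc =>
    Nat.succ_le_succ (Finset.le_sup (f := fun p : ℕ × ℤ => jj p.1 p.2) (b := (d, c))
      (Finset.mem_product.2 ⟨Finset.mem_Iic.2 hd, Finset.mem_Icc.2 (abs_le.1 hc)⟩))
  let r : ℕ → ℕ := fun m => m + ∑ i ∈ Finset.range m, J i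
  let P : ℕ → (ℕ → A) → A → Prop := fun m y z =>
    (∀ d ≤ m, (∃ W ∈ 𝓝 (0 : A), LGood V d W) → ∀ c : ℕ → ℤ, (∀ n ≤ m, |c n| ≤ 2 * (m + 1)) →
      ¬ (d : ℤ) ∣ c m → ∀ b ∈ V (J m),
        ∑ n ∈ Finset.range m, c n • y n + c m • z - (d : ℤ) • b ∉ Wd d) ∧
    (∀ n < m, z - y n ∉ Ws) ∧ z ∈ V (r m + 2 ^ m * (m + 1))
  have : Inhabited A := ⟨0⟩
  obtain ⟨x, hx⟩ := exists_seq_rec P (by
    intro m y
    let G' := {g : A | ∃ c : ℕ → ℤ, (∀ n < m, |c n| ≤ 2 * (m + 1)) ∧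
      g = ∑ n ∈ Finset.range m, c n • y n}
    have hG' : G'.Finite := finite_comb y _ m
    let s₁ : Set (ℕ × ℤ × A) := {p | p ∈ Set.Iic m ×ˢ
      Set.Icc (-(2 * (m + 1) : ℤ)) (2 * (m + 1)) ×ˢ G'
      ∧ (∃ W ∈ 𝓝 (0 : A), LGood V p.1 W) ∧ ¬ (p.1 : ℤ) ∣ p.2.1}
    have hs₁ : s₁.Finite :=
      ((Set.finite_Iic m).prod ((Set.finite_Icc _ _).prod hG')).subset fun p hp => hp.1
    let s : Set (ℕ × ℤ × ℤ × A × Set A) :=
      (fun p : ℕ × ℤ × A => (jj p.1 p.2.1, (p.1 : ℤ), p.2.1, p.2.2, Wd p.1)) '' s₁ ∪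
        (fun n : ℕ => (0, (0 : ℤ), (1 : ℤ), -y n, Ws)) '' Set.Iio m
    have hs : s.Finite := (hs₁.image _).union ((Set.finite_Iio m).image _)
    obtain ⟨z, hz0, hz⟩ := exists_avoid_loc hV hs
      (fun p => {x : A | ∃ b ∈ V (p.1 + 1), p.2.2.2.1 + p.2.2.1 • x - p.2.1 • b ∈ p.2.2.2.2}) (by
        rintro _ (⟨p, hp, rfl⟩ | ⟨n, -, rfl⟩)
        · exact not_lpw hV (hgood p.1 p.2.1 hp.2.1 hp.2.2) (hWd' p.1) _
        · exact not_lpw hV hnp hWs' _) (r m + 2 ^ m * (m + 1))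
    refine ⟨z, fun d hd hg c hc hdc b hb0 hb => ?_, fun n hn hb => ?_, hz0⟩
    · refine hz _ (Or.inl ⟨(d, c m, ∑ n ∈ Finset.range m, c n • y n),
        ⟨⟨hd, abs_le.1 (hc m le_rfl), c, fun n hn => hc n hn.le, rfl⟩, hg, hdc⟩, rfl⟩)
        ⟨b, hV.anti (hJ m d _ hd (hc m le_rfl)) hb0, hb⟩
    · refine hz _ (Or.inr ⟨n, hn, rfl⟩) ⟨0, hV.zero _, ?_⟩
      simpa [neg_add_eq_sub] using hb) (by
    rintro m y y' z hy ⟨h1, h2, h3⟩
    refine ⟨fun d hd hg c hc hdc b => ?_, fun n hn => ?_, h3⟩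
    · have e : ∑ n ∈ Finset.range m, c n • y' n = ∑ n ∈ Finset.range m, c n • y n :=
        Finset.sum_congr rfl fun n hn => by rw [hy n (Finset.mem_range.1 hn)]
      rw [e]
      exact h1 d hd hg c hc hdc b
    · rw [← hy n hn]
      exact h2 n hn)
  have hxs : ∀ (n : ℕ) (z : ℤ), |z| ≤ 2 ^ n * (n + 1) → z • x n ∈ V (r n) := fun n z hz =>
    hV.zsmul _ (B := 2 ^ n * (n + 1)) (by exact_mod_cast hz) (hx n).2.2
  have hR : ∀ (e : ℕ →₀ ℤ) (m : ℕ), ∃ R, e.support ⊆ Finset.range (m + R) := by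
    intro e m
    refine ⟨e.support.sup id + 1, fun n hn => Finset.mem_range.2 ?_⟩
    have := Finset.le_sup (f := id) hn
    simp only [id] at this
    omega
  refine ⟨x, Ws, Wd, hWs, hWd, fun n m hnm => (hx m).2.1 n hnm, ?_, fun j c hc hc0 => ?_⟩
  swap
  · obtain ⟨R, hR⟩ := hR c (j + 1)
    rw [lc_eq x c hR, Finset.sum_range_add, Finset.sum_eq_zero fun n hn => by
      rw [hc0 n (Finset.mem_range.1 hn), zero_smul], zero_add]
    exact hV.sum R j _ fun i _ => hV.anti (by simp only [r]; omega) (hxs _ _ (hc _))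
  intro d hg e he hed hW
  by_contra hcon
  push Not at hcon
  have hne : (e.support.filter fun n => ¬ (d : ℤ) ∣ e n).Nonempty := by
    obtain ⟨n, hn⟩ := hcon
    refine ⟨n, Finset.mem_filter.2 ⟨Finsupp.mem_support_iff.2 fun h => hn ?_, hn⟩⟩
    rw [h]
    exact dvd_zero _
  obtain ⟨m, hm, hmax⟩ := Finset.exists_max_image _ id hne
  obtain ⟨hm1, hm2⟩ := Finset.mem_filter.1 hm
  have hdm : d ≤ m := by
    by_contra h
    exact Finsupp.mem_support_iff.1 hm1 (hed m (by omega))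
  obtain ⟨R, hR⟩ := hR e (m + 1)
  have hdiv : ∀ i, (d : ℤ) ∣ e (m + 1 + i) := by
    intro i
    by_contra h
    have h3 : m + 1 + i ∈ e.support.filter fun n => ¬ (d : ℤ) ∣ e n := by
      refine Finset.mem_filter.2 ⟨Finsupp.mem_support_iff.2 fun h' => h ?_, h⟩
      rw [h']
      exact dvd_zero _
    have := hmax _ h3
    simp only [id] at this
    omega
  refine (hx m).1 d hdm hg e (fun n hn => (he n).trans ?_) hm2
    (-∑ i ∈ Finset.range R, (e (m + 1 + i) / d) • x (m + 1 + i)) (hV.neg _ _ ?_) ?_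
  · have : (n : ℤ) ≤ m := by exact_mod_cast hn
    linarith
  · refine hV.sum R _ _ fun i _ => hV.anti ?_ (hxs _ _ ((Int.abs_ediv_le_abs _ _).trans
      ((he _).trans ?_)))
    · have := Finset.single_le_sum (f := J) (fun _ _ => Nat.zero_le _)
        (Finset.mem_range.2 (show m < m + 1 + i by omega))
      simp only [r]
      omega
    · refine mul_le_mul_of_nonneg_right ?_ (by positivity)
      exact le_self_pow₀ one_le_two (by omega)
  · rw [lc_eq x e hR, Finset.sum_range_add, Finset.sum_range_succ] at hW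
    rw [smul_neg, sub_neg_eq_add, Finset.smul_sum]
    have e1 : ∑ i ∈ Finset.range R, (d : ℤ) • (e (m + 1 + i) / d) • x (m + 1 + i) =
        ∑ i ∈ Finset.range R, e (m + 1 + i) • x (m + 1 + i) :=
      Finset.sum_congr rfl fun i _ => by rw [← mul_smul, Int.mul_ediv_cancel' (hdiv i)]
    rw [e1]
    exact hW

theorem local_ps [T2Space A] {U₀ U₁ : Set A} (hmin : TM.LocMin U₀) (hV : Ch V)
    (hU₁ : U₁ ∈ 𝓝 (0 : A)) (hU₂ : ∀ u ∈ U₁, ∀ v ∈ V 0, u + v ∈ U₀) {Us : Set A}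
    (hUs : Us ∈ 𝓝 (0 : A)) : ∃ k, ∃ F : Finset A, ∀ a ∈ V k, ∃ f ∈ F, a - f ∈ Us := by
  classical
  by_contra hcon
  have hnp : ¬ LPj V 0 0 1 Us := by
    rintro ⟨k, F, hF⟩
    refine hcon ⟨k, F, fun a ha => ?_⟩
    obtain ⟨f, hf, b, -, hb⟩ := hF a ha
    refine ⟨f, hf, ?_⟩
    simpa using hb
  obtain ⟨x, Ws, Wd, hWs, hWd, hx1, hx2, hx3⟩ := exists_sep_loc hV hUs hnp
  have hpow : ∀ n : ℕ, (n : ℤ) + 1 ≤ 2 ^ n * (n + 1) := fun n =>
    le_mul_of_one_le_left (by positivity) (one_le_pow₀ one_le_two)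
  let 𝒲 : Ultrafilter ℕ := hyperfilter ℕ
  have h𝒲 : (𝒲 : Filter ℕ) ≤ atTop := Nat.hyperfilter_le_atTop
  let 𝓑 : Set (Set A) := {B | ∃ l : ℕ → ℝ, (∀ n, 0 ≤ l n) ∧ Tendsto l 𝒲 (𝓝 0) ∧ B = Bs x l}
  obtain ⟨σ, h1, h2, h3, h4⟩ := coarser 𝓑
    ⟨_, fun _ => 0, fun _ => le_rfl, tendsto_const_nhds, rfl⟩
    (by
      rintro _ ⟨l, hl, hl', rfl⟩ _ ⟨l₂, hl₂, hl₂', rfl⟩
      refine ⟨_, ⟨fun n => l n + l₂ n, fun n => add_nonneg (hl n) (hl₂ n), ?_, rfl⟩, ?_⟩
      · simpa using hl'.add hl₂'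
      · rintro _ ⟨c, hc1, hc2, rfl⟩
        exact ⟨⟨c, hc1, lt_of_le_of_lt (Nw_mono (fun n => by linarith [hl₂ n]) c) hc2, rfl⟩,
          ⟨c, hc1, lt_of_le_of_lt (Nw_mono (fun n => by linarith [hl n]) c) hc2, rfl⟩⟩)
    (by
      rintro _ ⟨l, -, -, rfl⟩
      exact ⟨0, map_zero _, by simp [Nw], (map_zero _).symm⟩)
    (by
      rintro _ ⟨l, hl, hl', rfl⟩
      refine ⟨_, ⟨fun n => 2 * l n, fun n => by linarith [hl n], ?_, rfl⟩, ?_⟩
      · simpa using hl'.const_mul 2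
      · rintro _ ⟨c, hc1, hc2, rfl⟩ _ ⟨c', hc1', hc2', rfl⟩
        refine ⟨c - c', by rw [map_sub, hc1, hc1', sub_zero], ?_, (map_sub _ _ _).symm⟩
        rw [Nw_mul] at hc2 hc2'
        linarith [Nw_sub hl c c'])
    (by
      intro g hg
      obtain ⟨V₁, hV₁, hV₁'⟩ := exists_nhds_half_neg (isOpen_compl_singleton.mem_nhds hg.symm)
      obtain ⟨V₂, hV₂, hV₂'⟩ := exists_nhds_half_neg hV₁
      obtain ⟨V₃, hV₃, hV₃'⟩ := exists_nhds_half_neg hV₂
      obtain ⟨V₄, hV₄, hV₄'⟩ := exists_nhds_half_neg hV₃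
      obtain ⟨d, hd, hF⟩ := exists_lgood hV hV₄
      obtain ⟨k, F, hF⟩ := hF 0
      obtain ⟨ρ, κ, hκ, r1, r2, r3, r4, r5, r6⟩ := folner_loc F
        (fun f => {c | (d : ℤ) • Finsupp.linearCombination ℤ x c - f ∈ V₄}) (k + 1)
        (fun c h1 h2 => by
          obtain ⟨f, hf, b, -, hb⟩ := hF _ (hx3 k c h1 h2)
          exact ⟨f, hf, by simpa using hb⟩)
      obtain ⟨l, hl0, hl1, hl2⟩ := exists_ell r1 r4 (fun n => Finsupp.single n 1) 𝒲 (r6 𝒲 h𝒲)
      obtain ⟨U', hU', hU''⟩ := exists_nhds_half_neg (hWd d)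
      have hm : ∃ m₁ : ℕ, ∀ c : ℕ →₀ ℤ, (∀ n, |c n| ≤ n + 1) → (∀ n < m₁, c n = 0) →
          g - Finsupp.linearCombination ℤ x c ∈ U' → ∀ n, (d : ℤ) ∣ c n := by
        by_cases h : ∃ c₀ : ℕ →₀ ℤ, (∀ n, |c₀ n| ≤ n + 1) ∧ (∀ n < d, c₀ n = 0) ∧
            g - Finsupp.linearCombination ℤ x c₀ ∈ U'
        · obtain ⟨c₀, a1, a2, a3⟩ := h
          refine ⟨d + c₀.support.sup id + 1, fun c b1 b2 b3 n => ?_⟩
          by_cases hn : n < d + c₀.support.sup id + 1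
          · rw [b2 n hn]
            exact dvd_zero _
          · have h7 := hx2 d hd (c - c₀) (fun n => by
              rw [Finsupp.sub_apply]
              linarith [abs_sub (c n) (c₀ n), a1 n, b1 n]) (fun n hn => by
              rw [Finsupp.sub_apply, a2 n hn, b2 n (by omega), sub_zero]) (by
              have h8 := hU'' _ a3 _ b3
              rwa [sub_sub_sub_cancel_left, ← map_sub] at h8) n
            have h9 : c₀ n = 0 := by
              by_contra h10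
              have := Finset.le_sup (f := id) (Finsupp.mem_support_iff.2 h10)
              simp only [id] at this
              omega
            rwa [Finsupp.sub_apply, h9, sub_zero] at h7
        · exact ⟨d, fun c b1 b2 b3 => absurd ⟨c, b1, b2, b3⟩ h⟩
      obtain ⟨m₁, hm₁⟩ := hm
      let lam : ℕ → ℝ := fun n => κ⁻¹ * l n + (1 / ((n : ℝ) + 1) + if n < m₁ then 1 else 0)
      have hl3 : ∀ n, 0 ≤ κ⁻¹ * l n := fun n => mul_nonneg (inv_nonneg.2 hκ.le) (hl0 n)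
      have hl4 : ∀ n : ℕ, 0 < 1 / ((n : ℝ) + 1) := fun n => by positivity
      have hl5 : ∀ n : ℕ, (0 : ℝ) ≤ if n < m₁ then 1 else 0 := fun n => by split_ifs <;> simp
      have hlam : ∀ n, 0 ≤ lam n := fun n => add_nonneg (hl3 n) (add_nonneg (hl4 n).le (hl5 n))
      refine ⟨U' ∩ V₂, inter_mem hU' hV₂, _, ⟨lam, hlam, ?_, rfl⟩, ?_⟩
      · have t1 := hl1.const_mul κ⁻¹
        have t2 := (tendsto_one_div_add_atTop_nhds_zero_nat (𝕜 := ℝ)).mono_left h𝒲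
        have t3 : Tendsto (fun n : ℕ => if n < m₁ then (1 : ℝ) else 0) 𝒲 (𝓝 0) := by
          refine (tendsto_const_nhds.congr' ?_).mono_left h𝒲
          filter_upwards [eventually_ge_atTop m₁] with n hn
          rw [if_neg (by omega)]
        have t4 := t1.add (t2.add t3)
        rw [mul_zero, add_zero, add_zero] at t4
        exact t4
      · rintro _ ⟨c, hc1, hc2, rfl⟩ ⟨hu1, hu2⟩
        have hc3 : ∀ n, |(c n : ℝ)| * lam n < 1 := fun n =>
          lt_of_le_of_lt (Nw_single hlam c n) hc2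
        have hc4 : ∀ n, |c n| ≤ n + 1 := by
          intro n
          have h5 : |(c n : ℝ)| * (1 / ((n : ℝ) + 1)) < 1 := by
            refine lt_of_le_of_lt (mul_le_mul_of_nonneg_left ?_ (abs_nonneg _)) (hc3 n)
            linarith [hl3 n, hl5 n]
          rw [mul_one_div, div_lt_one (by positivity)] at h5
          exact_mod_cast h5.le
        have hc5 : ∀ n < m₁, c n = 0 := by
          intro n hn
          have h5 : |(c n : ℝ)| * 1 < 1 := by
            refine lt_of_le_of_lt (mul_le_mul_of_nonneg_left ?_ (abs_nonneg _)) (hc3 n)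
            have h6 : lam n = κ⁻¹ * l n + (1 / ((n : ℝ) + 1) + 1) := by
              simp only [lam, if_pos hn]
            linarith [hl3 n, hl4 n]
          rw [mul_one] at h5
          have h7 : |c n| < 1 := by exact_mod_cast h5
          exact Int.abs_lt_one_iff.1 h7
        have hdv := hm₁ c hc4 hc5 hu1
        let c' : ℕ →₀ ℤ := c.mapRange (fun k => k / d) (by simp)
        have hc' : ∀ n, c' n = c n / d := fun n => rfl
        have hcc : (d : ℤ) • c' = c := by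
          ext n
          rw [Finsupp.smul_apply, hc', smul_eq_mul, Int.mul_ediv_cancel' (hdv n)]
        have hdeg : Finsupp.linearCombination ℤ (fun _ => (1 : ℤ)) c' = 0 := by
          by_cases hd0 : (d : ℤ) = 0
          · have : c' = 0 := by
              ext n
              rw [hc', hd0]
              simp
            rw [this, map_zero]
          · rw [← hcc, map_smul, smul_eq_mul] at hc1
            exact (mul_eq_zero.1 hc1).resolve_left hd0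
        have h5 := rho_lc r1 r2 r3 _ 𝒲 l hl2 c' hdeg
        rw [lc_single] at h5
        have h6 : Nw l c' ≤ Nw l c := by
          rw [Nw_eq l c' (s := c.support) Finsupp.support_mapRange]
          refine Finset.sum_le_sum fun n _ => mul_le_mul_of_nonneg_right ?_ (hl0 n)
          rw [hc']
          exact_mod_cast Int.abs_ediv_le_abs (c n) d
        have h7 : κ⁻¹ * Nw l c < 1 := by
          rw [← Nw_mul]
          refine lt_of_le_of_lt (Nw_mono (fun n => ?_) c) hc2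
          linarith [hl4 n, hl5 n]
        rw [inv_mul_lt_iff₀ hκ, mul_one] at h7
        obtain ⟨f, -, f', -, t₁, a₁, t₂, a₂, t₃, a₃, t₄, a₄, ht⟩ :=
          r5 _ (lt_of_le_of_lt (h5.trans h6) h7)
        have h8 : Finsupp.linearCombination ℤ x c ∈ V₁ := by
          have h9 := hV₂' _ (hV₃' _ (hV₄' _ a₁ _ a₂) _ (hV₄' _ a₃ _ a₄)) 0 (mem_of_mem_nhds hV₂)
          rw [← hcc, map_smul, ht, map_sub, map_sub, map_sub, smul_sub, smul_sub, smul_sub]
          simpa only [sub_sub_sub_cancel_right, sub_zero] using h9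
        have h9 := hV₁' _ h8 _ (hV₂' 0 (mem_of_mem_nhds hV₂) _ hu2)
        apply h9
        simp)
  have h5 := hmin.2 σ h1 h2 h3 ((h4 U₀).2 ⟨U₁, hU₁, _,
    ⟨fun n => 1 / ((n : ℝ) + 1), fun n => by positivity,
      (tendsto_one_div_add_atTop_nhds_zero_nat (𝕜 := ℝ)).mono_left h𝒲, rfl⟩, by
      rintro u hu _ ⟨c, -, hc, rfl⟩
      have hc3 : ∀ n, |c n| < n + 1 := by
        intro n
        have h5 := lt_of_le_of_lt (Nw_single (fun n => by positivity) c n) hc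
        rw [mul_one_div, div_lt_one (by positivity)] at h5
        exact_mod_cast h5
      refine hU₂ u hu _ (hx3 0 c (fun n => (hc3 n).le.trans (hpow n)) fun n hn => ?_)
      have h6 := hc3 n
      rw [show n = 0 by omega] at h6 ⊢
      exact Int.abs_lt_one_iff.1 (by simpa using h6)⟩)
  subst h5
  obtain ⟨U, hU, _, ⟨l, hl, hl', rfl⟩, hS⟩ := (h4 Ws).1 hWs
  have h6 : ∀ᶠ n in (𝒲 : Filter ℕ), l n < 1 / 2 := hl'.eventually (gt_mem_nhds (by norm_num))
  obtain ⟨n, hn⟩ := h6.exists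
  obtain ⟨m, hm, hnm⟩ := (h6.and (h𝒲 (eventually_gt_atTop n))).exists
  apply hx1 n m hnm
  have h7 := hS 0 (mem_of_mem_nhds hU) (x m - x n)
    ⟨Finsupp.single m 1 - Finsupp.single n 1, by simp, ?_, by simp⟩
  · rwa [zero_add] at h7
  · refine lt_of_le_of_lt (Nw_sub hl _ _) ?_
    rw [Nw_eq l _ Finsupp.support_single_subset, Nw_eq l _ Finsupp.support_single_subset]
    simp only [Finset.sum_singleton, Finsupp.single_eq_same, Int.cast_one, abs_one, one_mul]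
    linarith

theorem exists_ch {U : Set A} (hU : U ∈ 𝓝 (0 : A)) :
    ∃ W : ℕ → Set A, Ch W ∧ (∀ n, W n ∈ 𝓝 (0 : A)) ∧ ∀ u ∈ W 0, ∀ v ∈ W 0, u + v ∈ U := by
  have h0 : ∀ U ∈ 𝓝 (0 : A), ∃ W ∈ 𝓝 (0 : A), (∀ a ∈ W, -a ∈ W) ∧ ∀ a ∈ W, ∀ b ∈ W, a + b ∈ U := by
    intro U hU
    obtain ⟨W, h1, h2⟩ := exists_nhds_zero_half hU
    exact ⟨W ∩ -W, inter_mem h1 (neg_mem_nhds_zero A h1), fun a ha => ⟨ha.2, by simpa using ha.1⟩,
      fun a ha b hb => h2 a ha.1 b hb.1⟩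
  choose! h h1 h2 h3 using h0
  have h4 : ∀ n, h^[n] U ∈ 𝓝 (0 : A) := by
    intro n
    induction n with
    | zero => exact hU
    | succ n ih =>
      rw [Function.iterate_succ_apply']
      exact h1 _ ih
  refine ⟨fun n => h (h^[n] U), ⟨fun n => mem_of_mem_nhds (h1 _ (h4 n)), fun n => ?_,
    fun n => h2 _ (h4 n)⟩, fun n => h1 _ (h4 n), h3 _ hU⟩
  rw [Function.iterate_succ_apply']
  exact h3 _ (h1 _ (h4 n))

omit τ [AddCommGroup A] [IsTopologicalAddGroup A] in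
theorem feathered {G : Type} [AddCommGroup G] [UniformSpace G] [IsUniformAddGroup G] [T2Space G]
    [CompleteSpace G] {U : Set G} (hmin : TM.LocMin U) :
    ∃ K : AddSubgroup G, IsCompact (K : Set G) ∧ TopologicalSpace.MetrizableSpace (G ⧸ K) := by
  obtain ⟨W, hW, hW1, hW2⟩ := exists_ch hmin.1
  let K : AddSubgroup G :=
    { carrier := ⋂ n, W n
      zero_mem' := Set.mem_iInter.2 hW.zero
      add_mem' := fun ha hb => Set.mem_iInter.2 fun n =>
        hW.add n _ (Set.mem_iInter.1 ha _) _ (Set.mem_iInter.1 hb _)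
      neg_mem' := fun ha => Set.mem_iInter.2 fun n => hW.neg n _ (Set.mem_iInter.1 ha _) }
  have hK : ∀ a, a ∈ K ↔ ∀ n, a ∈ W n := fun a => Set.mem_iInter
  have key : ∀ 𝒰 : Ultrafilter G, (∀ n, W n ∈ 𝒰) → ∃ x ∈ K, (𝒰 : Filter G) ≤ 𝓝 x := by
    intro 𝒰 h𝒰
    have h1 : Cauchy (𝒰 : Filter G) := by
      rw [IsUniformAddGroup.cauchy_iff_tendsto_swapped]
      refine ⟨inferInstance, fun S hS => ?_⟩
      obtain ⟨S', h1, h2⟩ := exists_nhds_half_neg hS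
      obtain ⟨k, F, hF⟩ := local_ps hmin hW (hW1 0) hW2 h1
      obtain ⟨f, -, hf⟩ := (Ultrafilter.finite_biUnion_mem_iff (f := 𝒰)
        (s := fun f => {a | a - f ∈ S'}) F.finite_toSet).1 (mem_of_superset (h𝒰 k) fun a ha => by
          obtain ⟨f, hf, h⟩ := hF a ha
          exact Set.mem_biUnion hf h)
      refine mem_map.2 (mem_of_superset (prod_mem_prod hf hf) fun p hp => ?_)
      simpa using h2 _ hp.2 _ hp.1
    obtain ⟨x, hx⟩ := CompleteSpace.complete h1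
    refine ⟨x, (hK x).2 fun n => ?_, hx⟩
    obtain ⟨y, h2, h3⟩ := Ultrafilter.nonempty_of_mem (inter_mem (h𝒰 (n + 1))
      (hx ((continuous_sub_right x).continuousAt.preimage_mem_nhds (t := W (n + 1))
        (by simpa using hW1 _))))
    simpa using hW.sub n h2 h3
  have hc : IsCompact (K : Set G) := isCompact_iff_ultrafilter_le_nhds.2 fun 𝒰 h =>
    key 𝒰 fun n => mem_of_superset (le_principal_iff.1 h) fun a ha => (hK a).1 ha n
  refine ⟨K, hc, ?_⟩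
  have hcl : IsClosed (K : Set G) := hc.isClosed
  have h1 : (𝓝 (0 : G ⧸ K)).HasBasis (fun _ : ℕ => True) fun n => ((↑) : G → G ⧸ K) '' W n := by
    refine ⟨fun S => ⟨fun hS => ?_, fun ⟨n, _, hn⟩ => mem_of_superset
      (QuotientAddGroup.isOpenMap_coe.image_mem_nhds (hW1 n)) hn⟩⟩
    by_contra hcon
    have h2 : ∀ n, ∃ a ∈ W n, (a : G ⧸ K) ∉ S := fun n => by
      by_contra h
      push Not at h
      exact hcon ⟨n, trivial, Set.image_subset_iff.2 h⟩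
    choose a ha1 ha2 using h2
    obtain ⟨x, hx1, hx2⟩ := key ((hyperfilter ℕ).map a) fun n =>
      Nat.hyperfilter_le_atTop (mem_of_superset (mem_atTop n) fun m hm => hW.anti hm (ha1 m))
    rw [← (QuotientAddGroup.eq_zero_iff x).2 hx1] at hS
    obtain ⟨n, hn⟩ := Ultrafilter.nonempty_of_mem (f := hyperfilter ℕ)
      (hx2 (QuotientAddGroup.continuous_mk.continuousAt.preimage_mem_nhds hS))
    exact ha2 n hn
  have : (𝓝 (0 : G ⧸ K)).IsCountablyGenerated := h1.isCountablyGenerated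
  let uG : UniformSpace (G ⧸ K) := IsTopologicalAddGroup.rightUniformSpace (G ⧸ K)
  have : IsCountablyGenerated (uniformity (G ⧸ K)) := comap.isCountablyGenerated _ _
  exact UniformSpace.metrizableSpace

end Pool.Agent.H567Z.PS
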