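import Mathlib

set_option autoImplicit false

namespace Pool.Agent.H567Z

universe u

/-- A space is zero-dimensional if its topology has a base of clopen sets. -/
def ZeroDim (X : Type u) [TopologicalSpace X] : Prop :=
  ∃ B : Set (Set X), TopologicalSpace.IsTopologicalBasis B ∧ ∀ s ∈ B, IsClopen s

/-- A topological group `G` is minimal if every continuous group isomorphism of `G` onto a
Hausdorff topological group is a homeomorphism. -/
def IsMinimalGroup (G : Type u) [Group G] [TopologicalSpace G] : Prop :=
  ∀ (H : Type u) [Group H] [TopologicalSpace H] [IsTopologicalGroup H] [T2Space H] (f : G ≃* H),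
    Continuous f → IsHomeomorph f

/-- Property Z: every closed zero-dimensional subgroup is discrete. -/
def HasPropertyZ (G : Type u) [Group G] [TopologicalSpace G] : Prop :=
  ∀ H : Subgroup G, IsClosed (H : Set G) → ZeroDim H → DiscreteTopology H

end Pool.Agent.H567Z
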