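import Mathlib
import Pool.Agent.H567Z.MinDefs

set_option autoImplicit false

namespace Pool.Agent.H567Z

universe u

/-- A space is pseudocompact if every continuous real-valued function on it is bounded. -/
def IsPseudocompact (X : Type u) [TopologicalSpace X] : Prop :=
  ∀ f : X → ℝ, Continuous f → ∃ M : ℝ, ∀ x, |f x| ≤ M

/-- Property Z_m: every closed zero-dimensional metrizable subgroup is discrete. -/
def HasPropertyZm (G : Type u) [Group G] [TopologicalSpace G] : Prop :=
  ∀ H : Subgroup G, IsClosed (H : Set G) → ZeroDim H → TopologicalSpace.MetrizableSpace H →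
    DiscreteTopology H

/-- A topological group `G` is totally minimal if `G ⧸ N` is minimal for every closed normal
subgroup `N`. -/
def IsTotallyMinimalGroup (G : Type u) [Group G] [TopologicalSpace G] : Prop :=
  ∀ (N : Subgroup G) [N.Normal], IsClosed (N : Set G) → IsMinimalGroup (G ⧸ N)

end Pool.Agent.H567Z
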