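import Mathlib
import Pool.Agent.H567Z.PW
import Pool.Agent.H567Z.Comp

/-! Kernels of finite-dimensional unitary representations of a compact group. -/

set_option autoImplicit false

namespace Pool.Agent.H567Z

open Filter Topology Pool.LatH472

universe u

variable {K : Type u} [Group K] [TopologicalSpace K]

/-- kernels of continuous finite-dimensional unitary representations -/
def RepKer (N : Subgroup K) : Prop :=
  ∃ (ι : Type) (_ : Fintype ι) (_ : DecidableEq ι) (ρ : K →* Matrix.unitaryGroup ι ℂ),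
    Continuous ρ ∧ ρ.ker = N

/-- subgroups on which some representation of the ambient group is faithful -/
def Small (M : Subgroup K) : Prop := ∃ N, RepKer N ∧ M ⊓ N = ⊥

theorem RepKer.normal {N : Subgroup K} (h : RepKer N) : N.Normal := by
  obtain ⟨ι, _, _, ρ, -, rfl⟩ := h
  infer_instance

theorem RepKer.isClosed {N : Subgroup K} (h : RepKer N) : IsClosed (N : Set K) := by
  obtain ⟨ι, _, _, ρ, hρ, rfl⟩ := h
  exact isClosed_singleton.preimage hρ

theorem repKer_top : RepKer (⊤ : Subgroup K) :=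
  ⟨Unit, inferInstance, inferInstance, 1, continuous_const, MonoidHom.ker_one⟩

theorem RepKer.inf {N N' : Subgroup K} (hN : RepKer N) (hN' : RepKer N') : RepKer (N ⊓ N') := by
  obtain ⟨ι₁, f1, d1, ρ₁, c1, k1⟩ := hN
  obtain ⟨ι₂, f2, d2, ρ₂, c2, k2⟩ := hN'
  have hmem : ∀ g : K, Matrix.fromBlocks (ρ₁ g : Matrix ι₁ ι₁ ℂ) 0 0 (ρ₂ g : Matrix ι₂ ι₂ ℂ)
      ∈ Matrix.unitaryGroup (ι₁ ⊕ ι₂) ℂ := by
    intro g
    rw [Matrix.mem_unitaryGroup_iff, Matrix.star_eq_conjTranspose,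
      Matrix.fromBlocks_conjTranspose, Matrix.fromBlocks_multiply]
    have h1 := Matrix.mem_unitaryGroup_iff.mp (ρ₁ g).2
    have h2 := Matrix.mem_unitaryGroup_iff.mp (ρ₂ g).2
    rw [Matrix.star_eq_conjTranspose] at h1 h2
    simp [h1, h2, Matrix.fromBlocks_one]
  let ρ : K →* Matrix.unitaryGroup (ι₁ ⊕ ι₂) ℂ := MonoidHom.mk'
    (fun g => ⟨Matrix.fromBlocks (ρ₁ g : Matrix ι₁ ι₁ ℂ) 0 0 (ρ₂ g : Matrix ι₂ ι₂ ℂ), hmem g⟩) (by
      intro a b
      apply Subtype.ext
      show Matrix.fromBlocks (ρ₁ (a * b) : Matrix ι₁ ι₁ ℂ) 0 0 (ρ₂ (a * b) : Matrix ι₂ ι₂ ℂ)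
        = Matrix.fromBlocks (ρ₁ a : Matrix ι₁ ι₁ ℂ) 0 0 (ρ₂ a : Matrix ι₂ ι₂ ℂ)
          * Matrix.fromBlocks (ρ₁ b : Matrix ι₁ ι₁ ℂ) 0 0 (ρ₂ b : Matrix ι₂ ι₂ ℂ)
      rw [Matrix.fromBlocks_multiply]
      simp)
  refine ⟨ι₁ ⊕ ι₂, inferInstance, inferInstance, ρ, ?_, ?_⟩
  · refine Continuous.subtype_mk ?_ _
    exact Continuous.matrix_fromBlocks (continuous_subtype_val.comp c1) continuous_const
      continuous_const (continuous_subtype_val.comp c2)
  · ext g
    rw [MonoidHom.mem_ker, Subgroup.mem_inf, ← k1, ← k2, MonoidHom.mem_ker, MonoidHom.mem_ker]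
    constructor
    · intro h
      have h' : Matrix.fromBlocks (ρ₁ g : Matrix ι₁ ι₁ ℂ) 0 0 (ρ₂ g : Matrix ι₂ ι₂ ℂ) = 1 :=
        congrArg Subtype.val h
      rw [← Matrix.fromBlocks_one, Matrix.fromBlocks_inj] at h'
      exact ⟨Subtype.ext h'.1, Subtype.ext h'.2.2.2⟩
    · rintro ⟨h1, h2⟩
      apply Subtype.ext
      show Matrix.fromBlocks (ρ₁ g : Matrix ι₁ ι₁ ℂ) 0 0 (ρ₂ g : Matrix ι₂ ι₂ ℂ) = 1
      rw [h1, h2]
      simp [Matrix.fromBlocks_one]

theorem Small.of_inf {M N : Subgroup K} (hN : RepKer N) (h : Small (M ⊓ N)) : Small M := by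
  obtain ⟨N', hN', h2⟩ := h
  exact ⟨N ⊓ N', hN.inf hN', by rw [← inf_assoc, h2]⟩

theorem Small.mono {M M' : Subgroup K} (h : Small M) (hle : M' ≤ M) : Small M' := by
  obtain ⟨N, hN, h2⟩ := h
  exact ⟨N, hN, eq_bot_iff.2 (h2 ▸ inf_le_inf_right N hle)⟩

variable [IsTopologicalGroup K] [CompactSpace K] [T2Space K]

theorem exists_repKer_not_mem {k : K} (hk : k ≠ 1) : ∃ N : Subgroup K, RepKer N ∧ k ∉ N := by
  obtain ⟨ι, i1, i2, ρ, hρ, h⟩ := PW.PW K k hk
  exact ⟨ρ.ker, ⟨ι, i1, i2, ρ, hρ, rfl⟩, h⟩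

theorem eq_one_of_forall_repKer {k : K} (h : ∀ N : Subgroup K, RepKer N → k ∈ N) : k = 1 := by
  by_contra hk
  obtain ⟨N, hN, h2⟩ := exists_repKer_not_mem hk
  exact h2 (h N hN)

theorem exists_repKer_finite {S : Set K} (hS : S.Finite) :
    ∃ N : Subgroup K, RepKer N ∧ ∀ s ∈ S, s ∈ N → s = 1 := by
  induction S, hS using Set.Finite.induction_on with
  | empty => exact ⟨⊤, repKer_top, by simp⟩
  | @insert a S _ _ ih =>
    obtain ⟨N, hN, h⟩ := ih
    by_cases ha : a = 1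
    · refine ⟨N, hN, fun s hs hsN => ?_⟩
      rcases hs with rfl | hs
      · exact ha
      · exact h s hs hsN
    · obtain ⟨N', hN', h'⟩ := exists_repKer_not_mem ha
      refine ⟨N ⊓ N', hN.inf hN', fun s hs hsN => ?_⟩
      rcases hs with rfl | hs
      · exact absurd hsN.2 h'
      · exact h s hs hsN.1

/-- a subgroup with bounded exponent in every representation is totally disconnected -/
theorem td_of_bddExp {D : Subgroup K}
    (h : ∀ N : Subgroup K, RepKer N → ∃ m : ℕ, 0 < m ∧ ∀ d ∈ D, d ^ m ∈ N) :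
    IsTotallyDisconnected (D : Set K) := by
  intro S hS hconn x hx y hy
  have key : x⁻¹ * y = 1 := by
    apply eq_one_of_forall_repKer
    intro N hN
    obtain ⟨m, hm, hD⟩ := h N hN
    obtain ⟨ι, _, _, ρ, hρ, rfl⟩ := hN
    obtain ⟨O, hO, hO2⟩ := isolated_pow (ι := ι) m hm
    obtain ⟨O', hO'1, hO'o, hO'2⟩ := mem_nhds_iff.1 hO
    have hf : Continuous (fun z : K => ρ (x⁻¹ * z)) := hρ.comp (continuous_const_mul _)
    by_contra hne
    have h1 := hconn ((fun z : K => ρ (x⁻¹ * z)) ⁻¹' O') ((fun z : K => ρ (x⁻¹ * z)) ⁻¹' {1}ᶜ)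
      (hO'o.preimage hf) (isOpen_compl_singleton.preimage hf) (by
        intro z _
        by_cases hz : ρ (x⁻¹ * z) = 1
        · left
          show ρ (x⁻¹ * z) ∈ O'
          rw [hz]
          exact hO'2
        · right
          exact hz)
      ⟨x, hx, by
        show ρ (x⁻¹ * x) ∈ O'
        rw [inv_mul_cancel, map_one]
        exact hO'2⟩
      ⟨y, hy, hne⟩
    obtain ⟨z, hz, hz1, hz2⟩ := h1
    apply hz2
    apply hO2 _ (hO'1 hz1)
    have h2 := hD (x⁻¹ * z) (D.mul_mem (D.inv_mem (hS hx)) (hS hz))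
    rw [MonoidHom.mem_ker, map_pow] at h2
    exact h2
  exact inv_mul_eq_one.1 key

/-- if the image of a closed subgroup has no element of order two, it has bounded exponent -/
theorem bddExp_of_no_invol {B N : Subgroup K} (hB : IsClosed (B : Set K)) (hN : RepKer N)
    (h : ∀ b ∈ B, b ^ 2 ∈ N → b ∈ N) : ∃ m : ℕ, 0 < m ∧ ∀ b ∈ B, b ^ m ∈ N := by
  obtain ⟨ι, _, _, ρ, hρ, rfl⟩ := hN
  have hL : IsClosed ((B.map ρ : Subgroup _) : Set (Matrix.unitaryGroup ι ℂ)) := by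
    rw [Subgroup.coe_map]
    exact (hB.isCompact.image hρ).isClosed
  have hfin := finite_of_no_invol (B.map ρ) hL (by
    rintro _ ⟨b, hb, rfl⟩ h2
    apply h b hb
    rw [MonoidHom.mem_ker, map_pow]
    exact h2)
  have : Finite (B.map ρ) := hfin.to_subtype
  refine ⟨Nat.card (B.map ρ), Nat.card_pos, fun b hb => ?_⟩
  rw [MonoidHom.mem_ker, map_pow]
  have h3 := pow_card_eq_one' (G := B.map ρ) (x := ⟨ρ b, Subgroup.mem_map_of_mem ρ hb⟩)
  exact congrArg Subtype.val h3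

/-- roots modulo a representation kernel -/
theorem exists_root {E N : Subgroup K} (hE : IsClosed (E : Set K)) (hN : RepKer N) {w : K}
    (hw : w ∈ E) : ∃ m : ℕ, 0 < m ∧ ∀ r : ℕ, 0 < r → ∃ e ∈ E, w ^ m * e ^ r ∈ N := by
  obtain ⟨ι, _, _, ρ, hρ, rfl⟩ := hN
  have hL : IsClosed ((E.map ρ : Subgroup _) : Set (Matrix.unitaryGroup ι ℂ)) := by
    rw [Subgroup.coe_map]
    exact (hE.isCompact.image hρ).isClosed
  obtain ⟨m, hm, X, hX, h⟩ := exists_pow_eq_exp (E.map ρ) hL (Subgroup.mem_map_of_mem ρ hw)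
  refine ⟨m, hm, fun r hr => ?_⟩
  obtain ⟨e, he, he2⟩ := oneP_mem hX (-(r : ℝ)⁻¹)
  refine ⟨e, he, ?_⟩
  rw [MonoidHom.mem_ker, map_mul, map_pow, map_pow, h, he2, oneP_pow, ← oneP_add]
  have : (1 : ℝ) + (r : ℝ) * -(r : ℝ)⁻¹ = 0 := by
    have : (r : ℝ) ≠ 0 := by positivity
    field_simp
    ring
  rw [this, oneP_zero]

/-- the centraliser of `B ⊓ N` in a connected group `B` maps onto `B / (B ⊓ N)` -/
theorem exists_centralizing {B C : Subgroup K} (hB : IsClosed (B : Set K))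
    (hconn : IsPreconnected (B : Set K)) (hC : IsClosed (C : Set K)) (hCB : C ≤ B)
    (hn : ∀ b ∈ B, ∀ c ∈ C, b * c * b⁻¹ ∈ C) {l : K} (hl : l ∈ B) :
    ∃ b ∈ B, b⁻¹ * l ∈ C ∧ ∀ c ∈ C, b * c = c * b := by
  let T : {N : Subgroup K // RepKer N} → Set K := fun N =>
    {b | b ∈ B ∧ b⁻¹ * l ∈ C ∧ ∀ c ∈ C, b * c * b⁻¹ * c⁻¹ ∈ N.1}
  have hTc : ∀ N, IsClosed (T N) := by
    intro N
    have e : T N = (B : Set K) ∩ ((fun b => b⁻¹ * l) ⁻¹' C ∩
        ⋂ c ∈ C, (fun b => b * c * b⁻¹ * c⁻¹) ⁻¹' N.1) := by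
      ext b
      simp only [T, Set.mem_ofPred_eq, Set.mem_inter_iff, SetLike.mem_coe, Set.mem_preimage,
        Set.mem_iInter]
    rw [e]
    refine hB.inter ((hC.preimage (by fun_prop)).inter (isClosed_biInter fun c _ => ?_))
    exact N.2.isClosed.preimage (by fun_prop)
  have hTn : ∀ N, (T N).Nonempty := by
    rintro ⟨N, ι, _, _, ρ, hρ, rfl⟩
    have hL : IsClosed ((B.map ρ : Subgroup _) : Set (Matrix.unitaryGroup ι ℂ)) := by
      rw [Subgroup.coe_map]
      exact (hB.isCompact.image hρ).isClosed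
    have hC' : IsClosed ((C.map ρ : Subgroup _) : Set (Matrix.unitaryGroup ι ℂ)) := by
      rw [Subgroup.coe_map]
      exact (hC.isCompact.image hρ).isClosed
    have hcn : IsPreconnected ((B.map ρ : Subgroup _) : Set (Matrix.unitaryGroup ι ℂ)) := by
      rw [Subgroup.coe_map]
      exact hconn.image _ hρ.continuousOn
    obtain ⟨_, ⟨c, hc, rfl⟩, z, -, hz, hlz⟩ := prod_centralizer (B.map ρ) (C.map ρ) hL hC'
      (Subgroup.map_mono hCB) (by
        rintro _ ⟨b, hb, rfl⟩ _ ⟨c, hc, rfl⟩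
        exact ⟨b * c * b⁻¹, hn b hb c hc, by simp⟩) hcn (ρ l) (Subgroup.mem_map_of_mem ρ hl)
    refine ⟨c⁻¹ * l, B.mul_mem (B.inv_mem (hCB hc)) hl, ?_, fun c' hc' => ?_⟩
    · have h1 := hn l⁻¹ (B.inv_mem hl) c hc
      have e : (c⁻¹ * l)⁻¹ * l = l⁻¹ * c * l⁻¹⁻¹ := by group
      rw [e]
      exact h1
    · have h1 : ρ (c⁻¹ * l) = z := by
        rw [map_mul, map_inv, hlz, inv_mul_cancel_left]
      show _ ∈ ρ.ker
      rw [MonoidHom.mem_ker, map_mul, map_mul, map_mul, map_inv, map_inv, h1,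
        hz (ρ c') (Subgroup.mem_map_of_mem ρ hc')]
      group
  have : Nonempty {N : Subgroup K // RepKer N} := ⟨⟨⊤, repKer_top⟩⟩
  obtain ⟨b, hb⟩ := IsCompact.nonempty_iInter_of_directed_nonempty_isCompact_isClosed T (by
    intro N N'
    refine ⟨⟨N.1 ⊓ N'.1, N.2.inf N'.2⟩, ?_, ?_⟩
    · intro b hb
      exact ⟨hb.1, hb.2.1, fun c hc => (hb.2.2 c hc).1⟩
    · intro b hb
      exact ⟨hb.1, hb.2.1, fun c hc => (hb.2.2 c hc).2⟩) hTn
    (fun N => (hTc N).isCompact) hTc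
  rw [Set.mem_iInter] at hb
  have h0 := hb ⟨⊤, repKer_top⟩
  refine ⟨b, h0.1, h0.2.1, fun c hc => ?_⟩
  have h1 : b * c * b⁻¹ * c⁻¹ = 1 :=
    eq_one_of_forall_repKer fun N hN => (hb ⟨N, hN⟩).2.2 c hc
  calc b * c = (b * c * b⁻¹ * c⁻¹) * (c * b) := by group
    _ = c * b := by rw [h1, one_mul]

omit [CompactSpace K] [T2Space K] in
/-- the identity component of a subgroup -/
def idComp (N : Subgroup K) : Subgroup K where
  carrier := connectedComponentIn (N : Set K) 1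
  one_mem' := mem_connectedComponentIn N.one_mem
  mul_mem' := by
    intro a b ha hb
    have h1 : IsPreconnected ((fun p : K × K => p.1 * p.2) ''
        (connectedComponentIn (N : Set K) 1 ×ˢ connectedComponentIn (N : Set K) 1)) :=
      (isPreconnected_connectedComponentIn.prod isPreconnected_connectedComponentIn).image _
        continuous_mul.continuousOn
    refine h1.subset_connectedComponentIn (x := 1) ⟨(1, 1), ⟨mem_connectedComponentIn N.one_mem,
      mem_connectedComponentIn N.one_mem⟩, mul_one 1⟩ ?_ ⟨(a, b), ⟨ha, hb⟩, rfl⟩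
    rintro _ ⟨⟨x, y⟩, ⟨hx, hy⟩, rfl⟩
    exact N.mul_mem (connectedComponentIn_subset _ _ hx) (connectedComponentIn_subset _ _ hy)
  inv_mem' := by
    intro a ha
    have h1 : IsPreconnected ((fun p : K => p⁻¹) '' (connectedComponentIn (N : Set K) 1)) :=
      isPreconnected_connectedComponentIn.image _ continuous_inv.continuousOn
    refine h1.subset_connectedComponentIn (x := 1) ⟨1, mem_connectedComponentIn N.one_mem,
      inv_one⟩ ?_ ⟨a, ha, rfl⟩
    rintro _ ⟨x, hx, rfl⟩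
    exact N.inv_mem (connectedComponentIn_subset _ _ hx)

omit [CompactSpace K] [T2Space K] in
theorem idComp_le (N : Subgroup K) : idComp N ≤ N := connectedComponentIn_subset (N : Set K) 1

omit [CompactSpace K] [T2Space K] in
theorem idComp_mono {N N' : Subgroup K} (h : N ≤ N') : idComp N ≤ idComp N' :=
  connectedComponentIn_mono 1 h

omit [CompactSpace K] [T2Space K] in
theorem idComp_conn (N : Subgroup K) : IsPreconnected (idComp N : Set K) :=
  isPreconnected_connectedComponentIn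

omit [CompactSpace K] [T2Space K] in
theorem idComp_closed {N : Subgroup K} (hN : IsClosed (N : Set K)) :
    IsClosed (idComp N : Set K) := by
  apply isClosed_of_closure_subset
  exact (idComp_conn N).closure.subset_connectedComponentIn (subset_closure (idComp N).one_mem)
    (closure_minimal (idComp_le N) hN)

omit [CompactSpace K] [T2Space K] in
theorem idComp_normal {N : Subgroup K} (hN : N.Normal) : (idComp N).Normal := by
  refine ⟨fun a ha g => ?_⟩
  have h1 : IsPreconnected ((fun p : K => g * p * g⁻¹) '' (idComp N : Set K)) :=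
    (idComp_conn N).image _ (by fun_prop)
  refine h1.subset_connectedComponentIn (x := 1) ⟨1, (idComp N).one_mem, by simp⟩ ?_ ⟨a, ha, rfl⟩
  rintro _ ⟨x, hx, rfl⟩
  exact hN.conj_mem x (idComp_le N hx) g

omit [CompactSpace K] [T2Space K] in
theorem td_of_idComp {N : Subgroup K} (h : idComp N = ⊥) : IsTotallyDisconnected (N : Set K) := by
  intro S hS hconn x hx y hy
  have h1 : IsPreconnected ((fun p : K => x⁻¹ * p) '' S) := hconn.image _ (by fun_prop)
  have h2 : x⁻¹ * y ∈ idComp N := by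
    refine h1.subset_connectedComponentIn (x := 1) ⟨x, hx, inv_mul_cancel x⟩ ?_ ⟨y, hy, rfl⟩
    rintro _ ⟨z, hz, rfl⟩
    exact N.mul_mem (N.inv_mem (hS hx)) (hS hz)
  rw [h, Subgroup.mem_bot] at h2
  exact inv_mul_eq_one.1 h2

end Pool.Agent.H567Z
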