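import Mathlib
import Pool.Agent.H567Z.Rep

/-! The structure argument: a compact group with an essential dense subgroup that meets every
closed totally disconnected subgroup in a finite set has a faithful representation. -/

set_option autoImplicit false

namespace Pool.Agent.H567Z

open Filter Topology

universe u

variable {K : Type u} [Group K] [TopologicalSpace K] [IsTopologicalGroup K] [CompactSpace K]
  [T2Space K]

/-- the hypotheses on the dense subgroup -/
structure Hyp (Γ : Subgroup K) : Prop where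
  dense : Dense (Γ : Set K)
  ess : ∀ N : Subgroup K, N.Normal → IsClosed (N : Set K) → N ⊓ Γ = ⊥ → N = ⊥
  fin : ∀ D : Subgroup K, IsClosed (D : Set K) → IsTotallyDisconnected (D : Set K) →
    ((D ⊓ Γ : Subgroup K) : Set K).Finite
  cl : ∀ M : Subgroup K, IsClosed (M : Set K) → Small M → IsClosed ((M ⊓ Γ : Subgroup K) : Set K)

variable {Γ : Subgroup K}

theorem small_of_td (h : Hyp Γ) {D : Subgroup K} (hn : D.Normal) (hc : IsClosed (D : Set K))
    (htd : IsTotallyDisconnected (D : Set K)) : Small D := by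
  obtain ⟨N, hN, h2⟩ := exists_repKer_finite (h.fin D hc htd)
  refine ⟨N, hN, ?_⟩
  have := hN.normal
  apply h.ess _ inferInstance (hc.inter hN.isClosed)
  rw [eq_bot_iff]
  intro x hx
  exact h2 x ⟨hx.1.1, hx.2⟩ hx.1.2

omit [T2Space K] in
theorem exists_minimal_closed (B N : Subgroup K) (hB : IsClosed (B : Set K))
    (hN : IsClosed (N : Set K)) {b : K} (hb : b ∈ B) :
    ∃ E : Subgroup K, IsClosed (E : Set K) ∧ E ≤ B ∧ (∃ z ∈ E, z⁻¹ * b ∈ N) ∧
      ∀ E' : Subgroup K, IsClosed (E' : Set K) → (∃ z ∈ E', z⁻¹ * b ∈ N) → E' ≤ E → E ≤ E' := by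
  have hcl : IsClosed {z : K | z⁻¹ * b ∈ N} := hN.preimage (by fun_prop)
  obtain ⟨m, hmB, hm⟩ := zorn_superset_nonempty
    {A : Set K | ∃ E : Subgroup K, (E : Set K) = A ∧ IsClosed A ∧ ∃ z ∈ A, z⁻¹ * b ∈ N} (by
      intro c hc hchain hne
      refine ⟨⋂₀ c, ⟨sInf {E : Subgroup K | (E : Set K) ∈ c}, ?_, ?_, ?_⟩, ?_⟩
      · ext x
        simp only [Subgroup.coe_sInf, Set.mem_ofPred_eq, Set.mem_iInter, Set.mem_sInter,
          SetLike.mem_coe]
        constructor
        · intro h A hA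
          obtain ⟨E, hE, -⟩ := hc hA
          rw [← hE]
          exact h E (by rw [hE]; exact hA)
        · intro h E hE
          exact h _ hE
      · exact isClosed_sInter fun A hA => (hc hA).choose_spec.2.1
      · have : Nonempty c := hne.coe_sort
        have h1 : (⋂ A : c, ((A : Set K) ∩ {z : K | z⁻¹ * b ∈ N})).Nonempty := by
          apply IsCompact.nonempty_iInter_of_directed_nonempty_isCompact_isClosed
          · intro A A'
            rcases hchain.total A.2 A'.2 with h | h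
            · exact ⟨A, Set.inter_subset_inter_left _ (le_refl _),
                Set.inter_subset_inter_left _ h⟩
            · exact ⟨A', Set.inter_subset_inter_left _ h,
                Set.inter_subset_inter_left _ (le_refl _)⟩
          · intro A
            obtain ⟨E, hE, -, z, hz, hzt⟩ := hc A.2
            exact ⟨z, hz, hzt⟩
          · intro A
            obtain ⟨E, hE, hcl', -⟩ := hc A.2
            exact (hcl'.inter hcl).isCompact
          · intro A
            obtain ⟨E, hE, hcl', -⟩ := hc A.2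
            exact hcl'.inter hcl
        obtain ⟨z, hz⟩ := h1
        rw [Set.mem_iInter] at hz
        refine ⟨z, ?_, ?_⟩
        · intro A hA
          exact (hz ⟨A, hA⟩).1
        · obtain ⟨A, hA⟩ := hne
          exact (hz ⟨A, hA⟩).2
      · intro A hA
        exact Set.sInter_subset_of_mem hA) (B : Set K)
      ⟨B, rfl, hB, b, hb, by rw [inv_mul_cancel]; exact N.one_mem⟩
  obtain ⟨⟨E, hE, hcl', hz⟩, hmin⟩ := hm
  subst hE
  refine ⟨E, hcl', hmB, hz, ?_⟩
  intro E' hE' hz' hle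
  exact hmin ⟨E', rfl, hE', hz'⟩ hle

/-- elements of a commutative subgroup whose `m`-th power lies in `N` -/
def powIn (A N : Subgroup K) (hA : ∀ a ∈ A, ∀ b ∈ A, a * b = b * a) (m : ℕ) : Subgroup K where
  carrier := {x | x ∈ A ∧ x ^ m ∈ N}
  one_mem' := ⟨A.one_mem, by rw [one_pow]; exact N.one_mem⟩
  mul_mem' := by
    intro a b ha hb
    refine ⟨A.mul_mem ha.1 hb.1, ?_⟩
    have hc : Commute a b := hA a ha.1 b hb.1
    rw [hc.mul_pow]
    exact N.mul_mem ha.2 hb.2
  inv_mem' := by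
    intro a ha
    refine ⟨A.inv_mem ha.1, ?_⟩
    rw [inv_pow]
    exact N.inv_mem ha.2

omit [CompactSpace K] [T2Space K] in
theorem powIn_closed {A N : Subgroup K} (hA : ∀ a ∈ A, ∀ b ∈ A, a * b = b * a) (m : ℕ)
    (h1 : IsClosed (A : Set K)) (h2 : IsClosed (N : Set K)) : IsClosed (powIn A N hA m : Set K) :=
  h1.inter (h2.preimage (continuous_pow m))

omit [TopologicalSpace K] [IsTopologicalGroup K] [CompactSpace K] [T2Space K] in
theorem powIn_normal {A N : Subgroup K} (hA : ∀ a ∈ A, ∀ b ∈ A, a * b = b * a) (m : ℕ)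
    (h1 : A.Normal) (h2 : N.Normal) : (powIn A N hA m).Normal := by
  refine ⟨fun a ha g => ⟨h1.conj_mem a ha.1 g, ?_⟩⟩
  rw [conj_pow]
  exact h2.conj_mem _ ha.2 g

/-- closed commutative normal subgroups have a faithful representation -/
theorem small_of_comm (h : Hyp Γ) {A : Subgroup K} (hn : A.Normal) (hc : IsClosed (A : Set K))
    (hA : ∀ a ∈ A, ∀ b ∈ A, a * b = b * a) : Small A := by
  have hbc : IsClosed ((⊥ : Subgroup K) : Set K) := by
    rw [Subgroup.coe_bot]
    exact isClosed_singleton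
  obtain ⟨N₀, hN₀, h0⟩ : Small (powIn A ⊥ hA 2) := by
    apply small_of_td h (powIn_normal hA 2 hn inferInstance) (powIn_closed hA 2 hc hbc)
    apply td_of_bddExp
    intro N _
    refine ⟨2, two_pos, fun d hd => ?_⟩
    have h1 : d ^ 2 = 1 := hd.2
    rw [h1]
    exact N.one_mem
  have hn0 := hN₀.normal
  apply Small.of_inf hN₀
  have hBc : IsClosed ((A ⊓ N₀ : Subgroup K) : Set K) := hc.inter hN₀.isClosed
  have hB2 : ∀ b ∈ A ⊓ N₀, b ^ 2 = 1 → b = 1 := by
    intro b hb hb2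
    have h1 : b ∈ powIn A ⊥ hA 2 ⊓ N₀ := ⟨⟨hb.1, hb2⟩, hb.2⟩
    rw [h0] at h1
    exact h1
  apply small_of_td h inferInstance hBc
  apply td_of_bddExp
  intro N hN
  apply bddExp_of_no_invol hBc hN
  intro b hb hb2
  have hnN := hN.normal
  obtain ⟨E, hEc, hEB, ⟨z, hzE, hzb⟩, hmin⟩ := exists_minimal_closed (A ⊓ N₀) N hBc hN.isClosed hb
  have hEA : ∀ a ∈ E, ∀ b ∈ E, a * b = b * a := fun a ha b hb => hA a (hEB ha).1 b (hEB hb).1
  have hz2 : z ^ 2 ∈ N := by
    have hcm : Commute z⁻¹ b := hA _ (A.inv_mem (hEB hzE).1) _ hb.1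
    have h1 : (z⁻¹ * b) ^ 2 ∈ N := N.pow_mem hzb 2
    rw [hcm.mul_pow, inv_pow] at h1
    have h2 := N.mul_mem h1 (N.inv_mem hb2)
    rw [mul_inv_cancel_right] at h2
    exact (N.inv_mem_iff).1 h2
  have htor : ∀ N' : Subgroup K, RepKer N' → ∃ m : ℕ, 0 < m ∧ z ^ m ∈ N' := by
    intro N' hN'
    obtain ⟨m, hm, hroot⟩ := exists_root (E := E ⊓ N) (hEc.inter hN.isClosed) hN'
      (w := z ^ 2) ⟨E.pow_mem hzE 2, hz2⟩
    obtain ⟨e, he, he2⟩ := hroot (2 * m) (by omega)
    have hcm : Commute z e := hEA z hzE e he.1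
    have h1 : E ≤ powIn E N' hEA (2 * m) := by
      apply hmin _ (powIn_closed hEA _ hEc hN'.isClosed)
      · refine ⟨z * e, ⟨E.mul_mem hzE he.1, ?_⟩, ?_⟩
        · rw [hcm.mul_pow, pow_mul]
          exact he2
        · rw [mul_inv_rev, mul_assoc]
          exact N.mul_mem (N.inv_mem he.2) hzb
      · exact fun x hx => hx.1
    exact ⟨2 * m, by omega, (h1 hzE).2⟩
  choose! μ hμ1 hμ2 using htor
  let D : Subgroup K := ⨅ (N' : Subgroup K) (_ : RepKer N'), powIn A N' hA (μ N')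
  have hD : ∀ x, x ∈ D ↔ ∀ N' : Subgroup K, RepKer N' → x ∈ powIn A N' hA (μ N') := by
    intro x
    simp only [D, Subgroup.mem_iInf]
  have hDn : D.Normal := by
    refine ⟨fun x hx g => (hD _).2 fun N' hN' => ?_⟩
    exact (powIn_normal hA _ hn hN'.normal).conj_mem x ((hD x).1 hx N' hN') g
  have hDc : IsClosed (D : Set K) := by
    have e : (D : Set K) = ⋂ (N' : Subgroup K) (_ : RepKer N'), (powIn A N' hA (μ N') : Set K) := by
      ext x
      simp only [SetLike.mem_coe, hD, Set.mem_iInter]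
    rw [e]
    exact isClosed_iInter fun N' => isClosed_iInter fun hN' =>
      powIn_closed hA _ hc hN'.isClosed
  have hzD : z ∈ D := (hD z).2 fun N' hN' => ⟨(hEB hzE).1, hμ2 N' hN'⟩
  obtain ⟨N₁, hN₁, h1⟩ : Small D := by
    apply small_of_td h hDn hDc
    apply td_of_bddExp
    intro N' hN'
    exact ⟨μ N', hμ1 N' hN', fun d hd => ((hD d).1 hd N' hN').2⟩
  have hzm : z ^ μ N₁ = 1 := by
    have h2 : z ^ μ N₁ ∈ D ⊓ N₁ := ⟨D.pow_mem hzD _, hμ2 N₁ hN₁⟩
    rw [h1] at h2
    exact h2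
  obtain ⟨j, r, hr, hjr⟩ := Nat.exists_eq_two_pow_mul_odd (hμ1 N₁ hN₁).ne'
  have hzr : z ^ r = 1 := by
    have h2 : ∀ j : ℕ, ∀ a ∈ A ⊓ N₀, a ^ (2 ^ j) = 1 → a = 1 := by
      intro j
      induction j with
      | zero => intro a _ ha; simpa using ha
      | succ j ih =>
        intro a ha h3
        rw [pow_succ, pow_mul] at h3
        exact ih a ha (hB2 _ ((A ⊓ N₀).pow_mem ha _) h3)
    apply h2 j _ ((A ⊓ N₀).pow_mem (hEB hzE) r)
    rw [← pow_mul, mul_comm, ← hjr, hzm]
  obtain ⟨s, rfl⟩ := hr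
  have hzN : z ∈ N := by
    have h3 : z = ((z ^ 2) ^ s)⁻¹ := by
      rw [eq_inv_iff_mul_eq_one, ← pow_mul, ← pow_succ', hzr]
    rw [h3]
    exact N.inv_mem (N.pow_mem hz2 s)
  have h4 := N.mul_mem hzN hzb
  rwa [mul_inv_cancel_left] at h4

/-- the inductive step: an involution of `Γ` inside a small normal subgroup of `N` -/
theorem exists_invol (h : Hyp Γ) (hns : ¬ Small (⊤ : Subgroup K)) {N : Subgroup K}
    (hN : RepKer N) : ∃ M : Subgroup K, M.Normal ∧ M ≤ N ∧ Small M ∧
      ∃ g ∈ M, g ∈ Γ ∧ g ≠ 1 ∧ g ^ 2 = 1 := by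
  -- the centre of the identity component
  let K₀ : Subgroup K := idComp ⊤
  have hK₀n : K₀.Normal := idComp_normal inferInstance
  have hK₀c : IsClosed (K₀ : Set K) := idComp_closed (by simp)
  have hcent : ∀ S : Subgroup K, IsClosed (Subgroup.centralizer (S : Set K) : Set K) := by
    intro S
    have e : (Subgroup.centralizer (S : Set K) : Set K) = ⋂ c ∈ S, {z | c * z = z * c} := by
      ext z
      simp only [SetLike.mem_coe, Subgroup.mem_centralizer_iff, Set.mem_iInter, Set.mem_ofPred_eq]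
    rw [e]
    exact isClosed_biInter fun c _ => isClosed_eq (continuous_const_mul c) (continuous_mul_const c)
  obtain ⟨N₁, hN₁, hZ⟩ : Small (K₀ ⊓ Subgroup.centralizer (K₀ : Set K)) := by
    apply small_of_comm h inferInstance (hK₀c.inter (hcent K₀))
    intro a ha b hb
    exact hb.2 a ha.1
  have hN' : RepKer (N ⊓ N₁) := hN.inf hN₁
  have hN'n := hN'.normal
  let B : Subgroup K := idComp (N ⊓ N₁)
  have hBn : B.Normal := idComp_normal hN'n
  have hBc : IsClosed (B : Set K) := idComp_closed hN'.isClosed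
  have hBne : B ≠ ⊥ := by
    intro hB
    apply hns
    apply Small.of_inf hN'
    rw [top_inf_eq]
    exact small_of_td h hN'n hN'.isClosed (td_of_idComp hB)
  obtain ⟨l, hl, hl1⟩ := (Subgroup.ne_bot_iff_exists_ne_one.1 hBne).imp fun (l : B) hl =>
    (⟨l.2, fun h' => hl (Subtype.ext h')⟩ : (l : K) ∈ B ∧ (l : K) ≠ 1)
  obtain ⟨N₂, hN₂, hl2⟩ := exists_repKer_not_mem hl1
  have hN₂n := hN₂.normal
  let C : Subgroup K := B ⊓ N₂
  have hCn : C.Normal := inferInstance
  have hCc : IsClosed (C : Set K) := hBc.inter hN₂.isClosed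
  obtain ⟨b, hbB, hbl, hbC⟩ := exists_centralizing hBc (idComp_conn _) hCc inf_le_left
    (fun b _ c hc => hCn.conj_mem c hc b) hl
  let M : Subgroup K := B ⊓ Subgroup.centralizer (C : Set K)
  have hMn : M.Normal := inferInstance
  have hMc : IsClosed (M : Set K) := hBc.inter (hcent C)
  have hbM : b ∈ M := ⟨hbB, fun c hc => (hbC c hc).symm⟩
  have hb1 : b ≠ 1 := by
    rintro rfl
    rw [inv_one, one_mul] at hbl
    exact hl2 hbl.2
  have hMs : Small M := by
    apply Small.of_inf hN₂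
    apply small_of_comm h inferInstance (hMc.inter hN₂.isClosed)
    intro a ha c hc
    exact hc.1.2 a ⟨ha.1.1, ha.2⟩
  have hMN : M ≤ N ⊓ N₁ := le_trans inf_le_left (idComp_le _)
  refine ⟨M, hMn, le_trans hMN inf_le_left, hMs, ?_⟩
  by_contra hcon
  push Not at hcon
  -- `H = M ⊓ Γ` is a nontrivial finite normal subgroup
  have hHc := h.cl M hMc hMs
  have hHn : (M ⊓ Γ).Normal := by
    refine ⟨fun x hx g => ?_⟩
    have h1 : IsClosed {g : K | g * x * g⁻¹ ∈ M ⊓ Γ} := hHc.preimage (by fun_prop)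
    have h2 : (Γ : Set K) ⊆ {g : K | g * x * g⁻¹ ∈ M ⊓ Γ} := fun g hg =>
      ⟨hMn.conj_mem x hx.1 g, Γ.mul_mem (Γ.mul_mem hg hx.2) (Γ.inv_mem hg)⟩
    exact closure_minimal h2 h1 (h.dense g)
  obtain ⟨N₃, hN₃, hM3⟩ := hMs
  obtain ⟨m, hm, hHm⟩ := bddExp_of_no_invol hHc hN₃ (by
    intro x hx hx2
    have h1 : x ^ 2 ∈ M ⊓ N₃ := ⟨M.pow_mem hx.1 2, hx2⟩
    rw [hM3] at h1
    have h2 : x = 1 := by
      by_contra hx1
      exact hcon x hx.1 hx.2 hx1 h1
    rw [h2]
    exact N₃.one_mem)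
  have hHtd : IsTotallyDisconnected ((M ⊓ Γ : Subgroup K) : Set K) := by
    apply td_of_bddExp
    intro N' _
    refine ⟨m, hm, fun d hd => ?_⟩
    have h1 : d ^ m ∈ M ⊓ N₃ := ⟨M.pow_mem hd.1 m, hHm d hd⟩
    rw [hM3] at h1
    have h2 : d ^ m = 1 := h1
    rw [h2]
    exact N'.one_mem
  have hH : M ⊓ Γ = ⊥ := by
    rw [eq_bot_iff, ← hZ]
    intro x hx
    have hxK : x ∈ K₀ := idComp_mono le_top hx.1.1
    refine ⟨⟨hxK, fun k hk => ?_⟩, (hMN hx.1).2⟩
    have h1 : IsPreconnected ((fun g : K => g * x * g⁻¹) '' (K₀ : Set K)) :=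
      (idComp_conn ⊤).image _ (by fun_prop)
    have h2 := hHtd _ (by
      rintro _ ⟨g, -, rfl⟩
      exact hHn.conj_mem x hx g) h1 ⟨k, hk, rfl⟩ ⟨1, K₀.one_mem, rfl⟩
    have h3 : k * x * k⁻¹ = x := by simpa using h2
    calc k * x = k * x * k⁻¹ * k := by group
      _ = x * k := by rw [h3]
  have hM := h.ess M hMn hMc hH
  rw [hM] at hbM
  exact hb1 hbM

theorem small_top (h : Hyp Γ) : Small (⊤ : Subgroup K) := by
  by_contra hns
  have hstep : ∀ N : {N : Subgroup K // RepKer N}, ∃ N' : {N : Subgroup K // RepKer N},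
      N'.1 ≤ N.1 ∧ ∃ M : Subgroup K, M.Normal ∧ M ≤ N.1 ∧ M ⊓ N'.1 = ⊥ ∧
        ∃ g ∈ M, g ∈ Γ ∧ g ≠ 1 ∧ g ^ 2 = 1 := by
    intro N
    obtain ⟨M, hMn, hMN, ⟨N', hN', hM⟩, hg⟩ := exists_invol h hns N.2
    refine ⟨⟨N.1 ⊓ N', N.2.inf hN'⟩, inf_le_left, M, hMn, hMN, ?_, hg⟩
    rw [eq_bot_iff, ← hM]
    exact inf_le_inf_left M inf_le_right
  choose nx hnx M hMn hMN hMi g hgM hgΓ hg1 hg2 using hstep
  let s : ℕ → {N : Subgroup K // RepKer N} := fun n => nx^[n] ⟨⊤, repKer_top⟩
  have hs : ∀ n, s (n + 1) = nx (s n) := fun n => Function.iterate_succ_apply' nx n _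
  have hanti : Antitone (fun n => (s n).1) := by
    apply antitone_nat_of_succ_le
    intro n
    rw [hs]
    exact hnx _
  have hdisj : ∀ i j, i < j → Disjoint (M (s i)) (M (s j)) := by
    intro i j hij
    rw [disjoint_iff, eq_bot_iff, ← hMi (s i)]
    apply inf_le_inf_left
    refine le_trans (hMN _) ?_
    rw [← hs]
    exact hanti hij
  have hcomm : ∀ i j, g (s i) * g (s j) = g (s j) * g (s i) := by
    intro i j
    rcases lt_trichotomy i j with hij | rfl | hij
    · exact Subgroup.commute_of_normal_of_disjoint _ _ (hMn _) (hMn _) (hdisj i j hij) _ _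
        (hgM _) (hgM _)
    · rfl
    · exact (Subgroup.commute_of_normal_of_disjoint _ _ (hMn _) (hMn _) (hdisj j i hij) _ _
        (hgM _) (hgM _)).symm
  have hinj : Function.Injective (fun i => g (s i)) := by
    have h1 : ∀ i j, i < j → g (s i) ≠ g (s j) := by
      intro i j hij he
      have h2 : g (s i) ∈ M (s i) ⊓ M (s j) := ⟨hgM _, he ▸ hgM _⟩
      rw [disjoint_iff.1 (hdisj i j hij)] at h2
      exact hg1 _ h2
    intro i j he
    rcases lt_trichotomy i j with hij | rfl | hij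
    · exact absurd he (h1 i j hij)
    · rfl
    · exact absurd he.symm (h1 j i hij)
  -- the bicommutant of the involutions
  let S : Set K := Set.range (fun i => g (s i))
  let A : Subgroup K := Subgroup.centralizer (Subgroup.centralizer S : Set K)
  have hSC : S ⊆ Subgroup.centralizer S := by
    rintro _ ⟨i, rfl⟩ _ ⟨j, rfl⟩
    exact hcomm j i
  have hSA : S ⊆ A := fun x hx y hy => (hy x hx).symm
  have hA : ∀ a ∈ A, ∀ b ∈ A, a * b = b * a := by
    intro a ha b hb
    exact hb a (fun x hx => ha x (hSC hx))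
  have hAc : IsClosed (A : Set K) := by
    have e : (A : Set K) = ⋂ c ∈ Subgroup.centralizer S, {z | c * z = z * c} := by
      ext z
      simp only [A, SetLike.mem_coe, Subgroup.mem_centralizer_iff, Set.mem_iInter,
        Set.mem_ofPred_eq]
    rw [e]
    exact isClosed_biInter fun c _ => isClosed_eq (continuous_const_mul c) (continuous_mul_const c)
  have hbc : IsClosed ((⊥ : Subgroup K) : Set K) := by
    rw [Subgroup.coe_bot]
    exact isClosed_singleton
  have hfin := h.fin (powIn A ⊥ hA 2) (powIn_closed hA 2 hAc hbc) (by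
    apply td_of_bddExp
    intro N _
    refine ⟨2, two_pos, fun d hd => ?_⟩
    have h1 : d ^ 2 = 1 := hd.2
    rw [h1]
    exact N.one_mem)
  refine Set.infinite_range_of_injective hinj (hfin.subset ?_)
  rintro _ ⟨i, rfl⟩
  exact ⟨⟨hSA ⟨i, rfl⟩, hg2 _⟩, hgΓ _⟩

end Pool.Agent.H567Z
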