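import Mathlib
import Pool.Agent.H567Z.MinDefs
import Pool.Agent.H567Z.Compl
import Pool.Agent.H567Z.Chart
import Pool.Agent.H567Z.Struct

set_option autoImplicit false

namespace Pool.Agent.H567Z

open Filter Topology
open scoped Manifold ContDiff

universe u

variable {G K : Type u} [Group G] [TopologicalSpace G] [IsTopologicalGroup G]
  [Group K] [TopologicalSpace K] [IsTopologicalGroup K] [CompactSpace K] [T2Space K]

omit [IsTopologicalGroup G] [CompactSpace K] in
theorem essential_of_minimal (hmin : IsMinimalGroup G) (ι : G →* K) (hι : IsEmbedding ι)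
    (hd : DenseRange ι) (N : Subgroup K) (hn : N.Normal) (hc : IsClosed (N : Set K))
    (hN : N ⊓ ι.range = ⊥) : N = ⊥ := by
  let q : G →* K ⧸ N := (QuotientGroup.mk' N).comp ι
  have hq : Continuous q := continuous_quotient_mk'.comp hι.continuous
  have hqi : Function.Injective q := by
    rw [injective_iff_map_eq_one]
    intro g hg
    have h1 : ι g ∈ N := (QuotientGroup.eq_one_iff _).1 hg
    have h2 : ι g ∈ N ⊓ ι.range := ⟨h1, g, rfl⟩
    rw [hN] at h2
    apply hι.injective
    rw [map_one]
    exact h2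
  let f : G ≃* q.range := MonoidHom.ofInjective hqi
  have hf : Continuous f := hq.subtype_mk _
  have hh := hmin q.range f hf
  rw [eq_bot_iff]
  intro x hx
  have hne : NeBot (comap ι (𝓝 x)) := by
    have h1 := hd x
    rw [mem_closure_iff_nhdsWithin_neBot] at h1
    exact comap_neBot_iff_frequently.2 (by
      rw [frequently_iff_neBot]
      exact h1)
  have h1 : Tendsto ι (comap ι (𝓝 x)) (𝓝 x) := tendsto_comap
  have h2 : Tendsto q (comap ι (𝓝 x)) (𝓝 1) := by
    have h3 := ((QuotientGroup.continuous_mk (N := N)).tendsto x).comp h1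
    have h4 : (QuotientGroup.mk x : K ⧸ N) = 1 := (QuotientGroup.eq_one_iff x).2 hx
    rw [h4] at h3
    exact h3
  have h5 : Tendsto f (comap ι (𝓝 x)) (𝓝 (f 1)) := by
    rw [map_one, tendsto_subtype_rng]
    exact h2
  have h6 : Tendsto id (comap ι (𝓝 x)) (𝓝 (1 : G)) := by
    rw [hh.isInducing.tendsto_nhds_iff]
    exact h5
  have h7 := (hι.continuous.tendsto 1).comp h6
  rw [map_one] at h7
  exact tendsto_nhds_unique h1 h7

omit [IsTopologicalGroup G] [IsTopologicalGroup K] in
theorem finite_of_propZ [CountablyCompactSpace G] (hZ : HasPropertyZ G) (ι : G →* K)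
    (hι : IsEmbedding ι) (D : Subgroup K) (hc : IsClosed (D : Set K))
    (htd : IsTotallyDisconnected (D : Set K)) : ((D ⊓ ι.range : Subgroup K) : Set K).Finite := by
  have hcl : IsClosed ((D.comap ι : Subgroup G) : Set G) := hc.preimage hι.continuous
  have : CompactSpace D := isCompact_iff_compactSpace.1 hc.isCompact
  have : TotallyDisconnectedSpace D := totallyDisconnectedSpace_subtype_iff.2 htd
  let j : D.comap ι → D := fun x => ⟨ι x, x.2⟩
  have hj : IsInducing j := by
    apply IsInducing.of_comp (g := (Subtype.val : D → K)) _ continuous_subtype_val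
    · exact hι.isInducing.comp IsInducing.subtypeVal
    · exact (hι.continuous.comp continuous_subtype_val).subtype_mk _
  have hb := (isTopologicalBasis_isClopen (X := D)).isInducing hj
  have hdisc : DiscreteTopology (D.comap ι) := by
    apply hZ _ hcl
    refine ⟨_, hb, ?_⟩
    rintro _ ⟨s, hs, rfl⟩
    exact IsClopen.preimage hs hj.continuous
  have hfin : ((D.comap ι : Subgroup G) : Set G).Finite := by
    have hcc : CountablyCompactSpace (D.comap ι) :=
      isCountablyCompact_iff_countablyCompactSpace.1 hcl.isCountablyCompact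
    rw [← Set.finite_coe_iff]
    by_contra hinf
    have hinf' : (Set.univ : Set (D.comap ι)).Infinite := by
      intro h
      exact hinf (Set.finite_univ_iff.1 h)
    obtain ⟨a, -, ha⟩ := hcc.isCountablyCompact_univ.exists_accPt_of_infinite subset_rfl hinf'
    rw [accPt_iff_nhds] at ha
    obtain ⟨y, hy, hya⟩ := ha {a} ((isOpen_discrete _).mem_nhds rfl)
    exact hya hy.1
  refine (hfin.image ι).subset ?_
  rintro _ ⟨hx, g, rfl⟩
  exact ⟨g, hx, rfl⟩

omit [IsTopologicalGroup G] [IsTopologicalGroup K] [CompactSpace K] [T2Space K] in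
theorem closed_of_small [CountablyCompactSpace G] (ι : G →* K) (hι : Continuous ι)
    (M : Subgroup K) (hc : IsClosed (M : Set K)) (hM : Small M) :
    IsClosed ((M ⊓ ι.range : Subgroup K) : Set K) := by
  obtain ⟨N, ⟨κ, _, _, ρ, hρ, rfl⟩, hN⟩ := hM
  let F : K → (κ → κ → ℂ) := fun k i j => (ρ k : Matrix κ κ ℂ) i j
  have hF0 : Continuous (fun k => (ρ k : Matrix κ κ ℂ)) := continuous_subtype_val.comp hρ
  have hF : Continuous F := hF0
  have h1 : IsCountablyCompact ((fun g => F (ι g)) '' (ι ⁻¹' M)) :=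
    (hc.preimage hι).isCountablyCompact.image (hF.comp hι)
  have h2 := h1.isSeqCompact.isCompact.isClosed
  have e : ((M ⊓ ι.range : Subgroup K) : Set K) = (M : Set K) ∩
      F ⁻¹' ((fun g => F (ι g)) '' (ι ⁻¹' M)) := by
    ext x
    constructor
    · rintro ⟨hx, g, rfl⟩
      exact ⟨hx, g, hx, rfl⟩
    · rintro ⟨hx, g, hg, hgx⟩
      refine ⟨hx, g, ?_⟩
      have h3 : ρ (ι g) = ρ x := Subtype.ext hgx
      have h4 : (ι g)⁻¹ * x ∈ M ⊓ ρ.ker := by
        refine ⟨M.mul_mem (M.inv_mem hg) hx, ?_⟩
        show _ ∈ ρ.ker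
        rw [MonoidHom.mem_ker, map_mul, map_inv, h3, inv_mul_cancel]
      rw [hN] at h4
      exact inv_mul_eq_one.1 h4
  rw [e]
  exact hc.inter (h2.preimage hF)

theorem main_lie (G : Type u) [Group G] [TopologicalSpace G] [IsTopologicalGroup G] [T2Space G]
    [CountablyCompactSpace G] (hmin : IsMinimalGroup G) (hZ : HasPropertyZ G) :
    CompactSpace G ∧
      ∃ (n : ℕ) (_ : ChartedSpace (EuclideanSpace ℝ (Fin n)) G), LieGroup (𝓡 n) ω G := by
  obtain ⟨K, _, _, _, _, _, ι, hι, hd⟩ := exists_compactification G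
  have hyp : Hyp ι.range :=
    { dense := by rw [MonoidHom.coe_range]; exact hd
      ess := fun N hn hc hN => essential_of_minimal hmin ι hι hd N hn hc hN
      fin := fun D hc htd => finite_of_propZ hZ ι hι D hc htd
      cl := fun M hc hM => closed_of_small ι hι.continuous M hc hM }
  have hs := small_top hyp
  have hcl := hyp.cl ⊤ (by simp) hs
  rw [top_inf_eq, MonoidHom.coe_range] at hcl
  have hce : IsClosedEmbedding ι := ⟨hι, hcl⟩
  have hG : CompactSpace G := hce.compactSpace
  obtain ⟨N, ⟨κ, _, _, ρ, hρ, rfl⟩, hN⟩ := hs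
  rw [top_inf_eq] at hN
  have hinj : Function.Injective (ρ.comp ι) := ((MonoidHom.ker_eq_bot_iff ρ).1 hN).comp hι.injective
  exact ⟨hG, lie_of_unitary (ρ.comp ι) ((hρ.comp hι.continuous).isClosedEmbedding hinj)⟩

end Pool.Agent.H567Z
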