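import Mathlib
import Pool.Agent.H567Z.Chart
import Pool.Agent.H567Z.Comp

/-! An abstract subgroup of a unitary group that is normal in its closure, and whose closure has
trivial centre, is closed. -/

set_option autoImplicit false

namespace Pool.Agent.H567Z

open Filter Topology NormedSpace

section Gen

variable {𝔸 : Type} [NormedRing 𝔸] [NormedAlgebra ℝ 𝔸]

/-- `W` consists of tangent vectors at `1` of a strictly differentiable family inside `H` -/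
def Reach (H : Submonoid 𝔸) (W : Submodule ℝ 𝔸) : Prop :=
  ∃ (E : Type) (_ : NormedAddCommGroup E) (_ : NormedSpace ℝ E) (_ : CompleteSpace E)
    (F : E → 𝔸) (F' : E →L[ℝ] 𝔸), F 0 = 1 ∧ (∀ t, F t ∈ H) ∧ HasStrictFDerivAt F F' 0 ∧
      ∀ w ∈ W, ∃ a, F' a = w

theorem reach_bot (H : Submonoid 𝔸) : Reach H ⊥ := by
  refine ⟨ℝ, inferInstance, inferInstance, inferInstance, fun _ => 1, 0, rfl, fun _ => H.one_mem,
    hasStrictFDerivAt_const _ _, fun w hw => ⟨0, ?_⟩⟩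
  rw [(Submodule.mem_bot ℝ).1 hw]
  rfl

theorem Reach.sup {H : Submonoid 𝔸} {W W' : Submodule ℝ 𝔸} (h : Reach H W) (h' : Reach H W') :
    Reach H (W ⊔ W') := by
  obtain ⟨E, _, _, _, F, F', a1, a2, a3, a4⟩ := h
  obtain ⟨E₂, _, _, _, G, G', b1, b2, b3, b4⟩ := h'
  have c1 : HasStrictFDerivAt (fun p : E × E₂ => F p.1) (F'.comp (ContinuousLinearMap.fst ℝ E E₂))
      (0 : E × E₂) := a3.comp (0 : E × E₂) hasStrictFDerivAt_fst
  have c2 : HasStrictFDerivAt (fun p : E × E₂ => G p.2) (G'.comp (ContinuousLinearMap.snd ℝ E E₂))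
      (0 : E × E₂) := b3.comp (0 : E × E₂) hasStrictFDerivAt_snd
  refine ⟨E × E₂, inferInstance, inferInstance, inferInstance, _, _, ?_, ?_, c1.mul' c2, ?_⟩
  · show F 0 * G 0 = 1
    rw [a1, b1, mul_one]
  · intro t
    exact H.mul_mem (a2 _) (b2 _)
  · intro w hw
    obtain ⟨y, hy, z, hz, rfl⟩ := Submodule.mem_sup.1 hw
    obtain ⟨a, rfl⟩ := a4 y hy
    obtain ⟨b, rfl⟩ := b4 z hz
    refine ⟨(a, b), ?_⟩
    simp [a1, b1, add_comm]

theorem reach_path [CompleteSpace 𝔸] (H : Submonoid 𝔸) (a b X : 𝔸) (hab : a * b = 1)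
    (h : ∀ t : ℝ, a * exp (t • X) * b * exp (t • (-X)) ∈ H) :
    Reach H (Submodule.span ℝ {a * X * b - X}) := by
  have h1 := (((hasStrictDerivAt_exp_smul_const (𝕂 := ℝ) X 0).const_mul a).mul_const b).mul
    (hasStrictDerivAt_exp_smul_const (𝕂 := ℝ) (-X) 0)
  refine ⟨ℝ, inferInstance, inferInstance, inferInstance, _, _, ?_, ?_, h1.hasStrictFDerivAt, ?_⟩
  · simp [hab]
  · intro t
    exact h t
  · intro w hw
    obtain ⟨c, rfl⟩ := Submodule.mem_span_singleton.1 hw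
    refine ⟨c, ?_⟩
    simp [hab, sub_eq_add_neg]

theorem open_gen [FiniteDimensional ℝ 𝔸] (H : Submonoid 𝔸) (Hb : Set 𝔸) (hle : ∀ x ∈ H, x ∈ Hb)
    (l : Submodule ℝ 𝔸) (S : Set 𝔸)
    (hS : ∀ s ∈ S, ∃ a b X : 𝔸, a * b = 1 ∧ s = a * X * b - X ∧
      ∀ t : ℝ, a * exp (t • X) * b * exp (t • (-X)) ∈ H)
    (hl : l ≤ Submodule.span ℝ S)
    (h2 : ∀ V ∈ 𝓝 (0 : 𝔸), ∃ O ∈ 𝓝 (1 : 𝔸), ∀ u ∈ Hb, u ∈ O → ∃ X ∈ l, X ∈ V ∧ exp X = u) :
    ∃ O ∈ 𝓝 (1 : 𝔸), ∀ u ∈ Hb, u ∈ O → u ∈ H := by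
  have : CompleteSpace 𝔸 := FiniteDimensional.complete ℝ 𝔸
  obtain ⟨W, hW, hmax⟩ := set_has_maximal_iff_noetherian.2 (inferInstance : IsNoetherian ℝ 𝔸)
    {W | Reach H W} ⟨⊥, reach_bot H⟩
  have hSW : Submodule.span ℝ S ≤ W := by
    rw [Submodule.span_le]
    intro s hs
    obtain ⟨a, b, X, hab, rfl, h⟩ := hS s hs
    have h3 := Reach.sup hW (reach_path H a b X hab h)
    have h4 : W = W ⊔ Submodule.span ℝ {a * X * b - X} :=
      eq_of_le_of_not_lt le_sup_left (hmax _ h3)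
    show _ ∈ W
    rw [h4]
    exact Submodule.mem_sup_right (Submodule.mem_span_singleton_self _)
  obtain ⟨E, _, _, _, F, F', a1, a2, a3, a4⟩ := hW
  obtain ⟨q₀, hq⟩ := LinearMap.exists_leftInverse_of_injective l.subtype l.ker_subtype
  let q : 𝔸 →L[ℝ] l := LinearMap.toContinuousLinearMap q₀
  have hq' : ∀ X : l, q (X : 𝔸) = X := fun X => LinearMap.congr_fun hq X
  obtain ⟨e, he, he0, W₁, -, hW1, hWt, -⟩ := exists_log (𝔸 := 𝔸)
  have he1 : e.symm 1 = 0 := by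
    have := e.left_inv he0
    rwa [he, exp_zero] at this
  have hd : HasStrictFDerivAt e.symm
      (((ContinuousLinearEquiv.refl ℝ 𝔸).symm : 𝔸 ≃L[ℝ] 𝔸) : 𝔸 →L[ℝ] 𝔸) (F 0) := by
    rw [a1]
    apply e.hasStrictFDerivAt_symm (hWt hW1)
    rw [he1]
    have e1 : (e : 𝔸 → 𝔸) = exp := funext he
    rw [e1]
    exact hasStrictFDerivAt_exp_zero (𝕂 := ℝ)
  have hG := q.hasStrictFDerivAt.comp 0 (hd.comp 0 a3)
  have hcl : CompleteSpace l := FiniteDimensional.complete ℝ l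
  have hmap := hG.map_nhds_eq_of_surj (by
    rw [LinearMap.range_eq_top]
    intro X
    obtain ⟨a, ha⟩ := a4 X (hSW (hl X.2))
    refine ⟨a, ?_⟩
    show q (F' a) = X
    rw [ha, hq'])
  obtain ⟨O₁, hO₁, hO₁'⟩ := h2 e.source (e.open_source.mem_nhds he0)
  have hT : F ⁻¹' O₁ ∈ 𝓝 (0 : E) := by
    apply a3.continuousAt.preimage_mem_nhds
    rwa [a1]
  have h5 : (fun x => q (e.symm (F x))) '' (F ⁻¹' O₁) ∈ 𝓝 (0 : l) := by
    have h6 := Filter.image_mem_map (m := fun x => q (e.symm (F x))) hT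
    rw [hmap, a1, he1, map_zero] at h6
    exact h6
  rw [nhds_subtype_eq_comap] at h5
  obtain ⟨V, hV, hV2⟩ := h5
  obtain ⟨O₂, hO₂, hO₂'⟩ := h2 V hV
  refine ⟨O₂, hO₂, fun u hu huO => ?_⟩
  obtain ⟨Y, hY, hYV, rfl⟩ := hO₂' u hu huO
  obtain ⟨t, ht, ht2⟩ := hV2 (show (⟨Y, hY⟩ : l) ∈ Subtype.val ⁻¹' V from hYV)
  obtain ⟨X, hX, hXs, hX2⟩ := hO₁' (F t) (hle _ (a2 t)) ht
  have h7 : e.symm (F t) = X := by rw [← hX2, ← he, e.left_inv hXs]
  have h8 : q (e.symm (F t)) = ⟨Y, hY⟩ := ht2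
  rw [h7] at h8
  have h9 : X = Y := by
    have := hq' ⟨X, hX⟩
    rw [h8] at this
    exact (congrArg Subtype.val this).symm
  rw [← h9, hX2]
  exact a2 t

end Gen

open Pool.LatH472 Matrix

variable {ι : Type} [Fintype ι] [DecidableEq ι]

set_option backward.isDefEq.respectTransparency false in
theorem closed_of_normal (H : Subgroup (Matrix.unitaryGroup ι ℂ))
    (hn : ∀ l ∈ H.topologicalClosure, ∀ h ∈ H, l * h * l⁻¹ ∈ H)
    (hz : ∀ z ∈ H.topologicalClosure, (∀ h ∈ H, h * z = z * h) → z = 1) :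
    IsClosed (H : Set (Matrix.unitaryGroup ι ℂ)) := by
  let L := H.topologicalClosure
  have hL : IsClosed (L : Set (Matrix.unitaryGroup ι ℂ)) := H.isClosed_topologicalClosure
  have hHL : H ≤ L := H.le_topologicalClosure
  let S : Set (Matrix ι ι ℂ) := {s | ∃ h ∈ H, ∃ X ∈ LieAlg L,
    s = (h : Matrix ι ι ℂ) * X * (h : Matrix ι ι ℂ)ᴴ - X}
  have had : ∀ h ∈ H, ∀ X ∈ LieAlg L,
      (h : Matrix ι ι ℂ) * X * (h : Matrix ι ι ℂ)ᴴ ∈ LieAlg L := fun h hh X hX =>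
    lie_ad h (fun c hc => L.mul_mem (L.mul_mem (hHL hh) hc) (L.inv_mem (hHL hh))) hX
  have hSl : Submodule.span ℝ S ≤ lieSub L hL := by
    rw [Submodule.span_le]
    rintro _ ⟨h, hh, X, hX, rfl⟩
    exact (CST1 ι L hL _ (had h hh X hX) X hX).2
  have hrefl : (trForm : LinearMap.BilinForm ℝ (Matrix ι ι ℂ)).IsRefl := by
    intro X Y h
    rw [trForm_symm]
    exact h
  have hnd : ((trForm : LinearMap.BilinForm ℝ (Matrix ι ι ℂ)).restrict
      (Submodule.span ℝ S)).Nondegenerate := by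
    refine ⟨fun X hX => ?_, fun X hX => ?_⟩
    · exact Subtype.ext (trForm_self _ (hX X))
    · exact Subtype.ext (trForm_self _ (hX X))
  have hcompl := LinearMap.BilinForm.isCompl_orthogonal_of_restrict_nondegenerate hrefl hnd
  have hlS : lieSub L hL ≤ Submodule.span ℝ S := by
    intro X hX
    have h1 : X ∈ Submodule.span ℝ S ⊔ trForm.orthogonal (Submodule.span ℝ S) := by
      rw [hcompl.sup_eq_top]
      trivial
    obtain ⟨Y, hY, W, hW, hYW⟩ := Submodule.mem_sup.1 h1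
    have hWL : W ∈ LieAlg L := by
      have : W = X - Y := by rw [← hYW]; abel
      rw [this]
      exact (CST1 ι L hL X hX Y (hSl hY)).2
    have hWo : ∀ Y' ∈ S, trForm Y' W = 0 := fun Y' hY' => hW Y' (Submodule.subset_span hY')
    have hcomm : ∀ c ∈ H, (c : Matrix ι ι ℂ) * W * (c : Matrix ι ι ℂ)ᴴ = W := by
      intro c hc
      obtain ⟨D, hD⟩ : ∃ D, D = (c : Matrix ι ι ℂ) * W * (c : Matrix ι ι ℂ)ᴴ - W := ⟨_, rfl⟩
      have h2 : D ∈ LieAlg L := by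
        rw [hD]
        exact (CST1 ι L hL _ (had c hc W hWL) W hWL).2
      have h5 := hWo _ ⟨c⁻¹, H.inv_mem hc, D, h2, rfl⟩
      rw [inv_coe, Matrix.conjTranspose_conjTranspose, map_sub, LinearMap.sub_apply,
        ← trForm_ad, ← map_sub, ← hD] at h5
      have h7 := trForm_self _ h5
      rw [hD, sub_eq_zero] at h7
      exact h7
    have hW0 : W = 0 := by
      apply skew_zero_of_exp
      intro t
      have h10 := hz _ (oneP_mem hWL t) (fun c hc => by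
        have h8 := oneP_ad c W hWL.1 t
        have h9 : oneP _ (ad_skew c W hWL.1) t = oneP W hWL.1 t := by
          apply Subtype.ext
          rw [oneP_coe, oneP_coe, hcomm c hc]
        rw [h9] at h8
        calc c * oneP W hWL.1 t = (c * oneP W hWL.1 t * c⁻¹) * c := by group
          _ = oneP W hWL.1 t * c := by rw [← h8])
      exact congrArg Subtype.val h10
    rw [← hYW, hW0, add_zero]
    exact hY
  let H' : Submonoid (Matrix ι ι ℂ) := H.toSubmonoid.map (Matrix.unitaryGroup ι ℂ).subtype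
  let Hb : Set (Matrix ι ι ℂ) := Subtype.val '' (L : Set (Matrix.unitaryGroup ι ℂ))
  have hle : ∀ x ∈ H', x ∈ Hb := by
    rintro _ ⟨u, hu, rfl⟩
    exact ⟨u, hHL hu, rfl⟩
  have hS : ∀ s ∈ S, ∃ a b X : Matrix ι ι ℂ, a * b = 1 ∧ s = a * X * b - X ∧
      ∀ t : ℝ, a * exp (t • X) * b * exp (t • (-X)) ∈ H' := by
    rintro _ ⟨h, hh, X, hX, rfl⟩
    refine ⟨_, _, X, u_mul_star h, rfl, fun t => ?_⟩
    have h3 := hn _ (oneP_mem hX t) h⁻¹ (H.inv_mem hh)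
    refine ⟨h * (oneP X hX.1 t * h⁻¹ * (oneP X hX.1 t)⁻¹), H.mul_mem hh h3, ?_⟩
    rw [← oneP_neg]
    show (h : Matrix ι ι ℂ) * (exp (t • X) * (h : Matrix ι ι ℂ)ᴴ * exp ((-t) • X)) = _
    rw [smul_neg, neg_smul, Matrix.mul_assoc, Matrix.mul_assoc, Matrix.mul_assoc]
  have h2 : ∀ V ∈ 𝓝 (0 : Matrix ι ι ℂ), ∃ O ∈ 𝓝 (1 : Matrix ι ι ℂ), ∀ u ∈ Hb, u ∈ O →
      ∃ X ∈ lieSub L hL, X ∈ V ∧ exp X = u := by
    intro V hV
    obtain ⟨O, hO, hO2⟩ := cst2 L hL V hV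
    rw [nhds_subtype_eq_comap] at hO
    obtain ⟨O', hO', hO'2⟩ := hO
    refine ⟨O', hO', ?_⟩
    rintro _ ⟨u, hu, rfl⟩ hg
    exact hO2 u hu (hO'2 hg)
  have key : ∃ O ∈ 𝓝 (1 : Matrix ι ι ℂ), ∀ u ∈ Hb, u ∈ O → u ∈ H' := by
    let iR : NormedRing (Matrix ι ι ℂ) := Matrix.linftyOpNormedRing
    let iA : NormedAlgebra ℝ (Matrix ι ι ℂ) := Matrix.linftyOpNormedAlgebra
    exact open_gen (𝔸 := Matrix ι ι ℂ) H' Hb hle (lieSub L hL) S hS hlS h2
  obtain ⟨O, hO, hO2⟩ := key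
  have hopen : IsOpen ((H.subgroupOf L : Subgroup L) : Set L) := by
    apply Subgroup.isOpen_of_mem_nhds (g := 1)
    have hc : Continuous (fun u : L => ((u : Matrix.unitaryGroup ι ℂ) : Matrix ι ι ℂ)) :=
      continuous_subtype_val.comp continuous_subtype_val
    have h1 : (fun u : L => ((u : Matrix.unitaryGroup ι ℂ) : Matrix ι ι ℂ)) ⁻¹' O ∈ 𝓝 (1 : L) :=
      hc.continuousAt.preimage_mem_nhds hO
    refine Filter.mem_of_superset h1 fun u hu => ?_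
    obtain ⟨v, hv, hv2⟩ := hO2 _ ⟨u, u.2, rfl⟩ hu
    have h3 : v = u := Subtype.ext hv2
    show (u : Matrix.unitaryGroup ι ℂ) ∈ H
    rw [← h3]
    exact hv
  have hcl := (H.subgroupOf L).isClosed_of_isOpen hopen
  have h4 := hL.isClosedMap_subtype_val _ hcl
  have e : Subtype.val '' ((H.subgroupOf L : Subgroup L) : Set L) =
      (H : Set (Matrix.unitaryGroup ι ℂ)) := by
    ext x
    constructor
    · rintro ⟨u, hu, rfl⟩
      exact hu
    · intro hx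
      exact ⟨⟨x, hHL hx⟩, hx, rfl⟩
  rw [← e]
  exact h4

end Pool.Agent.H567Z
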