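import Mathlib
import Pool.Agent.H567Z.Struct
import Pool.Agent.H567Z.Rad
import Pool.Agent.H567Z.Open

/-! The structure argument under weaker hypotheses: a compact group with an essential subgroup
that maps onto every unitary image and has no non-trivial null sequence inside a closed totally
disconnected subgroup has a faithful representation. -/

set_option autoImplicit false

namespace Pool.Agent.H567Z

open Filter Topology Pool.LatH472

universe u

variable {K : Type u} [Group K] [TopologicalSpace K] [IsTopologicalGroup K] [CompactSpace K]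
  [T2Space K]

/-- the hypotheses on the subgroup -/
structure Hyp2 (Γ : Subgroup K) : Prop where
  ess : ∀ N : Subgroup K, N.Normal → IsClosed (N : Set K) → N ⊓ Γ = ⊥ → N = ⊥
  null : ∀ D : Subgroup K, IsClosed (D : Set K) → IsTotallyDisconnected (D : Set K) →
    ∀ u : ℕ → K, (∀ n, u n ∈ D ⊓ Γ) → (∀ n, u n ≠ 1) → ¬ Tendsto u atTop (𝓝 1)
  onto : ∀ N : Subgroup K, RepKer N → ∀ k : K, ∃ γ ∈ Γ, γ⁻¹ * k ∈ N

variable {Γ : Subgroup K}

omit [T2Space K] in
theorem relIndex_of_td {D N : Subgroup K} (hc : IsClosed (D : Set K))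
    (htd : IsTotallyDisconnected (D : Set K)) (hN : RepKer N) : N.relIndex D ≠ 0 := by
  obtain ⟨ι, _, _, ρ, hρ, rfl⟩ := hN
  have : CompactSpace D := isCompact_iff_compactSpace.1 hc.isCompact
  have : TotallyDisconnectedSpace D := totallyDisconnectedSpace_subtype_iff.2 htd
  obtain ⟨O, hO, hO2⟩ := NSS ι
  obtain ⟨O', hO'1, hO'o, hO'2⟩ := mem_nhds_iff.1 hO
  obtain ⟨P, hP⟩ := ProfiniteGrp.exist_openNormalSubgroup_sub_open_nhds_of_one
    (U := (fun d : D => ρ d) ⁻¹' O') (hO'o.preimage (hρ.comp continuous_subtype_val)) (by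
      show ρ 1 ∈ O'
      rw [map_one]
      exact hO'2)
  have h1 := hO2 ((P.toSubgroup.map D.subtype).map ρ) (by
    rintro _ ⟨_, ⟨d, hd, rfl⟩, rfl⟩
    exact hO'1 (hP hd))
  have h2 : P.toSubgroup ≤ ρ.ker.subgroupOf D := by
    intro d hd
    have h3 : ρ d ∈ (P.toSubgroup.map D.subtype).map ρ := ⟨d, ⟨d, hd, rfl⟩, rfl⟩
    rw [h1] at h3
    exact h3
  have h4 : P.toSubgroup.FiniteIndex := P.toOpenSubgroup.finiteIndex_of_finite_quotient
  exact (Subgroup.finiteIndex_of_le h2).index_ne_zero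

theorem small_of_td2 (h : Hyp2 Γ) {D : Subgroup K} (hn : D.Normal) (hc : IsClosed (D : Set K))
    (htd : IsTotallyDisconnected (D : Set K)) : Small D := by
  have hfin : (D : Set K).Finite := by
    by_contra hinf
    obtain ⟨N, h1, h2, h3, h4, h5, h6⟩ := Rad.chain_of_resFin hn hc hinf (by
      intro x _ hx1
      obtain ⟨N, hN, hxN⟩ := exists_repKer_not_mem hx1
      exact ⟨N, hN.normal, hN.isClosed, hxN, relIndex_of_td hc htd hN⟩)
    have h7 : ∀ i, ∃ x ∈ N i ⊓ Γ, x ≠ 1 := fun i =>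
      (Subgroup.bot_or_exists_ne_one _).resolve_left fun hb => h4 i (h.ess _ (h1 i) (h2 i) hb)
    choose u hu hu1 using h7
    exact h.null D hc htd u (fun n => ⟨h6 n (hu n).1, (hu n).2⟩) hu1
      (Rad.tendsto_of_chain N h2 h3 h5 u fun n => (hu n).1)
  obtain ⟨N, hN, h2⟩ := exists_repKer_finite hfin
  refine ⟨N, hN, ?_⟩
  rw [eq_bot_iff]
  intro x hx
  exact h2 x hx.1 hx.2

omit [CompactSpace K] in
theorem centr_closed (S : Set K) : IsClosed (Subgroup.centralizer S : Set K) := by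
  have e : (Subgroup.centralizer S : Set K) = ⋂ c ∈ S, {z | c * z = z * c} := by
    ext z
    simp only [SetLike.mem_coe, Subgroup.mem_centralizer_iff, Set.mem_iInter, Set.mem_ofPred_eq]
  rw [e]
  exact isClosed_biInter fun c _ => isClosed_eq (continuous_const_mul c) (continuous_mul_const c)

/-- closed commutative normal subgroups have a faithful representation -/
theorem small_of_comm2 (h : Hyp2 Γ) {A : Subgroup K} (hn : A.Normal) (hc : IsClosed (A : Set K))
    (hA : ∀ a ∈ A, ∀ b ∈ A, a * b = b * a) : Small A := by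
  have hbc : IsClosed ((⊥ : Subgroup K) : Set K) := by
    rw [Subgroup.coe_bot]
    exact isClosed_singleton
  obtain ⟨N₀, hN₀, h0⟩ : Small (powIn A ⊥ hA 2) := by
    apply small_of_td2 h (powIn_normal hA 2 hn inferInstance) (powIn_closed hA 2 hc hbc)
    apply td_of_bddExp
    intro N _
    refine ⟨2, two_pos, fun d hd => ?_⟩
    have h1 : d ^ 2 = 1 := hd.2
    rw [h1]
    exact N.one_mem
  have hn0 := hN₀.normal
  apply Small.of_inf hN₀
  have hBc : IsClosed ((A ⊓ N₀ : Subgroup K) : Set K) := hc.inter hN₀.isClosed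
  have hB2 : ∀ b ∈ A ⊓ N₀, b ^ 2 = 1 → b = 1 := by
    intro b hb hb2
    have h1 : b ∈ powIn A ⊥ hA 2 ⊓ N₀ := ⟨⟨hb.1, hb2⟩, hb.2⟩
    rw [h0] at h1
    exact h1
  apply small_of_td2 h inferInstance hBc
  apply td_of_bddExp
  intro N hN
  apply bddExp_of_no_invol hBc hN
  intro b hb hb2
  have hnN := hN.normal
  obtain ⟨E, hEc, hEB, ⟨z, hzE, hzb⟩, hmin⟩ := exists_minimal_closed (A ⊓ N₀) N hBc hN.isClosed hb
  have hEA : ∀ a ∈ E, ∀ b ∈ E, a * b = b * a := fun a ha b hb => hA a (hEB ha).1 b (hEB hb).1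
  have hz2 : z ^ 2 ∈ N := by
    have hcm : Commute z⁻¹ b := hA _ (A.inv_mem (hEB hzE).1) _ hb.1
    have h1 : (z⁻¹ * b) ^ 2 ∈ N := N.pow_mem hzb 2
    rw [hcm.mul_pow, inv_pow] at h1
    have h2 := N.mul_mem h1 (N.inv_mem hb2)
    rw [mul_inv_cancel_right] at h2
    exact (N.inv_mem_iff).1 h2
  have htor : ∀ N' : Subgroup K, RepKer N' → ∃ m : ℕ, 0 < m ∧ z ^ m ∈ N' := by
    intro N' hN'
    obtain ⟨m, hm, hroot⟩ := exists_root (E := E ⊓ N) (hEc.inter hN.isClosed) hN'
      (w := z ^ 2) ⟨E.pow_mem hzE 2, hz2⟩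
    obtain ⟨e, he, he2⟩ := hroot (2 * m) (by omega)
    have hcm : Commute z e := hEA z hzE e he.1
    have h1 : E ≤ powIn E N' hEA (2 * m) := by
      apply hmin _ (powIn_closed hEA _ hEc hN'.isClosed)
      · refine ⟨z * e, ⟨E.mul_mem hzE he.1, ?_⟩, ?_⟩
        · rw [hcm.mul_pow, pow_mul]
          exact he2
        · rw [mul_inv_rev, mul_assoc]
          exact N.mul_mem (N.inv_mem he.2) hzb
      · exact fun x hx => hx.1
    exact ⟨2 * m, by omega, (h1 hzE).2⟩
  choose! μ hμ1 hμ2 using htor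
  let D : Subgroup K := ⨅ (N' : Subgroup K) (_ : RepKer N'), powIn A N' hA (μ N')
  have hD : ∀ x, x ∈ D ↔ ∀ N' : Subgroup K, RepKer N' → x ∈ powIn A N' hA (μ N') := by
    intro x
    simp only [D, Subgroup.mem_iInf]
  have hDn : D.Normal := by
    refine ⟨fun x hx g => (hD _).2 fun N' hN' => ?_⟩
    exact (powIn_normal hA _ hn hN'.normal).conj_mem x ((hD x).1 hx N' hN') g
  have hDc : IsClosed (D : Set K) := by
    have e : (D : Set K) = ⋂ (N' : Subgroup K) (_ : RepKer N'), (powIn A N' hA (μ N') : Set K) := by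
      ext x
      simp only [SetLike.mem_coe, hD, Set.mem_iInter]
    rw [e]
    exact isClosed_iInter fun N' => isClosed_iInter fun hN' =>
      powIn_closed hA _ hc hN'.isClosed
  have hzD : z ∈ D := (hD z).2 fun N' hN' => ⟨(hEB hzE).1, hμ2 N' hN'⟩
  obtain ⟨N₁, hN₁, h1⟩ : Small D := by
    apply small_of_td2 h hDn hDc
    apply td_of_bddExp
    intro N' hN'
    exact ⟨μ N', hμ1 N' hN', fun d hd => ((hD d).1 hd N' hN').2⟩
  have hzm : z ^ μ N₁ = 1 := by
    have h2 : z ^ μ N₁ ∈ D ⊓ N₁ := ⟨D.pow_mem hzD _, hμ2 N₁ hN₁⟩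
    rw [h1] at h2
    exact h2
  obtain ⟨j, r, hr, hjr⟩ := Nat.exists_eq_two_pow_mul_odd (hμ1 N₁ hN₁).ne'
  have hzr : z ^ r = 1 := by
    have h2 : ∀ j : ℕ, ∀ a ∈ A ⊓ N₀, a ^ (2 ^ j) = 1 → a = 1 := by
      intro j
      induction j with
      | zero => intro a _ ha; simpa using ha
      | succ j ih =>
        intro a ha h3
        rw [pow_succ, pow_mul] at h3
        exact ih a ha (hB2 _ ((A ⊓ N₀).pow_mem ha _) h3)
    apply h2 j _ ((A ⊓ N₀).pow_mem (hEB hzE) r)
    rw [← pow_mul, mul_comm, ← hjr, hzm]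
  obtain ⟨s, rfl⟩ := hr
  have hzN : z ∈ N := by
    have h3 : z = ((z ^ 2) ^ s)⁻¹ := by
      rw [eq_inv_iff_mul_eq_one, ← pow_mul, ← pow_succ', hzr]
    rw [h3]
    exact N.inv_mem (N.pow_mem hz2 s)
  have h4 := N.mul_mem hzN hzb
  rwa [mul_inv_cancel_left] at h4

/-- `N₁` contains no non-trivial closed commutative normal subgroup of the identity component -/
def NoAb (N₁ : Subgroup K) : Prop :=
  ∀ A : Subgroup K, A.Normal → IsClosed (A : Set K) → (∀ a ∈ A, ∀ b ∈ A, a * b = b * a) →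
    A ≤ idComp ⊤ → A ≤ N₁ → A = ⊥

theorem exists_noAb (h : Hyp2 Γ) : ∃ N₁ : Subgroup K, RepKer N₁ ∧ NoAb N₁ := by
  let K₀ : Subgroup K := idComp ⊤
  have hK₀n : K₀.Normal := idComp_normal inferInstance
  have hK₀c : IsClosed (K₀ : Set K) := idComp_closed (by simp)
  obtain ⟨N₁, hN₁, hZ⟩ : Small (K₀ ⊓ Subgroup.centralizer (K₀ : Set K)) := by
    apply small_of_comm2 h inferInstance (hK₀c.inter (centr_closed _))
    intro a ha b hb
    exact hb.2 a ha.1
  refine ⟨N₁, hN₁, fun A hn hc hA h1 h2 => ?_⟩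
  rw [eq_bot_iff, ← hZ]
  intro a ha
  refine ⟨⟨h1 ha, fun l hl => ?_⟩, h2 ha⟩
  obtain ⟨b, -, hb1, hb2⟩ := exists_centralizing hK₀c (idComp_conn _) hc h1
    (fun b _ c hc => hn.conj_mem c hc b) hl
  have h3 := hA _ hb1 a ha
  have h4 := hb2 a ha
  calc l * a = b * (b⁻¹ * l * a) := by group
    _ = b * a * (b⁻¹ * l) := by rw [h3]; group
    _ = a * l := by rw [h4]; group

theorem closed_of_small2 (h : Hyp2 Γ) {N₁ : Subgroup K} (hA : NoAb N₁) {M : Subgroup K}
    (hMn : M.Normal) (hMc : IsClosed (M : Set K)) (hMs : Small M) (h1 : M ≤ idComp ⊤)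
    (h2 : M ≤ N₁) : (M ⊓ Γ).Normal ∧ IsClosed ((M ⊓ Γ : Subgroup K) : Set K) := by
  obtain ⟨N, hN, hMN⟩ := hMs
  have hHn : (M ⊓ Γ).Normal := by
    refine ⟨fun x hx g => ⟨hMn.conj_mem x hx.1 g, ?_⟩⟩
    obtain ⟨γ, hγ, hγ2⟩ := h.onto N hN g
    have h3 : x * (γ⁻¹ * g) = (γ⁻¹ * g) * x :=
      Subgroup.commute_of_normal_of_disjoint M N hMn hN.normal (disjoint_iff.2 hMN) _ _ hx.1 hγ2
    have h4 : g * x * g⁻¹ = γ * x * γ⁻¹ := by
      calc g * x * g⁻¹ = γ * ((γ⁻¹ * g) * x) * g⁻¹ := by group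
        _ = γ * (x * (γ⁻¹ * g)) * g⁻¹ := by rw [h3]
        _ = γ * x * γ⁻¹ := by group
    show g * x * g⁻¹ ∈ Γ
    rw [h4]
    exact Γ.mul_mem (Γ.mul_mem hγ hx.2) (Γ.inv_mem hγ)
  refine ⟨hHn, ?_⟩
  obtain ⟨ι, _, _, ρ, hρ, rfl⟩ := hN
  have hinj : ∀ a ∈ M, ∀ b ∈ M, ρ a = ρ b → a = b := by
    intro a ha b hb hab
    have h4 : a⁻¹ * b ∈ M ⊓ ρ.ker := by
      refine ⟨M.mul_mem (M.inv_mem ha) hb, ?_⟩
      show _ ∈ ρ.ker
      rw [MonoidHom.mem_ker, map_mul, map_inv, hab, inv_mul_cancel]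
    rw [hMN] at h4
    exact inv_mul_eq_one.1 h4
  let H : Subgroup K := M ⊓ Γ
  have hHM : H.topologicalClosure ≤ M := H.topologicalClosure_minimal inf_le_left hMc
  have hlift : ∀ z ∈ (H.map ρ).topologicalClosure, ∃ m ∈ H.topologicalClosure, ρ m = z := by
    intro z hz
    have h5 : IsClosed (ρ '' (H.topologicalClosure : Set K)) :=
      (H.isClosed_topologicalClosure.isCompact.image hρ).isClosed
    have h6 : ((H.map ρ : Subgroup _) : Set (Matrix.unitaryGroup ι ℂ)) ⊆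
        ρ '' (H.topologicalClosure : Set K) := by
      rintro _ ⟨x, hx, rfl⟩
      exact ⟨x, H.le_topologicalClosure hx, rfl⟩
    exact closure_minimal h6 h5 hz
  have hbot : H.topologicalClosure ⊓ Subgroup.centralizer (H : Set K) = ⊥ := by
    have hn1 : H.topologicalClosure.Normal := H.is_normal_topologicalClosure
    apply hA _ inferInstance (H.isClosed_topologicalClosure.inter (centr_closed _))
    · intro a ha b hb
      have h7 : IsClosed {x : K | x * b = b * x} :=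
        isClosed_eq (continuous_mul_const b) (continuous_const_mul b)
      exact closure_minimal (fun x hx => hb.2 x hx) h7 ha.1
    · exact inf_le_left.trans (hHM.trans h1)
    · exact inf_le_left.trans (hHM.trans h2)
  have hcl := closed_of_normal (H.map ρ) (by
      rintro l hl _ ⟨x, hx, rfl⟩
      obtain ⟨m, -, rfl⟩ := hlift l hl
      exact ⟨m * x * m⁻¹, hHn.conj_mem x hx m, by simp⟩) (by
      intro z hz hc
      obtain ⟨m, hm, rfl⟩ := hlift z hz
      have h8 : m ∈ H.topologicalClosure ⊓ Subgroup.centralizer (H : Set K) := by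
        refine ⟨hm, fun x hx => ?_⟩
        apply hinj _ (M.mul_mem hx.1 (hHM hm)) _ (M.mul_mem (hHM hm) hx.1)
        rw [map_mul, map_mul]
        exact hc _ ⟨x, hx, rfl⟩
      rw [hbot] at h8
      rw [Subgroup.mem_bot.1 h8, map_one])
  have e : ((M ⊓ Γ : Subgroup K) : Set K) = (M : Set K) ∩ ρ ⁻¹' (H.map ρ : Subgroup _) := by
    ext x
    constructor
    · intro hx
      exact ⟨hx.1, x, hx, rfl⟩
    · rintro ⟨hx, y, hy, hyx⟩
      rw [← hinj y hy.1 x hx hyx]
      exact hy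
  rw [e]
  exact hMc.inter (hcl.preimage hρ)

/-- the inductive step: an involution of `Γ` inside a small normal subgroup of `N` -/
theorem exists_invol2 (h : Hyp2 Γ) (hns : ¬ Small (⊤ : Subgroup K)) {N₁ : Subgroup K}
    (hN₁ : RepKer N₁) (hA : NoAb N₁) {N : Subgroup K}
    (hN : RepKer N) : ∃ M : Subgroup K, M.Normal ∧ M ≤ N ∧ M ≤ idComp ⊤ ⊓ N₁ ∧ Small M ∧
      ∃ g ∈ M, g ∈ Γ ∧ g ≠ 1 ∧ g ^ 2 = 1 := by
  let K₀ : Subgroup K := idComp ⊤
  have hcent : ∀ S : Subgroup K, IsClosed (Subgroup.centralizer (S : Set K) : Set K) :=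
    fun S => centr_closed _
  have hN' : RepKer (N ⊓ N₁) := hN.inf hN₁
  have hN'n := hN'.normal
  let B : Subgroup K := idComp (N ⊓ N₁)
  have hBn : B.Normal := idComp_normal hN'n
  have hBc : IsClosed (B : Set K) := idComp_closed hN'.isClosed
  have hBne : B ≠ ⊥ := by
    intro hB
    apply hns
    apply Small.of_inf hN'
    rw [top_inf_eq]
    exact small_of_td2 h hN'n hN'.isClosed (td_of_idComp hB)
  obtain ⟨l, hl, hl1⟩ := (Subgroup.ne_bot_iff_exists_ne_one.1 hBne).imp fun (l : B) hl =>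
    (⟨l.2, fun h' => hl (Subtype.ext h')⟩ : (l : K) ∈ B ∧ (l : K) ≠ 1)
  obtain ⟨N₂, hN₂, hl2⟩ := exists_repKer_not_mem hl1
  have hN₂n := hN₂.normal
  let C : Subgroup K := B ⊓ N₂
  have hCn : C.Normal := inferInstance
  have hCc : IsClosed (C : Set K) := hBc.inter hN₂.isClosed
  obtain ⟨b, hbB, hbl, hbC⟩ := exists_centralizing hBc (idComp_conn _) hCc inf_le_left
    (fun b _ c hc => hCn.conj_mem c hc b) hl
  let M : Subgroup K := B ⊓ Subgroup.centralizer (C : Set K)
  have hMn : M.Normal := inferInstance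
  have hMc : IsClosed (M : Set K) := hBc.inter (hcent C)
  have hbM : b ∈ M := ⟨hbB, fun c hc => (hbC c hc).symm⟩
  have hb1 : b ≠ 1 := by
    rintro rfl
    rw [inv_one, one_mul] at hbl
    exact hl2 hbl.2
  have hMs : Small M := by
    apply Small.of_inf hN₂
    apply small_of_comm2 h inferInstance (hMc.inter hN₂.isClosed)
    intro a ha c hc
    exact hc.1.2 a ⟨ha.1.1, ha.2⟩
  have hMN : M ≤ N ⊓ N₁ := le_trans inf_le_left (idComp_le _)
  have hMK : M ≤ K₀ := le_trans inf_le_left (idComp_mono le_top)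
  refine ⟨M, hMn, le_trans hMN inf_le_left, le_inf hMK (le_trans hMN inf_le_right), hMs, ?_⟩
  by_contra hcon
  push Not at hcon
  -- `H = M ⊓ Γ` is a nontrivial finite normal subgroup
  obtain ⟨hHn, hHc⟩ := closed_of_small2 h hA hMn hMc hMs hMK (le_trans hMN inf_le_right)
  obtain ⟨N₃, hN₃, hM3⟩ := hMs
  obtain ⟨m, hm, hHm⟩ := bddExp_of_no_invol hHc hN₃ (by
    intro x hx hx2
    have h1 : x ^ 2 ∈ M ⊓ N₃ := ⟨M.pow_mem hx.1 2, hx2⟩
    rw [hM3] at h1
    have h2 : x = 1 := by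
      by_contra hx1
      exact hcon x hx.1 hx.2 hx1 h1
    rw [h2]
    exact N₃.one_mem)
  have hHtd : IsTotallyDisconnected ((M ⊓ Γ : Subgroup K) : Set K) := by
    apply td_of_bddExp
    intro N' _
    refine ⟨m, hm, fun d hd => ?_⟩
    have h1 : d ^ m ∈ M ⊓ N₃ := ⟨M.pow_mem hd.1 m, hHm d hd⟩
    rw [hM3] at h1
    have h2 : d ^ m = 1 := h1
    rw [h2]
    exact N'.one_mem
  have hH : M ⊓ Γ = ⊥ := by
    apply hA _ hHn hHc _ (inf_le_left.trans hMK) (inf_le_left.trans (hMN.trans inf_le_right))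
    intro k hk' x hx
    have hk : k ∈ K₀ := hMK hk'.1
    have h1 : IsPreconnected ((fun g : K => g * x * g⁻¹) '' (K₀ : Set K)) :=
      (idComp_conn ⊤).image _ (by fun_prop)
    have h2 := hHtd _ (by
      rintro _ ⟨g, -, rfl⟩
      exact hHn.conj_mem x hx g) h1 ⟨k, hk, rfl⟩ ⟨1, K₀.one_mem, rfl⟩
    have h3 : k * x * k⁻¹ = x := by simpa using h2
    calc k * x = k * x * k⁻¹ * k := by group
      _ = x * k := by rw [h3]
  have hM := h.ess M hMn hMc hH
  rw [hM] at hbM
  exact hb1 hbM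

theorem small_top2 (h : Hyp2 Γ) : Small (⊤ : Subgroup K) := by
  by_contra hns
  obtain ⟨N₁, hN₁, hNA⟩ := exists_noAb h
  have hstep : ∀ N : {N : Subgroup K // RepKer N}, ∃ N' : {N : Subgroup K // RepKer N},
      N'.1 ≤ N.1 ∧ ∃ M : Subgroup K, M.Normal ∧ M ≤ N.1 ∧ M ≤ idComp ⊤ ⊓ N₁ ∧ M ⊓ N'.1 = ⊥ ∧
        ∃ g ∈ M, g ∈ Γ ∧ g ≠ 1 ∧ g ^ 2 = 1 := by
    intro N
    obtain ⟨M, hMn, hMN, hMK, ⟨N', hN', hM⟩, hg⟩ := exists_invol2 h hns hN₁ hNA N.2
    refine ⟨⟨N.1 ⊓ N', N.2.inf hN'⟩, inf_le_left, M, hMn, hMN, hMK, ?_, hg⟩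
    rw [eq_bot_iff, ← hM]
    exact inf_le_inf_left M inf_le_right
  choose nx hnx M hMn hMN hMK hMi g hgM hgΓ hg1 hg2 using hstep
  let s : ℕ → {N : Subgroup K // RepKer N} := fun n => nx^[n] ⟨⊤, repKer_top⟩
  have hs : ∀ n, s (n + 1) = nx (s n) := fun n => Function.iterate_succ_apply' nx n _
  have hanti : Antitone (fun n => (s n).1) := by
    apply antitone_nat_of_succ_le
    intro n
    rw [hs]
    exact hnx _
  have hdisj : ∀ i j, i < j → Disjoint (M (s i)) (M (s j)) := by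
    intro i j hij
    rw [disjoint_iff, eq_bot_iff, ← hMi (s i)]
    apply inf_le_inf_left
    refine le_trans (hMN _) ?_
    rw [← hs]
    exact hanti hij
  have hcomm : ∀ i j, g (s i) * g (s j) = g (s j) * g (s i) := by
    intro i j
    rcases lt_trichotomy i j with hij | rfl | hij
    · exact Subgroup.commute_of_normal_of_disjoint _ _ (hMn _) (hMn _) (hdisj i j hij) _ _
        (hgM _) (hgM _)
    · rfl
    · exact (Subgroup.commute_of_normal_of_disjoint _ _ (hMn _) (hMn _) (hdisj j i hij) _ _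
        (hgM _) (hgM _)).symm
  -- the involutions tend to the identity
  let T : ℕ → Subgroup K := fun n => ⨆ i : ℕ, M (s (n + i))
  have hTn : ∀ n, (T n).Normal := fun n => by
    have : ∀ i : ℕ, (M (s (n + i))).Normal := fun i => hMn _
    exact Subgroup.iSup_normal _
  have hMT : ∀ n j, n ≤ j → M (s j) ≤ T n := by
    intro n j hj
    obtain ⟨i, rfl⟩ := Nat.exists_eq_add_of_le hj
    exact le_iSup (fun i : ℕ => M (s (n + i))) i
  have hTa : Antitone T := fun m n hmn => iSup_le fun i => hMT _ _ (by omega)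
  let R : ℕ → Subgroup K := fun n => (idComp ⊤ ⊓ N₁) ⊓
    Subgroup.centralizer (Subgroup.centralizer (T n : Set K) : Set K)
  have hK₀n : (idComp (⊤ : Subgroup K)).Normal := idComp_normal inferInstance
  have hK₀c : IsClosed (idComp (⊤ : Subgroup K) : Set K) := idComp_closed (by simp)
  have hN₁n := hN₁.normal
  have hRn : ∀ n, (R n).Normal := fun n => by
    have := hTn n
    infer_instance
  have hRc : ∀ n, IsClosed (R n : Set K) := fun n =>
    (hK₀c.inter hN₁.isClosed).inter (centr_closed _)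
  have hRa : Antitone R := fun m n hmn => inf_le_inf_left _
    (Subgroup.centralizer_le (Subgroup.centralizer_le (hTa hmn)))
  have hgR : ∀ n, g (s n) ∈ R n := fun n =>
    ⟨hMK _ (hgM _), fun y hy => (hy _ (hMT n n le_rfl (hgM _))).symm⟩
  have hMC : ∀ i, M (s i) ≤ Subgroup.centralizer (T (i + 1) : Set K) := by
    intro i
    rw [Subgroup.le_centralizer_iff]
    refine iSup_le fun j => ?_
    intro x hx y hy
    exact Subgroup.commute_of_normal_of_disjoint _ _ (hMn _) (hMn _)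
      (hdisj i (i + 1 + j) (by omega)) _ _ hy hx
  have hRi : (⨅ n, R n) = ⊥ := by
    have hC : (⨅ n, R n) ≤ Subgroup.centralizer (T 0 : Set K) := by
      rw [Subgroup.le_centralizer_iff]
      refine iSup_le fun j => ?_
      intro x hx y hy
      exact ((Subgroup.mem_iInf.1 hy (0 + j + 1)).2 x (hMC _ hx)).symm
    apply hNA _ (Subgroup.normal_iInf_normal hRn)
    · rw [Subgroup.coe_iInf]
      exact isClosed_iInter hRc
    · intro a ha b hb
      exact (Subgroup.mem_iInf.1 hb 0).2 a (hC ha)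
    · exact (iInf_le R 0).trans (inf_le_left.trans inf_le_left)
    · exact (iInf_le R 0).trans (inf_le_left.trans inf_le_right)
  have hlim : Tendsto (fun i => g (s i)) atTop (𝓝 1) := by
    refine Rad.tendsto_of_chain R hRc hRa (fun x hx => ?_) _ hgR
    have h1 : x ∈ ⨅ n, R n := Subgroup.mem_iInf.2 hx
    rw [hRi] at h1
    exact h1
  -- the bicommutant of the involutions
  let S : Set K := Set.range (fun i => g (s i))
  let A : Subgroup K := Subgroup.centralizer (Subgroup.centralizer S : Set K)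
  have hSC : S ⊆ Subgroup.centralizer S := by
    rintro _ ⟨i, rfl⟩ _ ⟨j, rfl⟩
    exact hcomm j i
  have hSA : S ⊆ A := fun x hx y hy => (hy x hx).symm
  have hA : ∀ a ∈ A, ∀ b ∈ A, a * b = b * a := by
    intro a ha b hb
    exact hb a (fun x hx => ha x (hSC hx))
  have hAc : IsClosed (A : Set K) := by
    have e : (A : Set K) = ⋂ c ∈ Subgroup.centralizer S, {z | c * z = z * c} := by
      ext z
      simp only [A, SetLike.mem_coe, Subgroup.mem_centralizer_iff, Set.mem_iInter,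
        Set.mem_ofPred_eq]
    rw [e]
    exact isClosed_biInter fun c _ => isClosed_eq (continuous_const_mul c) (continuous_mul_const c)
  have hbc : IsClosed ((⊥ : Subgroup K) : Set K) := by
    rw [Subgroup.coe_bot]
    exact isClosed_singleton
  refine h.null (powIn A ⊥ hA 2) (powIn_closed hA 2 hAc hbc) (by
    apply td_of_bddExp
    intro N _
    refine ⟨2, two_pos, fun d hd => ?_⟩
    have h1 : d ^ 2 = 1 := hd.2
    rw [h1]
    exact N.one_mem) _ (fun i => ?_) (fun i => hg1 _) hlim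
  exact ⟨⟨hSA ⟨i, rfl⟩, hg2 _⟩, hgΓ _⟩

end Pool.Agent.H567Z
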