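import Mathlib
import Pool.Agent.H567Z.MinDefs2
import Pool.Agent.H567Z.MinMain
import Pool.Agent.H567Z.Compl2
import Pool.Agent.H567Z.Struct2

set_option autoImplicit false

namespace Pool.Agent.H567Z

open Filter Topology
open scoped Manifold ContDiff

universe u

/-- a profinite group topologically generated by a null sequence is metrizable -/
theorem metrizable_of_null {L : Type u} [Group L] [TopologicalSpace L] [IsTopologicalGroup L]
    [CompactSpace L] [T2Space L] [TotallyDisconnectedSpace L] (u : ℕ → L)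
    (hu : Tendsto u atTop (𝓝 1)) (hgen : Dense (Subgroup.closure (Set.range u) : Set L)) :
    TopologicalSpace.MetrizableSpace L := by
  have hcount : ∀ m : ℕ,
      Countable {φ : L →* Equiv.Perm (Fin m) // IsOpen (φ.ker : Set L)} := by
    intro m
    have hinj : ∀ φ ψ : {φ : L →* Equiv.Perm (Fin m) // IsOpen (φ.ker : Set L)},
        (∀ n, φ.1 (u n) = ψ.1 (u n)) → φ = ψ := by
      intro φ ψ h
      have h1 : Subgroup.closure (Set.range u) ≤ φ.1.eqLocus ψ.1 := by
        rw [Subgroup.closure_le]
        rintro _ ⟨n, rfl⟩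
        exact h n
      have h2 : IsOpen (φ.1.eqLocus ψ.1 : Set L) := by
        apply Subgroup.isOpen_mono (H₁ := φ.1.ker ⊓ ψ.1.ker) _ (φ.2.inter ψ.2)
        intro x hx
        show φ.1 x = ψ.1 x
        rw [MonoidHom.mem_ker.1 hx.1, MonoidHom.mem_ker.1 hx.2]
      have h3 := (φ.1.eqLocus ψ.1).isClosed_of_isOpen h2
      apply Subtype.ext
      ext1 x
      exact closure_minimal h1 h3 (hgen x)
    have hk : ∀ k : ℕ, {φ : {φ : L →* Equiv.Perm (Fin m) // IsOpen (φ.ker : Set L)} |
        ∀ n, k ≤ n → φ.1 (u n) = 1}.Finite := by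
      intro k
      apply Set.Finite.of_injOn (f := fun φ => fun i : Fin k => φ.1 (u i))
        (Set.mapsTo_univ _ _) _ Set.finite_univ
      intro φ hφ ψ hψ h
      apply hinj
      intro n
      by_cases hn : n < k
      · exact congrFun h ⟨n, hn⟩
      · rw [hφ n (by omega), hψ n (by omega)]
    rw [← Set.countable_univ_iff]
    refine (Set.countable_iUnion fun k => (hk k).countable).mono fun φ _ => ?_
    obtain ⟨k, hk2⟩ := eventually_atTop.1 (hu.eventually (φ.2.mem_nhds φ.1.ker.one_mem))
    exact Set.mem_iUnion.2 ⟨k, hk2⟩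
  have hcg : (𝓝 (1 : L)).IsCountablyGenerated := by
    have e : 𝓝 (1 : L) =
        ⨅ p : (Σ m : ℕ, {φ : L →* Equiv.Perm (Fin m) // IsOpen (φ.ker : Set L)}),
          𝓟 (p.2.1.ker : Set L) := by
      apply le_antisymm
      · refine le_iInf fun p => ?_
        rw [le_principal_iff]
        exact p.2.2.mem_nhds p.2.1.ker.one_mem
      · intro U hU
        obtain ⟨U', h1, h2, h3⟩ := mem_nhds_iff.1 hU
        obtain ⟨P, hP⟩ := ProfiniteGrp.exist_openNormalSubgroup_sub_open_nhds_of_one h2 h3
        have hf : Finite (L ⧸ P.toSubgroup) := inferInstanceAs (Finite (L ⧸ P.toOpenSubgroup.toSubgroup))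
        let φ : L →* Equiv.Perm (Fin (Nat.card (L ⧸ P.toSubgroup))) :=
          (Finite.equivFin (L ⧸ P.toSubgroup)).permCongrHom.toMonoidHom.comp
            (MulAction.toPermHom L (L ⧸ P.toSubgroup))
        have hφ : φ.ker = P.toSubgroup := by
          refine Eq.trans ?_ P.toSubgroup.normalCore_eq_self
          rw [Subgroup.normalCore_eq_ker]
          ext x
          simp only [φ, MonoidHom.mem_ker, MonoidHom.comp_apply, MulEquiv.coe_toMonoidHom,
            EmbeddingLike.map_eq_one_iff]
        refine mem_iInf_of_mem ⟨_, φ, by rw [hφ]; exact P.isOpen⟩ ?_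
        show (φ.ker : Set L) ⊆ U
        rw [hφ]
        exact hP.trans h1
    rw [e]
    infer_instance
  let uL : UniformSpace L := IsTopologicalGroup.rightUniformSpace L
  have : IsCountablyGenerated (uniformity L) := comap.isCountablyGenerated _ _
  exact UniformSpace.metrizableSpace

variable {G K : Type u} [Group G] [TopologicalSpace G] [IsTopologicalGroup G]
  [Group K] [TopologicalSpace K] [IsTopologicalGroup K] [CompactSpace K] [T2Space K]

omit [IsTopologicalGroup G] in
theorem null_of_propZm (hZ : HasPropertyZm G) (ι : G →* K)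
    (hι : IsEmbedding ι) (D : Subgroup K) (hc : IsClosed (D : Set K))
    (htd : IsTotallyDisconnected (D : Set K)) (u : ℕ → K) (hu : ∀ n, u n ∈ D ⊓ ι.range)
    (hu1 : ∀ n, u n ≠ 1) : ¬ Tendsto u atTop (𝓝 1) := by
  intro hlim
  let L : Subgroup K := (Subgroup.closure (Set.range u)).topologicalClosure
  have hLc : IsClosed (L : Set K) := Subgroup.isClosed_topologicalClosure _
  have hLD : L ≤ D := by
    apply Subgroup.topologicalClosure_minimal _ _ hc
    rw [Subgroup.closure_le]
    rintro _ ⟨n, rfl⟩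
    exact (hu n).1
  have huL : ∀ n, u n ∈ L := fun n =>
    Subgroup.le_topologicalClosure _ (Subgroup.subset_closure ⟨n, rfl⟩)
  have : CompactSpace L := isCompact_iff_compactSpace.1 hLc.isCompact
  have : TotallyDisconnectedSpace L := totallyDisconnectedSpace_subtype_iff.2
    (fun S hS => htd S (hS.trans hLD))
  have hmet : TopologicalSpace.MetrizableSpace L := by
    apply metrizable_of_null (fun n => (⟨u n, huL n⟩ : L))
    · rw [tendsto_subtype_rng]
      exact hlim
    · intro x
      rw [IsInducing.subtypeVal.closure_eq_preimage_closure_image]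
      have e : Subtype.val '' (Subgroup.closure (Set.range fun n => (⟨u n, huL n⟩ : L)) : Set L) =
          (Subgroup.closure (Set.range u) : Set K) := by
        have h1 := MonoidHom.map_closure L.subtype (Set.range fun n => (⟨u n, huL n⟩ : L))
        rw [← Set.range_comp] at h1
        exact congrArg SetLike.coe h1
      exact (congrArg closure e).ge x.2
  have hcl : IsClosed ((L.comap ι : Subgroup G) : Set G) := hLc.preimage hι.continuous
  let j : L.comap ι → L := fun x => ⟨ι x, x.2⟩
  have hj : IsEmbedding j := by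
    apply IsEmbedding.of_comp (g := (Subtype.val : L → K)) _ continuous_subtype_val
    · exact hι.comp IsEmbedding.subtypeVal
    · exact (hι.continuous.comp continuous_subtype_val).subtype_mk _
  have hb := (isTopologicalBasis_isClopen (X := L)).isInducing hj.isInducing
  have hdisc : DiscreteTopology (L.comap ι) := by
    refine hZ _ hcl ⟨_, hb, ?_⟩ hj.metrizableSpace
    rintro _ ⟨s, hs, rfl⟩
    exact IsClopen.preimage hs hj.continuous
  choose g hg using fun n => (hu n).2
  have hgL : ∀ n, g n ∈ L.comap ι := fun n => by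
    show ι (g n) ∈ L
    rw [hg]
    exact huL n
  have h1 : Tendsto (fun n => (⟨g n, hgL n⟩ : L.comap ι)) atTop (𝓝 1) := by
    rw [tendsto_subtype_rng, hι.isInducing.tendsto_nhds_iff]
    have e : ι ∘ (fun n => ((⟨g n, hgL n⟩ : L.comap ι) : G)) = u := funext hg
    rw [e]
    simpa using hlim
  rw [nhds_discrete, tendsto_pure] at h1
  obtain ⟨n, hn⟩ := h1.exists
  apply hu1 n
  have h2 : g n = 1 := congrArg Subtype.val hn
  rw [← hg, h2, map_one]

omit [IsTopologicalGroup G] [IsTopologicalGroup K] [CompactSpace K] [T2Space K] in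
theorem onto_of_pc (hpc : IsPseudocompact G) (ι : G →* K) (hι : Continuous ι) (hd : DenseRange ι)
    (N : Subgroup K) (hN : RepKer N) (k : K) : ∃ γ ∈ ι.range, γ⁻¹ * k ∈ N := by
  obtain ⟨κ, _, _, ρ, hρ, rfl⟩ := hN
  let F : K → (κ → κ → ℂ) := fun k i j => (ρ k : Matrix κ κ ℂ) i j
  have hF0 : Continuous (fun k => (ρ k : Matrix κ κ ℂ)) := continuous_subtype_val.comp hρ
  have hF : Continuous F := hF0
  have h1 := closed_range_of_pc hpc (fun g => F (ι g)) (hF.comp hι)
  have h2 : Set.range ι ⊆ F ⁻¹' (Set.range fun g => F (ι g)) := by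
    rintro _ ⟨g, rfl⟩
    exact ⟨g, rfl⟩
  obtain ⟨g, hg⟩ := closure_minimal h2 (h1.preimage hF) (hd k)
  refine ⟨ι g, ⟨g, rfl⟩, ?_⟩
  have h3 : ρ (ι g) = ρ k := Subtype.ext hg
  rw [MonoidHom.mem_ker, map_mul, map_inv, h3, inv_mul_cancel]

theorem main_pc (G : Type u) [Group G] [TopologicalSpace G] [IsTopologicalGroup G] [T2Space G]
    (hpc : IsPseudocompact G) (hmin : IsMinimalGroup G) (hZ : HasPropertyZm G) :
    CompactSpace G ∧ HasPropertyZ G ∧
      ∃ (n : ℕ) (_ : ChartedSpace (EuclideanSpace ℝ (Fin n)) G), LieGroup (𝓡 n) ω G := by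
  obtain ⟨K, _, _, _, _, _, ι, hι, hd⟩ := exists_compactification_pc G hpc
  have hyp : Hyp2 ι.range :=
    { ess := fun N hn hc hN => essential_of_minimal hmin ι hι hd N hn hc hN
      null := fun D hc htd => null_of_propZm hZ ι hι D hc htd
      onto := fun N hN => onto_of_pc hpc ι hι.continuous hd N hN }
  obtain ⟨N, hN, hN1⟩ := small_top2 hyp
  rw [top_inf_eq] at hN1
  have hsurj : Function.Surjective ι := by
    intro k
    obtain ⟨_, ⟨g, rfl⟩, h2⟩ := hyp.onto N hN k
    rw [hN1] at h2
    exact ⟨g, inv_mul_eq_one.1 h2⟩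
  have hce : IsClosedEmbedding ι := ⟨hι, by rw [hsurj.range_eq]; exact isClosed_univ⟩
  have hG : CompactSpace G := hce.compactSpace
  obtain ⟨κ, _, _, ρ, hρ, rfl⟩ := hN
  have hinj : Function.Injective (ρ.comp ι) :=
    ((MonoidHom.ker_eq_bot_iff ρ).1 hN1).comp hι.injective
  have hemb := (hρ.comp hι.continuous).isClosedEmbedding hinj
  refine ⟨hG, fun H hH h0 => hZ H hH h0 ?_, lie_of_unitary (ρ.comp ι) hemb⟩
  have : TopologicalSpace.MetrizableSpace (Matrix κ κ ℂ) :=
    inferInstanceAs (TopologicalSpace.MetrizableSpace (κ → κ → ℂ))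
  exact (IsEmbedding.subtypeVal.comp (hemb.isEmbedding.comp IsEmbedding.subtypeVal)).metrizableSpace

omit [IsTopologicalGroup G] in
theorem propZm_of_propZ (h : HasPropertyZ G) : HasPropertyZm G := fun H h1 h2 _ => h H h1 h2

theorem minimal_of_totally [T2Space G] (h : IsTotallyMinimalGroup G) : IsMinimalGroup G := by
  intro H _ _ _ _ f hf
  have hb : IsClosed ((⊥ : Subgroup G) : Set G) := by
    rw [Subgroup.coe_bot]
    exact isClosed_singleton
  have h1 := h ⊥ hb H ((QuotientGroup.quotientBot (G := G)).trans f) (by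
    rw [(QuotientGroup.isQuotientMap_mk (⊥ : Subgroup G)).continuous_iff]
    exact hf)
  have h2 : IsHomeomorph (QuotientGroup.mk : G → G ⧸ (⊥ : Subgroup G)) :=
    ⟨QuotientGroup.continuous_mk, QuotientGroup.isOpenMap_coe,
      (QuotientGroup.quotientBot (G := G)).symm.bijective⟩
  exact h1.comp h2

end Pool.Agent.H567Z
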