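import Pool.Agent.Helper292.ForceCH

/-! Definitions for the question on pseudoradial minimal abelian groups. -/

set_option autoImplicit false

namespace Pool.Agent.H567Z.Ps

open Pool.Agent.Helper292.ForceCH

/-- every non-closed set contains a well-ordered sequence converging to a point outside it -/
def Pseudoradial (X : Type) [TopologicalSpace X] : Prop :=
  ∀ A : Set X, ¬ IsClosed A → ∃ (ι : Type) (_ : LinearOrder ι), WellFoundedLT ι ∧ Nonempty ι ∧
    ∃ (x : ι → X) (p : X), (∀ i, x i ∈ A) ∧ p ∉ A ∧ Filter.Tendsto x Filter.atTop (nhds p)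

/-- every pseudoradial minimal Hausdorff abelian group is metrizable -/
def Q1 : Prop :=
  ∀ (G : Type) [CommGroup G] [τ : TopologicalSpace G] [IsTopologicalGroup G] [T2Space G],
    (∀ t : TopologicalSpace G, τ ≤ t → @IsTopologicalGroup G t _ → @T2Space G t → t = τ) →
    Pseudoradial G → TopologicalSpace.MetrizableSpace G

/-- the splitting number is `ω₁`: some family of subsets of `ℕ` indexed by `ω₁` is splitting -/
def Split : Prop :=
  ∃ S : Om → Set ℕ, ∀ N : Set ℕ, N.Infinite → ∃ a, (N ∩ S a).Infinite ∧ (N \ S a).Infinite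

/-- `ω₁ < 𝔭` -/
def PAbove : Prop :=
  ∀ A : Om → Set ℕ, (∀ (H : Finset Om) (m : ℕ), ∃ n, m ≤ n ∧ ∀ e ∈ H, n ∈ A e) →
    ∃ G : Set ℕ, (∀ m, ∃ n, m ≤ n ∧ n ∈ G) ∧ ∀ e, ∃ m, ∀ n, m ≤ n ∧ n ∈ G → n ∈ A e

/-- the sentence `ω₁ < 𝔭` of the forcing language -/
def PAboveHolds (P : Type) [Preorder P] : Set P :=
  fall fun A : Om → ℕ → Set P => fimp
    (fall fun H : Finset Om => fall fun m : ℕ => fex fun n : ℕ =>
      fand (fground (m ≤ n)) (fall fun e => fall fun _ : e ∈ H => meets (A e n)))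
    (fex fun G : ℕ → Set P => fand
      (fall fun m : ℕ => fex fun n : ℕ => fand (fground (m ≤ n)) (meets (G n)))
      (fall fun e => fex fun m : ℕ => fall fun n : ℕ =>
        fimp (fand (fground (m ≤ n)) (meets (G n))) (meets (A e n))))

end Pool.Agent.H567Z.Ps
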