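import Mathlib
import Pool.Agent.H567Z.PsDefs
import Pool.Agent.H567Z.TightMain
import Pool.Agent.H453Z.Rs.Force

/-! Pseudoradial minimal abelian groups are all metrizable iff the splitting number is `ω₁`. -/

set_option autoImplicit false

namespace Pool.Agent.H567Z.Ps

open Filter Topology Cardinal Alg Pool.Agent.H567Z.Dual Pool.Agent.Helper292.ForceCH

instance : Uncountable Om := by
  rw [← aleph0_lt_mk_iff, mk_ord_toType]
  exact aleph0_lt_aleph_one

theorem fam (hS : Split) {I : Type} (hI : ℵ₀ < #I) : ∃ S : Om → Set I, (∀ ξ, (S ξ).Nonempty) ∧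
    ∀ ξ : ℕ → Om, Function.Injective ξ →
      ∃ β, {n | β ∈ S (ξ n)}.Infinite ∧ {n | β ∉ S (ξ n)}.Infinite := by
  obtain ⟨s, hs⟩ := hS
  obtain ⟨j⟩ : Nonempty (Om × Om ↪ I) := by
    rw [← Cardinal.le_def, mk_prod, lift_id, mk_ord_toType, mul_eq_self (aleph0_le_aleph 1),
      ← succ_aleph0]
    exact Order.succ_le_of_lt hI
  have h1 : ∀ δ : Om, ∃ e : Om → ℕ, Set.InjOn e (Set.Iio δ) := fun δ =>
    Set.countable_iff_exists_injOn.1 (Set.countable_coe_iff.1 (countable_Iio δ))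
  choose e he using h1
  have h2 : ∀ ξ δ a, j (δ, a) ∈ {β | ∀ δ a, j (δ, a) = β → ξ < δ → e δ ξ ∈ s a} ↔
      (ξ < δ → e δ ξ ∈ s a) := fun ξ δ a => ⟨fun h => h δ a rfl, fun h δ' a' h' => by
    obtain ⟨rfl, rfl⟩ := Prod.mk.inj (j.injective h')
    exact h⟩
  refine ⟨fun ξ => {β | ∀ δ a, j (δ, a) = β → ξ < δ → e δ ξ ∈ s a},
    fun ξ => ⟨j (ξ, ξ), (h2 ξ ξ ξ).2 fun h => absurd h (lt_irrefl _)⟩, fun ξ hξ => ?_⟩
  obtain ⟨δ, hδ⟩ := exists_bound ξ
  obtain ⟨a, h3, h4⟩ := hs (Set.range fun n => e δ (ξ n)) (Set.infinite_range_of_injective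
    fun n m h => hξ (he δ (hδ n) (hδ m) h))
  refine ⟨j (δ, a), Set.Infinite.of_image (fun n => e δ (ξ n)) (h3.mono ?_),
    Set.Infinite.of_image (fun n => e δ (ξ n)) (h4.mono ?_)⟩
  · rintro _ ⟨⟨n, rfl⟩, h⟩
    exact ⟨n, (h2 _ _ _).2 fun _ => h, rfl⟩
  · rintro _ ⟨⟨n, rfl⟩, h⟩
    exact ⟨n, fun h' => h ((h2 _ _ _).1 h' (hδ n)), rfl⟩

theorem chars_countable {K : Type} [CommGroup K] [TopologicalSpace K] [IsTopologicalGroup K]
    [CompactSpace K] [T2Space K] (hS : Split) (Γ : Subgroup K)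
    (hess : ∀ L : Subgroup K, IsClosed (L : Set K) → L ⊓ Γ = ⊥ → L = ⊥)
    (hp : ∀ A : Set K, A ⊆ Γ → ∀ z ∈ Γ, z ∈ closure A → z ∉ A →
      ∃ (ι : Type) (_ : LinearOrder ι), Nonempty ι ∧ ∃ (x : ι → K) (p : K), (∀ i, x i ∈ A) ∧
        p ∈ Γ ∧ p ∉ A ∧ Tendsto x atTop (𝓝 p)) : #(chars K) ≤ ℵ₀ := by
  classical
  by_contra hcon
  obtain ⟨C, I, q, hI, ⟨⟨c₀, hc₀, hc₁⟩, hC⟩, hq1, hq2⟩ :=
    exists_quot (X := Additive (chars K)) le_rfl (not_le.1 hcon)
  choose! ψ hψ using hq2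
  have hgen : ∀ x : K, x ≠ 1 → ∃ y ∈ Γ, y ≠ 1 ∧ y ∈ (Subgroup.zpowers x).topologicalClosure := by
    intro x hx
    by_contra h
    push Not at h
    have h1 := hess (Subgroup.zpowers x).topologicalClosure
      (Subgroup.isClosed_topologicalClosure _) (by
        rw [eq_bot_iff]
        rintro y ⟨h2, h3⟩
        by_contra h4
        exact h y h3 h4 h2)
    apply hx
    rw [← Subgroup.mem_bot, ← h1]
    exact Subgroup.le_topologicalClosure _ (Subgroup.mem_zpowers x)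
  have hker : ∀ {x y : K}, y ∈ (Subgroup.zpowers x).topologicalClosure →
      ∀ χ, evA x χ = 0 → evA y χ = 0 := fun h χ hχ =>
    Subgroup.topologicalClosure_minimal _ (t := χ.toMul.1.ker) (Subgroup.zpowers_le.2 hχ)
      (evA_closed χ) h
  have hne : ∀ {x : K} (χ), evA x χ ≠ 0 → x ≠ 1 := by
    rintro x χ h rfl
    exact h (map_one χ.toMul.1)
  have hone : ∀ {x : K}, (∀ χ, evA x χ = 0) → x = 1 := fun h =>
    eq_one_of_chars fun χ => h (Additive.ofMul χ)
  have hcont : ∀ χ : Additive (chars K), Continuous fun a : K => dist (evA a χ) 0 := fun χ =>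
    Continuous.dist (f := fun a : K => evA a χ) χ.toMul.2 continuous_const
  obtain ⟨S, hS1, hS2⟩ := fam hS hI
  let σ : Om → (I →₀ T) →+ T := fun ξ =>
    Finsupp.liftAddHom fun β => if β ∈ S ξ then AddMonoidHom.id T else 0
  have hσ : ∀ ξ β c, σ ξ (Finsupp.single β c) = if β ∈ S ξ then c else 0 := by
    intro ξ β c
    simp only [σ, Finsupp.liftAddHom_apply_single]
    split_ifs <;> rfl
  have hσC : ∀ ξ χ, σ ξ (q χ) ∈ C := by
    intro ξ χ
    rw [← Finsupp.sum_single (q χ), Finsupp.sum, map_sum]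
    refine sum_mem fun β _ => ?_
    rw [hσ]
    split_ifs
    · exact hq1 χ β
    · exact zero_mem _
  choose b hb using hS1
  have h1 : ∀ ξ, ∃ y ∈ Γ, y ≠ 1 ∧ ∀ χ, σ ξ (q χ) = 0 → evA y χ = 0 := by
    intro ξ
    obtain ⟨x, hx⟩ := evA_surj ((σ ξ).comp q)
    have hx' : ∀ χ, evA x χ = σ ξ (q χ) := hx
    obtain ⟨y, h2, h3, h4⟩ := hgen x (hne (ψ (b ξ) c₀) (by
      rwa [hx', hψ _ c₀ hc₀, hσ, if_pos (hb ξ)]))
    exact ⟨y, h2, h3, fun χ h => hker h4 χ ((hx' χ).trans h)⟩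
  choose y hy1 hy2 hy3 using h1
  have h2 : ∀ m : ℕ, ∃ c ∈ C, (∃ c ∈ C, m • c ≠ 0) → m • c ≠ 0 := by
    intro m
    by_cases h : ∃ c ∈ C, m • c ≠ 0
    · obtain ⟨c, h1, h2⟩ := h
      exact ⟨c, h1, fun _ => h2⟩
    · exact ⟨0, zero_mem _, fun h' => absurd h' h⟩
  choose cc hcc1 hcc2 using h2
  have h3 : ∀ ξ, ∃ mk : ℕ × ℕ, 1 / ((mk.2 : ℝ) + 1) < dist (evA (y ξ) (ψ (b ξ) (cc mk.1))) 0 := by
    intro ξ
    obtain ⟨m, h3, h4⟩ := hC ((evA (y ξ)).ker.map ((σ ξ).comp q)) (by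
      intro h
      apply hy2 ξ
      refine hone fun χ => ?_
      obtain ⟨χ', h5, h6⟩ := h (hσC ξ χ)
      have h7 : σ ξ (q χ') = σ ξ (q χ) := h6
      have h8 := hy3 ξ (χ - χ') (by rw [map_sub, map_sub, h7, sub_self])
      rwa [map_sub, AddMonoidHom.mem_ker.1 h5, sub_zero] at h8)
    obtain ⟨k, hk⟩ := exists_nat_one_div_lt (dist_pos.2 fun h : evA (y ξ) (ψ (b ξ) (cc m)) = 0 =>
      hcc2 m h4 (h3 _ (hcc1 m) ⟨_, h, by
        show σ ξ (q _) = _
        rw [hψ _ _ (hcc1 m), hσ, if_pos (hb ξ)]⟩))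
    exact ⟨(m, k), hk⟩
  choose mk hmk using h3
  obtain ⟨⟨m, k⟩, hm⟩ : ∃ p, (mk ⁻¹' {p}).Infinite := by
    by_contra h
    push Not at h
    refine Set.not_countable_univ ((Set.countable_iUnion fun p => (h p).countable).mono ?_)
    exact fun ξ _ => Set.mem_iUnion.2 ⟨mk ξ, rfl⟩
  let ξ : ℕ → Om := fun n => (hm.natEmbedding _ n).1
  have hξ : Function.Injective ξ := Subtype.val_injective.comp (hm.natEmbedding _).injective
  have hξ2 : ∀ n, mk (ξ n) = (m, k) := fun n => (hm.natEmbedding _ n).2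
  let An : T → ℝ → ℕ → Set K := fun c ε n => {a | (∀ β ∉ S (ξ n), dist (evA a (ψ β c)) 0 = 0) ∧
    ∀ β ∈ S (ξ n), ε ≤ dist (evA a (ψ β c)) 0}
  have hAn : ∀ c ε n, IsClosed (An c ε n) := fun c ε n => by
    simp only [An, Set.ofPred_and, Set.ofPred_forall]
    exact (isClosed_iInter fun β => isClosed_iInter fun _ =>
      isClosed_eq (hcont _) continuous_const).inter
      (isClosed_iInter fun β => isClosed_iInter fun _ => isClosed_le continuous_const (hcont _))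
  have hmem : ∀ c ∈ C, ∀ (ε : ℝ) n a β, (∀ χ, σ (ξ n) (q χ) = 0 → evA a χ = 0) → β ∈ S (ξ n) →
      ε ≤ dist (evA a (ψ β c)) 0 → a ∈ An c ε n := by
    intro c hc ε n a β h1 h2 h3
    refine ⟨fun β' h => dist_eq_zero.2 (h1 _ (by rw [hψ _ _ hc, hσ, if_neg h])), fun β' h => ?_⟩
    have h4 := h1 (ψ β' c - ψ β c) (by
      rw [map_sub, map_sub, hψ _ _ hc, hψ _ _ hc, hσ, hσ, if_pos h, if_pos h2, sub_self])
    rw [map_sub, sub_eq_zero] at h4
    rwa [h4]
  have noconv : ∀ (c : T) (ε : ℝ), 0 < ε → ∀ (u : ℕ → ℕ) (a : ℕ → K) (p : K),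
      Tendsto u atTop atTop → (∀ n, a n ∈ An c ε (u n)) → ¬ Tendsto a atTop (𝓝 p) := by
    intro c ε hε u a p hu ha hp
    obtain ⟨φ, h1, h2⟩ := strictMono_subseq_of_tendsto_atTop hu
    obtain ⟨β, h3, h4⟩ := hS2 (ξ ∘ u ∘ φ) (hξ.comp h2.injective)
    have h5 := ((hcont (ψ β c)).tendsto p).comp (hp.comp h1.tendsto_atTop)
    have h6 := isClosed_Ici.mem_of_frequently_of_tendsto
      ((Nat.frequently_atTop_iff_infinite.2 h3).mono fun n hn => (ha (φ n)).2 β hn) h5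
    have h7 := isClosed_singleton.mem_of_frequently_of_tendsto
      ((Nat.frequently_atTop_iff_infinite.2 h4).mono fun n hn => (ha (φ n)).1 β hn) h5
    exact (hε.trans_le h6).ne' h7
  obtain ⟨w, -, hw⟩ := isCompact_univ.ultrafilter_le_nhds ((hyperfilter ℕ).map (y ∘ ξ)) (by simp)
  have hw' : Tendsto (y ∘ ξ) (hyperfilter ℕ) (𝓝 w) := hw
  obtain ⟨c, ε, hε, z, hz, hz2⟩ : ∃ (c : T) (ε : ℝ), 0 < ε ∧ ∃ z ∈ Γ, ∀ W ∈ 𝓝 z,
      ∀ᶠ n in hyperfilter ℕ, ∃ a ∈ W, a ∈ Γ ∧ a ∈ An c ε n := by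
    by_cases h : w = 1
    · refine ⟨cc m, 1 / ((k : ℝ) + 1), by positivity, 1, one_mem _, fun W hW => ?_⟩
      rw [h] at hw'
      refine (hw'.eventually hW).mono fun n hn => ⟨_, hn, hy1 _, hmem _ (hcc1 m) _ _ _ _
        (hy3 _) (hb _) ?_⟩
      have h1 := hmk (ξ n)
      rw [hξ2] at h1
      exact h1.le
    · obtain ⟨z, h1, h2, h3⟩ := hgen w h
      obtain ⟨β, c, hc, h4⟩ : ∃ β, ∃ c ∈ C, evA z (ψ β c) ≠ 0 := by
        by_contra h4
        push Not at h4
        refine h2 (hone fun χ => ?_)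
        have h5 : q (χ - ∑ β ∈ (q χ).support, ψ β (q χ β)) = 0 := by
          rw [map_sub, map_sum, Finset.sum_congr rfl fun β _ => hψ β _ (hq1 χ β), sub_eq_zero]
          exact (Finsupp.sum_single (q χ)).symm
        have h6 := hker h3 _ ((evA_closed _).mem_of_tendsto hw' (Eventually.of_forall fun n =>
          hy3 (ξ n) _ (by rw [h5, map_zero])))
        rwa [map_sub, map_sum, Finset.sum_eq_zero fun β _ => h4 β _ (hq1 χ β), sub_zero] at h6
      have h5 := dist_pos.2 h4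
      refine ⟨c, dist (evA z (ψ β c)) 0 / 2, half_pos h5, z, h1, fun W hW => ?_⟩
      have h6 := isOpen_interior (s := W) |>.inter
        (isOpen_lt (f := fun _ => dist (evA z (ψ β c)) 0 / 2) continuous_const (hcont (ψ β c)))
      obtain ⟨_, h7, i, rfl⟩ := mem_closure_iff.1 h3 _ h6
        ⟨mem_interior_iff_mem_nhds.2 hW, half_lt_self h5⟩
      refine ((hw'.zpow i).eventually (h6.mem_nhds h7)).mono fun n hn => ?_
      have h8 : ∀ χ, σ (ξ n) (q χ) = 0 → evA (y (ξ n) ^ i) χ = 0 := fun χ hχ =>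
        zpow_mem (S := Subgroup K) (K := χ.toMul.1.ker) (hy3 _ χ hχ) i
      refine ⟨_, interior_subset hn.1, zpow_mem (hy1 _) i, hmem c hc _ _ _ β h8 ?_ hn.2.le⟩
      by_contra h9
      have h10 : dist (evA z (ψ β c)) 0 / 2 < dist (evA (y (ξ n) ^ i) (ψ β c)) 0 := hn.2
      rw [h8 _ (by rw [hψ _ _ hc, hσ, if_neg h9]), dist_self] at h10
      linarith
  have hfin : {n | z ∈ An c ε n}.Finite := by
    by_contra h
    exact noconv c ε hε (fun n => (Set.Infinite.natEmbedding _ h n).1) (fun _ => z) z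
      (Function.Injective.nat_tendsto_atTop (Subtype.val_injective.comp
        (Set.Infinite.natEmbedding _ h).injective))
      (fun n => (Set.Infinite.natEmbedding _ h n).2) tendsto_const_nhds
  obtain ⟨ι, _, _, x, p, a1, a2, a3, a4⟩ := hp {a | a ∈ Γ ∧ ∃ n, z ∉ An c ε n ∧ a ∈ An c ε n}
    (fun a ha => ha.1) z hz (mem_closure_iff_nhds.2 fun W hW => by
      obtain ⟨n, ⟨a, b1, b2, b3⟩, b4⟩ := ((hz2 W hW).and
        (hyperfilter_le_cofinite hfin.compl_mem_cofinite)).exists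
      exact ⟨a, b1, b2, n, b4, b3⟩) (fun ⟨_, n, b1, b2⟩ => b1 b2)
  choose u hu1 hu2 using fun i => (a1 i).2
  have h4 : ∀ k : ℕ, ∃ j, ∀ i, j ≤ i → k ≤ u i := by
    intro k
    have h5 : ∀ n ∈ Set.Iio k, ∀ᶠ i in atTop, u i ≠ n := by
      intro n _
      by_contra h
      rw [not_eventually] at h
      obtain ⟨i, hi⟩ := h.exists
      refine a3 ⟨a2, n, not_not.1 hi ▸ hu1 i, (hAn c ε n).mem_of_frequently_of_tendsto
        (h.mono fun i hi => not_not.1 hi ▸ hu2 i) a4⟩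
    exact eventually_atTop.1 (((eventually_all_finite (Set.finite_Iio k)).2 h5).mono
      fun i hi => not_lt.1 fun h => hi _ h rfl)
  choose j hj using h4
  refine noconv c ε hε (u ∘ j) (x ∘ j) p (tendsto_atTop_mono (fun k => hj k _ le_rfl) tendsto_id)
    (fun n => hu2 _) (a4.comp (tendsto_atTop.2 fun i => ?_))
  filter_upwards [eventually_gt_atTop (u i)] with k hk
  exact (not_le.1 fun h => (hj k i h).not_gt hk).le

theorem psi_countable {A : Type} [AddCommGroup A] [TopologicalSpace A] [IsTopologicalAddGroup A]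
    [T2Space A] (hS : Split) (hmin : PS.MinA A) (hp : Pseudoradial A) :
    ∃ 𝓦 : Set (Set A), (∀ W ∈ 𝓦, W ∈ 𝓝 (0 : A)) ∧ #𝓦 ≤ ℵ₀ ∧ ∀ g : A, g ≠ 0 → ∃ W ∈ 𝓦, g ∉ W := by
  obtain ⟨K, i1, i2, i3, i4, i5, ι, hι, hd⟩ :=
    exists_compactification_pre (PS.prodanov_stoyanov hmin)
  let _ : AddCommGroup K :=
    { i1 with
      add_comm := fun a b => hd.induction_on₂ (p := fun a b => a + b = b + a)
        (isClosed_eq (by fun_prop) (by fun_prop))
        (fun a b => by rw [← map_add, ← map_add, add_comm]) a b }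
  have : T2Space (Multiplicative K) := i5
  have hc : #(chars (Multiplicative K)) ≤ ℵ₀ := by
    refine chars_countable hS (AddSubgroup.toSubgroup ι.range) (fun L hL h => ?_) ?_
    · rw [eq_bot_iff]
      refine TM.essential_add hmin ι hι hd (Subgroup.toAddSubgroup' L) hL fun a ha => ?_
      have h1 : Multiplicative.ofAdd (ι a) ∈ L ⊓ AddSubgroup.toSubgroup ι.range := ⟨ha, a, rfl⟩
      rw [h] at h1
      apply hι.injective
      rw [map_zero]
      exact h1
    · rintro S hS _ ⟨y, rfl⟩ hy hy'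
      obtain ⟨S', -, rfl⟩ : ∃ S' ⊆ Set.univ, ι '' S' = S :=
        Set.subset_image_iff.1 (by rwa [Set.image_univ])
      obtain ⟨κ, j1, -, j2, x, p, h1, h2, h3⟩ := hp S' fun h => hy' ⟨y, by
        rw [← h.closure_eq, hι.closure_eq_preimage_closure_image]
        exact hy, rfl⟩
      exact ⟨κ, j1, j2, ι ∘ x, ι p, fun i => ⟨_, h1 i, rfl⟩, ⟨p, rfl⟩,
        fun ⟨p', h4, h5⟩ => h2 (hι.injective h5 ▸ h4), (hι.continuous.tendsto p).comp h3⟩
  let W : ℕ → chars (Multiplicative K) → Set A := fun n χ =>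
    {a | dist (χ.1 (Multiplicative.ofAdd (ι a))) 1 < 1 / ((n : ℝ) + 1)}
  refine ⟨⋃ n, Set.range (W n), ?_, card_iUnion_nat le_rfl _ fun n => mk_range_le.trans hc, ?_⟩
  · rintro _ ⟨_, ⟨n, rfl⟩, χ, rfl⟩
    have h1 : Continuous fun a => χ.1 (Multiplicative.ofAdd (ι a)) :=
      Continuous.comp (g := χ.1) χ.2 hι.continuous
    refine (isOpen_lt (h1.dist continuous_const) continuous_const).mem_nhds ?_
    show dist (χ.1 (Multiplicative.ofAdd (ι 0))) 1 < _
    rw [map_zero, ofAdd_zero, map_one, dist_self]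
    positivity
  · intro g hg
    obtain ⟨χ, h1, h2⟩ := exists_char_ne (x := Multiplicative.ofAdd (ι g)) (fun h =>
      hg (hι.injective (h.trans (map_zero ι).symm)))
    obtain ⟨n, hn⟩ := exists_nat_one_div_lt (dist_pos.2 h2)
    exact ⟨W n ⟨χ, h1⟩, Set.mem_iUnion.2 ⟨n, _, rfl⟩, fun h => lt_asymm hn h⟩

theorem q1_of_split (hS : Split) : Q1 := by
  intro G _ τ _ _ hmin hp
  have : T2Space (Additive G) := ‹T2Space G›
  have h1 : PS.MinA (Additive G) := fun σ h1 h2 h3 => hmin σ h3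
    (@IsTopologicalGroup.mk G σ _ (@ContinuousMul.mk G σ _ h1.continuous_add)
      (@ContinuousInv.mk G σ _ h1.continuous_neg)) h2
  obtain ⟨𝓦, w1, w2, w3⟩ := psi_countable (A := Additive G) hS h1 hp
  obtain ⟨𝓑, h2, h3⟩ := TM.basis_of_psi (A := Additive G) (U := Set.univ)
    ⟨univ_mem, fun σ a b c _ => h1 σ a b c⟩ le_rfl 𝓦 w1 w2 w3
  have : (𝓝 (1 : G)).IsCountablyGenerated :=
    HasCountableBasis.isCountablyGenerated ⟨h2, le_aleph0_iff_set_countable.1 h3⟩
  let uG : UniformSpace G := IsTopologicalGroup.rightUniformSpace G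
  have : IsCountablyGenerated (uniformity G) := comap.isCountablyGenerated _ _
  exact UniformSpace.metrizableSpace

theorem seq_cube (hS : ¬ Split) (y : ℕ → Om → Multiplicative (ZMod 2)) :
    ∃ (φ : ℕ → ℕ) (p : Om → Multiplicative (ZMod 2)), StrictMono φ ∧
      Tendsto (y ∘ φ) atTop (𝓝 p) := by
  classical
  unfold Split at hS
  push Not at hS
  obtain ⟨N, hN, h⟩ := hS fun a => {n | y n a = 1}
  have h1 := Nat.nth_strictMono (p := (· ∈ N)) hN
  have h2 : ∀ {B : Set ℕ}, B.Finite → ∀ᶠ n in atTop, Nat.nth (· ∈ N) n ∉ B := fun hB => by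
    rw [← Nat.cofinite_eq_atTop]
    exact h1.injective.tendsto_cofinite.eventually hB.compl_mem_cofinite
  refine ⟨Nat.nth (· ∈ N), fun a => if (N ∩ {n | y n a = 1}).Infinite then 1 else
    Multiplicative.ofAdd 1, h1, tendsto_pi_nhds.2 fun a => tendsto_const_nhds.congr' ?_⟩
  split_ifs with h3
  · refine (h2 (h a h3)).mono fun n hn => ?_
    by_contra h4
    exact hn ⟨Nat.nth_mem_of_infinite hN n, fun h5 => h4 (Eq.symm h5)⟩
  · refine (h2 (Set.not_infinite.1 h3)).mono fun n hn => ?_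
    have h4 : ∀ t : Multiplicative (ZMod 2), t ≠ 1 → Multiplicative.ofAdd 1 = t := by decide
    exact h4 _ fun h5 => hn ⟨Nat.nth_mem_of_infinite hN n, h5⟩

theorem split_of_q1 (h : Q1) : Split := by
  classical
  by_contra hS
  have h1 := h (Om → Multiplicative (ZMod 2)) (fun t h1 _ h3 =>
    le_antisymm (continuous_id_iff_le.1 (@Continuous.continuous_symm_of_equiv_compact_to_t2 _ _
      Pi.topologicalSpace t _ h3 (Equiv.refl _) (continuous_id_iff_le.2 h1))) h1) (by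
    intro A hA
    by_cases h1 : ∃ (x : ℕ → Om → Multiplicative (ZMod 2)) (p : Om → Multiplicative (ZMod 2)),
        (∀ i, x i ∈ A) ∧ p ∉ A ∧ Tendsto x atTop (𝓝 p)
    · exact ⟨ℕ, inferInstance, inferInstance, inferInstance, h1⟩
    push Not at h1
    obtain ⟨p, h2, h3⟩ := Set.not_subset.1 fun h => hA (isClosed_of_closure_subset h)
    have h4 : ∀ δ : Om, ∃ x ∈ A, ∀ a < δ, x a = p a := by
      intro δ
      obtain ⟨e, he⟩ := Set.countable_iff_exists_subset_range.1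
        (Set.countable_coe_iff.1 (countable_Iio δ))
      have h5 : ∀ n : ℕ, ∃ x ∈ A, ∀ i ∈ Set.Iio n, x (e i) = p (e i) := fun n => by
        obtain ⟨x, h6, h7⟩ := mem_closure_iff_nhds.1 h2 _
          ((eventually_all_finite (Set.finite_Iio n)).2 fun i _ =>
            ((continuous_apply (e i)).tendsto p).eventually
              ((isOpen_discrete {p (e i)}).mem_nhds rfl))
        exact ⟨x, h7, h6⟩
      choose x hx1 hx2 using h5
      obtain ⟨φ, r, h6, h7⟩ := seq_cube hS x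
      refine ⟨r, by_contra fun h8 => h1 _ r (fun i => hx1 _) h8 h7, fun a ha => ?_⟩
      obtain ⟨i, rfl⟩ := he ha
      refine tendsto_nhds_unique (tendsto_pi_nhds.1 h7 (e i)) (tendsto_const_nhds.congr' ?_)
      filter_upwards [h6.tendsto_atTop.eventually (eventually_gt_atTop i)] with n hn
      exact (hx2 _ i hn).symm
    choose x hx1 hx2 using h4
    refine ⟨Om, inferInstance, inferInstance, inferInstance, x, p, hx1, h3,
      tendsto_pi_nhds.2 fun a => tendsto_const_nhds.congr' ?_⟩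
    filter_upwards [eventually_gt_atTop a] with δ hδ
    exact (hx2 δ a hδ).symm)
  obtain ⟨U, hU⟩ := (𝓝 (1 : Om → Multiplicative (ZMod 2))).exists_antitone_basis
  have h2 : ∀ a : Om, ∃ n, U n ⊆ {x | x a = 1} := fun a => hU.mem_iff.1
    (((continuous_apply a).tendsto 1).eventually ((isOpen_discrete {1}).mem_nhds rfl))
  choose f hf using h2
  have h3 : ∀ n, (f ⁻¹' {n}).Finite := by
    intro n
    have h4 := hU.mem n
    rw [nhds_pi, mem_pi] at h4
    obtain ⟨F, hF, t, ht, h5⟩ := h4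
    refine hF.subset fun a ha => by_contra fun h6 => ?_
    have h7 : (Pi.mulSingle a (Multiplicative.ofAdd 1) : Om → Multiplicative (ZMod 2)) a = 1 :=
      hf a (Set.mem_singleton_iff.1 ha ▸ h5 fun b hb => by
        rw [Pi.mulSingle_eq_of_ne (by rintro rfl; exact h6 hb)]
        exact mem_of_mem_nhds (ht b))
    rw [Pi.mulSingle_eq_same] at h7
    exact absurd h7 (by decide)
  refine Set.not_countable_univ ((Set.countable_iUnion fun n => (h3 n).countable).mono ?_)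
  exact fun a _ => Set.mem_iUnion.2 ⟨f a, rfl⟩

theorem split_of_ch (h : ∃ E : Om → Set ℕ, Function.Surjective E) : Split := by
  obtain ⟨E, hE⟩ := h
  refine ⟨E, fun N hN => ?_⟩
  have h1 := Nat.nth_injective (p := (· ∈ N)) hN
  obtain ⟨a, ha⟩ := hE (Set.range fun n => Nat.nth (· ∈ N) (2 * n))
  refine ⟨a, Set.infinite_of_injective_forall_mem (f := fun n => Nat.nth (· ∈ N) (2 * n))
    (fun n m h => by have := h1 h; omega) fun n => ⟨Nat.nth_mem_of_infinite hN _, ha ▸ ⟨n, rfl⟩⟩,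
    Set.infinite_of_injective_forall_mem (f := fun n => Nat.nth (· ∈ N) (2 * n + 1))
    (fun n m h => by have := h1 h; omega) fun n => ⟨Nat.nth_mem_of_infinite hN _, ?_⟩⟩
  rw [ha]
  rintro ⟨m, hm⟩
  have := h1 hm
  omega

theorem not_split (h : PAbove) : ¬ Split := by
  classical
  rintro ⟨S, hS⟩
  obtain ⟨G, h1, h2⟩ := h (fun a => if S a ∈ hyperfilter ℕ then S a else (S a)ᶜ) (fun H m => by
    have h1 : ∀ᶠ n in hyperfilter ℕ, ∀ a ∈ H, n ∈ if S a ∈ hyperfilter ℕ then S a else (S a)ᶜ := by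
      refine (eventually_all_finset H).2 fun a _ => ?_
      split_ifs with h
      · exact h
      · exact Ultrafilter.compl_mem_iff_notMem.2 h
    exact (((eventually_ge_atTop m).filter_mono Nat.hyperfilter_le_atTop).and h1).exists)
  obtain ⟨a, h3, h4⟩ := hS G (Set.infinite_of_forall_exists_gt fun m => by
    obtain ⟨n, h3, h4⟩ := h1 (m + 1)
    exact ⟨n, h4, h3⟩)
  obtain ⟨m, hm⟩ := h2 a
  split_ifs at hm
  · obtain ⟨n, h5, h6⟩ := h4.exists_gt m
    exact h5.2 (hm n ⟨h6.le, h5.1⟩)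
  · obtain ⟨n, h5, h6⟩ := h3.exists_gt m
    exact hm n ⟨h6.le, h5.1⟩ h5.2

theorem force_p : ∃ (P : Type) (_ : Preorder P), Nonempty P ∧ ∀ p : P,
    p ∈ OmegaOnePreserved P ∧ p ∈ PAboveHolds P := by
  classical
  obtain ⟨i⟩ : Nonempty (Om ↪ Helper835.PX.E) := by
    rw [← Cardinal.le_def, mk_ord_toType]
    have : #Helper835.PX.E = 𝔠 := by simp [Helper835.PX.E]
    rw [this]
    exact aleph_one_le_continuum
  have hπ := Function.invFun_surjective i.injective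
  refine ⟨Helper835.PX.Cnd, inferInstance, ⟨0⟩, fun p =>
    ⟨H453Z.Rs.Force.no_collapse Helper835.PX.ccc p, fun A => mem_fimp.2 fun q hq h => ?_⟩⟩
  obtain ⟨r, hr, h1⟩ := Helper161.Gam.mem_fimp.1
    (Helper835.PX.below_p p fun e => A (Function.invFun i e)) q hq (fun H m =>
      Helper161.Gam.mem_fex.2 fun s hs => by
        obtain ⟨t, ht, n, h1, h2⟩ := mem_fex.1 (h (H.image (Function.invFun i)) m) s hs
        exact ⟨t, ht, n, h1, fun e he => h2 _ (Finset.mem_image_of_mem _ he)⟩)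
  refine ⟨r, hr, mem_fex.2 fun s hs => ?_⟩
  obtain ⟨t, ht, G, h2, h3⟩ := Helper161.Gam.mem_fex.1 h1 s hs
  refine ⟨t, ht, G, h2, fun a => ?_⟩
  obtain ⟨e, rfl⟩ := hπ a
  exact h3 e

end Pool.Agent.H567Z.Ps
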